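import Pool.Agent.LibDV76.K0

/-!
The isotypic parts for the characters with more than `c + d` blocks.
-/

open scoped Classical
open Polynomial

namespace Pool.Agent.LibDV76

open Pool.Agent.LibBH2
open Pool.Agent.LibCHd (VR RF Red FunF)

variable {k : Type} [Field k] {s m c p d : ℕ} {D : Dat k s m c} {e : Fin m → ℕ} {b : Fin m → Fin p}
  {W : Type} [AddCommGroup W] [Module k W]

theorem mns_char [IsAlgClosed k] [CharZero k] (hD : D.Good) (hb : Bl D.n e b) (q : CH D d →+ W)
    (hp : c + d < p) (he : ∃ a, ¬ D.n ∣ e a) {M : Type} [Field M] [Algebra k M] (hM : FunF k d M)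
    {x : Fin s → M} (hx : On D x) : mns e q x = 0 := by
  obtain ⟨a₀, ha₀⟩ := he
  by_cases hne : ∀ a, ¬ D.n ∣ e a → ∃ l, D.γ l = a ∧ x l ≠ 0
  · rw [← TZ_zpt hD hb q hx hne]
    exact TZ_char hD hb q hp a₀ ha₀ hM _
  · push Not at hne
    obtain ⟨a, ha, h⟩ := hne
    exact mns_grp hD ha q h

end Pool.Agent.LibDV76
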