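import Pool.Agent.LibDV76.Defs2

/-!
[DV C1] Blocks. Strong induction on the set `U = {a | ¬ n ∣ e a}`: any `n` elements of `U` contain a nonempty subset with sum divisible by `n` (pigeonhole on the partial sums);
remove it; the total sum stays divisible by `n`. So `U` is a disjoint union of zero-sum sets, at least `|U| / n` of them; the other groups are blocks of one element. Number of blocks
`p ≥ (m - |U|) + |U| / n ≥ m / n > t`. (Suggestion: prove for a finite set `T` of groups with `n ∣ ∑_(a ∈ T) e a`: there are `p` and `b : Fin m → ℕ` with `b '' T = {0, ..., p-1}`,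
the conditions on `T` and `|T| ≤ n * p`; strong induction on `|T|`: if `T` has an element with `n ∣ e a` take it as a block; else if `n ≤ |T|` take a zero-sum subset with `≤ n` elements;
else if `T` is not empty take `T`.)
-/

open scoped Classical
open Polynomial

namespace Pool.Agent.LibDV76

open Pool.Agent.LibBH2
open Pool.Agent.LibCHd (VR RF Red FunF)

private theorem C1_zs (n m : ℕ) (hn : 0 < n) (e : Fin m → ℕ) (T : Finset (Fin m)) (hT : n ≤ T.card) :
    ∃ S ⊆ T, S.Nonempty ∧ S.card ≤ n ∧ n ∣ ∑ a ∈ S, e a := by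
  obtain ⟨T', hT'T, hc⟩ := Finset.exists_subset_card_eq hT
  let g : Fin n ↪o Fin m := T'.orderEmbOfFin hc
  have hg : ∀ i, g i ∈ T' := fun i => Finset.orderEmbOfFin_mem T' hc i
  let f : ℕ → ℕ := fun j => (∑ i ∈ Finset.univ.filter (fun i : Fin n => i.val < j), e (g i)) % n
  obtain ⟨j, hj, l, hl, hjl, hfe⟩ := Finset.exists_ne_map_eq_of_card_lt_of_maps_to
    (s := Finset.range (n + 1)) (t := Finset.range n) (f := f) (by simp)
    (fun j _ => by simpa [f] using Nat.mod_lt _ hn)
  have key : ∀ j l : ℕ, j < l → l ≤ n → f j = f l →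
      ∃ S ⊆ T, S.Nonempty ∧ S.card ≤ n ∧ n ∣ ∑ a ∈ S, e a := by
    intro j l hlt hln hfe
    refine ⟨(Finset.univ.filter fun i : Fin n => j ≤ i.val ∧ i.val < l).image g, ?_, ?_, ?_, ?_⟩
    · intro x hx
      obtain ⟨i, _, rfl⟩ := Finset.mem_image.1 hx
      exact hT'T (hg i)
    · exact ⟨g ⟨j, by omega⟩, Finset.mem_image_of_mem _ (by simp [hlt])⟩
    · exact Finset.card_image_le.trans ((Finset.card_filter_le _ _).trans (by simp))
    · rw [Finset.sum_image fun x _ y _ h => g.injective h]
      have hsp : ∑ i ∈ Finset.univ.filter (fun i : Fin n => i.val < l), e (g i) =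
          ∑ i ∈ Finset.univ.filter (fun i : Fin n => i.val < j), e (g i) +
            ∑ i ∈ Finset.univ.filter (fun i : Fin n => j ≤ i.val ∧ i.val < l), e (g i) := by
        rw [← Finset.sum_union]
        · congr 1
          ext i
          simp only [Finset.mem_filter, Finset.mem_univ, true_and, Finset.mem_union]
          omega
        · rw [Finset.disjoint_left]
          intro i hi hi'
          simp only [Finset.mem_filter, Finset.mem_univ, true_and] at hi hi'
          omega
      have h1 : ∑ i ∈ Finset.univ.filter (fun i : Fin n => i.val < j), e (g i) ≡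
          ∑ i ∈ Finset.univ.filter (fun i : Fin n => i.val < j), e (g i) +
            ∑ i ∈ Finset.univ.filter (fun i : Fin n => j ≤ i.val ∧ i.val < l), e (g i) [MOD n] := by
        rw [← hsp]
        exact hfe
      have h2 := (Nat.modEq_iff_dvd' (Nat.le_add_right _ _)).1 h1
      rwa [Nat.add_sub_cancel_left] at h2
  rw [Finset.mem_range] at hj hl
  rcases lt_or_gt_of_ne hjl with h | h
  · exact key j l h (by omega) hfe
  · exact key l j h (by omega) hfe.symm

private theorem C1_main (n m : ℕ) (hn : 0 < n) (e : Fin m → ℕ) :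
    ∀ (N : ℕ) (T : Finset (Fin m)), T.card = N → n ∣ ∑ a ∈ T, e a →
      ∃ (p : ℕ) (b : Fin m → ℕ), (∀ a ∈ T, b a < p) ∧ (∀ c < p, ∃ a ∈ T, b a = c) ∧
        (∀ c < p, n ∣ ∑ a ∈ T.filter (fun a => b a = c), e a) ∧
        (∀ a ∈ T, n ∣ e a → ∀ a' ∈ T, b a' = b a → a' = a) ∧ T.card ≤ n * p := by
  intro N
  induction N using Nat.strong_induction_on with
  | _ N ih =>
    intro T hN hs
    rcases T.eq_empty_or_nonempty with rfl | hne
    · exact ⟨0, fun _ => 0, by simp, by simp, by simp, by simp, by simp⟩
    obtain ⟨S, hST, hSne, hSc, hSs, hS1⟩ : ∃ S ⊆ T, S.Nonempty ∧ S.card ≤ n ∧ n ∣ ∑ a ∈ S, e a ∧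
        ∀ a ∈ S, n ∣ e a → ∀ a' ∈ S, a' = a := by
      by_cases h : ∃ a ∈ T, n ∣ e a
      · obtain ⟨a, haT, ha⟩ := h
        refine ⟨{a}, by simpa using haT, by simp, by rw [Finset.card_singleton]; exact hn, by simpa using ha, ?_⟩
        intro x hx _ y hy
        rw [Finset.mem_singleton] at hx hy
        rw [hx, hy]
      · push Not at h
        by_cases hc : n ≤ T.card
        · obtain ⟨S, h1, h2, h3, h4⟩ := C1_zs n m hn e T hc
          exact ⟨S, h1, h2, h3, h4, fun a ha hd => absurd hd (h a (h1 ha))⟩
        · exact ⟨T, subset_rfl, hne, by omega, hs, fun a ha hd => absurd hd (h a ha)⟩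
    have hcard : (T \ S).card + S.card = T.card := Finset.card_sdiff_add_card_eq_card hST
    have hsum : ∑ a ∈ T \ S, e a + ∑ a ∈ S, e a = ∑ a ∈ T, e a := Finset.sum_sdiff hST
    have hSp := hSne.card_pos
    obtain ⟨p, b, h1, h2, h3, h4, h5⟩ := ih (T \ S).card (by omega) (T \ S) rfl
      ((Nat.dvd_add_left hSs).1 (hsum ▸ hs))
    have hbS : ∀ a, a ∈ S → (if a ∈ S then p else b a) = p := fun a ha => if_pos ha
    have hbN : ∀ a, a ∉ S → (if a ∈ S then p else b a) = b a := fun a ha => if_neg ha
    have hTS : ∀ a, a ∈ T → a ∉ S → a ∈ T \ S := fun a h h' => Finset.mem_sdiff.2 ⟨h, h'⟩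
    refine ⟨p + 1, fun a => if a ∈ S then p else b a, ?_, ?_, ?_, ?_, ?_⟩
    · intro a ha
      by_cases haS : a ∈ S
      · simp only [hbS a haS]
        omega
      · simp only [hbN a haS]
        have := h1 a (hTS a ha haS)
        omega
    · intro c hc
      rcases Nat.lt_succ_iff_lt_or_eq.1 hc with hc | rfl
      · obtain ⟨a, ha, rfl⟩ := h2 c hc
        exact ⟨a, (Finset.mem_sdiff.1 ha).1, hbN a (Finset.mem_sdiff.1 ha).2⟩
      · obtain ⟨a, ha⟩ := hSne
        exact ⟨a, hST ha, hbS a ha⟩
    · intro c hc
      rcases Nat.lt_succ_iff_lt_or_eq.1 hc with hc | rfl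
      · have he : T.filter (fun a => (if a ∈ S then p else b a) = c) =
            (T \ S).filter (fun a => b a = c) := by
          ext a
          simp only [Finset.mem_filter, Finset.mem_sdiff]
          constructor
          · rintro ⟨haT, hac⟩
            by_cases haS : a ∈ S
            · rw [hbS a haS] at hac
              omega
            · rw [hbN a haS] at hac
              exact ⟨⟨haT, haS⟩, hac⟩
          · rintro ⟨⟨haT, haS⟩, hac⟩
            exact ⟨haT, by rw [hbN a haS]; exact hac⟩
        rw [he]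
        exact h3 c hc
      · have he : T.filter (fun a => (if a ∈ S then c else b a) = c) = S := by
          ext a
          simp only [Finset.mem_filter]
          constructor
          · rintro ⟨haT, hac⟩
            by_contra haS
            rw [hbN a haS] at hac
            have := h1 a (hTS a haT haS)
            omega
          · intro haS
            exact ⟨hST haS, hbS a haS⟩
        rw [he]
        exact hSs
    · intro a haT had a' ha'T hbb
      by_cases haS : a ∈ S
      · have ha'S : a' ∈ S := by
          by_contra hx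
          simp only [hbS a haS, hbN a' hx] at hbb
          have := h1 a' (hTS a' ha'T hx)
          omega
        exact hS1 a haS had a' ha'S
      · have ha'S : a' ∉ S := by
          intro hx
          simp only [hbS a' hx, hbN a haS] at hbb
          have := h1 a (hTS a haT haS)
          omega
        simp only [hbN a haS, hbN a' ha'S] at hbb
        exact h4 a (hTS a haT haS) had a' (hTS a' ha'T ha'S) hbb
    · rw [Nat.mul_add, Nat.mul_one]
      omega

theorem exists_bl (n m t : ℕ) (hn : 0 < n) (e : Fin m → ℕ) (hs : n ∣ ∑ a, e a) (ht : n * t < m) :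
    ∃ (p : ℕ) (b : Fin m → Fin p), t < p ∧ Bl n e b := by
  obtain ⟨p, b, h1, h2, h3, h4, h5⟩ := C1_main n m hn e _ Finset.univ rfl hs
  rw [Finset.card_univ, Fintype.card_fin] at h5
  have htp : t < p := Nat.lt_of_mul_lt_mul_left (lt_of_lt_of_le ht h5)
  refine ⟨p, fun a => ⟨b a, h1 a (Finset.mem_univ a)⟩, htp, ⟨?_, ?_, ?_⟩⟩
  · intro c
    obtain ⟨a, _, ha⟩ := h2 c.1 c.2
    exact ⟨a, Fin.ext ha⟩
  · intro C
    have h := h3 C.1 C.2
    have he : Finset.univ.filter (fun a => (⟨b a, h1 a (Finset.mem_univ a)⟩ : Fin p) = C) =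
        Finset.univ.filter (fun a => b a = C.1) := by
      ext a
      simp only [Finset.mem_filter, Finset.mem_univ, true_and, Fin.ext_iff]
    rw [he]
    exact h
  · intro a ha a' haa
    exact h4 a (Finset.mem_univ a) ha a' (Finset.mem_univ a') (Fin.ext_iff.1 haa)

end Pool.Agent.LibDV76
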