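import Pool.Agent.LibDV76.A6

/-!
[DV C2] The sum of the isotypic parts: `∑_e chi_e h = ∏_a ∑_(i < n) h_a ^ i = n ^ m` if `h = 1` and `0` otherwise (geometric sums, `h_a ^ n = 1`). `Finset.prod_univ_sum` /
`Fintype.piFinset` for the product of sums.
-/

open scoped Classical
open Polynomial

namespace Pool.Agent.LibDV76

open Pool.Agent.LibBH2
open Pool.Agent.LibCHd (VR RF Red FunF)

variable {k : Type} [Field k] {s m c d : ℕ} {D : Dat k s m c} {W : Type} [AddCommGroup W] [Module k W]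
  {M : Type} [Field M] [Algebra k M]

theorem sum_mns (hD : D.Good) (q : CH D d →+ W) (x : Fin s → M) :
    ∑ e : Fin m → Fin D.n, mns (fun a => (e a : ℕ)) q x = (D.n ^ m : ℕ) • q (cls D d x) := by
  have hn : 0 < D.n := by have := hD.two; omega
  have h1 : ∀ h : Fin m → k, ∑ e : Fin m → Fin D.n, chi (fun a => (e a : ℕ)) h =
      ∏ a, ∑ i : Fin D.n, h a ^ (i : ℕ) := by
    intro h
    unfold chi
    rw [Finset.prod_univ_sum, Fintype.piFinset_univ]
  have h2 : ∀ h ∈ grp k D.n m, h ≠ 1 → ∏ a, ∑ i : Fin D.n, h a ^ (i : ℕ) = 0 := by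
    intro h hh hne
    obtain ⟨a, ha⟩ : ∃ a, h a ≠ 1 := by
      by_contra hcon
      push Not at hcon
      exact hne (funext hcon)
    refine Finset.prod_eq_zero (Finset.mem_univ a) ?_
    have h3 : h a ^ D.n = 1 := (mem_grp hn).1 hh a
    have h4 := mul_geom_sum (h a) D.n
    rw [h3, sub_self] at h4
    rw [← (mul_eq_zero.1 h4).resolve_left (sub_ne_zero.2 ha), Finset.sum_range]
  have h3 : (1 : Fin m → k) ∈ grp k D.n m := (mem_grp hn).2 fun a => one_pow _
  have h4 : act D (1 : Fin m → k) x = x := by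
    funext l
    simp [act]
  have h5 : ∏ a : Fin m, ∑ i : Fin D.n, (1 : Fin m → k) a ^ (i : ℕ) = ((D.n ^ m : ℕ) : k) := by
    simp
  simp only [mns]
  rw [Finset.sum_comm]
  simp_rw [← Finset.sum_smul, h1]
  rw [Finset.sum_eq_single_of_mem 1 h3 (fun h hh hne => by rw [h2 h hh hne, zero_smul]), h4, h5,
    Nat.cast_smul_eq_nsmul]

end Pool.Agent.LibDV76
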