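import Pool.Agent.LibDV76.Defs2
import Pool.Agent.LibCHd.B5
import Pool.Agent.LibCHd.Api

/-!
[DV P4b] `κ`. The `r` elements `η_i / η_r`, `i < r`, of `M` are algebraically dependent over `F` (image of `φ`) since `trdeg k M = d < r` (`FunF.trdeg`): there is `P ≠ 0` over `F` with `P(η_i / η_r) = 0`; `F` is infinite, so `P(κ) ≠ 0` for some `κ` in `F ^ r`
(`MvPolynomial.funext` / `MvPolynomial.exists_eval_ne_zero...`). (`Algebra.trdeg F M ≤ Algebra.trdeg k M` with the algebra structure `φ.toAlgebra`; or: if they were algebraically independent over `F` they would be so over `k`.)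
-/

open scoped Classical
open Polynomial

namespace Pool.Agent.LibDV76

open Pool.Agent.LibBH2
open Pool.Agent.LibCHd (VR RF Red FunF)

variable {k : Type} [Field k] {d : ℕ} {F M : Type} [Field F] [Algebra k F] [Field M] [Algebra k M]

/-- residues of a finite family, not all zero, after multiplication by a suitable element -/
theorem exists_prim {N : Type} [Field N] [Algebra k N] (i : M →ₐ[k] N) (v : Place k N) (r : ℕ) (η : ℕ → M)
    (hη : ∃ j < r, η j ≠ 0) : ∃ (μ : M) (y : ℕ → RF v), μ ≠ 0 ∧ (∀ j < r, Red v (i (μ * η j)) (y j)) ∧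
      ∃ j < r, y j ≠ 0 := by
  have h0 : ((Finset.range r).filter fun j => η j ≠ 0).Nonempty := by
    obtain ⟨j, hj, hηj⟩ := hη
    exact ⟨j, Finset.mem_filter.2 ⟨Finset.mem_range.2 hj, hηj⟩⟩
  obtain ⟨a, ha, hmin⟩ := Finset.exists_min_image _ (fun j => v.ord (i (η j))) h0
  rw [Finset.mem_filter, Finset.mem_range] at ha
  obtain ⟨har, ha0⟩ := ha
  have hia : i (η a) ≠ 0 := (map_ne_zero i).2 ha0
  have hreg : ∀ j, j < r → v.Reg (i ((η a)⁻¹ * η j)) := by
    intro j hj
    by_cases hb : η j = 0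
    · rw [hb, mul_zero, map_zero]
      exact Or.inl rfl
    · right
      rw [map_mul, map_inv₀, v.ord_mul _ _ (inv_ne_zero hia) ((map_ne_zero i).2 hb), v.ord_inv]
      have := hmin j (Finset.mem_filter.2 ⟨Finset.mem_range.2 hj, hb⟩)
      omega
  have hex : ∀ j, ∃ y : RF v, j < r → Red v (i ((η a)⁻¹ * η j)) y := by
    intro j
    by_cases hj : j < r
    · obtain ⟨y, hy⟩ := Pool.Agent.LibCHd.exists_red (hreg j hj)
      exact ⟨y, fun _ => hy⟩
    · exact ⟨0, fun h => absurd h hj⟩
  choose y hy using hex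
  refine ⟨(η a)⁻¹, y, inv_ne_zero ha0, fun j hj => hy j hj, a, har, ?_⟩
  have h1 := hy a har
  rw [inv_mul_cancel₀ ha0, map_one] at h1
  rw [h1.unique (Pool.Agent.LibCHd.red_one v)]
  exact one_ne_zero

/-- residue of a relation: `P(x) = 0` over `F`, `v` trivial on `F`, `κ` constant residues of `x` -/
theorem red_rel {N : Type} [Field N] [Algebra k N] (φ : F →ₐ[k] M) (i : M →ₐ[k] N) (v : Place k N)
    (hv : ∀ x, v.ord (i (φ x)) = 0) {r : ℕ} (x : Fin r → M) (κ : Fin r → F) (P : MvPolynomial (Fin r) F)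
    (hP : MvPolynomial.eval₂ (φ : F →+* M) x P = 0) (hx : ∀ l, v.Zer (i (x l - φ (κ l)))) :
    MvPolynomial.eval κ P = 0 := by
  -- the residue homomorphism of `F`
  have hreg : ∀ x : F, v.Reg (i (φ x)) := fun x => Or.inr (hv x).ge
  have key : ∀ P : MvPolynomial (Fin r) F, v.Reg (i (MvPolynomial.eval₂ (φ : F →+* M) x P)) ∧
      v.Zer (i (MvPolynomial.eval₂ (φ : F →+* M) x P) - i (φ (MvPolynomial.eval κ P))) := by
    intro P
    induction P using MvPolynomial.induction_on with
    | C c =>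
      rw [MvPolynomial.eval₂_C, MvPolynomial.eval_C]
      refine ⟨hreg c, ?_⟩
      change v.Zer (i (φ c) - i (φ c))
      rw [sub_self]
      exact Or.inl rfl
    | add P Q hP hQ =>
      rw [MvPolynomial.eval₂_add, map_add, map_add, map_add, map_add]
      refine ⟨hP.1.add hQ.1, ?_⟩
      have h1 := hP.2.add hQ.2
      rwa [show i (MvPolynomial.eval₂ (φ : F →+* M) x P) - i (φ (MvPolynomial.eval κ P)) +
        (i (MvPolynomial.eval₂ (φ : F →+* M) x Q) - i (φ (MvPolynomial.eval κ Q))) =
        i (MvPolynomial.eval₂ (φ : F →+* M) x P) + i (MvPolynomial.eval₂ (φ : F →+* M) x Q) -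
        (i (φ (MvPolynomial.eval κ P)) + i (φ (MvPolynomial.eval κ Q))) by ring] at h1
    | mul_X P l hP =>
      rw [MvPolynomial.eval₂_mul, MvPolynomial.eval₂_X, map_mul, map_mul, MvPolynomial.eval_X, map_mul, map_mul]
      have h2 : v.Zer (i (x l) - i (φ (κ l))) := by
        rw [← map_sub]
        exact hx l
      have h3 : v.Reg (i (x l)) := by
        have h4 : v.Reg (i (x l) - i (φ (κ l))) := by
          rcases h2 with h2 | h2
          · exact Or.inl h2
          · exact Or.inr h2.le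
        have h5 := h4.add (hreg (κ l))
        rwa [sub_add_cancel] at h5
      refine ⟨hP.1.mul h3, ?_⟩
      have h6 := (hP.2.mul_reg h3).add (h2.mul_reg (hreg (MvPolynomial.eval κ P)))
      rwa [show (i (MvPolynomial.eval₂ (φ : F →+* M) x P) - i (φ (MvPolynomial.eval κ P))) * i (x l) +
        (i (x l) - i (φ (κ l))) * i (φ (MvPolynomial.eval κ P)) =
        i (MvPolynomial.eval₂ (φ : F →+* M) x P) * i (x l) -
        i (φ (MvPolynomial.eval κ P)) * i (φ (κ l)) by ring] at h6
  have h1 := (key P).2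
  rw [hP, map_zero, zero_sub] at h1
  by_contra hne
  have h2 : i (φ (MvPolynomial.eval κ P)) ≠ 0 := (map_ne_zero i).2 ((map_ne_zero φ).2 hne)
  rcases h1 with h1 | h1
  · exact h2 (neg_eq_zero.1 h1)
  · rw [v.ord_neg, hv] at h1
    exact lt_irrefl _ h1

end Pool.Agent.LibDV76
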