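import Pool.Agent.LibDV76.T5
import Pool.Agent.LibDV76.P4
import Pool.Agent.LibHL77.A3

/-!
[DV P10b] `TZ_repl`: a lift over `M'` of `⟨u, Y⟩` is also a lift of `⟨u', Y⟩` since `P_l = 0` for `l` in the group `a` (`Y (b a) = 0`, so `y (b a) = 0`) (`exists_lift`, `TZ_spec` for both; both are Z-points: `ev D u t a * 0`, `ev_congr` for the other groups; blocks with one group: `hba`). If one
is a Z-point so is the other; else both are 0.
`base`: `M₀ = FractionRing (MvPolynomial (Fin d) k)`, `η₀ 0 = 1`, `η₀ (i+1) = X_i`, `w₀ = TZ (zF (ofId) u h (d+1) η₀)`. Given `M`, `η`, `z = zF .. η`. If `η` is zero for all `i ≤ d`: `TZ_not`. If `η 0 = 0` or the `η (i+1) / η 0` are algebraically dependent: scale by some `1 / η_i`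
(`TZ_zeq` with `κ`), coordinates in `E` = field generated by the ratios, trdeg `< d`: `TZ_small`. Else `ι : M₀ → M`, `X_i ↦ η (i+1) / η 0` (`AlgebraicIndependent`, `IsFractionRing.liftAlgHom`), `z` is equivalent to `z₀.map ι` (`κ = 1 / η 0`), `TZ_map`; the degree is not 0 since `M` is
finite over `ι(M₀)` (finitely generated and algebraic: `trdeg`, `a3_fg`, `a3_fin` in LibHL77/A3.lean).
-/

open scoped Classical
open Polynomial

namespace Pool.Agent.LibDV76

open Pool.Agent.LibBH2
open Pool.Agent.LibCHd (VR RF Red FunF)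

variable {k : Type} [Field k] {s m c p d : ℕ} {D : Dat k s m c} {e : Fin m → ℕ} {b : Fin m → Fin p}
  {W : Type} [AddCommGroup W] [Module k W]

private theorem P10b_trdeg {M : Type} [Field M] [Algebra k M] {d : ℕ} (y : Fin d → M)
    (hy : ¬ AlgebraicIndependent k y) :
    Algebra.trdeg k (IntermediateField.adjoin k (Set.range y)) < d := by
  by_contra hcon
  rw [not_lt] at hcon
  apply hy
  obtain ⟨E, hE⟩ : ∃ E : IntermediateField k M, E = IntermediateField.adjoin k (Set.range y) := ⟨_, rfl⟩
  rw [← hE] at hcon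
  have hmem : ∀ l, y l ∈ E := fun l => by
    rw [hE]
    exact IntermediateField.subset_adjoin k _ ⟨l, rfl⟩
  let y' : Fin d → E := fun l => ⟨y l, hmem l⟩
  have htop : IntermediateField.adjoin k (Set.range y') = ⊤ := by
    rw [eq_top_iff]
    intro z _
    have h1 : E ≤ (IntermediateField.adjoin k (Set.range y')).map E.val := by
      conv_lhs => rw [hE]
      rw [IntermediateField.adjoin_le_iff]
      rintro _ ⟨l, rfl⟩
      exact ⟨y' l, IntermediateField.subset_adjoin k _ ⟨l, rfl⟩, rfl⟩
    obtain ⟨w, hw, hwz⟩ := h1 z.2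
    have h2 : w = z := Subtype.ext hwz
    rw [← h2]
    exact hw
  have halg : Algebra.IsAlgebraic (Algebra.adjoin k (Set.range y')) E := by
    apply IntermediateField.isAlgebraic_adjoin_iff_top.1
    refine ⟨fun x => ?_⟩
    have hx : x ∈ IntermediateField.adjoin k (Set.range y') := by
      rw [htop]
      exact IntermediateField.mem_top
    exact isAlgebraic_algebraMap (⟨x, hx⟩ : IntermediateField.adjoin k (Set.range y'))
  have h3 : IsTranscendenceBasis k y' :=
    Algebra.IsAlgebraic.isTranscendenceBasis_of_le_trdeg_of_finite k y' (by rwa [Cardinal.mk_fin])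
  have h4 := h3.1.map' (f := E.val) E.val.injective
  exact h4

private theorem P10b_scale [IsAlgClosed k] [CharZero k] (hD : D.Good) (hb : Bl D.n e b) (q : CH D d →+ W)
    (u : Fin s → k) (h : ℕ → Fin p → k) {M : Type} [Field M] [Algebra k M] (η : ℕ → M) (κ : M) (hκ : κ ≠ 0)
    (r : ℕ) : TZ e b q (zF (Algebra.ofId k M) u h r (fun i => κ * η i)) =
      TZ e b q (zF (Algebra.ofId k M) u h r η) := by
  apply TZ_zeq hD hb q
  refine ⟨fun _ => 1, κ, fun _ => one_ne_zero, hκ, fun l => ?_, fun C => ?_⟩
  · rw [one_mul]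
    rfl
  · rw [one_pow, div_one]
    change ∑ i ∈ Finset.range r, κ * η i * Algebra.ofId k M (h i C) =
      κ * ∑ i ∈ Finset.range r, η i * Algebra.ofId k M (h i C)
    rw [Finset.mul_sum]
    refine Finset.sum_congr rfl fun i _ => ?_
    rw [mul_assoc]

private theorem P10b_small [IsAlgClosed k] [CharZero k] (hD : D.Good) (hb : Bl D.n e b) (q : CH D d →+ W)
    (u : Fin s → k) (h : ℕ → Fin p → k) {M : Type} [Field M] [Algebra k M] (hM : FunF k d M) (η : ℕ → M)
    (κ : M) (hκ : κ ≠ 0) (h0 : κ * η 0 = 0 ∨ κ * η 0 = 1)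
    (hx : ¬ AlgebraicIndependent k (fun i : Fin d => κ * η (i + 1))) :
    TZ e b q (zF (Algebra.ofId k M) u h (d + 1) η) = 0 := by
  rw [← P10b_scale hD hb q u h η κ hκ]
  have hE := P10b_trdeg _ hx
  obtain ⟨E, hE'⟩ : ∃ E : IntermediateField k M, E = IntermediateField.adjoin k
    (Set.range (fun i : Fin d => κ * η (i + 1))) := ⟨_, rfl⟩
  rw [← hE'] at hE
  refine TZ_small hD hb q hM _ E hE (fun l => ?_) (fun C => ?_)
  · exact E.algebraMap_mem (u l)
  · change ∑ i ∈ Finset.range (d + 1), κ * η i * Algebra.ofId k M (h i C) ∈ E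
    refine sum_mem fun i hi => mul_mem ?_ (E.algebraMap_mem (h i C))
    rw [Finset.mem_range] at hi
    rcases i with _ | i
    · rcases h0 with h0 | h0
      · rw [h0]
        exact zero_mem E
      · rw [h0]
        exact one_mem E
    · rw [hE']
      exact IntermediateField.subset_adjoin k _ ⟨⟨i, by omega⟩, rfl⟩

private theorem P10b_fin {M M₀ : Type} [Field M] [Algebra k M] [Field M₀] [Algebra k M₀] (hM : FunF k d M)
    (ι : M₀ →ₐ[k] M) (x : Fin d → M) (hx : AlgebraicIndependent k x) (hι : ∀ l, x l ∈ ι.fieldRange) :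
    Module.finrank ι.fieldRange M ≠ 0 := by
  have h1 : IsTranscendenceBasis k x :=
    hx.isTranscendenceBasis_of_trdeg_le_of_finite (by rw [hM.trdeg, Cardinal.mk_fin])
  have h2 : Algebra.IsAlgebraic (IntermediateField.adjoin k (Set.range x)) M := h1.isAlgebraic_field
  have h3 : IntermediateField.adjoin k (Set.range x) ≤ ι.fieldRange := by
    rw [IntermediateField.adjoin_le_iff]
    rintro _ ⟨l, rfl⟩
    exact hι l
  have h4 : Algebra.IsAlgebraic ι.fieldRange M := by
    refine ⟨fun z => ?_⟩
    obtain ⟨P, hP, hz⟩ := h2.isAlgebraic z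
    refine ⟨P.map (IntermediateField.inclusion h3).toRingHom, ?_, ?_⟩
    · rwa [Ne, Polynomial.map_eq_zero_iff (RingHom.injective _)]
    · rw [Polynomial.aeval_def, Polynomial.eval₂_map]
      exact hz
  obtain ⟨S, hS⟩ := Pool.Agent.LibHL77.a3_fg hM
  have h5 : FiniteDimensional ι.fieldRange M := by
    refine Pool.Agent.LibHL77.a3_fin h4 S fun L hL => ?_
    have h6 := hS (L.restrictScalars k) hL
    rw [eq_top_iff]
    intro z _
    have h7 : z ∈ L.restrictScalars k := by
      rw [h6]
      exact IntermediateField.mem_top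
    exact h7
  exact (Module.finrank_pos (R := ι.fieldRange) (M := M)).ne'

theorem base [IsAlgClosed k] [CharZero k] (hD : D.Good) (hb : Bl D.n e b) (q : CH D d →+ W) (u : Fin s → k)
    (h : ℕ → Fin p → k) : ∃ w₀ : W, ∀ (M : Type) (_ : Field M) (_ : Algebra k M) (η : ℕ → M), FunF k d M →
      TZ e b q (zF (Algebra.ofId k M) u h (d + 1) η) ∈ AddSubgroup.zmultiples w₀ := by
  let M₀ : Type := FractionRing (MvPolynomial (Fin d) k)
  let X₀ : Fin d → M₀ := fun l => algebraMap (MvPolynomial (Fin d) k) M₀ (MvPolynomial.X l)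
  let η₀ : ℕ → M₀ := fun i => if i = 0 then 1 else if hi : i - 1 < d then X₀ ⟨i - 1, hi⟩ else 0
  refine ⟨TZ e b q (zF (Algebra.ofId k M₀) u h (d + 1) η₀), ?_⟩
  intro M _ _ η hM
  by_cases hall : ∀ i < d + 1, η i = 0
  · have h1 : ¬ IsZ D e b (zF (Algebra.ofId k M) u h (d + 1) η) := by
      intro hz
      obtain ⟨C, hC⟩ := hz.Y0
      apply hC
      change ∑ i ∈ Finset.range (d + 1), η i * Algebra.ofId k M (h i C) = 0
      refine Finset.sum_eq_zero fun i hi => ?_
      rw [hall i (Finset.mem_range.1 hi), zero_mul]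
    rw [TZ_not q h1]
    exact zero_mem _
  · push Not at hall
    obtain ⟨i₀, hi₀, hne⟩ := hall
    by_cases h0 : η 0 = 0
    · have h2 : TZ e b q (zF (Algebra.ofId k M) u h (d + 1) η) = 0 := by
        refine P10b_small hD hb q u h hM η (η i₀)⁻¹ (inv_ne_zero hne) (Or.inl (by rw [h0, mul_zero])) ?_
        intro hx
        rcases i₀ with _ | i₁
        · exact hne h0
        · have h3 := hx.transcendental ⟨i₁, by omega⟩
          apply h3
          change IsAlgebraic k ((η (i₁ + 1))⁻¹ * η (i₁ + 1))
          rw [inv_mul_cancel₀ hne]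
          exact isAlgebraic_one
      rw [h2]
      exact zero_mem _
    · by_cases hx : AlgebraicIndependent k (fun i : Fin d => (η 0)⁻¹ * η (i + 1))
      · have hg : Function.Injective (MvPolynomial.aeval (R := k) (fun i : Fin d => (η 0)⁻¹ * η (i + 1)) :
            MvPolynomial (Fin d) k →ₐ[k] M) := hx
        let ι : M₀ →ₐ[k] M := IsFractionRing.liftAlgHom hg
        have hιX : ∀ l, ι (X₀ l) = (η 0)⁻¹ * η (l + 1) := by
          intro l
          change IsFractionRing.lift hg (algebraMap (MvPolynomial (Fin d) k) M₀ (MvPolynomial.X l)) = _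
          rw [IsFractionRing.lift_algebraMap]
          change MvPolynomial.aeval _ (MvPolynomial.X l) = _
          rw [MvPolynomial.aeval_X]
        have hfin : Module.finrank ι.fieldRange M ≠ 0 :=
          P10b_fin hM ι _ hx fun l => ⟨X₀ l, hιX l⟩
        have h4 : (zF (Algebra.ofId k M₀) u h (d + 1) η₀).map ι =
            zF (Algebra.ofId k M) u h (d + 1) (fun i => (η 0)⁻¹ * η i) := by
          unfold Zp.map zF
          congr 1
          · funext l
            exact ι.commutes (u l)
          · funext C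
            change ι (∑ i ∈ Finset.range (d + 1), η₀ i * Algebra.ofId k M₀ (h i C)) =
              ∑ i ∈ Finset.range (d + 1), (η 0)⁻¹ * η i * Algebra.ofId k M (h i C)
            rw [map_sum]
            refine Finset.sum_congr rfl fun i hi => ?_
            rw [map_mul]
            have h5 : ι (Algebra.ofId k M₀ (h i C)) = Algebra.ofId k M (h i C) := ι.commutes (h i C)
            rw [h5]
            congr 1
            rw [Finset.mem_range] at hi
            rcases i with _ | i
            · change ι (if (0 : ℕ) = 0 then 1 else _) = _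
              rw [if_pos rfl, map_one, inv_mul_cancel₀ h0]
            · have h6 : η₀ (i + 1) = X₀ ⟨i, by omega⟩ := by
                change (if i + 1 = 0 then (1 : M₀) else if hi : i + 1 - 1 < d then X₀ ⟨i + 1 - 1, hi⟩ else 0) = _
                rw [if_neg (Nat.succ_ne_zero i), dif_pos (by omega : i + 1 - 1 < d)]
                rfl
              rw [h6, hιX]
        have h7 := TZ_map hD hb q (zF (Algebra.ofId k M₀) u h (d + 1) η₀) ι hfin
        rw [h4, P10b_scale hD hb q u h η _ (inv_ne_zero h0)] at h7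
        rw [h7]
        exact nsmul_mem (AddSubgroup.mem_zmultiples _) _
      · have h2 := P10b_small hD hb q u h hM η (η 0)⁻¹ (inv_ne_zero h0) (Or.inr (inv_mul_cancel₀ h0)) hx
        rw [h2]
        exact zero_mem _

end Pool.Agent.LibDV76
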