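import Pool.Agent.LibDV76.Defs2

/-!
[DV P6b] Linear algebra over `F[X]` and over `F`.
`lattice`: `K` = kernel of the matrix on `F[X] ^ p`, a submodule of a free module over a PID, so free, with a basis `R_0, ..., R_(q-1)`; rank `q ≥ p - c`. If `∑ x_i R_i(1) = 0` with `x_i` in `F` then `∑ x_i R_i = (X - 1) G` and `A G = 0` (`F[X]` is a domain), so
`G ∈ K`, `G = ∑ g_i R_i`, `x_i = (X - 1) g_i`, so `x_i = 0`.
`ext_basis`: extend the independent family `h_0, ..., h_(r₀-1)` to a basis of the kernel of `A` in `F ^ p`; `dim ≥ p - c`; a vector of the kernel over an extension `M` is a combination with coefficients in `M` (write it in an `F`-basis of `M`: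
each component vector is in the kernel over `F`).
-/

open scoped Classical
open Polynomial

namespace Pool.Agent.LibDV76

open Pool.Agent.LibBH2
open Pool.Agent.LibCHd (VR RF Red FunF)

variable {F : Type} [Field F] {p c : ℕ}

/-- the linear map of a matrix -/
private noncomputable def P6b_map (A : Fin c → Fin p → F) : (Fin p → F) →ₗ[F] (Fin c → F) where
  toFun x := fun t => ∑ C, A t C * x C
  map_add' x y := by
    funext t
    simp only [Pi.add_apply, mul_add, Finset.sum_add_distrib]
  map_smul' a x := by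
    funext t
    simp only [Pi.smul_apply, smul_eq_mul, RingHom.id_apply, Finset.mul_sum]
    exact Finset.sum_congr rfl fun C _ => by ring

private theorem P6b_mem (A : Fin c → Fin p → F) (x : Fin p → F) :
    x ∈ LinearMap.ker (P6b_map A) ↔ ∀ t, ∑ C, A t C * x C = 0 := by
  rw [LinearMap.mem_ker]
  exact ⟨fun h t => congrFun h t, fun h => funext h⟩

private theorem P6b_dim (A : Fin c → Fin p → F) : p - c ≤ Module.finrank F (LinearMap.ker (P6b_map A)) := by
  have h1 := (P6b_map A).finrank_range_add_finrank_ker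
  have h2 : Module.finrank F (LinearMap.range (P6b_map A)) ≤ c := by
    have h3 := Submodule.finrank_le (LinearMap.range (P6b_map A))
    simpa using h3
  have h3 : Module.finrank F (Fin p → F) = p := by simp
  omega

private theorem P6b_ext (A : Fin c → Fin p → F) {r : ℕ} (b : Module.Basis (Fin r) F (LinearMap.ker (P6b_map A)))
    (M : Type) [Field M] (φ : F →+* M) (Y : Fin p → M) (hY : ∀ t, ∑ C, φ (A t C) * Y C = 0) :
    ∃ η : Fin r → M, ∀ C, Y C = ∑ i, η i * φ ((b i : Fin p → F) C) := by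
  letI : Algebra F M := φ.toAlgebra
  have hφ : ∀ a : F, ∀ m : M, a • m = φ a * m := fun a m => rfl
  let B := Module.Basis.ofVectorSpace F M
  have hy : ∀ j, (fun C => B.repr (Y C) j) ∈ LinearMap.ker (P6b_map A) := by
    intro j
    rw [P6b_mem]
    intro t
    have h1 : B.repr (∑ C, φ (A t C) * Y C) j = 0 := by
      rw [hY t, map_zero, Finsupp.zero_apply]
    have h2 : B.repr (∑ C, φ (A t C) * Y C) j = ∑ C, A t C * B.repr (Y C) j := by
      rw [map_sum, Finsupp.finsetSum_apply]
      refine Finset.sum_congr rfl fun C _ => ?_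
      rw [← hφ, map_smul, Finsupp.smul_apply, smul_eq_mul]
    rw [← h2, h1]
  let J := Finset.univ.biUnion fun C => (B.repr (Y C)).support
  have hJ : ∀ C, Y C = ∑ j ∈ J, φ (B.repr (Y C) j) * B j := by
    intro C
    conv_lhs => rw [← B.linearCombination_repr (Y C), Finsupp.linearCombination_apply, Finsupp.sum]
    refine Finset.sum_subset (fun j hj => Finset.mem_biUnion.mpr ⟨C, Finset.mem_univ _, hj⟩) fun j _ hj => ?_
    rw [Finsupp.notMem_support_iff.mp hj, zero_smul]
  refine ⟨fun i => ∑ j ∈ J, φ (b.repr ⟨_, hy j⟩ i) * B j, fun C => ?_⟩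
  rw [hJ C]
  have h3 : ∀ j, B.repr (Y C) j = ∑ i, b.repr ⟨_, hy j⟩ i * (b i : Fin p → F) C := by
    intro j
    have h4 := b.sum_repr ⟨_, hy j⟩
    have h5 := congrArg (fun z : LinearMap.ker (P6b_map A) => (z : Fin p → F) C) h4
    simp only [Submodule.coe_sum, Submodule.coe_smul, Finset.sum_apply, Pi.smul_apply, smul_eq_mul] at h5
    exact h5.symm
  calc ∑ j ∈ J, φ (B.repr (Y C) j) * B j
      = ∑ j ∈ J, ∑ i, φ (b.repr ⟨_, hy j⟩ i) * B j * φ ((b i : Fin p → F) C) := by
        refine Finset.sum_congr rfl fun j _ => ?_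
        rw [h3 j, map_sum, Finset.sum_mul]
        refine Finset.sum_congr rfl fun i _ => ?_
        rw [map_mul]
        ring
    _ = ∑ i, ∑ j ∈ J, φ (b.repr ⟨_, hy j⟩ i) * B j * φ ((b i : Fin p → F) C) := Finset.sum_comm
    _ = ∑ i, (∑ j ∈ J, φ (b.repr ⟨_, hy j⟩ i) * B j) * φ ((b i : Fin p → F) C) := by
        refine Finset.sum_congr rfl fun i _ => ?_
        rw [Finset.sum_mul]

private theorem P6b_inl {F V ι : Type} [Field F] [AddCommGroup V] [Module F V] {v : ι → V}
    (hv : LinearIndependent F v) (i : ι) : Module.Basis.sumExtend hv (Sum.inl i) = v i := by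
  unfold Module.Basis.sumExtend
  simp only [Module.Basis.reindex_apply, Equiv.symm_symm, Module.Basis.extend_apply_self]
  rfl

theorem ext_basis (A : Fin c → Fin p → F) (h : ℕ → Fin p → F) (r₀ : ℕ)
    (hk : ∀ i < r₀, ∀ t, ∑ C, A t C * h i C = 0)
    (hi : ∀ x : ℕ → F, (∀ C, ∑ i ∈ Finset.range r₀, x i * h i C = 0) → ∀ i < r₀, x i = 0) :
    ∃ (r : ℕ) (h' : ℕ → Fin p → F), r₀ ≤ r ∧ p - c ≤ r ∧ (∀ i < r₀, h' i = h i) ∧
      (∀ i < r, ∀ t, ∑ C, A t C * h' i C = 0) ∧
      (∀ x : ℕ → F, (∀ C, ∑ i ∈ Finset.range r, x i * h' i C = 0) → ∀ i < r, x i = 0) ∧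
      ∀ (M : Type) (_ : Field M) (φ : F →+* M) (Y : Fin p → M), (∀ t, ∑ C, φ (A t C) * Y C = 0) →
        ∃ η : ℕ → M, ∀ C, Y C = ∑ i ∈ Finset.range r, η i * φ (h' i C) := by
  let K := LinearMap.ker (P6b_map A)
  let v : Fin r₀ → K := fun i => ⟨h i, (P6b_mem A _).mpr (hk i i.2)⟩
  have hv : LinearIndependent F v := by
    rw [Fintype.linearIndependent_iff]
    intro g hg i
    let x : ℕ → F := fun j => if hj : j < r₀ then g ⟨j, hj⟩ else 0
    have h1 : ∀ C, ∑ i ∈ Finset.range r₀, x i * h i C = 0 := by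
      intro C
      rw [Finset.sum_range]
      have h2 := congrArg (fun z : K => (z : Fin p → F) C) hg
      simp only [Submodule.coe_sum, Submodule.coe_smul, Finset.sum_apply, Pi.smul_apply, smul_eq_mul,
        Submodule.coe_zero, Pi.zero_apply] at h2
      rw [← h2]
      refine Finset.sum_congr rfl fun j _ => ?_
      simp [x, v]
    have h2 := hi x h1 i i.2
    simpa [x] using h2
  let b₀ := Module.Basis.sumExtend hv
  haveI : Finite (Fin r₀ ⊕ Module.Basis.sumExtendIndex hv) := Module.Finite.finite_basis b₀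
  haveI : Finite (Module.Basis.sumExtendIndex hv) := Finite.of_injective (Sum.inr (α := Fin r₀)) Sum.inr_injective
  let s := Nat.card (Module.Basis.sumExtendIndex hv)
  let e : Module.Basis.sumExtendIndex hv ≃ Fin s := Finite.equivFin _
  let E : Fin r₀ ⊕ Module.Basis.sumExtendIndex hv ≃ Fin (r₀ + s) :=
    (Equiv.sumCongr (Equiv.refl _) e).trans finSumFinEquiv
  let b : Module.Basis (Fin (r₀ + s)) F K := b₀.reindex E
  have hb : ∀ i : Fin r₀, b (Fin.castAdd s i) = v i := by
    intro i
    have h1 : E.symm (Fin.castAdd s i) = Sum.inl i := by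
      rw [Equiv.symm_apply_eq]
      simp [E]
    rw [Module.Basis.reindex_apply, h1]
    exact P6b_inl hv i
  let h' : ℕ → Fin p → F := fun i => if hi : i < r₀ + s then ((b ⟨i, hi⟩ : K) : Fin p → F) else 0
  have hh : ∀ i (hi : i < r₀ + s), h' i = ((b ⟨i, hi⟩ : K) : Fin p → F) := fun i hi => dif_pos hi
  refine ⟨r₀ + s, h', Nat.le_add_right _ _, ?_, ?_, ?_, ?_, ?_⟩
  · have h1 := P6b_dim A
    have h2 : Module.finrank F K = r₀ + s := by
      rw [Module.finrank_eq_card_basis b, Fintype.card_fin]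
    exact h1.trans h2.le
  · intro i hi
    rw [hh i (by omega)]
    have h1 := hb ⟨i, hi⟩
    have h2 : (Fin.castAdd s ⟨i, hi⟩ : Fin (r₀ + s)) = ⟨i, by omega⟩ := rfl
    rw [h2] at h1
    rw [h1]
  · intro i hi
    rw [hh i hi]
    exact (P6b_mem A _).mp (b ⟨i, hi⟩).2
  · intro x hx i hi
    have h1 : ∑ j : Fin (r₀ + s), x j • b j = 0 := by
      apply Subtype.ext
      funext C
      have h2 := hx C
      rw [Finset.sum_range] at h2
      simp only [Submodule.coe_sum, Submodule.coe_smul, Finset.sum_apply, Pi.smul_apply, smul_eq_mul,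
        Submodule.coe_zero, Pi.zero_apply]
      rw [← h2]
      refine Finset.sum_congr rfl fun j _ => ?_
      rw [hh j j.2]
    exact Fintype.linearIndependent_iff.mp b.linearIndependent (fun j => x j) h1 ⟨i, hi⟩
  · intro M _ φ Y hY
    obtain ⟨η, hη⟩ := P6b_ext A b M φ Y hY
    refine ⟨fun i => if hi : i < r₀ + s then η ⟨i, hi⟩ else 0, fun C => ?_⟩
    rw [hη C, Finset.sum_range]
    refine Finset.sum_congr rfl fun j _ => ?_
    rw [hh j j.2]
    beta_reduce
    rw [dif_pos j.2]

end Pool.Agent.LibDV76
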