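import Pool.Agent.LibDV76.T1
import Pool.Agent.LibDV76.P6

/-!
[DV P8b] Normalisation: for each block `C` choose `l_C` with `u_(l_C) ≠ 0` and `b (γ l_C) = C` (`u0`, `hb`), `τ_C = 1 / u_(l_C)`, `κ = 1`: then all `u_l / u_(l_C)` are in `bf D b z`.
`exists_kb`: `ext_basis` for the matrix `A t C = ∑_(b a = C) ev D u t a` (`Finset.sum_fiberwise`) in terms of `KB` and `zF`.
-/

open scoped Classical
open Polynomial

namespace Pool.Agent.LibDV76

open Pool.Agent.LibBH2
open Pool.Agent.LibCHd (VR RF Red FunF)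

variable {k : Type} [Field k] {s m c p : ℕ} {D : Dat k s m c} {e : Fin m → ℕ} {b : Fin m → Fin p}
  {M : Type} [Field M] [Algebra k M]

private theorem P8b_sum {R : Type} [Ring R] (b : Fin m → Fin p) (f : Fin m → R) (Y : Fin p → R) :
    ∑ C, (∑ a ∈ Finset.univ.filter (fun a => b a = C), f a) * Y C = ∑ a, f a * Y (b a) := by
  rw [← Finset.sum_fiberwise Finset.univ b (fun a => f a * Y (b a))]
  refine Finset.sum_congr rfl fun C _ => ?_
  rw [Finset.sum_mul]
  refine Finset.sum_congr rfl fun a ha => ?_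
  rw [(Finset.mem_filter.1 ha).2]

theorem exists_kb {F : Type} [Field F] [Algebra k F] (u : Fin s → F) (h : ℕ → Fin p → F) {r₀ : ℕ}
    (hh : KB D b u h r₀) : ∃ (r : ℕ) (h' : ℕ → Fin p → F), r₀ ≤ r ∧ p - c ≤ r ∧ KB D b u h' r ∧
      (∀ (M : Type) (_ : Field M) (_ : Algebra k M) (φ : F →ₐ[k] M) (η : ℕ → M),
        zF φ u h' r₀ η = zF φ u h r₀ η) ∧
      ∀ (M : Type) (_ : Field M) (_ : Algebra k M) (φ : F →ₐ[k] M) (Y : Fin p → M),
        (∀ t, ∑ a, ev D (fun l => φ (u l)) t a * Y (b a) = 0) →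
        ∃ η : ℕ → M, (⟨fun l => φ (u l), Y⟩ : Zp s p M) = zF φ u h' r η := by
  obtain ⟨r, h', h1, h2, h3, h4, h5, h6⟩ := ext_basis
    (fun t C => ∑ a ∈ Finset.univ.filter (fun a => b a = C), ev D u t a) h r₀ (by
      intro i hi t
      rw [P8b_sum]
      exact hh.ker i hi t) hh.ind
  refine ⟨r, h', h1, h2, ⟨fun i hi t => ?_, h5⟩, ?_, ?_⟩
  · have h7 := h4 i hi t
    rwa [P8b_sum] at h7
  · intro M _ _ φ η
    unfold zF
    congr 1
    funext C
    refine Finset.sum_congr rfl fun i hi => ?_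
    rw [h3 i (Finset.mem_range.1 hi)]
  · intro M _ _ φ Y hY
    obtain ⟨η, hη⟩ := h6 M _ (φ : F →+* M) Y (by
      intro t
      have h7 := hY t
      simp only [ev_map] at h7
      rw [← h7, ← P8b_sum b (fun a => φ (ev D u t a)) Y]
      refine Finset.sum_congr rfl fun C _ => ?_
      rw [map_sum]
      rfl)
    refine ⟨η, ?_⟩
    unfold zF
    congr 1
    funext C
    exact hη C

/-- the same for the vectors with `Y C₀ = 0` -/
theorem exists_kb0 {F : Type} [Field F] [Algebra k F] (u : Fin s → F) (C₀ : Fin p) :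
    ∃ (r : ℕ) (h' : ℕ → Fin p → F), p - (c + 1) ≤ r ∧ KB D b u h' r ∧ ∀ i < r, h' i C₀ = 0 := by
  obtain ⟨r, h', -, h2, -, h4, h5, -⟩ := ext_basis (c := c + 1)
    (Fin.snoc (fun t C => ∑ a ∈ Finset.univ.filter (fun a => b a = C), ev D u t a)
      (fun C => if C = C₀ then 1 else 0) : Fin (c + 1) → Fin p → F) (fun _ _ => 0) 0
    (fun i hi => absurd hi (Nat.not_lt_zero i)) (fun x _ i hi => absurd hi (Nat.not_lt_zero i))
  refine ⟨r, h', h2, ⟨fun i hi t => ?_, h5⟩, fun i hi => ?_⟩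
  · have h7 := h4 i hi t.castSucc
    rw [Fin.snoc_castSucc] at h7
    rwa [P8b_sum] at h7
  · have h7 := h4 i hi (Fin.last c)
    rw [Fin.snoc_last] at h7
    simpa using h7

end Pool.Agent.LibDV76
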