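import Pool.Agent.LibDV76.P5
import Pool.Agent.LibDV76.P8
import Pool.Agent.LibDV76.P10
import Pool.Agent.LibCHd.B5

/-!
[DV P11] The trivial character: `e = 0`, `b = id`. Let `h` be a basis of the kernel for the constant vector `u = 1` over `k` (`exists_kb` with `r₀ = 0`), `w₀` from `base` (with `u = 1`), `L = zmultiples w₀`. Induction on `f`: all `z` over function fields of dimension `d` with `trdeg k (bf z) ≤ f` have `TZ z ∈ L`; so
`Low e b q L f` may be used. `exists_norm`, `F = bf D b z`. Claim by induction on a finite set `T` of groups: there is `Y'` with `TZ z - TZ (u_T, Y') ∈ L`, `u_T l = 1` if `γ l ∈ T`, else `u l`. Step `T ∪ {a}`: if `(u_T, Y')` is not a Z-point take `Y' = 0`. `exists_kb0` for `u_T`, `C₀ = a`: `h₀`, `r₀ ≥ m - (c + 1) > d` (`hm`);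
`exists_kb` extends; `(u_T, Y') = zF φ u_T h' r η`; `proj'`: `TZ (u_T, Y') - TZ (zF φ u_T h₀ r₀ η') ∈ L`; the latter has `Y a = 0`: `TZ_repl` replaces `u_T` by `u_(T ∪ {a})`. At the end `T = univ`, `u = 1`: `zF (ofId) 1 h r η` (spanning), `proj'` with `F = k`, `f = 0` (`Low .. 0` is empty: `trdeg < 0`; `trdeg k k = 0`) down to `d + 1`, `base`.
-/

open scoped Classical
open Polynomial

namespace Pool.Agent.LibDV76

open Pool.Agent.LibBH2
open Pool.Agent.LibCHd (VR RF Red FunF)

variable {k : Type} [Field k] {s m c d : ℕ} {D : Dat k s m c} {W : Type} [AddCommGroup W] [Module k W]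

private theorem P11_bl [IsAlgClosed k] [CharZero k] {n : ℕ} :
    Bl n (fun _ : Fin m => 0) (id : Fin m → Fin m) where
  surj := Function.surjective_id
  sum := fun C => by simp
  sgl := fun a _ a' h => h

private theorem P11_not {e : Fin m → ℕ} {p : ℕ} {b : Fin m → Fin p} (q : CH D d →+ W) {M : Type} [Field M]
    [Algebra k M] (u : Fin s → M) : TZ e b q (⟨u, fun _ => 0⟩ : Zp s p M) = 0 := by
  apply TZ_not
  intro h
  obtain ⟨C, hC⟩ := h.Y0
  exact hC rfl

/-- one step: the group `a` -/
private theorem P11_step [IsAlgClosed k] [CharZero k] (hD : D.Good) (q : CH D d →+ W) (hm : c + 1 + d < m)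
    {L : AddSubgroup W} {f : ℕ} (hlow : Low (fun _ => 0) (id : Fin m → Fin m) q L f) {F M : Type} [Field F]
    [Algebra k F] [Field M] [Algebra k M] (hF : Algebra.trdeg k F ≤ f) (hM : FunF k d M) (φ : F →ₐ[k] M)
    (u u' : Fin s → F) (a : Fin m) (hu : ∀ l, D.γ l ≠ a → u' l = u l) (h1 : ∃ l, D.γ l = a ∧ u l ≠ 0)
    (h2 : ∃ l, D.γ l = a ∧ u' l ≠ 0) (Y : Fin m → M) :
    ∃ Y' : Fin m → M, TZ (fun _ => 0) (id : Fin m → Fin m) q ⟨fun l => φ (u l), Y⟩ -
      TZ (fun _ => 0) (id : Fin m → Fin m) q ⟨fun l => φ (u' l), Y'⟩ ∈ L := by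
  have hb : Bl D.n (fun _ : Fin m => 0) (id : Fin m → Fin m) := P11_bl (k := k)
  by_cases hz : IsZ D (fun _ => 0) (id : Fin m → Fin m) (⟨fun l => φ (u l), Y⟩ : Zp s m M)
  · obtain ⟨r, h0, hr, hh, h0a⟩ := exists_kb0 (D := D) (b := (id : Fin m → Fin m)) u a
    obtain ⟨r', h', hrr, _, hh', hz0, hsp⟩ := exists_kb (D := D) (b := (id : Fin m → Fin m)) u h0 hh
    obtain ⟨η, hη⟩ := hsp M inferInstance inferInstance φ Y hz.rel
    obtain ⟨η', hη'⟩ := proj' hD hb q hlow hF hM φ u h' (r₀ := r) (r := r') (by omega) hrr hh' η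
    rw [hz0 M inferInstance inferInstance φ η', ← hη] at hη'
    refine ⟨fun C => ∑ i ∈ Finset.range r, η' i * φ (h0 i C), ?_⟩
    have hrepl := TZ_repl hD hb q (M := M) a (fun a' h => h) (dvd_zero _) (u := fun l => φ (u l))
      (u' := fun l => φ (u' l)) (fun l hl => by rw [hu l hl])
      (by obtain ⟨l, hl, hl'⟩ := h1; exact ⟨l, hl, by simpa using hl'⟩)
      (by obtain ⟨l, hl, hl'⟩ := h2; exact ⟨l, hl, by simpa using hl'⟩)
      (Y := fun C => ∑ i ∈ Finset.range r, η' i * φ (h0 i C))
      (Finset.sum_eq_zero fun i hi => by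
        rw [show h0 i (id a) = 0 from h0a i (Finset.mem_range.1 hi), map_zero, mul_zero])
    rw [hrepl]
    exact hη'
  · refine ⟨fun _ => 0, ?_⟩
    rw [TZ_not q hz, P11_not, sub_zero]
    exact L.zero_mem

theorem TZ_triv [IsAlgClosed k] [CharZero k] (hD : D.Good) (q : CH D d →+ W) (hm : c + 1 + d < m) :
    ∃ w₀ : W, ∀ (M : Type) (_ : Field M) (_ : Algebra k M) (z : Zp s m M), FunF k d M →
      TZ (fun _ => 0) (id : Fin m → Fin m) q z ∈ AddSubgroup.zmultiples w₀ := by
  have hb : Bl D.n (fun _ : Fin m => 0) (id : Fin m → Fin m) := P11_bl (k := k)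
  -- the constant vector
  obtain ⟨r₁, hk, _, hr₁, hhk, _, hsp⟩ := exists_kb (D := D) (b := (id : Fin m → Fin m)) (F := k)
    (fun _ => (1 : k)) (fun _ _ => 0) (r₀ := 0)
    ⟨fun i hi => absurd hi (Nat.not_lt_zero i), fun x _ i hi => absurd hi (Nat.not_lt_zero i)⟩
  obtain ⟨w₀, hw₀⟩ := base hD hb q (fun _ => (1 : k)) hk
  refine ⟨w₀, ?_⟩
  set L := AddSubgroup.zmultiples w₀ with hL
  -- constant `u`
  have hconst : ∀ (M : Type) (_ : Field M) (_ : Algebra k M) (Y : Fin m → M), FunF k d M →
      TZ (fun _ => 0) (id : Fin m → Fin m) q (⟨fun _ => 1, Y⟩ : Zp s m M) ∈ L := by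
    intro M _ _ Y hM
    by_cases hz : IsZ D (fun _ => 0) (id : Fin m → Fin m) (⟨fun _ => 1, Y⟩ : Zp s m M)
    · have he : (⟨fun _ => 1, Y⟩ : Zp s m M) = ⟨fun l => Algebra.ofId k M ((fun _ => (1 : k)) l), Y⟩ := by
        simp
      have hrel : ∀ t, ∑ a, ev D (fun l => Algebra.ofId k M ((fun _ : Fin s => (1 : k)) l)) t a * Y (id a) = 0 := by
        intro t
        have := hz.rel t
        rw [he] at this
        exact this
      obtain ⟨η, hη⟩ := hsp M inferInstance inferInstance (Algebra.ofId k M) Y hrel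
      have hlow0 : Low (D := D) (fun _ => 0) (id : Fin m → Fin m) q L 0 := by
        intro M' _ _ z _ _ ht
        simp at ht
      have hF0 : Algebra.trdeg k k ≤ ((0 : ℕ) : Cardinal) := by
        rw [trdeg_eq_zero]; simp
      obtain ⟨η', hη'⟩ := proj' hD hb q hlow0 hF0 hM (Algebra.ofId k M) (fun _ => (1 : k)) hk (r₀ := d + 1)
        (r := r₁) (Nat.lt_succ_self d) (by omega) hhk η
      have h2 := hw₀ M inferInstance inferInstance η' hM
      rw [he, hη]
      have h3 := L.add_mem hη' h2
      rwa [sub_add_cancel] at h3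
    · rw [TZ_not q hz]
      exact L.zero_mem
  -- induction on the transcendence degree
  have hlow : ∀ f : ℕ, Low (D := D) (fun _ => 0) (id : Fin m → Fin m) q L f := by
    intro f
    induction f with
    | zero =>
      intro M' _ _ z _ _ ht
      simp at ht
    | succ f ih =>
      intro M _ _ z hM hz ht
      have hF : Algebra.trdeg k (bf D (id : Fin m → Fin m) z) ≤ (f : Cardinal) := by
        rw [Nat.cast_succ] at ht
        exact Cardinal.lt_natCast_add_one_iff.mp ht
      obtain ⟨u, Y, hu, hzeq⟩ := exists_norm hb.surj hz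
      let φ : bf D (id : Fin m → Fin m) z →ₐ[k] M := (bf D (id : Fin m → Fin m) z).val
      have key : ∀ T : Finset (Fin m), ∃ Y' : Fin m → M,
          TZ (fun _ => 0) (id : Fin m → Fin m) q ⟨fun l => φ (u l), Y⟩ -
            TZ (fun _ => 0) (id : Fin m → Fin m) q
              ⟨fun l => φ ((fun l => if D.γ l ∈ T then 1 else u l) l), Y'⟩ ∈ L := by
        intro T
        induction T using Finset.induction_on with
        | empty => exact ⟨Y, by simp⟩
        | insert a T ha ihT =>
          obtain ⟨Y₁, h₁⟩ := ihT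
          obtain ⟨Y₂, h₂⟩ := P11_step hD q hm ih hF hM φ (fun l => if D.γ l ∈ T then 1 else u l)
            (fun l => if D.γ l ∈ insert a T then 1 else u l) a
            (fun l hl => by simp [Finset.mem_insert, hl])
            (by
              obtain ⟨l, hl, hl'⟩ := hu a
              refine ⟨l, hl, ?_⟩
              rw [hl, if_neg ha]
              exact hl')
            (by
              obtain ⟨l, hl, hl'⟩ := hu a
              refine ⟨l, hl, ?_⟩
              rw [hl, if_pos (Finset.mem_insert_self a T)]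
              exact one_ne_zero) Y₁
          refine ⟨Y₂, ?_⟩
          have := L.add_mem h₁ h₂
          rwa [sub_add_sub_cancel] at this
      obtain ⟨Y', hY'⟩ := key Finset.univ
      have he : (fun l : Fin s => φ ((fun l => if D.γ l ∈ (Finset.univ : Finset (Fin m)) then 1 else u l) l))
          = fun _ => 1 := by
        funext l
        simp
      rw [he] at hY'
      have h4 := hconst M inferInstance inferInstance Y' hM
      have h5 := L.add_mem hY' h4
      rw [sub_add_cancel] at h5
      rw [← TZ_zeq hD hb q hzeq]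
      exact h5
  intro M _ _ z hM
  by_cases hz : IsZ D (fun _ => 0) (id : Fin m → Fin m) z
  · refine hlow (d + 1) M inferInstance inferInstance z hM hz ?_
    have h1 : Algebra.trdeg k (bf D (id : Fin m → Fin m) z) ≤ Algebra.trdeg k M :=
      trdeg_le_of_injective (bf D (id : Fin m → Fin m) z).val
        (bf D (id : Fin m → Fin m) z).val.injective
    rw [hM.trdeg] at h1
    refine lt_of_le_of_lt h1 ?_
    exact_mod_cast Nat.lt_succ_self d
  · rw [TZ_not q hz]
    exact L.zero_mem

end Pool.Agent.LibDV76
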