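import Pool.Agent.LibDV76.P9
import Pool.Agent.LibDV76.P11
import Pool.Agent.LibDV76.C1
import Pool.Agent.LibDV76.C2

/-!
[DV P12] Assembly. `sum_mns`; for each `e : Fin m → Fin n`: if `n` does not divide `∑ e a`: `mns_sum`. If there is `a` with `¬ n ∣ e a` and `P` zero on the group `a`: `mns_grp`. Else: if all `n ∣ e a` then `e a = 0` (as `e a < n`): `b = id` (`Bl` is trivial), `TZ_zpt`, `TZ_triv`. Else `exists_bl` with
`t = c + d`, `TZ_zpt`, `TZ_char`. `hm` of `TZ_triv`: `m > n (c + d) ≥ 2 (c + d) ≥ c + d + 1` as `c ≥ 1`.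
-/

open scoped Classical
open Polynomial

namespace Pool.Agent.LibDV76

open Pool.Agent.LibBH2
open Pool.Agent.LibCHd (VR RF Red FunF)

variable {k : Type} [Field k] {s m c d : ℕ} {D : Dat k s m c}

theorem assembly [IsAlgClosed k] [CharZero k] (hD : D.Good) (hc : 0 < c) (hm : D.n * (c + d) < m) {W : Type}
    [AddCommGroup W] [Module k W] (q : CH D d →+ W) :
    ∃ w₀ : W, ∀ (M : Type) (_ : Field M) (_ : Algebra k M) (x : Fin s → M), FunF k d M → On D x →
      (D.n ^ m : ℕ) • q (cls D d x) ∈ AddSubgroup.zmultiples w₀ := by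
  have h2n := hD.two
  have hm' : c + 1 + d < m := by
    have h1 : 2 * (c + d) ≤ D.n * (c + d) := Nat.mul_le_mul_right _ h2n
    omega
  obtain ⟨w₁, hw₁⟩ := TZ_triv hD q hm'
  refine ⟨w₁, fun M _ _ x hM hx => ?_⟩
  rw [← sum_mns hD q x]
  refine AddSubgroup.sum_mem _ fun e _ => ?_
  by_cases h1 : D.n ∣ ∑ a, (e a : ℕ)
  · by_cases h2 : ∀ a, ¬ D.n ∣ (e a : ℕ) → ∃ l, D.γ l = a ∧ x l ≠ 0
    · by_cases h3 : ∀ a, D.n ∣ (e a : ℕ)
      · have h4 : (fun a => (e a : ℕ)) = fun _ => 0 :=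
          funext fun a => Nat.eq_zero_of_dvd_of_lt (h3 a) (e a).2
        rw [h4]
        have hb : Bl D.n (fun _ : Fin m => 0) (id : Fin m → Fin m) :=
          ⟨Function.surjective_id, fun C => by simp, fun a _ a' h => h⟩
        rw [← TZ_zpt hD hb q hx (fun a ha => absurd (dvd_zero _) ha)]
        exact hw₁ M _ _ _ hM
      · push Not at h3
        obtain ⟨a₀, ha₀⟩ := h3
        obtain ⟨p, b, hp, hb⟩ := exists_bl D.n m (c + d) (by omega) (fun a => (e a : ℕ)) h1 hm
        rw [← TZ_zpt hD hb q hx h2, TZ_char hD hb q hp a₀ ha₀ hM]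
        exact zero_mem _
    · push Not at h2
      obtain ⟨a, ha, hxa⟩ := h2
      have h5 := mns_grp hD (e := fun a => (e a : ℕ)) ha q hxa
      rw [h5]
      exact zero_mem _
  · have h5 := mns_sum hD (e := fun a => (e a : ℕ)) h1 q x
    rw [h5]
    exact zero_mem _

end Pool.Agent.LibDV76
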