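import Pool.Agent.LibDV76.V1
import Pool.Agent.LibDV76.M1
import Pool.Agent.LibDV76.P12

/-!
The Chow groups of the quotients of `X` by subgroups of `μ_n ^ m`.
-/

open scoped Classical
open Polynomial

namespace Pool.Agent.LibDV76

open Pool.Agent.LibBH2
open Pool.Agent.LibCHd (VR RF Red FunF)

variable {k : Type} [Field k] {s m c p d : ℕ} {D : Dat k s m c} {e : Fin m → ℕ} {b : Fin m → Fin p}
  {W : Type} [AddCommGroup W] [Module k W]

private theorem V2_zero {r : k} (hr : r ≠ 1) {w : W} (h : r • w = w) : w = 0 := by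
  have h1 : (r - 1) • w = 0 := by rw [sub_smul, one_smul, h, sub_self]
  rcases smul_eq_zero.1 h1 with h2 | h2
  · exact absurd (sub_eq_zero.1 h2) hr
  · exact h2

/-- the sum over a subgroup of the isotypic parts for a character which is not trivial on it -/
private theorem V2_sum (hD : D.Good) (q : CH D d →+ W) {H : Finset (Fin m → k)} (hH : H ⊆ grp k D.n m)
    (hmul : ∀ g ∈ H, ∀ h ∈ H, (fun a => g a * h a) ∈ H) {g : Fin m → k} (hg : g ∈ H) (hg1 : chi e g ≠ 1)
    {M : Type} [Field M] [Algebra k M] (x : Fin s → M) : ∑ h ∈ H, mns e q (act D h x) = 0 := by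
  have hn : 0 < D.n := lt_of_lt_of_le two_pos hD.two
  have hg0 : ∀ a, g a ≠ 0 := by
    intro a
    have h1 := (mem_grp hn).1 (hH hg) a
    intro h0
    rw [h0, zero_pow hn.ne'] at h1
    exact zero_ne_one h1
  refine V2_zero hg1 ?_
  rw [Finset.smul_sum]
  have himg : H.image (fun h => fun a => g a * h a) = H := by
    refine Finset.eq_of_subset_of_card_le ?_ ?_
    · intro y hy
      obtain ⟨h, hh, rfl⟩ := Finset.mem_image.1 hy
      exact hmul g hg h hh
    · rw [Finset.card_image_of_injective]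
      intro h h' hhh
      funext a
      exact mul_left_cancel₀ (hg0 a) (congrFun hhh a)
  have hinj : ∀ h ∈ H, ∀ h' ∈ H, (fun a => g a * h a) = (fun a => g a * h' a) → h = h' := by
    intro h _ h' _ hhh
    funext a
    exact mul_left_cancel₀ (hg0 a) (congrFun hhh a)
  calc ∑ h ∈ H, chi e g • mns e q (act D h x)
      = ∑ h ∈ H.image (fun h => fun a => g a * h a), chi e g • mns e q (act D h x) := by rw [himg]
    _ = ∑ h ∈ H, chi e g • mns e q (act D (fun a => g a * h a) x) := Finset.sum_image hinj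
    _ = ∑ h ∈ H, mns e q (act D h x) := by
        refine Finset.sum_congr rfl fun h _ => ?_
        rw [← act_act, mns_act hD e q (hH hg)]

/-- Let `H` be a subgroup of `μ_n ^ m`. If for each character which is trivial on `H` there are more than `c + d`
blocks then the group `ℚ ⊗ CH_d(X / H)` is generated by one class. -/
theorem chow_sub {k : Type} [Field k] [IsAlgClosed k] [CharZero k] {s m c d : ℕ} {D : Dat k s m c} (hD : D.Good)
    (H : Finset (Fin m → k)) (hH : H ⊆ grp k D.n m) (hmul : ∀ g ∈ H, ∀ h ∈ H, (fun a => g a * h a) ∈ H)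
    (hp : ∀ e : Fin m → ℕ, D.n ∣ ∑ a, e a → (∀ h ∈ H, chi e h = 1) →
      ∃ (p : ℕ) (b : Fin m → Fin p), Bl D.n e b ∧ c + d < p) :
    ∃ E : CH D d, ∀ (M : Type) (_ : Field M) (_ : Algebra k M) (x : Fin s → M), FunF k d M → On D x →
      ∃ (a : ℕ) (r : ℤ), 0 < a ∧ a • ∑ h ∈ H, cls D d (act D h x) = r • E := by
  have hn : 0 < D.n := lt_of_lt_of_le two_pos hD.two
  have hm : c + d < m := by
    obtain ⟨p, b, hb, h1⟩ := hp (fun _ => 0) (by simp) (fun h _ => by simp [chi])
    have h2 := Fintype.card_le_of_surjective b hb.surj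
    rw [Fintype.card_fin, Fintype.card_fin] at h2
    omega
  obtain ⟨E, hE⟩ := descend k (CH D d) {y | ∃ (M : Type) (_ : Field M) (_ : Algebra k M) (x : Fin s → M),
    FunF k d M ∧ On D x ∧ y = ∑ h ∈ H, cls D d (act D h x)} (D.n ^ m) (pow_pos hn m) (by
      intro W _ _ q
      obtain ⟨w₀, hw⟩ := TZ_triv' hD q hm
      refine ⟨w₀, ?_⟩
      rintro y ⟨M, i1, i2, x, hM, hx, rfl⟩
      rw [map_sum, Finset.smul_sum]
      have h1 : ∀ h ∈ H, (D.n ^ m : ℕ) • q (cls D d (act D h x)) =
          ∑ e : Fin m → Fin D.n, mns (fun a => (e a : ℕ)) q (act D h x) := fun h _ =>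
        (sum_mns hD q (act D h x)).symm
      rw [Finset.sum_congr rfl h1, Finset.sum_comm]
      refine AddSubgroup.sum_mem _ fun e _ => ?_
      by_cases hg : ∃ g ∈ H, chi (fun a => (e a : ℕ)) g ≠ 1
      · obtain ⟨g, hg, hg1⟩ := hg
        rw [V2_sum hD q hH hmul hg hg1 x]
        exact zero_mem _
      · push Not at hg
        have h2 : ∀ h ∈ H, mns (fun a => (e a : ℕ)) q (act D h x) = mns (fun a => (e a : ℕ)) q x := by
          intro h hh
          have h3 := mns_act hD (fun a => (e a : ℕ)) q (hH hh) x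
          rwa [hg h hh, one_smul] at h3
        rw [Finset.sum_congr rfl h2, Finset.sum_const]
        refine AddSubgroup.nsmul_mem _ ?_ _
        by_cases hs : D.n ∣ ∑ a, (e a : ℕ)
        · obtain ⟨p, b, hb, hpb⟩ := hp _ hs hg
          by_cases h3 : ∀ a, D.n ∣ (e a : ℕ)
          · have h4 : (fun a => (e a : ℕ)) = fun _ => 0 :=
              funext fun a => Nat.eq_zero_of_dvd_of_lt (h3 a) (e a).2
            rw [h4]
            have hb' : Bl D.n (fun _ : Fin m => 0) (id : Fin m → Fin m) :=
              ⟨Function.surjective_id, fun C => by simp, fun a _ a' h => h⟩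
            rw [← TZ_zpt hD hb' q hx (fun a ha => absurd (dvd_zero _) ha)]
            exact hw M _ _ _ hM
          · push Not at h3
            rw [mns_char hD hb q hpb h3 hM hx]
            exact zero_mem _
        · have h5 := mns_sum hD (e := fun a => (e a : ℕ)) hs q x
          rw [h5]
          exact zero_mem _)
  refine ⟨E, fun M i1 i2 x hM hx => ?_⟩
  exact hE _ ⟨M, i1, i2, x, hM, hx, rfl⟩

end Pool.Agent.LibDV76
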