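import Pool.Agent.LibDV76.Defs2
import Pool.Agent.LibCHd.B5
import Pool.Agent.LibCW77.D4

/-!
[DV A1b] Rules for `fld`, `eqs`, `cyc`, `cls`. Templates: LibCW77/D3.lean, D4.lean (`fld_map`, `cyc_map`, `cls_map`, `cyc_alg`, `cyc_zero_iff`).
`fld_map`: `IntermediateField.adjoin_map`, image of the set of ratios. `eqs_map`: `aeval (i ∘ x) G = i (aeval x G)`, `i` injective. `cyc_map`: degrees are
multiplicative: `finrank ((fld x).map i) M' = finrank i.fieldRange M' * finrank (fld x) M` (this is `T2_map` in LibCW77/T2.lean).
`eqs_smul`: `aeval (r x) G = r ^ deg G * aeval x G` for `G` homogeneous (`MvPolynomial.IsHomogeneous.eval₂` / sum over monomials). `cyc_small`: if the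
multiplicity were not 0 then `M` is finite over `fld x`, so algebraic, and `trdeg k (fld x) = trdeg k M = d` (`FunF.trdeg`). `cyc_small'`: `fld x` is contained
in the algebraic closure of `E` in `M`, its trdeg is `≤ trdeg k E`.
-/

open scoped Classical
open Polynomial

namespace Pool.Agent.LibDV76

open Pool.Agent.LibBH2
open Pool.Agent.LibCHd (VR RF Red FunF)

variable {k : Type} [Field k] {s m c : ℕ} {M M' : Type} [Field M] [Algebra k M] [Field M'] [Algebra k M']

theorem cyc_zero_iff (x : Fin s → M) : cyc k x = 0 ↔ Module.finrank (fld k x) M = 0 := by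
  unfold cyc
  rw [Finsupp.single_eq_zero, Int.natCast_eq_zero]

theorem cyc_small {d : ℕ} (hM : FunF k d M) (x : Fin s → M) (h : Algebra.trdeg k (fld k x) < d) : cyc k x = 0 := by
  rw [cyc_zero_iff]
  by_contra hne
  have hfin : FiniteDimensional (fld k x) M := Module.finite_of_finrank_pos (Nat.pos_of_ne_zero hne)
  have halg : Algebra.IsAlgebraic (fld k x) M := inferInstance
  have h1 : Algebra.trdeg k (fld k x) = d := by
    rw [← hM.trdeg, ← trdeg_add_eq k (fld k x) (A := M), trdeg_eq_zero_iff.2 halg, add_zero]
  rw [h1] at h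
  exact lt_irrefl _ h

theorem cyc_small' {d : ℕ} (hM : FunF k d M) (x : Fin s → M) (E : IntermediateField k M) (hE : Algebra.trdeg k E < d)
    (h : ∀ l l', IsAlgebraic E (x l / x l')) : cyc k x = 0 := by
  have hle : fld k x ≤ (algebraicClosure E M).restrictScalars k := by
    unfold fld
    rw [IntermediateField.adjoin_le_iff]
    rintro r ⟨l, l', rfl⟩
    exact mem_algebraicClosure_iff.2 (h l l')
  have h2 : Algebra.trdeg k (fld k x) ≤ Algebra.trdeg k (algebraicClosure E M) :=
    trdeg_le_of_injective (IntermediateField.inclusion hle)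
      (IntermediateField.inclusion_injective hle)
  have h3 : Algebra.trdeg k (algebraicClosure E M) = Algebra.trdeg k E := by
    rw [← trdeg_add_eq k E (A := algebraicClosure E M),
      trdeg_eq_zero_iff.2 (inferInstance : Algebra.IsAlgebraic E (algebraicClosure E M)), add_zero]
  refine cyc_small hM x (lt_of_le_of_lt h2 ?_)
  rw [h3]
  exact hE

end Pool.Agent.LibDV76
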