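import Pool.Agent.LibDV76.Defs2
import Pool.Agent.LibCHd.B5
import Pool.Agent.LibCW77.D4

/-!
[DV A1a] Rules for `fld`, `eqs`, `cyc`, `cls`. Templates: LibCW77/D3.lean, D4.lean (`fld_map`, `cyc_map`, `cls_map`, `cyc_alg`, `cyc_zero_iff`).
`fld_map`: `IntermediateField.adjoin_map`, image of the set of ratios. `eqs_map`: `aeval (i ∘ x) G = i (aeval x G)`, `i` injective. `cyc_map`: degrees are
multiplicative: `finrank ((fld x).map i) M' = finrank i.fieldRange M' * finrank (fld x) M` (this is `T2_map` in LibCW77/T2.lean).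
`eqs_smul`: `aeval (r x) G = r ^ deg G * aeval x G` for `G` homogeneous (`MvPolynomial.IsHomogeneous.eval₂` / sum over monomials). `cyc_small`: if the
multiplicity were not 0 then `M` is finite over `fld x`, so algebraic, and `trdeg k (fld x) = trdeg k M = d` (`FunF.trdeg`). `cyc_small'`: `fld x` is contained
in the algebraic closure of `E` in `M`, its trdeg is `≤ trdeg k E`.
-/

open scoped Classical
open Polynomial

namespace Pool.Agent.LibDV76

open Pool.Agent.LibBH2
open Pool.Agent.LibCHd (VR RF Red FunF)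

variable {k : Type} [Field k] {s m c : ℕ} {M M' : Type} [Field M] [Algebra k M] [Field M'] [Algebra k M']

theorem fld_map (i : M →ₐ[k] M') (x : Fin s → M) : fld k (fun l => i (x l)) = (fld k x).map i := by
  unfold fld
  rw [IntermediateField.adjoin_map]
  congr 1
  ext r
  constructor
  · rintro ⟨l, l', rfl⟩
    exact ⟨x l / x l', ⟨l, l', rfl⟩, map_div₀ i _ _⟩
  · rintro ⟨_, ⟨l, l', rfl⟩, rfl⟩
    exact ⟨l, l', map_div₀ i _ _⟩

theorem eqs_map (i : M →ₐ[k] M') (x : Fin s → M) : eqs k (fun l => i (x l)) = eqs k x := by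
  unfold eqs
  ext G
  simp only [Set.mem_ofPred_eq]
  have h : MvPolynomial.aeval (fun l => i (x l)) G = i (MvPolynomial.aeval x G) := by
    have h1 : (i.comp (MvPolynomial.aeval x)) = MvPolynomial.aeval (fun l => i (x l)) := by
      apply MvPolynomial.algHom_ext
      intro l
      simp
    rw [← h1]
    rfl
  rw [h, map_eq_zero]

private theorem A1a_map (i : M →ₐ[k] M') (F : IntermediateField k M) :
    Module.finrank (F.map i) M' = Module.finrank i.fieldRange M' * Module.finrank F M := by
  rw [AlgHom.fieldRange_eq_map,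
    ← IntermediateField.relfinrank_mul_finrank_top (IntermediateField.map_mono i (le_top :
      F ≤ ⊤)), IntermediateField.relfinrank_map_map,
    IntermediateField.relfinrank_top_right, mul_comm]

theorem cyc_map (i : M →ₐ[k] M') (x : Fin s → M) :
    cyc k (fun l => i (x l)) = (Module.finrank i.fieldRange M' : ℤ) • cyc k x := by
  unfold cyc
  rw [eqs_map, fld_map, A1a_map, Finsupp.smul_single, smul_eq_mul, Nat.cast_mul]

theorem cls_map (D : Dat k s m c) (d : ℕ) (i : M →ₐ[k] M') (x : Fin s → M) :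
    cls D d (fun l => i (x l)) = (Module.finrank i.fieldRange M' : ℤ) • cls D d x := by
  unfold cls
  rw [cyc_map]
  rfl

theorem fld_smul (x : Fin s → M) {r : M} (hr : r ≠ 0) : fld k (fun l => r * x l) = fld k x := by
  unfold fld
  simp only [mul_div_mul_left _ _ hr]

private theorem A1a_hom (x : Fin s → M) (r : M) {G : MvPolynomial (Fin s) k} {n : ℕ} (hG : G.IsHomogeneous n) :
    MvPolynomial.aeval (fun l => r * x l) G = r ^ n * MvPolynomial.aeval x G := by
  rw [MvPolynomial.aeval_def, MvPolynomial.aeval_def, MvPolynomial.eval₂_eq', MvPolynomial.eval₂_eq',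
    Finset.mul_sum]
  refine Finset.sum_congr rfl fun e he => ?_
  have h1 : MvPolynomial.coeff e G ≠ 0 := MvPolynomial.mem_support_iff.1 he
  have h2 : e.degree = n := by
    have h3 := hG h1
    rw [Finsupp.degree_eq_weight_one]
    exact h3
  have h4 : ∑ l, e l = n := by
    rw [← h2, Finsupp.degree_eq_sum]
  simp only [mul_pow]
  rw [Finset.prod_mul_distrib, Finset.prod_pow_eq_pow_sum, h4]
  ring

theorem eqs_smul (x : Fin s → M) {r : M} (hr : r ≠ 0) : eqs k (fun l => r * x l) = eqs k x := by
  unfold eqs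
  ext G
  simp only [Set.mem_ofPred_eq]
  constructor
  · rintro ⟨⟨n, hn⟩, h⟩
    refine ⟨⟨n, hn⟩, ?_⟩
    rw [A1a_hom x r hn] at h
    exact (mul_eq_zero.1 h).resolve_left (pow_ne_zero _ hr)
  · rintro ⟨⟨n, hn⟩, h⟩
    refine ⟨⟨n, hn⟩, ?_⟩
    rw [A1a_hom x r hn, h, mul_zero]

theorem cyc_smul (x : Fin s → M) {r : M} (hr : r ≠ 0) : cyc k (fun l => r * x l) = cyc k x := by
  unfold cyc
  rw [eqs_smul x hr, fld_smul x hr]

theorem cls_smul (D : Dat k s m c) (d : ℕ) (x : Fin s → M) {r : M} (hr : r ≠ 0) :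
    cls D d (fun l => r * x l) = cls D d x := by
  unfold cls
  rw [cyc_smul x hr]

end Pool.Agent.LibDV76
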