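import Pool.Agent.LibDV76.Defs2
import Pool.Agent.LibCHd.Api

/-!
[DV A5] Rules for the values `ev D x t a` of the forms. `ev_scale`: the form is homogeneous of degree `n` and contains only variables of the group `a`
(`MvPolynomial.eval₂Hom_congr'` / `MvPolynomial.aeval` as a sum over the monomials; first replace `τ (γ l) * x l` by `τ a * x l`: `ev_congr`). `ev_red`: `Red` of a
polynomial whose variables have residues: `Pool.Agent.LibDV76.red_aeval` in F0.lean for `x`, `y` changed to `0` outside of the group `a` (`ev_congr`).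
-/

open scoped Classical
open Polynomial

namespace Pool.Agent.LibDV76

open Pool.Agent.LibBH2
open Pool.Agent.LibCHd (VR RF Red FunF)

variable {k : Type} [Field k] {s m c : ℕ} {D : Dat k s m c} {M M' : Type} [Field M] [Algebra k M] [Field M'] [Algebra k M']

private theorem A5_sc {φ : MvPolynomial (Fin s) k} {n : ℕ} (h : φ.IsHomogeneous n) (c : M)
    (x : Fin s → M) :
    MvPolynomial.aeval (fun l => c * x l) φ = c ^ n * MvPolynomial.aeval x φ := by
  rw [MvPolynomial.aeval_def, MvPolynomial.aeval_def, MvPolynomial.eval₂_eq, MvPolynomial.eval₂_eq,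
    Finset.mul_sum]
  refine Finset.sum_congr rfl fun d hd => ?_
  have hdeg : ∑ i ∈ d.support, d i = n := (h.degree_eq_sum_deg_support hd).symm
  have h1 : ∏ i ∈ d.support, (c * x i) ^ d i = c ^ n * ∏ i ∈ d.support, x i ^ d i := by
    rw [← hdeg, ← Finset.prod_pow_eq_pow_sum, ← Finset.prod_mul_distrib]
    exact Finset.prod_congr rfl fun i _ => mul_pow _ _ _
  rw [h1]
  ring

private theorem A5_red {K : Type} [Field K] [Algebra k K] {v : Place k K} {x : Fin s → K}
    {y : Fin s → RF v} (h : ∀ l, Red v (x l) (y l)) (φ : MvPolynomial (Fin s) k) :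
    Red v (MvPolynomial.aeval x φ) (MvPolynomial.aeval y φ) := by
  induction φ using MvPolynomial.induction_on with
  | C r =>
    rw [MvPolynomial.aeval_C, MvPolynomial.aeval_C]
    exact Pool.Agent.LibCHd.red_const v r
  | add p q hp hq =>
    rw [map_add, map_add]
    exact hp.add hq
  | mul_X p i hp =>
    rw [map_mul, map_mul, MvPolynomial.aeval_X, MvPolynomial.aeval_X]
    exact hp.mul (h i)

theorem ev_congr (hD : D.Good) {x y : Fin s → M} {a : Fin m} (h : ∀ l, D.γ l = a → x l = y l) (t : Fin c) :
    ev D x t a = ev D y t a := by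
  unfold ev
  rw [MvPolynomial.aeval_eq_eval₂Hom, MvPolynomial.aeval_eq_eval₂Hom]
  exact MvPolynomial.eval₂Hom_congr' rfl (fun l hl _ => h l (hD.loc t a l hl)) rfl

theorem ev_scale (hD : D.Good) (τ : Fin m → M) (x : Fin s → M) (t : Fin c) (a : Fin m) :
    ev D (fun l => τ (D.γ l) * x l) t a = τ a ^ D.n * ev D x t a := by
  rw [ev_congr hD (y := fun l => τ a * x l) (fun l hl => by rw [hl]) t]
  exact A5_sc (hD.hom t a) (τ a) x

theorem ev_map (i : M →ₐ[k] M') (x : Fin s → M) (t : Fin c) (a : Fin m) :
    ev D (fun l => i (x l)) t a = i (ev D x t a) := by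
  unfold ev
  exact (MvPolynomial.comp_aeval_apply x i (D.F t a)).symm

theorem ev_zero (hD : D.Good) {x : Fin s → M} {a : Fin m} (h : ∀ l, D.γ l = a → x l = 0) (t : Fin c) :
    ev D x t a = 0 := by
  rw [ev_congr hD (y := fun l => (0 : M) * x l) (fun l hl => by rw [h l hl, mul_zero]) t]
  unfold ev
  rw [A5_sc (hD.hom t a), zero_pow (by have := hD.two; omega), zero_mul]

theorem ev_red (hD : D.Good) {K : Type} [Field K] [Algebra k K] {v : Place k K} {x : Fin s → K} {y : Fin s → RF v}
    {a : Fin m} (h : ∀ l, D.γ l = a → Red v (x l) (y l)) (t : Fin c) : Red v (ev D x t a) (ev D y t a) := by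
  have e1 : ev D x t a = ev D (fun l => if D.γ l = a then x l else 0) t a :=
    ev_congr hD (fun l hl => by rw [if_pos hl]) t
  have e2 : ev D y t a = ev D (fun l => if D.γ l = a then y l else 0) t a :=
    ev_congr hD (fun l hl => by rw [if_pos hl]) t
  rw [e1, e2]
  unfold ev
  refine A5_red (fun l => ?_) _
  by_cases hl : D.γ l = a
  · rw [if_pos hl, if_pos hl]
    exact h l hl
  · rw [if_neg hl, if_neg hl]
    exact Pool.Agent.LibCHd.red_zero v

end Pool.Agent.LibDV76
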