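import Pool.Agent.LibDV76.A1
import Pool.Agent.LibDV76.A5

/-!
[DV A6] Rules for the action `act D h x` and for `On`. `on_act`, `on_smul`: `ev_scale`. `fld_act`: the ratios are multiplied by nonzero constants.
`cyc_act_zero`: `cyc_zero_iff` and `fld_act`.
-/

open scoped Classical
open Polynomial

namespace Pool.Agent.LibDV76

open Pool.Agent.LibBH2
open Pool.Agent.LibCHd (VR RF Red FunF)

variable {k : Type} [Field k] {s m c : ℕ} {D : Dat k s m c} {M M' : Type} [Field M] [Algebra k M] [Field M'] [Algebra k M']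

theorem act_act (g h : Fin m → k) (x : Fin s → M) : act D g (act D h x) = act D (fun a => g a * h a) x := by
  funext l
  simp only [act, map_mul]
  ring

theorem act_map (i : M →ₐ[k] M') (h : Fin m → k) (x : Fin s → M) :
    (fun l => i (act D h x l)) = act D h (fun l => i (x l)) := by
  funext l
  simp only [act, map_mul, AlgHom.commutes]

theorem act_smul (h : Fin m → k) (r : M) (x : Fin s → M) :
    act D h (fun l => r * x l) = fun l => r * act D h x l := by
  funext l
  simp only [act]
  ring

theorem on_act (hD : D.Good) {h : Fin m → k} (hh : ∀ a, h a ^ D.n = 1) {x : Fin s → M} (hx : On D x) :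
    On D (act D h x) := by
  have hn : D.n ≠ 0 := by
    have := hD.two
    omega
  have hh0 : ∀ a, h a ≠ 0 := by
    intro a h0
    have h1 := hh a
    rw [h0, zero_pow hn] at h1
    exact zero_ne_one h1
  refine ⟨fun h0 => hx.1 ?_, fun t => ?_⟩
  · funext l
    have h1 := congrFun h0 l
    simp only [act, Pi.zero_apply, mul_eq_zero] at h1
    rcases h1 with h1 | h1
    · exact absurd ((map_eq_zero (algebraMap k M)).1 h1) (hh0 _)
    · exact h1
  · rw [← hx.2 t]
    refine Finset.sum_congr rfl fun a _ => ?_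
    have h1 := ev_scale hD (fun a => algebraMap k M (h a)) x t a
    rw [← map_pow, hh a, map_one, one_mul] at h1
    exact h1

theorem on_map (i : M →ₐ[k] M') {x : Fin s → M} (hx : On D x) : On D (fun l => i (x l)) := by
  refine ⟨fun h0 => hx.1 ?_, fun t => ?_⟩
  · funext l
    have h1 := congrFun h0 l
    exact (map_eq_zero i).1 h1
  · calc ∑ a, ev D (fun l => i (x l)) t a = ∑ a, i (ev D x t a) :=
          Finset.sum_congr rfl fun a _ => ev_map i x t a
      _ = i (∑ a, ev D x t a) := (map_sum i _ _).symm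
      _ = 0 := by rw [hx.2 t, map_zero]

theorem on_smul (hD : D.Good) {r : M} (hr : r ≠ 0) {x : Fin s → M} (hx : On D x) : On D (fun l => r * x l) := by
  refine ⟨fun h0 => hx.1 ?_, fun t => ?_⟩
  · funext l
    have h1 := congrFun h0 l
    simp only [Pi.zero_apply, mul_eq_zero] at h1
    rcases h1 with h1 | h1
    · exact absurd h1 hr
    · exact h1
  · calc ∑ a, ev D (fun l => r * x l) t a = ∑ a, r ^ D.n * ev D x t a :=
          Finset.sum_congr rfl fun a _ => ev_scale hD (fun _ => r) x t a
      _ = r ^ D.n * ∑ a, ev D x t a := (Finset.mul_sum _ _ _).symm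
      _ = 0 := by rw [hx.2 t, mul_zero]

private theorem A6_fld_le (h : Fin m → k) (x : Fin s → M) : fld k (act D h x) ≤ fld k x := by
  unfold fld
  rw [IntermediateField.adjoin_le_iff]
  rintro r ⟨l, l', rfl⟩
  have h1 : act D h x l / act D h x l' =
      algebraMap k M (h (D.γ l) / h (D.γ l')) * (x l / x l') := by
    simp only [act]
    rw [map_div₀, mul_div_mul_comm]
  rw [h1]
  exact mul_mem (IntermediateField.algebraMap_mem _ _)
    (IntermediateField.subset_adjoin k _ ⟨l, l', rfl⟩)

theorem fld_act {h : Fin m → k} (hh : ∀ a, h a ≠ 0) (x : Fin s → M) : fld k (act D h x) = fld k x := by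
  refine le_antisymm (A6_fld_le h x) ?_
  have h1 := A6_fld_le (D := D) (fun a => (h a)⁻¹) (act D h x)
  rw [act_act] at h1
  have h2 : act D (fun a => (h a)⁻¹ * h a) x = x := by
    funext l
    simp only [act]
    rw [inv_mul_cancel₀ (hh _), map_one, one_mul]
  rw [h2] at h1
  exact h1

theorem cyc_act_zero {h : Fin m → k} (hh : ∀ a, h a ≠ 0) {x : Fin s → M} (hx : cyc k x = 0) :
    cyc k (act D h x) = 0 := by
  rw [cyc_zero_iff] at hx ⊢
  rw [fld_act hh x]
  exact hx

theorem mem_grp {n : ℕ} (hn : 0 < n) {h : Fin m → k} : h ∈ grp k n m ↔ ∀ a, h a ^ n = 1 := by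
  unfold grp
  rw [Fintype.mem_piFinset]
  exact forall_congr' fun a => mem_nthRootsFinset hn _

theorem grp_ne {n : ℕ} (hn : 0 < n) {h : Fin m → k} (hh : h ∈ grp k n m) (a : Fin m) : h a ≠ 0 := by
  have h1 := (mem_grp hn).1 hh a
  intro h0
  rw [h0, zero_pow hn.ne'] at h1
  exact zero_ne_one h1

end Pool.Agent.LibDV76
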