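import Pool.Agent.LibDV76.A5
import Pool.Agent.LibDV76.A6

/-!
[DV A2] Specialisation of points. `sp_exists`: divide by a coordinate of minimal order (among the nonzero ones). `sp_unique`: `l x → y`, `l' x → y'`; if `y a ≠ 0` then
`l' / l = (l' x a) / (l x a)` has the residue `r = y' a / y a`, so `y' = r y`, and `r ≠ 0` because `y' ≠ 0`. `on_sp`: the equations are homogeneous (`ev_scale`
with a constant factor) and `ev_red`.
-/

open scoped Classical
open Polynomial

namespace Pool.Agent.LibDV76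

open Pool.Agent.LibBH2
open Pool.Agent.LibCHd (VR RF Red FunF)

variable {k : Type} [Field k] {s m c : ℕ} {D : Dat k s m c} {K : Type} [Field K] [Algebra k K] {v : Place k K}

private theorem A2_red_sum {ι : Type} (S : Finset ι) (f : ι → K) (g : ι → RF v)
    (h : ∀ i ∈ S, Red v (f i) (g i)) : Red v (∑ i ∈ S, f i) (∑ i ∈ S, g i) := by
  induction S using Finset.induction_on with
  | empty => simpa using Pool.Agent.LibCHd.red_zero v
  | insert a S ha ih =>
    rw [Finset.sum_insert ha, Finset.sum_insert ha]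
    exact (h a (Finset.mem_insert_self a S)).add
      (ih fun i hi => h i (Finset.mem_insert_of_mem hi))

theorem sp_exists (v : Place k K) {x : Fin s → K} (hx : x ≠ 0) : ∃ y, Sp v x y := by
  obtain ⟨a0, ha0⟩ := Function.ne_iff.1 hx
  have ha0' : x a0 ≠ 0 := ha0
  obtain ⟨b, hb, hmin⟩ := Finset.exists_min_image (Finset.univ.filter fun l => x l ≠ 0)
    (fun l => v.ord (x l)) ⟨a0, Finset.mem_filter.2 ⟨Finset.mem_univ _, ha0'⟩⟩
  have hb' : x b ≠ 0 := (Finset.mem_filter.1 hb).2
  have hreg : ∀ a, v.Reg ((x b)⁻¹ * x a) := by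
    intro a
    by_cases ha : x a = 0
    · left
      rw [ha, mul_zero]
    · right
      have h1 := hmin a (Finset.mem_filter.2 ⟨Finset.mem_univ _, ha⟩)
      rw [mul_comm, ← div_eq_mul_inv, v.ord_div _ _ ha hb']
      omega
  choose y hy using fun a => Pool.Agent.LibCHd.exists_red (hreg a)
  refine ⟨y, ?_, (x b)⁻¹, hy⟩
  intro h0
  have h1 := hy b
  rw [inv_mul_cancel₀ hb', congrFun h0 b] at h1
  have h2 : (1 : RF v) = 0 := (Pool.Agent.LibCHd.red_one v).unique h1
  exact one_ne_zero h2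

theorem sp_unique {x : Fin s → K} {y y' : Fin s → RF v} (h : Sp v x y) (h' : Sp v x y') :
    ∃ r : RF v, r ≠ 0 ∧ y' = fun l => r * y l := by
  obtain ⟨hy, l, hl⟩ := h
  obtain ⟨hy', l', hl'⟩ := h'
  obtain ⟨a, ha⟩ := Function.ne_iff.1 hy
  have ha' : y a ≠ 0 := ha
  have hne : l * x a ≠ 0 := (hl a).ne_zero ha'
  have hl0 : l ≠ 0 := left_ne_zero_of_mul hne
  have hx0 : x a ≠ 0 := right_ne_zero_of_mul hne
  have hq : Red v (l' / l) (y' a / y a) := by
    have h1 := (hl' a).div (hl a) ha'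
    have h2 : l' * x a / (l * x a) = l' / l := by
      rw [mul_div_mul_right _ _ hx0]
    rwa [h2] at h1
  have hall : ∀ b, y' b = (y' a / y a) * y b := by
    intro b
    have h1 := hq.mul (hl b)
    have h2 : l' / l * (l * x b) = l' * x b := by
      rw [← mul_assoc, div_mul_cancel₀ _ hl0]
    rw [h2] at h1
    exact (hl' b).unique h1
  refine ⟨y' a / y a, ?_, funext hall⟩
  intro h0
  apply hy'
  funext b
  rw [hall b, h0, zero_mul]
  rfl

theorem on_sp (hD : D.Good) {x : Fin s → K} {y : Fin s → RF v} (hx : On D x) (h : Sp v x y) : On D y := by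
  obtain ⟨hy, l, hl⟩ := h
  refine ⟨hy, fun t => ?_⟩
  have h1 : Red v (∑ a, ev D (fun b => l * x b) t a) (∑ a, ev D y t a) :=
    A2_red_sum _ _ _ fun a _ => ev_red hD (fun b _ => hl b) t
  have h2 : ∑ a, ev D (fun b => l * x b) t a = 0 := by
    have h3 : ∀ a, ev D (fun b => l * x b) t a = l ^ D.n * ev D x t a :=
      fun a => ev_scale hD (fun _ => l) x t a
    rw [Finset.sum_congr rfl fun a _ => h3 a, ← Finset.mul_sum, hx.2 t, mul_zero]
  rw [h2] at h1
  exact h1.unique (Pool.Agent.LibCHd.red_zero v)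

theorem sp_act {h : Fin m → k} (hh : ∀ a, h a ≠ 0) {x : Fin s → K} {y : Fin s → RF v} (hx : Sp v x y) :
    Sp v (act D h x) (act D h y) := by
  obtain ⟨hy, l, hl⟩ := hx
  refine ⟨?_, l, fun a => ?_⟩
  · intro h0
    obtain ⟨a, ha⟩ := Function.ne_iff.1 hy
    have ha' : y a ≠ 0 := ha
    have h1 : algebraMap k (RF v) (h (D.γ a)) * y a = 0 := congrFun h0 a
    rcases mul_eq_zero.1 h1 with h2 | h2
    · exact hh _ ((map_eq_zero_iff _ (algebraMap k (RF v)).injective).1 h2)
    · exact ha' h2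
  · have h1 := (Pool.Agent.LibCHd.red_const v (h (D.γ a))).mul (hl a)
    have h2 : l * act D h x a = algebraMap k K (h (D.γ a)) * (l * x a) := by
      unfold act
      ring
    rw [h2]
    exact h1

theorem sp_cyc {x : Fin s → K} {y y' : Fin s → RF v} (h : Sp v x y) (h' : Sp v x y') : cyc k y' = cyc k y := by
  obtain ⟨r, hr, hy⟩ := sp_unique h h'
  rw [hy]
  exact cyc_smul y hr

end Pool.Agent.LibDV76
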