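import Pool.Agent.LibDV76.A2

/-!
[DV A3] The relation given by the divisor of `g`: the cycle is in `RatEq` by definition (`IsDiv`). Template: `div_rel` in LibCW77 (D6.lean or D4.lean). For `v ∉ S` use `sp_cyc`.
-/

open scoped Classical
open Polynomial

namespace Pool.Agent.LibDV76

open Pool.Agent.LibBH2
open Pool.Agent.LibCHd (VR RF Red FunF)

variable {k : Type} [Field k] {s m c : ℕ}

theorem div_rel (D : Dat k s m c) (d : ℕ) {N : Type} [Field N] [Algebra k N] (hN : FunF k (d + 1) N) {P : Fin s → N}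
    (hP : On D P) (g : N) (hg : g ≠ 0) (S : Finset (Place k N)) (y : ∀ v : Place k N, Fin s → RF v)
    (hy : ∀ v, Sp v P (y v)) (hS : ∀ v ∈ S, FunF k d (RF v))
    (hout : ∀ v, v ∉ S → v.ord g ≠ 0 → FunF k d (RF v) → cyc k (y v) = 0) :
    ∑ v ∈ S, v.ord g • cls D d (y v) = 0 := by
  have hmem : (∑ v ∈ S, v.ord g • cyc k (y v)) ∈ RatEq D d := by
    refine AddSubgroup.subset_closure ?_
    refine ⟨N, inferInstance, inferInstance, P, g, S, fun v => cyc k (y v), hN, hP, hg, ?_, ?_, rfl⟩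
    · intro v hv
      exact ⟨hS v hv, y v, hy v, rfl⟩
    · intro v hv ho hF y' hy'
      rw [sp_cyc (hy v) hy']
      exact hout v hv ho hF
  have h0 : (QuotientAddGroup.mk (∑ v ∈ S, v.ord g • cyc k (y v)) : CH D d) = 0 :=
    (QuotientAddGroup.eq_zero_iff _).2 hmem
  rw [← h0]
  have h1 := map_sum (QuotientAddGroup.mk' (RatEq D d)) (fun v => v.ord g • cyc k (y v)) S
  refine Eq.trans ?_ h1.symm
  refine Finset.sum_congr rfl fun v _ => ?_
  exact (map_zsmul (QuotientAddGroup.mk' (RatEq D d)) (v.ord g) (cyc k (y v))).symm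

end Pool.Agent.LibDV76
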