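import Pool.Agent.LibDV76.A2
import Pool.Agent.LibDV76.F0

/-!
[DV A4] Finiteness. If `cyc k y ≠ 0` then `RF v` is finite over `fld k y` (`cyc_zero_iff`), so `trdeg k (fld k y) = d`. Let `y b ≠ 0`, then `P b ≠ 0` and
`y l / y b` is the residue of `P l / P b` (`Red.div`), `fld k y` is generated by the `y l / y b`, so there are `l_1, ..., l_d` such that the `y l_i / y b` are algebraically independent
(`exists_isTranscendenceBasis_subset` or similar; see `B5_funF` in LibHL77/B5.lean). So the set is contained in the finite union over `b` and `l : Fin d → Fin s` of the finite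
sets of `fin_indep` (F0.lean).
-/

open scoped Classical
open Polynomial

namespace Pool.Agent.LibDV76

open Pool.Agent.LibBH2
open Pool.Agent.LibCHd (VR RF Red FunF)

variable {k : Type} [Field k] {s : ℕ}

/-- elements generating an algebraic extension contain a transcendence basis -/
private theorem A4_basis {d : ℕ} {E : Type} [Field E] [Algebra k E] (hd : Algebra.trdeg k E = d)
    (S : Set E) [Module.Finite (IntermediateField.adjoin k S) E] :
    ∃ ε : Fin d → E, (∀ i, ε i ∈ S) ∧ AlgebraicIndependent k ε := by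
  have halg : Algebra.IsAlgebraic (Algebra.adjoin k S) E :=
    IntermediateField.isAlgebraic_adjoin_iff_top.1 inferInstance
  obtain ⟨t, htS, ht⟩ := isAlgebraic_iff_exists_isTranscendenceBasis_subset.1 halg
  have h1 : Cardinal.mk t = d := by
    rw [ht.cardinalMk_eq_trdeg, hd]
  obtain ⟨ε⟩ : Nonempty (Fin d ≃ t) := by
    rw [← Cardinal.eq, h1, Cardinal.mk_fin]
  exact ⟨fun i => ε i, fun i => htS (ε i).2, ht.1.comp ε ε.injective⟩

/-- a field which is finite over a smaller field -/
private theorem A4_fin {E : Type} [Field E] [Algebra k E] {A B : IntermediateField k E} (hAB : A ≤ B)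
    [Module.Finite A E] : Module.Finite B E :=
  Pool.Agent.LibHL77.B5_fin_range (C := A) fun c => ⟨⟨c, hAB c.2⟩, rfl⟩

theorem fin_cyc {d : ℕ} {N : Type} [Field N] [Algebra k N] (hN : FunF k (d + 1) N) (g : N) (P : Fin s → N) :
    {v : Place k N | v.ord g ≠ 0 ∧ FunF k d (RF v) ∧ ∃ y, Sp v P y ∧ cyc k y ≠ 0}.Finite := by
  have hfin := fun (b : Fin s) (l : Fin d → Fin s) => fin_indep hN g fun i => P (l i) / P b
  refine (Set.finite_iUnion fun b => Set.finite_iUnion fun l => hfin b l).subset ?_
  rintro v ⟨hv, hR, y, ⟨hy0, lam, hy⟩, hc⟩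
  have hfr : Module.finrank (fld k y) (RF v) ≠ 0 := fun h => hc ((cyc_zero_iff y).2 h)
  have hmf : Module.Finite (fld k y) (RF v) := Module.finite_of_finrank_pos (Nat.pos_of_ne_zero hfr)
  obtain ⟨b, hb⟩ : ∃ b, y b ≠ 0 := by
    by_contra hcon
    push Not at hcon
    exact hy0 (funext hcon)
  have hle : fld k y ≤ IntermediateField.adjoin k (Set.range fun l => y l / y b) := by
    refine IntermediateField.adjoin_le_iff.2 ?_
    rintro r ⟨l, l', rfl⟩
    have h1 : y l / y l' = (y l / y b) / (y l' / y b) := by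
      by_cases h : y l' = 0
      · rw [h]
        simp
      · field_simp
    rw [h1]
    exact div_mem (IntermediateField.subset_adjoin _ _ ⟨l, rfl⟩)
      (IntermediateField.subset_adjoin _ _ ⟨l', rfl⟩)
  have hmf2 : Module.Finite (IntermediateField.adjoin k (Set.range fun l => y l / y b)) (RF v) :=
    A4_fin hle
  obtain ⟨ε, hε, hind⟩ := A4_basis hR.trdeg (Set.range fun l => y l / y b)
  choose l hl using hε
  refine Set.mem_iUnion.2 ⟨b, Set.mem_iUnion.2 ⟨l, hv, ε, ?_, hind⟩⟩
  intro i
  have h1 := (hy (l i)).div (hy b) hb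
  have hlam : lam ≠ 0 := by
    rintro rfl
    exact (hy b).ne_zero hb (zero_mul _)
  rw [mul_div_mul_left _ _ hlam] at h1
  rw [← hl i]
  exact h1

end Pool.Agent.LibDV76
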