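import Pool.Agent.LibDV76.A6

/-!
[DV C3] Rules for `mns`. `mns_act`: reindex the sum over the group by `h ↦ g h` (`act_act`, `chi` is multiplicative). `mns_sum`: `g = (ζ, ..., ζ)` with `ζ` a primitive `n`-th root of unity:
`act D g x = ζ x`, `mns_smul`, `mns_act`, `chi e g = ζ ^ (∑ e a) ≠ 1`. `mns_grp`: `g = ζ` at `a` and `1` elsewhere: `act D g x = x`. `mns_small`: `cyc_small'` for every `act D h x`
(its ratios are constant multiples).
-/

open scoped Classical
open Polynomial

namespace Pool.Agent.LibDV76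

open Pool.Agent.LibBH2
open Pool.Agent.LibCHd (VR RF Red FunF)

variable {k : Type} [Field k] {s m c d : ℕ} {D : Dat k s m c} {W : Type} [AddCommGroup W] [Module k W]
  {M M' : Type} [Field M] [Algebra k M] [Field M'] [Algebra k M']

private theorem C3_root [IsAlgClosed k] [CharZero k] {n : ℕ} (hn : 0 < n) :
    ∃ ζ : k, IsPrimitiveRoot ζ n := by
  have : NeZero n := ⟨hn.ne'⟩
  have : NeZero (n : k) := ⟨Nat.cast_ne_zero.2 hn.ne'⟩
  exact HasEnoughRootsOfUnity.exists_primitiveRoot k n

private theorem C3_zero {r : k} (hr : r ≠ 1) {w : W} (h : r • w = w) : w = 0 := by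
  have h1 : (r - 1) • w = 0 := by rw [sub_smul, one_smul, h, sub_self]
  rcases smul_eq_zero.1 h1 with h2 | h2
  · exact absurd (sub_eq_zero.1 h2) hr
  · exact h2

theorem chi_mul (e : Fin m → ℕ) (g h : Fin m → k) : chi e (fun a => g a * h a) = chi e g * chi e h := by
  simp only [chi, mul_pow, Finset.prod_mul_distrib]

theorem mns_act (hD : D.Good) (e : Fin m → ℕ) (q : CH D d →+ W) {g : Fin m → k} (hg : g ∈ grp k D.n m)
    (x : Fin s → M) : chi e g • mns e q (act D g x) = mns e q x := by
  have hn : 0 < D.n := lt_of_lt_of_le two_pos hD.two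
  have hg' : ∀ a, g a ^ D.n = 1 := (mem_grp hn).1 hg
  have hg0 : ∀ a, g a ≠ 0 := grp_ne hn hg
  unfold mns
  rw [Finset.smul_sum]
  refine Finset.sum_nbij' (fun h a => h a * g a) (fun h a => h a * (g a)⁻¹) ?_ ?_ ?_ ?_ ?_
  · intro h hh
    have hh' := (mem_grp hn).1 hh
    refine (mem_grp hn).2 fun a => ?_
    rw [mul_pow, hh' a, hg' a, one_mul]
  · intro h hh
    have hh' := (mem_grp hn).1 hh
    refine (mem_grp hn).2 fun a => ?_
    rw [mul_pow, hh' a, inv_pow, hg' a, inv_one, one_mul]
  · intro h _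
    funext a
    rw [mul_assoc, mul_inv_cancel₀ (hg0 a), mul_one]
  · intro h _
    funext a
    rw [mul_assoc, inv_mul_cancel₀ (hg0 a), mul_one]
  · intro h _
    rw [act_act, chi_mul, smul_smul, mul_comm (chi e g) (chi e h)]

theorem mns_smul (e : Fin m → ℕ) (q : CH D d →+ W) (x : Fin s → M) {r : M} (hr : r ≠ 0) :
    mns e q (fun l => r * x l) = mns e q x := by
  unfold mns
  refine Finset.sum_congr rfl fun h _ => ?_
  rw [act_smul, cls_smul D d (act D h x) hr]

theorem mns_map (e : Fin m → ℕ) (q : CH D d →+ W) (i : M →ₐ[k] M') (x : Fin s → M) :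
    mns e q (fun l => i (x l)) = Module.finrank i.fieldRange M' • mns e q x := by
  unfold mns
  rw [Finset.smul_sum]
  refine Finset.sum_congr rfl fun h _ => ?_
  rw [← act_map, cls_map D d i (act D h x), natCast_zsmul, map_nsmul, smul_comm]

theorem mns_sum [IsAlgClosed k] [CharZero k] (hD : D.Good) {e : Fin m → ℕ} (he : ¬ D.n ∣ ∑ a, e a) (q : CH D d →+ W)
    (x : Fin s → M) : mns e q x = 0 := by
  have hn : 0 < D.n := lt_of_lt_of_le two_pos hD.two
  obtain ⟨ζ, hζ⟩ := C3_root (k := k) hn
  have hζ0 : ζ ≠ 0 := hζ.ne_zero hn.ne'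
  have hg : (fun _ => ζ : Fin m → k) ∈ grp k D.n m := (mem_grp hn).2 fun _ => hζ.pow_eq_one
  have h1 := mns_act hD e q hg x
  have h2 : act D (fun _ => ζ : Fin m → k) x = fun l => algebraMap k M ζ * x l := rfl
  have h3 : algebraMap k M ζ ≠ 0 := by
    rw [Ne, FaithfulSMul.algebraMap_eq_zero_iff]
    exact hζ0
  rw [h2, mns_smul e q x h3] at h1
  have h4 : chi e (fun _ => ζ : Fin m → k) ≠ 1 := by
    simp only [chi, Finset.prod_pow_eq_pow_sum]
    intro h
    exact he (hζ.dvd_of_pow_eq_one _ h)
  exact C3_zero h4 h1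

theorem mns_grp [IsAlgClosed k] [CharZero k] (hD : D.Good) {e : Fin m → ℕ} {a : Fin m} (ha : ¬ D.n ∣ e a)
    (q : CH D d →+ W) {x : Fin s → M} (hx : ∀ l, D.γ l = a → x l = 0) : mns e q x = 0 := by
  have hn : 0 < D.n := lt_of_lt_of_le two_pos hD.two
  obtain ⟨ζ, hζ⟩ := C3_root (k := k) hn
  have hg : (fun b => if b = a then ζ else 1 : Fin m → k) ∈ grp k D.n m := by
    refine (mem_grp hn).2 fun b => ?_
    by_cases hb : b = a
    · rw [if_pos hb]
      exact hζ.pow_eq_one
    · rw [if_neg hb, one_pow]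
  have h1 := mns_act hD e q hg x
  have h2 : act D (fun b => if b = a then ζ else 1 : Fin m → k) x = x := by
    funext l
    unfold act
    by_cases hl : D.γ l = a
    · rw [hx l hl, mul_zero]
    · simp only [if_neg hl, map_one, one_mul]
  rw [h2] at h1
  have h4 : chi e (fun b => if b = a then ζ else 1 : Fin m → k) ≠ 1 := by
    have h5 : chi e (fun b => if b = a then ζ else 1 : Fin m → k) = ζ ^ e a := by
      unfold chi
      rw [Finset.prod_eq_single a]
      · simp only [if_true]
      · intro b _ hb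
        simp only [if_neg hb, one_pow]
      · intro h
        exact absurd (Finset.mem_univ a) h
    rw [h5]
    intro h
    exact ha (hζ.dvd_of_pow_eq_one _ h)
  exact C3_zero h4 h1

theorem mns_cyc (hD : D.Good) (e : Fin m → ℕ) (q : CH D d →+ W) {x : Fin s → M} (hx : cyc k x = 0) :
    mns e q x = 0 := by
  have hn : 0 < D.n := lt_of_lt_of_le two_pos hD.two
  unfold mns
  refine Finset.sum_eq_zero fun h hh => ?_
  have h1 : cls D d (act D h x) = 0 := by
    unfold cls
    rw [cyc_act_zero (grp_ne hn hh) hx]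
    rfl
  rw [h1, map_zero, smul_zero]

theorem mns_small (hD : D.Good) (e : Fin m → ℕ) (q : CH D d →+ W) (hM : FunF k d M) (x : Fin s → M)
    (E : IntermediateField k M) (hE : Algebra.trdeg k E < d) (h : ∀ l l', IsAlgebraic E (x l / x l')) :
    mns e q x = 0 := by
  unfold mns
  refine Finset.sum_eq_zero fun g hg => ?_
  have h1 : cls D d (act D g x) = 0 := by
    unfold cls
    rw [cyc_small' hM (act D g x) E hE ?_]
    · rfl
    · intro l l'
      have h2 : act D g x l / act D g x l' =
          algebraMap E M (algebraMap k E (g (D.γ l) / g (D.γ l'))) * (x l / x l') := by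
        rw [← IsScalarTower.algebraMap_apply, map_div₀]
        unfold act
        rw [mul_div_mul_comm]
      rw [h2]
      exact (isAlgebraic_algebraMap _).mul (h l l')
  rw [h1, map_zero, smul_zero]

end Pool.Agent.LibDV76
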