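import Pool.Agent.LibCHd.Defs

/-!
Cycles on intersections of hypersurfaces of the form `F_1(x_1) + ... + F_m(x_m) = 0`, where each `x_a` is a group of
variables and the `F_a` are forms of the same degree `n`.

A closed integral subvariety of dimension `d` is given by its generic point, a point with coordinates in a
function field `M` of dimension `d`.
-/

open scoped Classical
open Polynomial

namespace Pool.Agent.LibDV76

open Pool.Agent.LibBH2
open Pool.Agent.LibCHd (VR RF Red FunF)

/-- `c` forms in `s` variables: the variables are divided into `m` groups, the form number `t` is `∑ a, F t a`. -/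
structure Dat (k : Type) [Field k] (s m c : ℕ) where
  /-- the degree -/
  n : ℕ
  /-- the group of a variable -/
  γ : Fin s → Fin m
  /-- the summands -/
  F : Fin c → Fin m → MvPolynomial (Fin s) k

variable {k : Type} [Field k] {s m c : ℕ}

/-- `n ≥ 2`, no group is empty, `F t a` is homogeneous of degree `n` (or zero) and contains only variables of the
group `a`. -/
structure Dat.Good (D : Dat k s m c) : Prop where
  two : 2 ≤ D.n
  surj : Function.Surjective D.γ
  hom : ∀ t a, (D.F t a).IsHomogeneous D.n
  loc : ∀ t a, ∀ l ∈ (D.F t a).vars, D.γ l = a

/-- the value of the form `F t a` -/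
noncomputable def ev (D : Dat k s m c) {M : Type} [Field M] [Algebra k M] (x : Fin s → M) (t : Fin c) (a : Fin m) : M :=
  MvPolynomial.aeval x (D.F t a)

/-- `x` are homogeneous coordinates of a point of the variety `X ⊂ ℙ ^ (s - 1)` defined by the `c` forms. -/
def On (D : Dat k s m c) {M : Type} [Field M] [Algebra k M] (x : Fin s → M) : Prop :=
  x ≠ 0 ∧ ∀ t, ∑ a, ev D x t a = 0

/-- The closed subvariety with the generic point `x`, given by its homogeneous equations. -/
def eqs (k : Type) [Field k] {M : Type} [Field M] [Algebra k M] {s : ℕ} (x : Fin s → M) :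
    Set (MvPolynomial (Fin s) k) :=
  {G | (∃ r, G.IsHomogeneous r) ∧ MvPolynomial.aeval x G = 0}

/-- The field generated by the ratios of the coordinates of `x`: the function field of the subvariety. -/
noncomputable def fld (k : Type) [Field k] {M : Type} [Field M] [Algebra k M] {s : ℕ} (x : Fin s → M) :
    IntermediateField k M :=
  IntermediateField.adjoin k {r | ∃ l l', r = x l / x l'}

/-- Cycles: formal integral combinations of closed subvarieties, each given by the set of its equations (sets of
polynomials which are not of the form `eqs k x` play no role). -/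
abbrev Cyc (k : Type) [Field k] (s : ℕ) : Type := Set (MvPolynomial (Fin s) k) →₀ ℤ

/-- The cycle of the point `x`: the subvariety with the generic point `x`, with the multiplicity `[M : k(x)]` if
this degree is finite, and `0` otherwise (push-forward of the fundamental cycle of a model of `M`). -/
noncomputable def cyc (k : Type) [Field k] {M : Type} [Field M] [Algebra k M] {s : ℕ} (x : Fin s → M) : Cyc k s :=
  Finsupp.single (eqs k x) (Module.finrank (fld k x) M : ℤ)

/-- `y` is the specialisation of the point `x` at the place `v`. -/
def Sp {K : Type} [Field K] [Algebra k K] (v : Place k K) {s : ℕ} (x : Fin s → K) (y : Fin s → RF v) : Prop :=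
  y ≠ 0 ∧ ∃ l : K, ∀ a, Red v (l * x a) (y a)

/-- `e` is the push-forward of the divisor of a function `g`: `K` is a function field of dimension `d + 1`, `x` a
`K`-point of `X` (a rational map from a model of `K`), and `e` is the sum over the places `v` of `K` whose residue
field is a function field of dimension `d` of `ord_v g` times the cycle of the specialisation of `x` at `v`. -/
def IsDiv (D : Dat k s m c) (d : ℕ) (e : Cyc k s) : Prop :=
  ∃ (K : Type) (_ : Field K) (_ : Algebra k K) (x : Fin s → K) (g : K) (S : Finset (Place k K))
    (E : Place k K → Cyc k s),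
    FunF k (d + 1) K ∧ On D x ∧ g ≠ 0 ∧
    (∀ v ∈ S, FunF k d (RF v) ∧ ∃ y : Fin s → RF v, Sp v x y ∧ E v = cyc k y) ∧
    (∀ v, v ∉ S → v.ord g ≠ 0 → FunF k d (RF v) → ∀ y : Fin s → RF v, Sp v x y → cyc k y = 0) ∧
    e = ∑ v ∈ S, v.ord g • E v

/-- The cycles of dimension `d` rationally equivalent to zero. -/
noncomputable def RatEq (D : Dat k s m c) (d : ℕ) : AddSubgroup (Cyc k s) :=
  AddSubgroup.closure {e | IsDiv D d e}

/-- The Chow group `CH_d(X)`: cycles modulo rational equivalence. -/
abbrev CH (D : Dat k s m c) (d : ℕ) : Type := Cyc k s ⧸ RatEq D d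

/-- The class of the cycle of the point `x`. -/
noncomputable def cls (D : Dat k s m c) (d : ℕ) {M : Type} [Field M] [Algebra k M] (x : Fin s → M) : CH D d :=
  QuotientAddGroup.mk (cyc k x)

end Pool.Agent.LibDV76
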