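import Pool.Agent.LibDV76.Defs

/-!
The group `μ_n ^ m`, isotypic parts, blocks, Z-points.
-/

open scoped Classical
open Polynomial

namespace Pool.Agent.LibDV76

open Pool.Agent.LibBH2
open Pool.Agent.LibCHd (VR RF Red FunF)

variable {k : Type} [Field k] {s m c p d : ℕ}

/-- `μ_n ^ m` -/
noncomputable def grp (k : Type) [Field k] (n m : ℕ) : Finset (Fin m → k) :=
  Fintype.piFinset fun _ => nthRootsFinset n (1 : k)

/-- the action of `h` on points: the variables of the group `a` are multiplied by `h a` -/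
noncomputable def act (D : Dat k s m c) (h : Fin m → k) {M : Type} [Field M] [Algebra k M] (x : Fin s → M) :
    Fin s → M :=
  fun l => algebraMap k M (h (D.γ l)) * x l

/-- the character with the exponents `e` -/
def chi (e : Fin m → ℕ) (h : Fin m → k) : k := ∏ a, h a ^ e a

variable {D : Dat k s m c} {W : Type} [AddCommGroup W] [Module k W]

/-- the isotypic part of the class of `x`, for a homomorphism `q` of the Chow group to a vector space over `k` -/
noncomputable def mns (e : Fin m → ℕ) (q : CH D d →+ W) {M : Type} [Field M] [Algebra k M] (x : Fin s → M) : W :=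
  ∑ h ∈ grp k D.n m, chi e h • q (cls D d (act D h x))

/-- `b` divides the `m` groups into `p` blocks; the sum of the exponents in each block is divisible by `n`; the groups
with `n ∣ e a` are blocks -/
structure Bl (n : ℕ) (e : Fin m → ℕ) (b : Fin m → Fin p) : Prop where
  surj : Function.Surjective b
  sum : ∀ C, n ∣ ∑ a ∈ Finset.univ.filter (fun a => b a = C), e a
  sgl : ∀ a, n ∣ e a → ∀ a', b a' = b a → a' = a

/-- `(u, Y)`: `u` a vector on each group up to a factor on each block, `Y` the `n`-th powers of the factors -/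
structure Zp (s p : ℕ) (M : Type) where
  u : Fin s → M
  Y : Fin p → M

/-- the map on Z-points induced by a homomorphism of fields -/
def Zp.map {M M' : Type} (f : M → M') (z : Zp s p M) : Zp s p M' := ⟨fun l => f (z.u l), fun C => f (z.Y C)⟩

/-- the conditions for `(u, Y)` -/
structure IsZ (D : Dat k s m c) (e : Fin m → ℕ) (b : Fin m → Fin p) {M : Type} [Field M] [Algebra k M]
    (z : Zp s p M) : Prop where
  u0 : ∀ a, ∃ l, D.γ l = a ∧ z.u l ≠ 0
  Y0 : ∃ C, z.Y C ≠ 0
  YC : ∀ a, ¬ D.n ∣ e a → z.Y (b a) ≠ 0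
  rel : ∀ t, ∑ a, ev D z.u t a * z.Y (b a) = 0

/-- the point `P` of `X` lies over `z` -/
def IsLift (D : Dat k s m c) (b : Fin m → Fin p) {M : Type} [Field M] (z : Zp s p M) (P : Fin s → M) : Prop :=
  ∃ (y : Fin p → M) (κ : M), κ ≠ 0 ∧ (∀ l, P l = z.u l * y (b (D.γ l))) ∧ ∀ C, y C ^ D.n = κ * z.Y C

/-- the same Z-point with other coordinates -/
def ZEq (D : Dat k s m c) (b : Fin m → Fin p) {M : Type} [Field M] (z z' : Zp s p M) : Prop :=
  ∃ (τ : Fin p → M) (κ : M), (∀ C, τ C ≠ 0) ∧ κ ≠ 0 ∧ (∀ l, z'.u l = τ (b (D.γ l)) * z.u l) ∧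
    ∀ C, z'.Y C = κ * z.Y C / τ C ^ D.n

/-- specialisation of Z-points -/
def SpZ (D : Dat k s m c) (b : Fin m → Fin p) {K : Type} [Field K] [Algebra k K] (v : Place k K) (z : Zp s p K)
    (z' : Zp s p (RF v)) : Prop :=
  ∃ (τ : Fin p → K) (κ : K), (∀ C, τ C ≠ 0) ∧ κ ≠ 0 ∧ (∀ l, Red v (τ (b (D.γ l)) * z.u l) (z'.u l)) ∧
    ∀ C, Red v (κ * z.Y C / τ C ^ D.n) (z'.Y C)

/-- the Z-point of a point -/
noncomputable def zpt (D : Dat k s m c) (b : Fin m → Fin p) {M : Type} [Field M] (P : Fin s → M) : Zp s p M :=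
  ⟨fun l => if ∃ l', D.γ l' = D.γ l ∧ P l' ≠ 0 then P l else 1,
    fun C => if ∃ l, b (D.γ l) = C ∧ P l ≠ 0 then 1 else 0⟩

/-- the class of a Z-point: the class `mns` of a lift over `M'`, divided by the degree of `M'` -/
noncomputable def TZ (e : Fin m → ℕ) (b : Fin m → Fin p) (q : CH D d →+ W) {M : Type} [Field M] [Algebra k M]
    (z : Zp s p M) : W :=
  if h : IsZ D e b z ∧ ∃ t : W, ∀ (M' : Type) (_ : Field M') (_ : Algebra k M') (i : M →ₐ[k] M') (P : Fin s → M'),
    Module.finrank i.fieldRange M' ≠ 0 → IsLift D b (z.map i) P →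
    mns e q P = Module.finrank i.fieldRange M' • t then h.2.choose else 0

/-- the class of the specialisation of `z` at the place `v` (zero if it is not a Z-point of dimension `d`) -/
noncomputable def TV (e : Fin m → ℕ) (b : Fin m → Fin p) (q : CH D d →+ W) {K : Type} [Field K] [Algebra k K]
    (v : Place k K) (z : Zp s p K) : W :=
  if h : FunF k d (RF v) ∧ ∃ z' : Zp s p (RF v), IsZ D e b z' ∧ SpZ D b v z z' then TZ e b q h.2.choose else 0

/-- the field generated by the ratios of the coordinates `u` in the blocks -/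
noncomputable def bf (D : Dat k s m c) (b : Fin m → Fin p) {M : Type} [Field M] [Algebra k M] (z : Zp s p M) :
    IntermediateField k M :=
  IntermediateField.adjoin k {r | ∃ l l', b (D.γ l) = b (D.γ l') ∧ r = z.u l / z.u l'}

/-- the classes of the Z-points `z` with `trdeg (bf z) < f` are in `L` -/
def Low (e : Fin m → ℕ) (b : Fin m → Fin p) (q : CH D d →+ W) (L : AddSubgroup W) (f : ℕ) : Prop :=
  ∀ (M : Type) (_ : Field M) (_ : Algebra k M) (z : Zp s p M), FunF k d M → IsZ D e b z →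
    Algebra.trdeg k (bf D b z) < f → TZ e b q z ∈ L

/-- `h 0, ..., h (r - 1)` are linearly independent vectors over `F` in the kernel of the linear forms
`∑ a, ev D u t a * Y (b a)` -/
structure KB (D : Dat k s m c) (b : Fin m → Fin p) {F : Type} [Field F] [Algebra k F] (u : Fin s → F)
    (h : ℕ → Fin p → F) (r : ℕ) : Prop where
  ker : ∀ i < r, ∀ t, ∑ a, ev D u t a * h i (b a) = 0
  ind : ∀ x : ℕ → F, (∀ C, ∑ i ∈ Finset.range r, x i * h i C = 0) → ∀ i < r, x i = 0

/-- the Z-point `(u, ∑ i < r, η i * h i)`, `u` and `h` over the subfield `F` -/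
noncomputable def zF {F M : Type} [Field F] [Algebra k F] [Field M] [Algebra k M] (φ : F →ₐ[k] M) (u : Fin s → F)
    (h : ℕ → Fin p → F) (r : ℕ) (η : ℕ → M) : Zp s p M :=
  ⟨fun l => φ (u l), fun C => ∑ i ∈ Finset.range r, η i * φ (h i C)⟩

/-- the path of Z-points `u_l ↦ lam ^ ε_a u_l` for `l` in the group `a`, `Y = ∑ i < r, η i * R i (lam)` -/
noncomputable def pz (D : Dat k s m c) {F N : Type} [Field F] [Algebra k F] [Field N] [Algebra k N] (ψ : F →ₐ[k] N)
    (lam : N) (ε : Fin m → ℕ) (u : Fin s → F) (R : ℕ → Fin p → F[X]) (r : ℕ) (η : ℕ → N) : Zp s p N :=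
  ⟨fun l => lam ^ ε (D.γ l) * ψ (u l),
    fun C => ∑ i ∈ Finset.range r, η i * (R i C).eval₂ (ψ : F →+* N) lam⟩

/-- `R 0, ..., R (r - 1)` are in the kernel of the linear forms `∑ a, ev D u t a * X ^ (n * ε a) * Y (b a)` -/
def PK (D : Dat k s m c) (b : Fin m → Fin p) {F : Type} [Field F] [Algebra k F] (u : Fin s → F) (ε : Fin m → ℕ)
    (R : ℕ → Fin p → F[X]) (r : ℕ) : Prop :=
  ∀ i < r, ∀ t, ∑ a, C (ev D u t a) * X ^ (D.n * ε a) * R i (b a) = 0

end Pool.Agent.LibDV76
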