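import Pool.Agent.LibDV76.Defs2

/-!
The locus of the constant `u` with `d + 1` independent vectors in the kernel, classes of the corresponding cycles; rational function fields in `r` variables.
-/

open scoped Classical
open Polynomial

namespace Pool.Agent.LibDV76

open Pool.Agent.LibBH2
open Pool.Agent.LibCHd (VR RF Red FunF)

variable {k : Type} [Field k] {s m c p d : ℕ}

/-- `u` is not zero on each group of variables -/
def Val (D : Dat k s m c) {F : Type} [Field F] (u : Fin s → F) : Prop := ∀ a, ∃ l, D.γ l = a ∧ u l ≠ 0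

/-- `u` is not zero on each group of variables, and the linear forms `∑ a, ev D u t a * Y (b a)` have a kernel of
dimension `≥ r` -/
def InS (D : Dat k s m c) (b : Fin m → Fin p) (r : ℕ) {F : Type} [Field F] [Algebra k F] (u : Fin s → F) : Prop :=
  Val D u ∧ ∃ h : ℕ → Fin p → F, KB D b u h r

/-- `u'` is the specialisation of `u` at the place `v`, up to a factor for each block -/
def SpU (D : Dat k s m c) (b : Fin m → Fin p) {K : Type} [Field K] [Algebra k K] (v : Place k K) (u : Fin s → K)
    (u' : Fin s → k) : Prop :=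
  ∃ τ : Fin p → K, (∀ C, τ C ≠ 0) ∧ ∀ l, Red v (τ (b (D.γ l)) * u l) (algebraMap k (RF v) (u' l))

/-- the field generated by the ratios of `η 0, ..., η d` -/
noncomputable def rf (k : Type) [Field k] (d : ℕ) {M : Type} [Field M] [Algebra k M] (η : ℕ → M) :
    IntermediateField k M :=
  IntermediateField.adjoin k {r | ∃ i j, i ≤ d ∧ j ≤ d ∧ r = η i / η j}

/-- independence of the vectors `h 0, ..., h (r - 1)` -/
def Ind {F : Type} [Field F] (h : ℕ → Fin p → F) (r : ℕ) : Prop :=
  ∀ x : ℕ → F, (∀ C, ∑ i ∈ Finset.range r, x i * h i C = 0) → ∀ i < r, x i = 0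

/-- `1, t_1, ..., t_d` -/
def one_t {N : Type} [Field N] (t : Fin d → N) : ℕ → N := fun i => if h : 0 < i ∧ i ≤ d then t ⟨i - 1, by omega⟩ else 1

variable {D : Dat k s m c} {W : Type} [AddCommGroup W] [Module k W]

/-- the class of the cycle of all points `(u_l y_C)`, `y ^ n` in a linear space of dimension `d` in the kernel (zero
if there is no such space) -/
noncomputable def LS (e : Fin m → ℕ) (b : Fin m → Fin p) (q : CH D d →+ W) (u : Fin s → k) : W :=
  if h : InS D b (d + 1) u ∧ ∃ w : W, ∀ h : ℕ → Fin p → k, KB D b u h (d + 1) → ∀ (M : Type) (_ : Field M)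
    (_ : Algebra k M) (η : ℕ → M), FunF k d M → (∃ j ≤ d, η j ≠ 0) →
    TZ e b q (zF (Algebra.ofId k M) u h (d + 1) η) = Module.finrank (rf k d η) M • w then h.2.choose else 0

/-- `N = M(t_1, ..., t_r)`, `t` algebraically independent over `M` -/
structure RatN {M N : Type} [Field M] [Algebra k M] [Field N] [Algebra k N] (i : M →ₐ[k] N) {r : ℕ} (t : Fin r → N) :
    Prop where
  tr : ∀ G : MvPolynomial (Fin r) M, G ≠ 0 → G.eval₂ (i : M →+* N) t ≠ 0
  gen : ∀ z : N, ∃ P Q : MvPolynomial (Fin r) M, Q ≠ 0 ∧ z = P.eval₂ (i : M →+* N) t / Q.eval₂ (i : M →+* N) t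

end Pool.Agent.LibDV76
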