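import Pool.Agent.LibDV76.P12

/-!
[DV K0] From vector spaces to the Chow group. For an abelian group `A` and a field `k` of characteristic 0: `V = ℚ ⊗[ℤ] A`, `W = k ⊗[ℚ] V` (or directly `W = k ⊗[ℤ] A`), `q a = 1 ⊗ 1 ⊗ a`, a `ℚ`-linear retraction `k → ℚ` gives `ρ : W → V` with `ρ (q a) = 1 ⊗ a`. From
`N • q (cls x) = r • w₀`: `N • (1 ⊗ cls x) = r • ρ w₀` in `V`, and `N' • ρ w₀ = 1 ⊗ E` for some `N' > 0`, `E`. So `N N' cls x - r E` is torsion.
-/

open scoped Classical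
open Polynomial

namespace Pool.Agent.LibDV76

open Pool.Agent.LibBH2
open Pool.Agent.LibCHd (VR RF Red FunF)
open scoped TensorProduct

/-- a set of elements of an abelian group which are proportional in every vector space over `k` -/
theorem descend (k : Type) [Field k] [CharZero k] (A : Type) [AddCommGroup A] (T : Set A) (n : ℕ) (hn : 0 < n)
    (h : ∀ (W : Type) (_ : AddCommGroup W) (_ : Module k W) (q : A →+ W), ∃ w₀ : W, ∀ x ∈ T,
      n • q x ∈ AddSubgroup.zmultiples w₀) :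
    ∃ E : A, ∀ x ∈ T, ∃ (a : ℕ) (r : ℤ), 0 < a ∧ a • x = r • E := by
  let _ : Algebra ℚ k := DivisionRing.toRatAlgebra
  obtain ⟨g, hg⟩ := LinearMap.exists_leftInverse_of_injective (Algebra.linearMap ℚ k)
    (LinearMap.ker_eq_bot.mpr (FaithfulSMul.algebraMap_injective ℚ k))
  have hg1 : g 1 = 1 := by
    have := LinearMap.congr_fun hg (1 : ℚ)
    simpa using this
  let ρ : TensorProduct ℤ k A →ₗ[ℤ] TensorProduct ℤ ℚ A :=
    LinearMap.rTensor A g.toAddMonoidHom.toIntLinearMap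
  let q : A →+ TensorProduct ℤ k A := (TensorProduct.mk ℤ k A 1).toAddMonoidHom
  let f : A →ₗ[ℤ] TensorProduct ℤ ℚ A := TensorProduct.mk ℤ ℚ A 1
  have _ : IsLocalizedModule (nonZeroDivisors ℤ) f :=
    (isLocalizedModule_iff_isBaseChange (nonZeroDivisors ℤ) ℚ f).mpr
      (TensorProduct.isBaseChange ℤ A ℚ)
  have hρ : ∀ a : A, ρ (q a) = f a := by
    intro a
    change LinearMap.rTensor A g.toAddMonoidHom.toIntLinearMap ((1 : k) ⊗ₜ[ℤ] a) = (1 : ℚ) ⊗ₜ[ℤ] a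
    rw [LinearMap.rTensor_tmul]
    congr 1
  obtain ⟨w₀, hw⟩ := h (TensorProduct ℤ k A) inferInstance inferInstance q
  obtain ⟨⟨E, N⟩, hN⟩ := IsLocalizedModule.surj (nonZeroDivisors ℤ) f (ρ w₀)
  refine ⟨E, fun x hx => ?_⟩
  obtain ⟨r, hr⟩ := AddSubgroup.mem_zmultiples_iff.mp (hw x hx)
  have h1 : r • ρ w₀ = (n : ℤ) • f x := by
    rw [← hρ x, ← map_zsmul, hr, natCast_zsmul, map_nsmul]
  have h2 : f (((N : ℤ) * n) • x) = f (r • E) := by
    rw [map_zsmul, map_zsmul, mul_smul, ← h1, smul_comm]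
    congr 1
  obtain ⟨c, hc⟩ := (IsLocalizedModule.eq_iff_exists (nonZeroDivisors ℤ) f).mp h2
  have hc0 : (c : ℤ) ≠ 0 := nonZeroDivisors.coe_ne_zero c
  have hN0 : (N : ℤ) ≠ 0 := nonZeroDivisors.coe_ne_zero N
  have hn0 : (n : ℤ) ≠ 0 := by exact_mod_cast hn.ne'
  have h3 : ((c : ℤ) * ((N : ℤ) * n)) • x = ((c : ℤ) * r) • E := by
    rw [mul_smul (c : ℤ) ((N : ℤ) * n) x, mul_smul (c : ℤ) r E]
    exact hc
  set z : ℤ := (c : ℤ) * ((N : ℤ) * n) with hz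
  have hz0 : z ≠ 0 := mul_ne_zero hc0 (mul_ne_zero hN0 hn0)
  refine ⟨z.natAbs, z.sign * ((c : ℤ) * r), Int.natAbs_pos.mpr hz0, ?_⟩
  rw [mul_smul, ← h3, ← mul_smul, ← natCast_zsmul]
  congr 1
  exact (Int.sign_mul_self_eq_natAbs z).symm

theorem chow {k : Type} [Field k] [IsAlgClosed k] [CharZero k] {s m c d : ℕ} {D : Dat k s m c} (hD : D.Good) (hc : 0 < c)
    (hm : D.n * (c + d) < m) :
    ∃ E : CH D d, ∀ (M : Type) (_ : Field M) (_ : Algebra k M) (x : Fin s → M), FunF k d M → On D x →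
      ∃ (a : ℕ) (r : ℤ), 0 < a ∧ a • cls D d x = r • E := by
  obtain ⟨E, hE⟩ := descend k (CH D d) {y | ∃ (M : Type) (_ : Field M) (_ : Algebra k M) (x : Fin s → M),
    FunF k d M ∧ On D x ∧ y = cls D d x} (D.n ^ m) (pow_pos (by have := hD.two; omega) m) (by
      intro W _ _ q
      obtain ⟨w₀, hw⟩ := assembly hD hc hm q
      refine ⟨w₀, ?_⟩
      rintro y ⟨M, i1, i2, x, hM, hx, rfl⟩
      exact hw M i1 i2 x hM hx)
  refine ⟨E, fun M i1 i2 x hM hx => ?_⟩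
  exact hE _ ⟨M, i1, i2, x, hM, hx, rfl⟩

end Pool.Agent.LibDV76
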