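import Pool.Agent.LibDV76.Defs2
import Pool.Agent.LibCW77.G2
import Pool.Agent.LibCW77.G1

/-!
[DV P0] `N = M(lam)` (`Rat1`, LibCW77/Defs3.lean): the place `lam = ξ`, `ξ` in `k`. From `place_triv` (LibCW77/G2.lean) with `μ = lam - ξ + 1` (`rat1_affine`, LibCW77/G1.lean: `i 1 * lam + i (1 - ξ)`).
-/

open scoped Classical
open Polynomial

namespace Pool.Agent.LibDV76

open Pool.Agent.LibBH2
open Pool.Agent.LibCHd (VR RF Red FunF)

variable {k : Type} [Field k] {M N : Type} [Field M] [Algebra k M] [Field N] [Algebra k N]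

open Pool.Agent.LibCW77 (Rat1)

theorem place_xi {i : M →ₐ[k] N} {lam : N} (h : Rat1 i lam) (ξ : k) :
    ∃ (v : Place k N) (ε : M ≃ₐ[k] RF v), (∀ x, v.ord (i x) = 0) ∧ (∀ x, Red v (i x) (ε x)) ∧
      v.ord (lam - algebraMap k N ξ) = 1 ∧
      ∀ v' : Place k N, (∀ x, v'.ord (i x) = 0) → 0 < v'.ord (lam - algebraMap k N ξ) → v' = v := by
  have h1 := Pool.Agent.LibCW77.rat1_affine h 1 (1 - algebraMap k M ξ) one_ne_zero
  obtain ⟨v, ε, h2, h3, h4, h5⟩ := Pool.Agent.LibCW77.place_triv h1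
  have h6 : i 1 * lam + i (1 - algebraMap k M ξ) - 1 = lam - algebraMap k N ξ := by
    rw [map_one, map_sub, map_one, i.commutes]
    ring
  rw [h6] at h4
  refine ⟨v, ε, h2, h3, h4, fun v' h7 h8 => h5 v' h7 ?_⟩
  rw [h6]
  exact h8

/-- a polynomial which is not zero at `ξ` is not zero at `lam` -/
theorem eval_ne {i : M →ₐ[k] N} {lam : N} (h : Rat1 i lam) {ξ : k} {P : M[X]} (hP : P.eval (algebraMap k M ξ) ≠ 0) :
    P.eval₂ (i : M →+* N) lam ≠ 0 :=
  h.tr P fun h0 => hP (by rw [h0, eval_zero])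

/-- residue of the value of a polynomial -/
theorem red_eval₂ {F : Type} [Field F] [Algebra k F] {ψ : F →ₐ[k] N} {v : Place k N} {lam : N} {ξ : RF v}
    (hξ : Red v lam ξ) {j : F →+* RF v} (hj : ∀ x, Red v (ψ x) (j x)) (P : F[X]) :
    Red v (P.eval₂ (ψ : F →+* N) lam) (P.eval₂ j ξ) := by
  induction P using Polynomial.induction_on with
  | C a =>
    rw [eval₂_C, eval₂_C]
    exact hj a
  | add P Q hP hQ =>
    rw [eval₂_add, eval₂_add]
    exact hP.add hQ
  | monomial n a _ =>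
    rw [eval₂_mul, eval₂_mul, eval₂_C, eval₂_C, eval₂_X_pow, eval₂_X_pow]
    exact Pool.Agent.LibCHd.Red.mul (hj a) (hξ.pow _)

end Pool.Agent.LibDV76
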