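import Pool.Agent.LibDV76.T7
import Pool.Agent.LibCHd.Small
import Pool.Agent.LibHL77.B1
import Pool.Agent.LibHL77.B5

/-!
[DV P1] The places which are not trivial on `F`: the class of the specialisation of the path is in `L`. If `TV ≠ 0` (else trivial): `FunF k d (RF v)`, `z'` a Z-point with `SpZ` (`TV_ne`), `TV = TZ z'` (`TV_eq`). For `b (γ l) = b (γ l')`, `C` the block:
`τ_C lam ^ ε_a ψ(u_l) → z'.u l`, `τ_C lam ^ ε_a' ψ(u_l') → z'.u l'`. If `z'.u l' ≠ 0` the quotient has the residue `z'.u l / z'.u l'`, and `lam → ξ` (a unit if `ξ ≠ 0`; no power of `lam` if `ε = 0`), so `ψ (u_l / u_l')` has the residue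
`ξ ^ (..) z'.u l / z'.u l'`: so the ratio is in the field of residues of elements of `F` (`resField`, LibCHd/Small.lean, with `j := ψ`; `isRes_resF`, see `B5_trdeg` in LibHL77/B5.lean for the use). If `z'.u l' = 0` the ratio is 0. So
`bf D b z' ≤ resField` and `trdeg < f` (`trdeg_resField`), and `Low` gives the claim.
-/

open scoped Classical
open Polynomial

namespace Pool.Agent.LibDV76

open Pool.Agent.LibBH2
open Pool.Agent.LibCHd (VR RF Red FunF)

variable {k : Type} [Field k] {s m c p d : ℕ} {D : Dat k s m c} {e : Fin m → ℕ} {b : Fin m → Fin p}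
  {W : Type} [AddCommGroup W] [Module k W] {F N : Type} [Field F] [Algebra k F] [Field N] [Algebra k N]

theorem low_path [IsAlgClosed k] [CharZero k] (hD : D.Good) (hb : Bl D.n e b) (q : CH D d →+ W) {L : AddSubgroup W}
    {f : ℕ} (hlow : Low e b q L f) (hF : Algebra.trdeg k F ≤ f) (ψ : F →ₐ[k] N) (u : Fin s → F) (ε : Fin m → ℕ)
    (lam : N) {z : Zp s p N} (hzu : ∀ l, z.u l = lam ^ ε (D.γ l) * ψ (u l)) (v : Place k N) (ξ : k)
    (hξ : Red v lam (algebraMap k (RF v) ξ)) (hξ0 : ξ ≠ 0 ∨ ∀ a, ε a = 0) (hv : ∃ x, v.ord (ψ x) ≠ 0) :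
    TV e b q v z ∈ L := by
  by_cases hT : TV e b q v z = 0
  · rw [hT]
    exact L.zero_mem
  obtain ⟨hF', z', hz', hs⟩ := TV_ne q hT
  rw [TV_eq hD hb q hF' hs hz'.u0 hz'.Y0]
  refine hlow (RF v) _ _ z' hF' hz' ?_
  refine lt_of_le_of_lt ?_ (Pool.Agent.LibCHd.trdeg_resField (M := F) (d := f) hF
    (Pool.Agent.LibCHd.isRes_resF v) ψ hv)
  have hle : bf D b z' ≤ Pool.Agent.LibCHd.resField (Pool.Agent.LibCHd.isRes_resF v) ψ := by
    refine IntermediateField.adjoin_le_iff.2 ?_
    rintro _ ⟨l, l', hbb, rfl⟩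
    by_cases h0 : z'.u l' = 0
    · rw [h0, div_zero]
      exact zero_mem _
    obtain ⟨τ, κ, hτ, hκ, hu, hY⟩ := hs
    have hpow : ∀ a, ∃ r : k, r ≠ 0 ∧ Red v (lam ^ ε a) (algebraMap k (RF v) r) := by
      intro a
      rcases hξ0 with h | h
      · refine ⟨ξ ^ ε a, pow_ne_zero _ h, ?_⟩
        rw [map_pow]
        exact hξ.pow _
      · refine ⟨1, one_ne_zero, ?_⟩
        rw [h a, pow_zero, map_one]
        exact Pool.Agent.LibCHd.red_one v
    obtain ⟨r, hr, hr'⟩ := hpow (D.γ l)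
    obtain ⟨r', hr0, hr0'⟩ := hpow (D.γ l')
    have hrm : algebraMap k (RF v) r ≠ 0 := by
      rw [Ne, map_eq_zero]
      exact hr
    have hrm' : algebraMap k (RF v) r' ≠ 0 := by
      rw [Ne, map_eq_zero]
      exact hr0
    have h1 : Red v (τ (b (D.γ l')) * z.u l) (z'.u l) := by
      have := hu l
      rwa [hbb] at this
    have h2 : Red v (τ (b (D.γ l')) * z.u l') (z'.u l') := hu l'
    have h2n := h2.ne_zero h0
    have h3 := (h1.div h2 h0).mul (hr0'.div hr' hrm)
    rw [mul_div_mul_left _ _ (hτ _), hzu l, hzu l'] at h3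
    have hl0 := hr'.ne_zero hrm
    have hl0' := hr0'.ne_zero hrm'
    have hψ : ψ (u l') ≠ 0 := by
      intro h
      apply h2n
      rw [hzu l', h, mul_zero, mul_zero]
    have h4 : lam ^ ε (D.γ l) * ψ (u l) / (lam ^ ε (D.γ l') * ψ (u l')) *
        (lam ^ ε (D.γ l') / lam ^ ε (D.γ l)) = ψ (u l / u l') := by
      rw [map_div₀]
      field_simp
    rw [h4] at h3
    have h5 : z'.u l / z'.u l' = z'.u l / z'.u l' *
        (algebraMap k (RF v) r' / algebraMap k (RF v) r) * algebraMap k (RF v) (r / r') := by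
      rw [map_div₀]
      field_simp
    rw [h5]
    exact mul_mem ⟨u l / u l', (Pool.Agent.LibCHd.red_iff.1 h3).1, (Pool.Agent.LibCHd.red_iff.1 h3).2⟩
      (IntermediateField.algebraMap_mem _ _)
  exact trdeg_le_of_injective (IntermediateField.inclusion hle)
    (IntermediateField.inclusion_injective hle)

end Pool.Agent.LibDV76
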