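import Pool.Agent.LibDV76.T5
import Pool.Agent.LibDV76.P4

/-!
[DV P10a] `TZ_repl`: a lift over `M'` of `⟨u, Y⟩` is also a lift of `⟨u', Y⟩` since `P_l = 0` for `l` in the group `a` (`Y (b a) = 0`, so `y (b a) = 0`) (`exists_lift`, `TZ_spec` for both; both are Z-points: `ev D u t a * 0`, `ev_congr` for the other groups; blocks with one group: `hba`). If one
is a Z-point so is the other; else both are 0.
`base`: `M₀ = FractionRing (MvPolynomial (Fin d) k)`, `η₀ 0 = 1`, `η₀ (i+1) = X_i`, `w₀ = TZ (zF (ofId) u h (d+1) η₀)`. Given `M`, `η`, `z = zF .. η`. If `η` is zero for all `i ≤ d`: `TZ_not`. If `η 0 = 0` or the `η (i+1) / η 0` are algebraically dependent: scale by some `1 / η_i`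
(`TZ_zeq` with `κ`), coordinates in `E` = field generated by the ratios, trdeg `< d`: `TZ_small`. Else `ι : M₀ → M`, `X_i ↦ η (i+1) / η 0` (`AlgebraicIndependent`, `IsFractionRing.liftAlgHom`), `z` is equivalent to `z₀.map ι` (`κ = 1 / η 0`), `TZ_map`; the degree is not 0 since `M` is
finite over `ι(M₀)` (finitely generated and algebraic: `trdeg`, `a3_fg`, `a3_fin` in LibHL77/A3.lean).
-/

open scoped Classical
open Polynomial

namespace Pool.Agent.LibDV76

open Pool.Agent.LibBH2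
open Pool.Agent.LibCHd (VR RF Red FunF)

variable {k : Type} [Field k] {s m c p d : ℕ} {D : Dat k s m c} {e : Fin m → ℕ} {b : Fin m → Fin p}
  {W : Type} [AddCommGroup W] [Module k W]

private theorem P10a_isZ (hD : D.Good) {M : Type} [Field M] [Algebra k M] (a : Fin m) {u u' : Fin s → M}
    (hu : ∀ l, D.γ l ≠ a → u' l = u l) (h2 : ∃ l, D.γ l = a ∧ u' l ≠ 0) {Y : Fin p → M} (hY : Y (b a) = 0)
    (hz : IsZ D e b (⟨u, Y⟩ : Zp s p M)) : IsZ D e b (⟨u', Y⟩ : Zp s p M) := by
  refine ⟨fun a' => ?_, hz.Y0, hz.YC, fun t => ?_⟩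
  · by_cases h : a' = a
    · subst h
      exact h2
    · obtain ⟨l, hl, hl0⟩ := hz.u0 a'
      refine ⟨l, hl, ?_⟩
      have : u' l = u l := hu l (by rw [hl]; exact h)
      show u' l ≠ 0
      rw [this]
      exact hl0
  · have hr := hz.rel t
    rw [← hr]
    refine Finset.sum_congr rfl fun a' _ => ?_
    show ev D u' t a' * Y (b a') = ev D u t a' * Y (b a')
    by_cases h : a' = a
    · rw [h, hY, mul_zero, mul_zero]
    · rw [ev_congr hD (x := u') (y := u) (a := a') (fun l hl => hu l (by rw [hl]; exact h)) t]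

theorem TZ_repl [IsAlgClosed k] [CharZero k] (hD : D.Good) (hb : Bl D.n e b) (q : CH D d →+ W) {M : Type} [Field M]
    [Algebra k M] (a : Fin m) (hba : ∀ a', b a' = b a → a' = a) (he : D.n ∣ e a) {u u' : Fin s → M}
    (hu : ∀ l, D.γ l ≠ a → u' l = u l) (h1 : ∃ l, D.γ l = a ∧ u l ≠ 0) (h2 : ∃ l, D.γ l = a ∧ u' l ≠ 0)
    {Y : Fin p → M} (hY : Y (b a) = 0) : TZ e b q ⟨u', Y⟩ = TZ e b q ⟨u, Y⟩ := by
  by_cases hz : IsZ D e b (⟨u, Y⟩ : Zp s p M)
  · have hz' : IsZ D e b (⟨u', Y⟩ : Zp s p M) := P10a_isZ hD a hu h2 hY hz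
    obtain ⟨M', _, _, i, P, hfin, hP, y, hy, hPy⟩ := exists_lift (b := b) hD (⟨u, Y⟩ : Zp s p M)
    have hn : D.n ≠ 0 := by have := hD.two; omega
    have hya : y (b a) = 0 := by
      have h := hy (b a)
      rw [show (⟨u, Y⟩ : Zp s p M).Y (b a) = 0 from hY, map_zero] at h
      exact eq_zero_of_pow_eq_zero h
    have hP' : IsLift D b ((⟨u', Y⟩ : Zp s p M).map i) P := by
      refine ⟨y, 1, one_ne_zero, fun l => ?_, fun C => ?_⟩
      · show P l = i (u' l) * y (b (D.γ l))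
        rw [hPy l]
        show i (u l) * y (b (D.γ l)) = i (u' l) * y (b (D.γ l))
        by_cases h : D.γ l = a
        · rw [h, hya, mul_zero, mul_zero]
        · rw [hu l h]
      · show y C ^ D.n = 1 * i (Y C)
        rw [one_mul]
        exact hy C
    have e1 := TZ_spec hD hb q hz i P hfin hP
    have e2 := TZ_spec hD hb q hz' i P hfin hP'
    have e3 : Module.finrank i.fieldRange M' • (TZ e b q (⟨u', Y⟩ : Zp s p M) - TZ e b q (⟨u, Y⟩ : Zp s p M)) = 0 := by
      rw [smul_sub, ← e1, ← e2, sub_self]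
    have e4 : ((Module.finrank i.fieldRange M' : ℕ) : k) •
        (TZ e b q (⟨u', Y⟩ : Zp s p M) - TZ e b q (⟨u, Y⟩ : Zp s p M)) = 0 := by
      rw [Nat.cast_smul_eq_nsmul]
      exact e3
    rcases smul_eq_zero.mp e4 with h | h
    · exact absurd (Nat.cast_eq_zero.mp h) hfin
    · exact sub_eq_zero.mp h
  · have hz' : ¬ IsZ D e b (⟨u', Y⟩ : Zp s p M) := by
      intro h
      exact hz (P10a_isZ hD a (fun l hl => (hu l hl).symm) h1 hY h)
    rw [TZ_not q hz, TZ_not q hz']

end Pool.Agent.LibDV76
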