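import Pool.Agent.LibDV76.T7
import Pool.Agent.LibDV76.P0
import Pool.Agent.LibCHd.Small
import Pool.Agent.LibHL77.B1
import Pool.Agent.LibHL77.B5

/-!
[DV P2] The places which are trivial on `F` and not trivial on `M`: the class of the specialisation is 0. If `FunF k d (RF v)` fails `TV = 0`. Let `j : F → RF v` be the residues (`exists_trivHom`, LibHL77/B1.lean, or by hand), so `lam ^ ε i(φ(u l)) → ξ ^ ε j(u l)`
and `i(μ) Y → Y' := ∑ y_j (R_j C)(ξ)` (`red_eval₂`), `Y' ≠ 0` by `hne`. `z' := (ξ ^ ε j(u), Y')`: `SpZ` with `τ = 1`, `κ = i μ`; `TV = TZ z'` (`TV_eq`). The coordinates of `z'` are in the field of residues of elements of `M` (`resField`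
with `j := i`: `y_j` is the residue of `i (μ η_j)`), which has trdeg `< d` (`trdeg_resField`): `TZ_small`.
-/

open scoped Classical
open Polynomial

namespace Pool.Agent.LibDV76

open Pool.Agent.LibBH2
open Pool.Agent.LibCHd (VR RF Red FunF)

variable {k : Type} [Field k] {s m c p d : ℕ} {D : Dat k s m c} {e : Fin m → ℕ} {b : Fin m → Fin p}
  {W : Type} [AddCommGroup W] [Module k W] {F M N : Type} [Field F] [Algebra k F] [Field M] [Algebra k M]
  [Field N] [Algebra k N]

private theorem P2_sum {v : Place k N} (I : Finset ℕ) (f : ℕ → N) (g : ℕ → RF v)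
    (h : ∀ t ∈ I, Red v (f t) (g t)) : Red v (∑ t ∈ I, f t) (∑ t ∈ I, g t) := by
  induction I using Finset.induction_on with
  | empty =>
    rw [Finset.sum_empty, Finset.sum_empty]
    exact Pool.Agent.LibCHd.red_zero v
  | insert a I ha ih =>
    rw [Finset.sum_insert ha, Finset.sum_insert ha]
    exact (h a (Finset.mem_insert_self a I)).add
      (ih fun t ht => h t (Finset.mem_insert_of_mem ht))

theorem small_path [IsAlgClosed k] [CharZero k] (hD : D.Good) (hb : Bl D.n e b) (q : CH D d →+ W)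
    (hM : FunF k d M) (φ : F →ₐ[k] M) (i : M →ₐ[k] N) (u : Fin s → F) (hu : ∀ a, ∃ l, D.γ l = a ∧ u l ≠ 0)
    (ε : Fin m → ℕ) (lam : N) (R : ℕ → Fin p → F[X]) (r : ℕ) (η : ℕ → M) (v : Place k N) (ξ : k)
    (hξ : Red v lam (algebraMap k (RF v) ξ)) (hξ0 : ξ ≠ 0 ∨ ∀ a, ε a = 0) (hvF : ∀ x, v.ord (i (φ x)) = 0)
    (hvM : ∃ x, v.ord (i x) ≠ 0) (μ : M) (hμ : μ ≠ 0) (y : ℕ → RF v) (hy : ∀ j < r, Red v (i (μ * η j)) (y j))
    (hne : ∃ (C : Fin p) (ρ : ℕ → RF v), (∀ j < r, Red v (i (φ ((R j C).eval (algebraMap k F ξ)))) (ρ j)) ∧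
      ∑ j ∈ Finset.range r, y j * ρ j ≠ 0) :
    TV e b q v (pz D (i.comp φ) lam ε u R r (fun j => i (η j))) = 0 := by
  by_cases hF : FunF k d (RF v)
  swap
  · unfold TV
    rw [dif_neg]
    intro h
    exact hF h.1
  -- residues of the elements of F
  have hreg : ∀ x, v.Reg (i (φ x)) := fun x => Or.inr (by rw [hvF x])
  let j0 : F →+* VR v :=
    { toFun := fun x => ⟨i (φ x), hreg x⟩
      map_one' := Subtype.ext (by simp)
      map_mul' := fun x x' => Subtype.ext (by simp)
      map_zero' := Subtype.ext (by simp)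
      map_add' := fun x x' => Subtype.ext (by simp) }
  let j : F →+* RF v := (IsLocalRing.residue (VR v)).comp j0
  have hj : ∀ x, Red v (i (φ x)) (j x) := fun x => ⟨hreg x, rfl⟩
  have hjk : j (algebraMap k F ξ) = algebraMap k (RF v) ξ := by
    have h1 := hj (algebraMap k F ξ)
    rw [AlgHom.commutes, AlgHom.commutes] at h1
    exact h1.unique (Pool.Agent.LibCHd.red_const v ξ)
  have hev : ∀ P : F[X], P.eval₂ j (algebraMap k (RF v) ξ) = j (P.eval (algebraMap k F ξ)) := by
    intro P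
    rw [← hjk, Polynomial.eval₂_at_apply]
  have hpe : ∀ P : F[X], Red v (P.eval₂ ((i.comp φ : F →ₐ[k] N) : F →+* N) lam)
      (P.eval₂ j (algebraMap k (RF v) ξ)) := by
    intro P
    exact red_eval₂ (ψ := i.comp φ) hξ (j := j) (fun x => hj x) P
  -- the specialisation
  let z' : Zp s p (RF v) := ⟨fun l => algebraMap k (RF v) ξ ^ ε (D.γ l) * j (u l),
    fun C => ∑ t ∈ Finset.range r, y t * (R t C).eval₂ j (algebraMap k (RF v) ξ)⟩
  have hs : SpZ D b v (pz D (i.comp φ) lam ε u R r (fun t => i (η t))) z' := by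
    refine ⟨fun _ => 1, i μ, fun _ => one_ne_zero, ?_, ?_, ?_⟩
    · exact (_root_.map_ne_zero i).2 hμ
    · intro l
      change Red v (1 * (lam ^ ε (D.γ l) * (i.comp φ) (u l)))
        (algebraMap k (RF v) ξ ^ ε (D.γ l) * j (u l))
      rw [one_mul]
      exact (hξ.pow _).mul (hj (u l))
    · intro C
      change Red v (i μ * (∑ t ∈ Finset.range r, i (η t) *
          (R t C).eval₂ ((i.comp φ : F →ₐ[k] N) : F →+* N) lam) / 1 ^ D.n)
        (∑ t ∈ Finset.range r, y t * (R t C).eval₂ j (algebraMap k (RF v) ξ))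
      rw [one_pow, div_one, Finset.mul_sum]
      apply P2_sum
      intro t ht
      rw [← mul_assoc, ← map_mul]
      exact (hy t (Finset.mem_range.1 ht)).mul (hpe (R t C))
  have hu' : ∀ a, ∃ l, D.γ l = a ∧ z'.u l ≠ 0 := by
    intro a
    obtain ⟨l, hl, hl0⟩ := hu a
    refine ⟨l, hl, ?_⟩
    change algebraMap k (RF v) ξ ^ ε (D.γ l) * j (u l) ≠ 0
    refine mul_ne_zero ?_ ((_root_.map_ne_zero j).2 hl0)
    rcases hξ0 with h | h
    · exact pow_ne_zero _ ((_root_.map_ne_zero (algebraMap k (RF v))).2 h)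
    · rw [h, pow_zero]
      exact one_ne_zero
  have hY' : ∃ C, z'.Y C ≠ 0 := by
    obtain ⟨C, ρ, hρ, hne'⟩ := hne
    refine ⟨C, ?_⟩
    change ∑ t ∈ Finset.range r, y t * (R t C).eval₂ j (algebraMap k (RF v) ξ) ≠ 0
    have h1 : ∑ t ∈ Finset.range r, y t * (R t C).eval₂ j (algebraMap k (RF v) ξ) =
        ∑ t ∈ Finset.range r, y t * ρ t := by
      refine Finset.sum_congr rfl fun t ht => ?_
      rw [hev, (hj ((R t C).eval (algebraMap k F ξ))).unique (hρ t (Finset.mem_range.1 ht))]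
    rw [h1]
    exact hne'
  rw [TV_eq hD hb q hF hs hu' hY']
  -- the coordinates are residues of elements of M
  have hr := Pool.Agent.LibCHd.isRes_resF v
  let E : IntermediateField k (RF v) := Pool.Agent.LibCHd.resField hr i
  have hE : Algebra.trdeg k E < d :=
    Pool.Agent.LibCHd.trdeg_resField (le_of_eq hM.trdeg) hr i hvM
  have hmem : ∀ (x : M) (c : RF v), Red v (i x) c → c ∈ E := by
    intro x c h
    rw [Pool.Agent.LibCHd.red_iff] at h
    rw [← h.2]
    exact Pool.Agent.LibCHd.mem_resField h.1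
  have hjE : ∀ x, j x ∈ E := fun x => hmem (φ x) (j x) (hj x)
  refine TZ_small hD hb q hF z' E hE ?_ ?_
  · intro l
    exact mul_mem (pow_mem (IntermediateField.algebraMap_mem _ _) _) (hjE _)
  · intro C
    change ∑ t ∈ Finset.range r, y t * (R t C).eval₂ j (algebraMap k (RF v) ξ) ∈ E
    refine sum_mem fun t ht => ?_
    refine mul_mem (hmem _ _ (hy t (Finset.mem_range.1 ht))) ?_
    rw [hev]
    exact hjE _

end Pool.Agent.LibDV76
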