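import Pool.Agent.LibDV76.T7
import Pool.Agent.LibDV76.P0

/-!
[DV P3] The place `lam = ξ` trivial on `M`: `place_xi`; the specialisation of the path is `(pz D φ ξ ...).map ε'` with `ε' : M ≃ RF v` (`SpZ` with `τ = 1`, `κ = 1`, `red_eval₂`), `TV_eq`, `TZ_map` (the degree of an isomorphism is 1), `FunF.congr`.
`isZ_pz`: `u0`: from the value at `ξ`; `Y0`, `YC`: `eval_ne` for the polynomial `∑ j, C (η j) * (R j C).map φ`; `rel`: `ev_scale` with `lam ^ ε a`, apply `eval₂ ψ lam` to `PK`.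
-/

open scoped Classical
open Polynomial

namespace Pool.Agent.LibDV76

open Pool.Agent.LibBH2
open Pool.Agent.LibCHd (VR RF Red FunF)

variable {k : Type} [Field k] {s m c p d : ℕ} {D : Dat k s m c} {e : Fin m → ℕ} {b : Fin m → Fin p}
  {W : Type} [AddCommGroup W] [Module k W] {F M N : Type} [Field F] [Algebra k F] [Field M] [Algebra k M]
  [Field N] [Algebra k N]

open Pool.Agent.LibCW77 (Rat1)

private theorem P3_one (ε : M ≃ₐ[k] N) : Module.finrank (ε : M →ₐ[k] N).fieldRange N = 1 := by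
  have h1 : (ε : M →ₐ[k] N).fieldRange = ⊤ := AlgHom.fieldRange_eq_top.2 ε.surjective
  rw [h1]
  exact IntermediateField.finrank_top

private theorem P3_red_sum {v : Place k N} {f : ℕ → N} {g : ℕ → RF v} (S : Finset ℕ) (h : ∀ j ∈ S, Red v (f j) (g j)) :
    Red v (∑ j ∈ S, f j) (∑ j ∈ S, g j) := by
  induction S using Finset.induction_on with
  | empty => simpa using Pool.Agent.LibCHd.red_zero v
  | insert a S ha ih =>
    rw [Finset.sum_insert ha, Finset.sum_insert ha]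
    exact (h a (Finset.mem_insert_self _ _)).add (ih fun j hj => h j (Finset.mem_insert_of_mem hj))

theorem triv_path [IsAlgClosed k] [CharZero k] (hD : D.Good) (hb : Bl D.n e b) (q : CH D d →+ W)
    (hM : FunF k d M) (φ : F →ₐ[k] M) {i : M →ₐ[k] N} {lam : N} (h : Rat1 i lam) (u : Fin s → F)
    (hu : ∀ a, ∃ l, D.γ l = a ∧ u l ≠ 0) (ε : Fin m → ℕ) (R : ℕ → Fin p → F[X]) (r : ℕ) (η : ℕ → M) (v : Place k N)
    (ξ : k) (hξ0 : ξ ≠ 0 ∨ ∀ a, ε a = 0) (hv : ∀ x, v.ord (i x) = 0) (hv1 : 0 < v.ord (lam - algebraMap k N ξ))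
    (hY : ∃ C, (pz D φ (algebraMap k M ξ) ε u R r η).Y C ≠ 0) :
    TV e b q v (pz D (i.comp φ) lam ε u R r (fun j => i (η j))) =
      TZ e b q (pz D φ (algebraMap k M ξ) ε u R r η) := by
  obtain ⟨v0, ε', -, hred, -, huniq⟩ := place_xi h ξ
  obtain rfl := huniq v hv hv1
  have hlam : Red v lam (algebraMap k (RF v) ξ) := Pool.Agent.LibCHd.red_iff_val.2 (Or.inr hv1)
  have hlam' : ε' (algebraMap k M ξ) = algebraMap k (RF v) ξ := ε'.commutes ξ
  have hF : FunF k d (RF v) := FunF.congr ε' hM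
  have hs : SpZ D b v (pz D (i.comp φ) lam ε u R r (fun j => i (η j)))
      ((pz D φ (algebraMap k M ξ) ε u R r η).map (ε' : M →ₐ[k] RF v)) := by
    refine ⟨fun _ => 1, 1, fun _ => one_ne_zero, one_ne_zero, fun l => ?_, fun C => ?_⟩
    · rw [one_mul]
      show Red v (lam ^ ε (D.γ l) * i (φ (u l))) (ε' ((algebraMap k M ξ) ^ ε (D.γ l) * φ (u l)))
      rw [map_mul, map_pow, hlam']
      exact (hlam.pow _).mul (hred _)
    · rw [one_mul, one_pow, div_one]
      show Red v (∑ j ∈ Finset.range r, i (η j) * (R j C).eval₂ ((i.comp φ : F →ₐ[k] N) : F →+* N) lam)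
        (ε' (∑ j ∈ Finset.range r, η j * (R j C).eval₂ (φ : F →+* M) (algebraMap k M ξ)))
      rw [map_sum]
      refine P3_red_sum _ fun j _ => ?_
      rw [map_mul]
      refine (hred _).mul ?_
      have h1 := red_eval₂ (ψ := i.comp φ) hlam (j := (ε' : M →+* RF v).comp (φ : F →+* M)) (fun x => hred (φ x))
        (R j C)
      have h2 : ε' ((R j C).eval₂ (φ : F →+* M) (algebraMap k M ξ)) =
          (R j C).eval₂ ((ε' : M →+* RF v).comp (φ : F →+* M)) (algebraMap k (RF v) ξ) := by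
        have h3 := Polynomial.hom_eval₂ (R j C) (φ : F →+* M) (ε' : M →+* RF v) (algebraMap k M ξ)
        have h4 : (ε' : M →+* RF v) (algebraMap k M ξ) = algebraMap k (RF v) ξ := hlam'
        rw [h4] at h3
        exact h3
      rw [h2]
      exact h1
  rw [TV_eq hD hb q hF hs ?_ ?_, TZ_map hD hb q _ (ε' : M →ₐ[k] RF v) (by rw [P3_one]; exact one_ne_zero), P3_one,
    one_smul]
  · intro a
    obtain ⟨l, hl, hul⟩ := hu a
    refine ⟨l, hl, ?_⟩
    show ε' ((algebraMap k M ξ) ^ ε (D.γ l) * φ (u l)) ≠ 0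
    rw [Ne, map_eq_zero_iff ε' ε'.injective]
    refine mul_ne_zero ?_ ?_
    · rcases hξ0 with hξ | hε
      · exact pow_ne_zero _ (by rw [Ne, map_eq_zero]; exact hξ)
      · rw [hε, pow_zero]
        exact one_ne_zero
    · rw [Ne, map_eq_zero]
      exact hul
  · obtain ⟨C, hC⟩ := hY
    refine ⟨C, ?_⟩
    show ε' ((pz D φ (algebraMap k M ξ) ε u R r η).Y C) ≠ 0
    rw [Ne, map_eq_zero_iff ε' ε'.injective]
    exact hC

theorem isZ_pz (hD : D.Good) (φ : F →ₐ[k] M) {i : M →ₐ[k] N} {lam : N} (h : Rat1 i lam) {u : Fin s → F}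
    {ε : Fin m → ℕ} {R : ℕ → Fin p → F[X]} {r : ℕ} {η : ℕ → M} (hR : PK D b u ε R r) (ξ : k)
    (hz : IsZ D e b (pz D φ (algebraMap k M ξ) ε u R r η)) :
    IsZ D e b (pz D (i.comp φ) lam ε u R r (fun j => i (η j))) := by
  have hlam : lam ≠ 0 := by
    have := h.tr X X_ne_zero
    rwa [eval₂_X] at this
  have hY : ∀ C, (pz D φ (algebraMap k M ξ) ε u R r η).Y C ≠ 0 →
      (pz D (i.comp φ) lam ε u R r (fun j => i (η j))).Y C ≠ 0 := by
    intro C hC
    have h1 : (∑ j ∈ Finset.range r, Polynomial.C (η j) * (R j C).map (φ : F →+* M)).eval (algebraMap k M ξ) ≠ 0 := by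
      rw [eval_finsetSum]
      simp only [eval_mul, eval_C, eval_map]
      exact hC
    have h2 := eval_ne h h1
    rw [eval₂_finsetSum] at h2
    simp only [eval₂_mul, eval₂_C, eval₂_map] at h2
    exact h2
  refine ⟨fun a => ?_, ?_, fun a ha => hY _ (hz.YC a ha), fun t => ?_⟩
  · obtain ⟨l, hl, hl0⟩ := hz.u0 a
    refine ⟨l, hl, ?_⟩
    have h1 : φ (u l) ≠ 0 := right_ne_zero_of_mul (a := (algebraMap k M ξ) ^ ε (D.γ l)) hl0
    show lam ^ ε (D.γ l) * i (φ (u l)) ≠ 0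
    exact mul_ne_zero (pow_ne_zero _ hlam) (by rw [Ne, map_eq_zero]; exact h1)
  · obtain ⟨C, hC⟩ := hz.Y0
    exact ⟨C, hY C hC⟩
  · have h1 : ∀ a, ev D (pz D (i.comp φ) lam ε u R r (fun j => i (η j))).u t a =
        (lam ^ ε a) ^ D.n * (i.comp φ) (ev D u t a) := by
      intro a
      have h2 := ev_scale hD (fun a => lam ^ ε a) (fun l => (i.comp φ) (u l)) t a
      rw [ev_map] at h2
      exact h2
    show ∑ a, ev D (pz D (i.comp φ) lam ε u R r (fun j => i (η j))).u t a *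
      ∑ j ∈ Finset.range r, i (η j) * (R j (b a)).eval₂ ((i.comp φ : F →ₐ[k] N) : F →+* N) lam = 0
    simp only [h1, Finset.mul_sum]
    rw [Finset.sum_comm]
    refine Finset.sum_eq_zero fun j hj => ?_
    have h3 := congrArg (Polynomial.eval₂ ((i.comp φ : F →ₐ[k] N) : F →+* N) lam) (hR j (Finset.mem_range.1 hj) t)
    rw [eval₂_finsetSum, eval₂_zero] at h3
    simp only [eval₂_mul, eval₂_C, eval₂_pow, eval₂_X] at h3
    have h4 : ∀ a, (lam ^ ε a) ^ D.n * (i.comp φ) (ev D u t a) *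
        (i (η j) * (R j (b a)).eval₂ ((i.comp φ : F →ₐ[k] N) : F →+* N) lam) =
        i (η j) * (((i.comp φ : F →ₐ[k] N) : F →+* N) (ev D u t a) * lam ^ (D.n * ε a) *
          (R j (b a)).eval₂ ((i.comp φ : F →ₐ[k] N) : F →+* N) lam) := by
      intro a
      rw [← pow_mul, mul_comm (ε a) D.n]
      show lam ^ (D.n * ε a) * (i.comp φ) (ev D u t a) *
        (i (η j) * (R j (b a)).eval₂ ((i.comp φ : F →ₐ[k] N) : F →+* N) lam) =
        i (η j) * ((i.comp φ) (ev D u t a) * lam ^ (D.n * ε a) *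
          (R j (b a)).eval₂ ((i.comp φ : F →ₐ[k] N) : F →+* N) lam)
      ring
    rw [Finset.sum_congr rfl fun a _ => h4 a, ← Finset.mul_sum, h3, mul_zero]

end Pool.Agent.LibDV76
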