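import Pool.Agent.LibDV76.Defs2
import Pool.Agent.LibCHd.B5

/-!
[DV P4a] `κ`. The `r` elements `η_i / η_r`, `i < r`, of `M` are algebraically dependent over `F` (image of `φ`) since `trdeg k M = d < r` (`FunF.trdeg`): there is `P ≠ 0` over `F` with `P(η_i / η_r) = 0`; `F` is infinite, so `P(κ) ≠ 0` for some `κ` in `F ^ r`
(`MvPolynomial.funext` / `MvPolynomial.exists_eval_ne_zero...`). (`Algebra.trdeg F M ≤ Algebra.trdeg k M` with the algebra structure `φ.toAlgebra`; or: if they were algebraically independent over `F` they would be so over `k`.)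
-/

open scoped Classical
open Polynomial

namespace Pool.Agent.LibDV76

open Pool.Agent.LibBH2
open Pool.Agent.LibCHd (VR RF Red FunF)

variable {k : Type} [Field k] {d : ℕ} {F M : Type} [Field F] [Algebra k F] [Field M] [Algebra k M]

theorem exists_kappa [Infinite k] (φ : F →ₐ[k] M) (hM : FunF k d M) {r : ℕ} (hr : d < r) (x : Fin r → M) :
    ∃ (P : MvPolynomial (Fin r) F) (κ : Fin r → F), MvPolynomial.eval κ P ≠ 0 ∧
      MvPolynomial.eval₂ (φ : F →+* M) x P = 0 := by
  let _ : Algebra F M := (φ : F →+* M).toAlgebra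
  have : IsScalarTower k F M := IsScalarTower.of_algebraMap_eq fun a => (φ.commutes a).symm
  have : Infinite F := Infinite.of_injective (algebraMap k F) (algebraMap k F).injective
  have hni : ¬ AlgebraicIndependent F x := by
    intro hx
    have hx' : AlgebraicIndependent k x := hx.restrictScalars (algebraMap k F).injective
    have h1 := hx'.cardinalMk_le_trdeg
    rw [hM.trdeg, Cardinal.mk_fin] at h1
    have h2 : r ≤ d := by exact_mod_cast h1
    omega
  rw [algebraicIndependent_iff] at hni
  push Not at hni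
  obtain ⟨P, hP, hP0⟩ := hni
  have hκ : ∃ κ : Fin r → F, MvPolynomial.eval κ P ≠ 0 := by
    by_contra hcon
    push Not at hcon
    apply hP0
    apply MvPolynomial.funext
    intro κ
    rw [hcon κ, map_zero]
  obtain ⟨κ, hκ⟩ := hκ
  exact ⟨P, κ, hκ, hP⟩

/-- linear independence over `F` is preserved by extension of the field -/
theorem ind_ext {p r : ℕ} (h : ℕ → Fin p → F)
    (hi : ∀ x : ℕ → F, (∀ C, ∑ i ∈ Finset.range r, x i * h i C = 0) → ∀ i < r, x i = 0) {R : Type} [Field R]
    (j : F →+* R) (x : ℕ → R) (hx : ∀ C, ∑ i ∈ Finset.range r, x i * j (h i C) = 0) : ∀ i < r, x i = 0 := by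
  let f : (Fin r → F) →ₗ[F] (Fin p → F) := ∑ i : Fin r, (LinearMap.proj i).smulRight (h i)
  have hf : ∀ (y : Fin r → F) (C : Fin p), f y C = ∑ i : Fin r, y i * h i C := by
    intro y C
    simp [f, LinearMap.sum_apply, Finset.sum_apply]
  have hker : LinearMap.ker f = ⊥ := by
    rw [LinearMap.ker_eq_bot']
    intro y hy
    let y' : ℕ → F := fun i => if h : i < r then y ⟨i, h⟩ else 0
    have h1 := hi y' (by
      intro C
      rw [Finset.sum_range]
      have h2 := congrFun hy C
      rw [hf] at h2
      simpa [y'] using h2)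
    funext i
    have h2 := h1 i i.2
    simpa [y'] using h2
  obtain ⟨g, hg⟩ := f.exists_leftInverse_of_injective hker
  have hg1 : ∀ a i : Fin r, ∑ C : Fin p, g (Pi.single C 1) i * h a C = if i = a then 1 else 0 := by
    intro a i
    have h1 : f (Pi.single a 1) = fun C => h a C := by
      funext C
      rw [hf, Finset.sum_eq_single a]
      · simp
      · intro b _ hb
        rw [Pi.single_eq_of_ne hb, zero_mul]
      · intro hb
        exact absurd (Finset.mem_univ _) hb
    have h2 : g (f (Pi.single a 1)) i = (Pi.single a (1 : F) : Fin r → F) i := by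
      rw [← LinearMap.comp_apply, hg]
      rfl
    rw [h1] at h2
    have h3 : (fun C => h a C) = ∑ C : Fin p, h a C • (Pi.single C (1 : F) : Fin p → F) := by
      funext C
      rw [Finset.sum_apply, Finset.sum_eq_single C]
      · simp
      · intro b _ hb
        rw [Pi.smul_apply, Pi.single_eq_of_ne hb.symm, smul_zero]
      · intro hb
        exact absurd (Finset.mem_univ _) hb
    rw [h3, map_sum, Finset.sum_apply] at h2
    have h4 : ∑ C : Fin p, g (Pi.single C 1) i * h a C = ∑ C : Fin p, g (h a C • (Pi.single C (1 : F) : Fin p → F)) i := by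
      refine Finset.sum_congr rfl fun C _ => ?_
      rw [map_smul, Pi.smul_apply, smul_eq_mul, mul_comm]
    rw [h4, h2, Pi.single_apply]
  intro i hir
  have h1 : ∑ C : Fin p, j (g (Pi.single C 1) ⟨i, hir⟩) * ∑ a ∈ Finset.range r, x a * j (h a C) = 0 := by
    refine Finset.sum_eq_zero fun C _ => ?_
    rw [hx C, mul_zero]
  have h2 : ∑ C : Fin p, j (g (Pi.single C 1) ⟨i, hir⟩) * ∑ a ∈ Finset.range r, x a * j (h a C)
      = ∑ a : Fin r, x a * j (∑ C : Fin p, g (Pi.single C 1) ⟨i, hir⟩ * h a C) := by
    simp_rw [Finset.sum_range, Finset.mul_sum, map_sum, map_mul]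
    rw [Finset.sum_comm]
    refine Finset.sum_congr rfl fun a _ => ?_
    rw [Finset.mul_sum]
    refine Finset.sum_congr rfl fun C _ => ?_
    ring
  rw [h2] at h1
  simp_rw [hg1] at h1
  rw [Finset.sum_eq_single ⟨i, hir⟩] at h1
  · simpa using h1
  · intro b _ hb
    rw [if_neg hb.symm, map_zero, mul_zero]
  · intro hb
    exact absurd (Finset.mem_univ _) hb

end Pool.Agent.LibDV76
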