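import Pool.Agent.LibDV76.T8

/-!
[DV T9] Corollary of `master`: all places outside of `E` with `v.ord g ≠ 0` have `TV ∈ L`. Proof: `∑_(S ∪ E) = ∑_S = 0` (the other terms are 0), and `∑_(S ∪ E) = ∑_E + ∑_(S \ E)`.
-/

open scoped Classical
open Polynomial

namespace Pool.Agent.LibDV76

open Pool.Agent.LibBH2
open Pool.Agent.LibCHd (VR RF Red FunF)

variable {k : Type} [Field k] {s m c p d : ℕ} {D : Dat k s m c} {e : Fin m → ℕ} {b : Fin m → Fin p}
  {W : Type} [AddCommGroup W] [Module k W] {N : Type} [Field N] [Algebra k N]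

theorem master' [IsAlgClosed k] [CharZero k] (hD : D.Good) (hb : Bl D.n e b) (q : CH D d →+ W)
    (hN : FunF k (d + 1) N) {z : Zp s p N} (hz : IsZ D e b z) (g : N) (hg : g ≠ 0) (L : AddSubgroup W)
    (E : Finset (Place k N)) (h : ∀ v, v ∉ E → v.ord g ≠ 0 → TV e b q v z ∈ L) :
    ∑ v ∈ E, v.ord g • TV e b q v z ∈ L := by
  obtain ⟨S, hS, hsum⟩ := master hD hb q hN hz g hg
  have h1 : ∑ v ∈ S ∪ E, v.ord g • TV e b q v z = 0 := by
    rw [← hsum]
    refine (Finset.sum_subset Finset.subset_union_left fun v _ hv => ?_).symm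
    by_cases h0 : v.ord g = 0
    · rw [h0, zero_smul]
    · by_cases h2 : TV e b q v z = 0
      · rw [h2, smul_zero]
      · exact absurd (hS v h0 h2) hv
  have h2 : ∑ v ∈ (S ∪ E) \ E, v.ord g • TV e b q v z ∈ L := by
    refine L.sum_mem fun v hv => ?_
    by_cases h0 : v.ord g = 0
    · rw [h0, zero_smul]
      exact L.zero_mem
    · exact L.zsmul_mem (h v (Finset.mem_sdiff.1 hv).2 h0) _
  have h3 := Finset.sum_sdiff (f := fun v => v.ord g • TV e b q v z)
    (Finset.subset_union_right (s₁ := S) (s₂ := E))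
  have h4 : ∑ v ∈ E, v.ord g • TV e b q v z =
      -∑ v ∈ (S ∪ E) \ E, v.ord g • TV e b q v z :=
    eq_neg_of_add_eq_zero_right (h3.trans h1)
  rw [h4]
  exact L.neg_mem h2

end Pool.Agent.LibDV76
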