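import Pool.Agent.LibDV76.P1
import Pool.Agent.LibDV76.P2
import Pool.Agent.LibDV76.P3
import Pool.Agent.LibDV76.P4
import Pool.Agent.LibDV76.T9

/-!
[DV P5a] Projection (A). If `zF φ u h (r + 1) η` is not a Z-point take `η' = 0` (`TZ_not`, both sides 0). If `η r = 0` take `η' = η`. Else `exists_kappa` for `x i = η i / η r`, `i < r`: `P`, `κ`. `η' i = η i - φ(κ i) η r`.
Path: `R j = C (h j)` for `j < r`, `R r = X * C (h r + ∑_(j < r) κ j h j)`; `ε = 0`; coefficients `η'' j = η' j` for `j < r`, `η'' r = η r`; `r + 1` terms. `pz φ 1 = zF φ u h (r+1) η` and `pz φ 0 = zF φ u h r η'`. `PK` from `KB.ker`. `N = M(lam)`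
(`rat1_exists`, `rat1_funF`), `isZ_pz` at `ξ = 1`, `g = (lam - 1) / lam`, `master'` with `E = {v_1, v_0}` (`place_xi` at `1` and `0`; `v_1.ord g = 1`, `v_0.ord g = -1`). Values: `triv_path` at `ξ = 1`; at `ξ = 0`: `(pz φ 0).Y ≠ 0`, for otherwise `η' i = 0` for
all `i < r` (`ind_ext`), `κ i = η i / η r` and `P(κ) = 0`. Other places with `v.ord g ≠ 0`: `v.ord lam ≥ 0` and `lam → ξ = 1` or `0`; not trivial on `M` (uniqueness in `place_xi`). Not trivial on `F`: `low_path` (`ψ = i.comp φ`). Trivial on `F`: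
`small_path` with `exists_prim` for `η''`: `hne` at `ξ = 1`: `∑_(j<r) y_j h_j + y_r (h_r + ∑ κ_j h_j) = ∑_(j<r) (y_j + κ_j y_r) h_j + y_r h_r ≠ 0` (`ind_ext`), at `ξ = 0`: `∑_(j<r) y_j h_j ≠ 0` unless all `y_j = 0` for `j < r`; then `y_r ≠ 0` and
`(η_j - κ_j η_r) / η_r → 0`, so `P(κ) = 0` by `red_rel`.
-/

open scoped Classical
open Polynomial

namespace Pool.Agent.LibDV76

open Pool.Agent.LibBH2
open Pool.Agent.LibCHd (VR RF Red FunF)

variable {k : Type} [Field k] {s m c p d : ℕ} {D : Dat k s m c} {e : Fin m → ℕ} {b : Fin m → Fin p}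
  {W : Type} [AddCommGroup W] [Module k W] {F M : Type} [Field F] [Algebra k F] [Field M] [Algebra k M]

/-- the residues of the elements of `F` at a place which is trivial on `F` -/
private theorem P5a_hom {N : Type} [Field N] [Algebra k N] (φ : F →ₐ[k] M) (i : M →ₐ[k] N) (v : Place k N)
    (hv : ∀ x, v.ord (i (φ x)) = 0) : ∃ j : F →+* RF v, ∀ x, Red v (i (φ x)) (j x) := by
  have hreg : ∀ x : F, i (φ x) ∈ VR v := fun x => Or.inr (hv x).ge
  exact ⟨(IsLocalRing.residue (VR v)).comp
    ((((i : M →+* N).comp (φ : F →+* M))).codRestrict (VR v) hreg), fun x => ⟨hreg x, rfl⟩⟩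

/-- the first vectors of an independent family -/
private theorem P5a_ind {h : ℕ → Fin p → F} {r : ℕ}
    (hi : ∀ x : ℕ → F, (∀ B, ∑ i ∈ Finset.range (r + 1), x i * h i B = 0) → ∀ i < r + 1, x i = 0) (x : ℕ → F)
    (hx : ∀ B, ∑ i ∈ Finset.range r, x i * h i B = 0) : ∀ i < r, x i = 0 := by
  intro i hi'
  have h1 := hi (fun j => if j < r then x j else 0) (fun B => by
    rw [Finset.sum_range_succ, if_neg (lt_irrefl r), zero_mul, add_zero, ← hx B]
    refine Finset.sum_congr rfl fun j hj => ?_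
    rw [if_pos (Finset.mem_range.1 hj)]) i (by omega)
  simpa [hi'] using h1

/-- the orders of `lam` and `lam - 1` -/
private theorem P5a_ord {N : Type} [Field N] [Algebra k N] (v : Place k N) {lam : N} (h0 : lam ≠ 0) (h1 : lam - 1 ≠ 0)
    (hg : v.ord ((lam - 1) / lam) ≠ 0) :
    0 < v.ord (lam - algebraMap k N 1) ∨ 0 < v.ord (lam - algebraMap k N 0) := by
  rw [map_one, map_zero, sub_zero]
  rw [v.ord_div _ _ h1 h0] at hg
  by_contra hcon
  push Not at hcon
  obtain ⟨c1, c2⟩ := hcon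
  have e1 := v.ord_add lam (-1) h0 (neg_ne_zero.2 one_ne_zero) (by rwa [← sub_eq_add_neg])
  rw [← sub_eq_add_neg, v.ord_neg, v.ord_one] at e1
  have e2 := v.ord_add (lam - 1) 1 h1 one_ne_zero (by rwa [sub_add_cancel])
  rw [sub_add_cancel, v.ord_one] at e2
  rcases min_le_iff.1 e1 with e1 | e1 <;> rcases min_le_iff.1 e2 with e2 | e2 <;> omega

theorem proj [IsAlgClosed k] [CharZero k] (hD : D.Good) (hb : Bl D.n e b) (q : CH D d →+ W) {L : AddSubgroup W}
    {f : ℕ} (hlow : Low e b q L f) (hF : Algebra.trdeg k F ≤ f) (hM : FunF k d M) (φ : F →ₐ[k] M) (u : Fin s → F)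
    (h : ℕ → Fin p → F) {r : ℕ} (hr : d < r) (hh : KB D b u h (r + 1)) (η : ℕ → M) :
    ∃ η' : ℕ → M, TZ e b q (zF φ u h (r + 1) η) - TZ e b q (zF φ u h r η') ∈ L := by
  by_cases hZ : IsZ D e b (zF φ u h (r + 1) η)
  swap
  · refine ⟨0, ?_⟩
    have h0 : ¬ IsZ D e b (zF φ u h r (0 : ℕ → M)) := by
      intro hz
      obtain ⟨B, hB⟩ := hz.Y0
      apply hB
      simp [zF]
    rw [TZ_not q hZ, TZ_not q h0, sub_zero]
    exact L.zero_mem
  by_cases hηr : η r = 0
  · refine ⟨η, ?_⟩
    have h0 : zF φ u h (r + 1) η = zF φ u h r η := by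
      unfold zF
      congr 1
      funext B
      rw [Finset.sum_range_succ, hηr, zero_mul, add_zero]
    rw [h0, sub_self]
    exact L.zero_mem
  have : Infinite k := IsAlgClosed.instInfinite
  obtain ⟨P, κ, hPκ, hPx⟩ := exists_kappa φ hM hr (fun j : Fin r => η j / η r)
  obtain ⟨κ', hκ'⟩ : ∃ κ' : ℕ → F, ∀ j : Fin r, κ' j = κ j :=
    ⟨fun j => if hj : j < r then κ ⟨j, hj⟩ else 0, fun j => by simp⟩
  obtain ⟨η₁, hη₁r, hη₁⟩ : ∃ η₁ : ℕ → M, η₁ r = η r ∧ ∀ j < r, η₁ j = η j - φ (κ' j) * η r :=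
    ⟨fun j => if j = r then η r else η j - φ (κ' j) * η r, by simp, fun j hj => by simp [hj.ne]⟩
  obtain ⟨R, hRr, hRj⟩ : ∃ R : ℕ → Fin p → F[X],
      (∀ B, R r B = X * C (h r B + ∑ l ∈ Finset.range r, κ' l * h l B)) ∧
      ∀ j < r, ∀ B, R j B = C (h j B) :=
    ⟨fun j B => if j = r then X * C (h r B + ∑ l ∈ Finset.range r, κ' l * h l B) else C (h j B),
      fun B => by simp, fun j hj B => by simp [hj.ne]⟩
  have hu : ∀ a, ∃ l, D.γ l = a ∧ u l ≠ 0 := by
    intro a
    obtain ⟨l, hl, hl'⟩ := hZ.u0 a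
    refine ⟨l, hl, fun h0 => hl' ?_⟩
    simp [zF, h0]
  -- the values of the path
  have hev : ∀ (T : Type) (_ : Field T) (ψ : F →+* T) (lam : T) (y : ℕ → T) (B : Fin p),
      ∑ j ∈ Finset.range (r + 1), y j * (R j B).eval₂ ψ lam =
        ∑ j ∈ Finset.range r, y j * ψ (h j B) +
          y r * (lam * (ψ (h r B) + ∑ l ∈ Finset.range r, ψ (κ' l) * ψ (h l B))) := by
    intro T _ ψ lam y B
    rw [Finset.sum_range_succ, hRr, eval₂_mul, eval₂_X, eval₂_C, map_add, map_sum]
    congr 1
    · refine Finset.sum_congr rfl fun j hj => ?_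
      rw [hRj j (Finset.mem_range.1 hj), eval₂_C]
    · simp only [map_mul]
  have h1 : pz D φ (algebraMap k M 1) (fun _ => 0) u R (r + 1) η₁ = zF φ u h (r + 1) η := by
    unfold pz zF
    congr 1
    · funext l
      simp
    · funext B
      rw [hev, map_one, one_mul, Finset.sum_range_succ, hη₁r, mul_add, ← add_assoc, add_right_comm]
      congr 1
      rw [Finset.mul_sum, ← Finset.sum_add_distrib]
      refine Finset.sum_congr rfl fun j hj => ?_
      rw [hη₁ j (Finset.mem_range.1 hj)]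
      simp only [RingHom.coe_coe]
      ring
  have h0 : pz D φ (algebraMap k M 0) (fun _ => 0) u R (r + 1) η₁ = zF φ u h r η₁ := by
    unfold pz zF
    congr 1
    · funext l
      simp
    · funext B
      rw [hev, map_zero, zero_mul, mul_zero, add_zero]
      rfl
  have hPK : PK D b u (fun _ => 0) R (r + 1) := by
    intro j hj t
    have e1 : ∀ j' < r + 1, ∑ a, ev D u t a * h j' (b a) = 0 := fun j' hj' => hh.ker j' hj' t
    rcases Nat.lt_succ_iff_lt_or_eq.1 hj with hj' | rfl
    · have e2 : ∀ a, C (ev D u t a) * X ^ (D.n * 0) * R j (b a) = C (ev D u t a * h j (b a)) := by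
        intro a
        rw [hRj j hj', mul_zero, pow_zero, mul_one, ← C_mul]
      simp only [e2]
      rw [← map_sum, e1 j hj, map_zero]
    · have e2 : ∀ a, C (ev D u t a) * X ^ (D.n * 0) * R j (b a) =
          X * C (ev D u t a * h j (b a) + ∑ l ∈ Finset.range j, κ' l * (ev D u t a * h l (b a))) := by
        intro a
        rw [hRr, mul_zero, pow_zero, mul_one, mul_left_comm, ← C_mul]
        congr 2
        rw [mul_add, Finset.mul_sum]
        congr 1
        exact Finset.sum_congr rfl fun l _ => by ring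
      simp only [e2]
      rw [← Finset.mul_sum, ← map_sum, Finset.sum_add_distrib, e1 j hj, Finset.sum_comm]
      have e3 : ∑ l ∈ Finset.range j, ∑ a, κ' l * (ev D u t a * h l (b a)) = 0 := by
        refine Finset.sum_eq_zero fun l hl => ?_
        rw [← Finset.mul_sum, e1 l (by have := Finset.mem_range.1 hl; omega), mul_zero]
      rw [e3, add_zero, map_zero, mul_zero]
  -- the rational function field
  obtain ⟨N, _, _, i, lam, hlam⟩ := Pool.Agent.LibCW77.rat1_exists (k := k) M
  have hN : FunF k (d + 1) N := Pool.Agent.LibCW77.rat1_funF hlam hM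
  have hl0 : lam ≠ 0 := by
    have := Pool.Agent.LibCW77.rat1_ne hlam 0
    rwa [map_zero] at this
  have hl1 : lam - 1 ≠ 0 := by
    have := Pool.Agent.LibCW77.rat1_ne hlam 1
    rw [map_one] at this
    exact sub_ne_zero.2 this
  obtain ⟨z, hzdef⟩ : ∃ z : Zp s p N, z = pz D (i.comp φ) lam (fun _ => 0) u R (r + 1) (fun j => i (η₁ j)) :=
    ⟨_, rfl⟩
  have hz : IsZ D e b z := by
    rw [hzdef]
    refine isZ_pz hD φ hlam hPK 1 ?_
    rw [h1]
    exact hZ
  have hg : (lam - 1) / lam ≠ 0 := div_ne_zero hl1 hl0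
  obtain ⟨v1, ε1, hv1t, hv1r, hv1o, hv1u⟩ := place_xi hlam 1
  obtain ⟨v0, ε0, hv0t, hv0r, hv0o, hv0u⟩ := place_xi hlam 0
  have hg1 : v1.ord ((lam - 1) / lam) = 1 := by
    rw [v1.ord_div _ _ hl1 hl0]
    have e1 : v1.ord (lam - 1) = 1 := by
      have := hv1o
      rwa [map_one] at this
    have e2 : Red v1 (lam - 1) 0 := Pool.Agent.LibCHd.red_zero_iff.2 (Or.inr (by omega))
    have e3 : Red v1 lam 1 := by
      have := e2.add (Pool.Agent.LibCHd.red_one v1)
      rwa [sub_add_cancel, zero_add] at this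
    rw [e1, e3.ord_eq_zero one_ne_zero, sub_zero]
  have hg0 : v0.ord ((lam - 1) / lam) = -1 := by
    rw [v0.ord_div _ _ hl1 hl0]
    have e1 : v0.ord lam = 1 := by
      have := hv0o
      rwa [map_zero, sub_zero] at this
    have e2 : Red v0 lam 0 := Pool.Agent.LibCHd.red_zero_iff.2 (Or.inr (by omega))
    have e3 : Red v0 (lam - 1) (0 - 1) := e2.sub (Pool.Agent.LibCHd.red_one v0)
    rw [e1, e3.ord_eq_zero (by simp)]
    norm_num
  have hne10 : v1 ≠ v0 := by
    rintro rfl
    rw [hg1] at hg0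
    norm_num at hg0
  have hT1 : TV e b q v1 z = TZ e b q (zF φ u h (r + 1) η) := by
    rw [hzdef, triv_path hD hb q hM φ hlam u hu (fun _ => 0) R (r + 1) η₁ v1 1 (Or.inr fun _ => rfl) hv1t
      (by rw [hv1o]; norm_num) (by rw [h1]; exact hZ.Y0), h1]
  have hY0 : ∃ B, (zF φ u h r η₁).Y B ≠ 0 := by
    by_contra hcon
    push Not at hcon
    have e1 := ind_ext h (P5a_ind hh.ind) (φ : F →+* M) η₁ hcon
    apply hPκ
    have e2 : (fun j : Fin r => η j / η r) = fun j => φ (κ j) := by
      funext j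
      have e3 := e1 j j.2
      rw [hη₁ j j.2, hκ'] at e3
      rw [div_eq_iff hηr]
      exact sub_eq_zero.1 e3
    rw [e2] at hPx
    have e4 : MvPolynomial.eval₂ (φ : F →+* M) (fun j => φ (κ j)) P = φ (MvPolynomial.eval κ P) := by
      have := MvPolynomial.eval₂_comp_left (φ : F →+* M) (RingHom.id F) κ P
      rw [RingHom.comp_id] at this
      exact this.symm
    rw [e4] at hPx
    exact (map_eq_zero φ).1 hPx
  have hT0 : TV e b q v0 z = TZ e b q (zF φ u h r η₁) := by
    rw [hzdef, triv_path hD hb q hM φ hlam u hu (fun _ => 0) R (r + 1) η₁ v0 0 (Or.inr fun _ => rfl) hv0t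
      (by rw [hv0o]; norm_num) (by rw [h0]; exact hY0), h0]
  -- the other places
  have hoth : ∀ v, v ∉ ({v1, v0} : Finset (Place k N)) → v.ord ((lam - 1) / lam) ≠ 0 → TV e b q v z ∈ L := by
    intro v hv hvg
    rw [Finset.mem_insert, Finset.mem_singleton, not_or] at hv
    obtain ⟨ξ, hξ1, hξ2, hξ3⟩ : ∃ ξ : k, (ξ = 1 ∨ ξ = 0) ∧ 0 < v.ord (lam - algebraMap k N ξ) ∧
        ∃ x, v.ord (i x) ≠ 0 := by
      rcases P5a_ord v hl0 hl1 hvg with h2 | h2
      · refine ⟨1, Or.inl rfl, h2, ?_⟩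
        by_contra hcon
        push Not at hcon
        exact hv.1 (hv1u v hcon h2)
      · refine ⟨0, Or.inr rfl, h2, ?_⟩
        by_contra hcon
        push Not at hcon
        exact hv.2 (hv0u v hcon h2)
    have hξ : Red v lam (algebraMap k (RF v) ξ) := by
      rw [Pool.Agent.LibCHd.red_iff_val]
      exact Or.inr hξ2
    by_cases hvF : ∃ x, v.ord (i (φ x)) ≠ 0
    · rw [hzdef]
      refine low_path hD hb q hlow hF (i.comp φ) u (fun _ => 0) lam (fun l => rfl) v ξ hξ (Or.inr fun _ => rfl) hvF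
    push Not at hvF
    have hzero : TV e b q v z = 0 := by
      rw [hzdef]
      obtain ⟨μ, y, hμ, hy, hy0⟩ := exists_prim i v (r + 1) η₁ ⟨r, by omega, by rw [hη₁r]; exact hηr⟩
      obtain ⟨j0, hj0⟩ := P5a_hom φ i v hvF
      refine small_path hD hb q hM φ i u hu (fun _ => 0) lam R (r + 1) η₁ v ξ hξ (Or.inr fun _ => rfl) hvF hξ3 μ hμ
        y hy ?_
      by_contra hcon
      push Not at hcon
      have e0 : ∀ B, ∑ j ∈ Finset.range (r + 1), y j * (R j B).eval₂ j0 (j0 (algebraMap k F ξ)) = 0 := by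
        intro B
        have := hcon B (fun j => j0 ((R j B).eval (algebraMap k F ξ))) (fun j _ => hj0 _)
        rw [← this]
        refine Finset.sum_congr rfl fun j _ => ?_
        rw [Polynomial.eval₂_hom]
      simp only [hev] at e0
      rcases hξ1 with rfl | rfl
      · have e1 := ind_ext h hh.ind j0 (fun j => if j < r then y j + y r * j0 (κ' j) else y j) (by
          intro B
          rw [← e0 B, Finset.sum_range_succ, if_neg (lt_irrefl r), map_one, map_one, one_mul, mul_add,
            ← add_assoc, add_right_comm]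
          congr 1
          rw [Finset.mul_sum, ← Finset.sum_add_distrib]
          refine Finset.sum_congr rfl fun j hj => ?_
          rw [if_pos (Finset.mem_range.1 hj)]
          ring)
        have e2 : y r = 0 := by
          have := e1 r (by omega)
          simpa using this
        obtain ⟨j, hj, hj'⟩ := hy0
        apply hj'
        rcases Nat.lt_succ_iff_lt_or_eq.1 hj with hjr | rfl
        · have := e1 j hj
          rw [if_pos hjr, e2, zero_mul, add_zero] at this
          exact this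
        · exact e2
      · have e1 : ∀ j < r, y j = 0 := by
          refine ind_ext h (P5a_ind hh.ind) j0 y fun B => ?_
          have := e0 B
          rwa [map_zero, map_zero, zero_mul, mul_zero, add_zero] at this
        have e2 : y r ≠ 0 := by
          obtain ⟨j, hj, hj'⟩ := hy0
          rcases Nat.lt_succ_iff_lt_or_eq.1 hj with hjr | rfl
          · exact absurd (e1 j hjr) hj'
          · exact hj'
        apply hPκ
        refine red_rel φ i v hvF (fun j : Fin r => η j / η r) κ P hPx fun j => ?_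
        rw [← Pool.Agent.LibCHd.red_zero_iff]
        have e3 := (hy j (by have := j.2; omega)).div (hy r (by omega)) e2
        rw [e1 j j.2, zero_div, ← map_div₀, mul_div_mul_left _ _ hμ, hη₁ j j.2, hη₁r, sub_div,
          mul_div_cancel_right₀ _ hηr, hκ'] at e3
        exact e3
    rw [hzero]
    exact L.zero_mem
  have hmain := master' hD hb q hN hz ((lam - 1) / lam) hg L {v1, v0} hoth
  rw [Finset.sum_pair hne10, hg1, hg0, one_smul, neg_smul, one_smul, hT1, hT0, ← sub_eq_add_neg] at hmain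
  exact ⟨η₁, hmain⟩

end Pool.Agent.LibDV76
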