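import Pool.Agent.LibDV76.P1
import Pool.Agent.LibDV76.P2
import Pool.Agent.LibDV76.P3
import Pool.Agent.LibDV76.P4
import Pool.Agent.LibDV76.T9
import Pool.Agent.LibDV76.P5a

/-!
[DV P5b] Projection (A). If `zF φ u h (r + 1) η` is not a Z-point take `η' = 0` (`TZ_not`, both sides 0). If `η r = 0` take `η' = η`. Else `exists_kappa` for `x i = η i / η r`, `i < r`: `P`, `κ`. `η' i = η i - φ(κ i) η r`.
Path: `R j = C (h j)` for `j < r`, `R r = X * C (h r + ∑_(j < r) κ j h j)`; `ε = 0`; coefficients `η'' j = η' j` for `j < r`, `η'' r = η r`; `r + 1` terms. `pz φ 1 = zF φ u h (r+1) η` and `pz φ 0 = zF φ u h r η'`. `PK` from `KB.ker`. `N = M(lam)`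
(`rat1_exists`, `rat1_funF`), `isZ_pz` at `ξ = 1`, `g = (lam - 1) / lam`, `master'` with `E = {v_1, v_0}` (`place_xi` at `1` and `0`; `v_1.ord g = 1`, `v_0.ord g = -1`). Values: `triv_path` at `ξ = 1`; at `ξ = 0`: `(pz φ 0).Y ≠ 0`, for otherwise `η' i = 0` for
all `i < r` (`ind_ext`), `κ i = η i / η r` and `P(κ) = 0`. Other places with `v.ord g ≠ 0`: `v.ord lam ≥ 0` and `lam → ξ = 1` or `0`; not trivial on `M` (uniqueness in `place_xi`). Not trivial on `F`: `low_path` (`ψ = i.comp φ`). Trivial on `F`: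
`small_path` with `exists_prim` for `η''`: `hne` at `ξ = 1`: `∑_(j<r) y_j h_j + y_r (h_r + ∑ κ_j h_j) = ∑_(j<r) (y_j + κ_j y_r) h_j + y_r h_r ≠ 0` (`ind_ext`), at `ξ = 0`: `∑_(j<r) y_j h_j ≠ 0` unless all `y_j = 0` for `j < r`; then `y_r ≠ 0` and
`(η_j - κ_j η_r) / η_r → 0`, so `P(κ) = 0` by `red_rel`.
-/

open scoped Classical
open Polynomial

namespace Pool.Agent.LibDV76

open Pool.Agent.LibBH2
open Pool.Agent.LibCHd (VR RF Red FunF)

variable {k : Type} [Field k] {s m c p d : ℕ} {D : Dat k s m c} {e : Fin m → ℕ} {b : Fin m → Fin p}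
  {W : Type} [AddCommGroup W] [Module k W] {F M : Type} [Field F] [Algebra k F] [Field M] [Algebra k M]

private theorem P5b_mono {u : Fin s → F} {h : ℕ → Fin p → F} {r : ℕ} (hh : KB D b u h (r + 1)) :
    KB D b u h r := by
  refine ⟨fun i hi t => hh.ker i (Nat.lt_succ_of_lt hi) t, fun x hx i hi => ?_⟩
  have h1 := hh.ind (fun j => if j < r then x j else 0) (fun C => ?_) i (Nat.lt_succ_of_lt hi)
  · simpa only [if_pos hi] using h1
  · rw [Finset.sum_range_succ, if_neg (lt_irrefl r), zero_mul, add_zero, ← hx C]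
    refine Finset.sum_congr rfl fun j hj => ?_
    rw [if_pos (Finset.mem_range.1 hj)]

theorem proj' [IsAlgClosed k] [CharZero k] (hD : D.Good) (hb : Bl D.n e b) (q : CH D d →+ W) {L : AddSubgroup W}
    {f : ℕ} (hlow : Low e b q L f) (hF : Algebra.trdeg k F ≤ f) (hM : FunF k d M) (φ : F →ₐ[k] M) (u : Fin s → F)
    (h : ℕ → Fin p → F) {r₀ r : ℕ} (hr : d < r₀) (hr' : r₀ ≤ r) (hh : KB D b u h r) (η : ℕ → M) :
    ∃ η' : ℕ → M, TZ e b q (zF φ u h r η) - TZ e b q (zF φ u h r₀ η') ∈ L := by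
  induction r, hr' using Nat.le_induction generalizing η with
  | base => exact ⟨η, by rw [sub_self]; exact L.zero_mem⟩
  | succ r hr' ih =>
    obtain ⟨η₁, h₁⟩ := proj hD hb q hlow hF hM φ u h (lt_of_lt_of_le hr hr') hh η
    obtain ⟨η', h₂⟩ := ih (P5b_mono hh) η₁
    refine ⟨η', ?_⟩
    have h3 := L.add_mem h₁ h₂
    rwa [sub_add_sub_cancel] at h3

end Pool.Agent.LibDV76
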