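import Pool.Agent.LibDV76.Defs2

/-!
[DV P6a] Linear algebra over `F[X]` and over `F`.
`lattice`: `K` = kernel of the matrix on `F[X] ^ p`, a submodule of a free module over a PID, so free, with a basis `R_0, ..., R_(q-1)`; rank `q ≥ p - c`. If `∑ x_i R_i(1) = 0` with `x_i` in `F` then `∑ x_i R_i = (X - 1) G` and `A G = 0` (`F[X]` is a domain), so
`G ∈ K`, `G = ∑ g_i R_i`, `x_i = (X - 1) g_i`, so `x_i = 0`.
`ext_basis`: extend the independent family `h_0, ..., h_(r₀-1)` to a basis of the kernel of `A` in `F ^ p`; `dim ≥ p - c`; a vector of the kernel over an extension `M` is a combination with coefficients in `M` (write it in an `F`-basis of `M`: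
each component vector is in the kernel over `F`).
-/

open scoped Classical
open Polynomial

namespace Pool.Agent.LibDV76

open Pool.Agent.LibBH2
open Pool.Agent.LibCHd (VR RF Red FunF)

variable {F : Type} [Field F] {p c : ℕ}

theorem lattice (A : Fin c → Fin p → F[X]) : ∃ R : ℕ → Fin p → F[X],
    (∀ i < p - c, ∀ t, ∑ C, A t C * R i C = 0) ∧
    ∀ x : ℕ → F, (∀ C, ∑ i ∈ Finset.range (p - c), x i * (R i C).eval 1 = 0) → ∀ i < p - c, x i = 0 := by
  let L : (Fin p → F[X]) →ₗ[F[X]] (Fin c → F[X]) := Matrix.mulVecLin (Matrix.of A)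
  have hL : ∀ (v : Fin p → F[X]) (t : Fin c), L v t = ∑ C, A t C * v C := by
    intro v t
    simp [L, Matrix.mulVec, dotProduct]
  let K : Submodule F[X] (Fin p → F[X]) := LinearMap.ker L
  have hrn : Module.finrank F[X] (LinearMap.range L) + Module.finrank F[X] (LinearMap.ker L)
      = Module.finrank F[X] (Fin p → F[X]) := by
    rw [← L.quotKerEquivRange.finrank_eq]
    exact Submodule.finrank_quotient_add_finrank (LinearMap.ker L)
  have hrange : Module.finrank F[X] (LinearMap.range L) ≤ c := by
    have h := Submodule.finrank_le (LinearMap.range L)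
    simpa using h
  have hq : p - c ≤ Module.finrank F[X] K := by
    have hp : Module.finrank F[X] (Fin p → F[X]) = p := by simp
    have : Module.finrank F[X] K = Module.finrank F[X] (LinearMap.ker L) := rfl
    omega
  let b := Module.finBasis F[X] K
  let q := Module.finrank F[X] K
  let R : ℕ → Fin p → F[X] := fun i => if h : i < q then ((b ⟨i, h⟩ : K) : Fin p → F[X]) else 0
  refine ⟨R, ?_, ?_⟩
  · intro i hi t
    have hiq : i < q := lt_of_lt_of_le hi hq
    have h1 : L (R i) = 0 := by
      have h2 : R i = ((b ⟨i, hiq⟩ : K) : Fin p → F[X]) := by simp [R, hiq]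
      rw [h2]
      exact (b ⟨i, hiq⟩).2
    rw [← hL, h1]
    rfl
  · intro x hx i hi
    let y : Fin q → F[X] := fun j => if (j : ℕ) < p - c then Polynomial.C (x j) else 0
    let V : K := ∑ j : Fin q, y j • b j
    have hVC : ∀ C, ((V : K) : Fin p → F[X]) C = ∑ i ∈ Finset.range (p - c), Polynomial.C (x i) * R i C := by
      intro C
      have h1 : ((V : K) : Fin p → F[X]) C = ∑ j : Fin q, y j * R j C := by
        simp only [V]
        rw [Submodule.coe_sum, Finset.sum_apply]
        refine Finset.sum_congr rfl fun j _ => ?_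
        rw [Submodule.coe_smul, Pi.smul_apply, smul_eq_mul]
        have h2 : R (j : ℕ) = ((b j : K) : Fin p → F[X]) := by simp [R]
        rw [h2]
      rw [h1]
      have h3 : ∑ j : Fin q, y j * R j C
          = ∑ j ∈ Finset.range q, (if j < p - c then Polynomial.C (x j) else 0) * R j C := by
        rw [Finset.sum_range]
      rw [h3]
      symm
      have hsub : Finset.range (p - c) ⊆ Finset.range q := Finset.range_subset_range.2 hq
      rw [← Finset.sum_subset hsub (f := fun j => (if j < p - c then Polynomial.C (x j) else 0) * R j C)]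
      · refine Finset.sum_congr rfl fun j hj => ?_
        rw [if_pos (Finset.mem_range.1 hj)]
      · intro j _ hj
        rw [Finset.mem_range] at hj
        rw [if_neg hj, zero_mul]
    have hV1 : ∀ C, (((V : K) : Fin p → F[X]) C).eval 1 = 0 := by
      intro C
      rw [hVC, Polynomial.eval_finsetSum]
      simpa using hx C
    have hdvd : ∀ C, ∃ g, ((V : K) : Fin p → F[X]) C = (X - Polynomial.C 1) * g := by
      intro C
      exact Polynomial.dvd_iff_isRoot.2 (hV1 C)
    choose G hG using hdvd
    have hne : (X - Polynomial.C 1 : F[X]) ≠ 0 := Polynomial.X_sub_C_ne_zero 1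
    have hVG : ((V : K) : Fin p → F[X]) = (X - Polynomial.C 1 : F[X]) • G := by
      funext C
      rw [hG C]
      rfl
    have hGK : G ∈ K := by
      have h1 : L ((V : K) : Fin p → F[X]) = 0 := V.2
      rw [hVG, map_smul] at h1
      exact (smul_eq_zero.1 h1).resolve_left hne
    have hV2 : V = (X - Polynomial.C 1 : F[X]) • (⟨G, hGK⟩ : K) := by
      apply Subtype.ext
      rw [hVG]
      rfl
    have hiq : i < q := lt_of_lt_of_le hi hq
    have h4 : b.repr V ⟨i, hiq⟩ = y ⟨i, hiq⟩ := by
      simp only [V]
      rw [Module.Basis.repr_sum_self]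
    have h5 : b.repr V ⟨i, hiq⟩ = (X - Polynomial.C 1 : F[X]) * b.repr ⟨G, hGK⟩ ⟨i, hiq⟩ := by
      conv_lhs => rw [hV2]
      rw [map_smul]
      rfl
    have h6 : y ⟨i, hiq⟩ = Polynomial.C (x i) := by
      simp only [y]
      rw [if_pos hi]
    rw [h4, h6] at h5
    have h7 := congrArg (Polynomial.eval 1) h5
    simpa using h7

end Pool.Agent.LibDV76
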