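import Pool.Agent.LibDV76.P1
import Pool.Agent.LibDV76.P2
import Pool.Agent.LibDV76.P3
import Pool.Agent.LibDV76.P4
import Pool.Agent.LibDV76.T9

/-!
[DV P7] Rotation (B'): `a₀` a group with `¬ n ∣ e a₀`. The vectors `R i` over `F[X]` are in the kernel of the forms with `X` at the group `a₀`, and `R i (1)` are independent. Then the class of `(u, ∑ η_i R_i(1))` is `0`. If it is not a Z-point: `TZ_not`. Path: `ε = Pi.single a₀ 1`,
`R' i C = (R i C).comp (X ^ n)`, `PK` from `hR` by substituting `X ^ n`. `ζ` a primitive `n`-th root of unity. `pz φ 1 = z` and `pz φ ζ` = `z` with `u` multiplied by `ζ` on the group `a₀` (same `Y` since `ζ ^ n = 1`). `N = M(lam)` (`rat1_exists`,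
`rat1_funF`), `isZ_pz` at `ξ = 1`, `g = (lam - 1) / (lam - ζ)`, `master'` with `L = ⊥`, `E = {v_1, v_ζ}` (`place_xi`; `ord g = 1` and `-1`); `triv_path`. Other places with `v.ord g ≠ 0`: `lam → ξ ∈ {1, ζ}`; not trivial on `F`: `low_path`; trivial on `F`, not on `M`: `small_path` with
`exists_prim`, `hne`: `R'_i(ξ) = R_i(1)` are independent (`ind_ext`). So `TZ z = TZ (g z)` with `g = ζ` at `a₀`, `1` elsewhere, and `chi e g • TZ (g z) = TZ z` (`TZ_act`), `chi e g = ζ ^ e a₀ ≠ 1`. So `TZ z = 0`.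
-/

open scoped Classical
open Polynomial

namespace Pool.Agent.LibDV76

open Pool.Agent.LibBH2
open Pool.Agent.LibCHd (VR RF Red FunF)

variable {k : Type} [Field k] {s m c p d : ℕ} {D : Dat k s m c} {e : Fin m → ℕ} {b : Fin m → Fin p}
  {W : Type} [AddCommGroup W] [Module k W] {F M : Type} [Field F] [Algebra k F] [Field M] [Algebra k M]

private theorem P7_ord {N : Type} [Field N] [Algebra k N] {v : Place k N} {lam : N} {ξ ξ' : k}
    (h : v.Zer (lam - algebraMap k N ξ)) (hne : ξ ≠ ξ') : v.ord (lam - algebraMap k N ξ') = 0 := by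
  have h1 := (LibCHd.red_iff_val.2 h).sub (LibCHd.red_const v ξ')
  refine h1.ord_eq_zero ?_
  rw [sub_ne_zero]
  exact fun h2 => hne ((algebraMap k (RF v)).injective h2)

private theorem P7_cases {N : Type} [Field N] [Algebra k N] {v : Place k N} {lam : N} {ζ : k}
    (h0 : ∀ c : k, lam - algebraMap k N c ≠ 0)
    (h : v.ord ((lam - algebraMap k N 1) / (lam - algebraMap k N ζ)) ≠ 0) :
    v.Zer (lam - algebraMap k N 1) ∨ v.Zer (lam - algebraMap k N ζ) := by
  by_contra hcon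
  push Not at hcon
  rw [v.ord_div _ _ (h0 1) (h0 ζ)] at h
  apply h
  by_cases hreg : v.Reg lam
  · rw [Place.ord_eq_zero_of_reg (hreg.sub (v.reg_const 1)) hcon.1,
      Place.ord_eq_zero_of_reg (hreg.sub (v.reg_const ζ)) hcon.2, sub_self]
  · have hl0 : lam ≠ 0 := fun h1 => hreg (Or.inl h1)
    have hl1 : v.ord lam < 0 := by
      by_contra h1
      exact hreg (Or.inr (not_lt.1 h1))
    have key : ∀ c : k, v.ord (lam - algebraMap k N c) = v.ord lam := by
      intro c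
      by_cases hc : c = 0
      · rw [hc, map_zero, sub_zero]
      · have h2 : v.ord (-algebraMap k N c) = 0 := by rw [Place.ord_neg, v.ord_const c hc]
        have h3 : -algebraMap k N c ≠ 0 := neg_ne_zero.2 ((_root_.map_ne_zero _).2 hc)
        rw [sub_eq_add_neg]
        exact (v.ord_add_of_lt hl0 h3 (by rw [h2]; exact hl1)).2
    rw [key, key, sub_self]

private theorem P7_eval {N : Type} [Field N] (φ : F →+* N) (ξ : N) {n : ℕ} (hξ : ξ ^ n = 1) (P : F[X]) :
    (P.comp (X ^ n)).eval₂ φ ξ = φ (P.eval 1) := by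
  rw [Polynomial.eval₂_comp, Polynomial.eval₂_pow, Polynomial.eval₂_X, hξ, Polynomial.eval₂_at_one]

private theorem P7_pz (φ : F →ₐ[k] M) (u : Fin s → F) (ε : Fin m → ℕ) (R : ℕ → Fin p → F[X]) (r : ℕ) (η : ℕ → M)
    {ξ : k} (hξ : ξ ^ D.n = 1) :
    pz D φ (algebraMap k M ξ) ε u (fun i C => (R i C).comp (X ^ D.n)) r η =
      ⟨fun l => algebraMap k M (ξ ^ ε (D.γ l)) * (zF φ u (fun i C => (R i C).eval 1) r η).u l,
        (zF φ u (fun i C => (R i C).eval 1) r η).Y⟩ := by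
  unfold pz zF
  congr 1
  · funext l
    rw [map_pow]
  · funext C
    refine Finset.sum_congr rfl fun i _ => ?_
    rw [P7_eval (φ : F →+* M) (algebraMap k M ξ) (by rw [← map_pow, hξ, map_one])]
    rfl

private theorem P7_PK (u : Fin s → F) (a₀ : Fin m) (R : ℕ → Fin p → F[X]) (r : ℕ)
    (hR : ∀ i < r, ∀ t, ∑ a, C (ev D u t a) * (if a = a₀ then X else 1) * R i (b a) = 0) :
    PK D b u (Pi.single a₀ 1) (fun i C => (R i C).comp (X ^ D.n)) r := by
  intro i hi t
  have h1 := congrArg (fun P : F[X] => P.comp (X ^ D.n)) (hR i hi t)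
  beta_reduce at h1
  rw [Polynomial.sum_comp, Polynomial.zero_comp] at h1
  rw [← h1]
  refine Finset.sum_congr rfl fun a _ => ?_
  rw [Polynomial.mul_comp, Polynomial.mul_comp, Polynomial.C_comp]
  congr 2
  by_cases ha : a = a₀
  · subst ha
    rw [if_pos rfl, Polynomial.X_comp, Pi.single_eq_same, mul_one]
  · rw [if_neg ha, Polynomial.one_comp, Pi.single_eq_of_ne ha, mul_zero, pow_zero]

theorem rot [IsAlgClosed k] [CharZero k] (hD : D.Good) (hb : Bl D.n e b) (q : CH D d →+ W) {f : ℕ}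
    (hlow : Low e b q ⊥ f) (hF : Algebra.trdeg k F ≤ f) (hM : FunF k d M) (φ : F →ₐ[k] M) (u : Fin s → F)
    (a₀ : Fin m) (ha₀ : ¬ D.n ∣ e a₀) (R : ℕ → Fin p → F[X]) (r : ℕ)
    (hR : ∀ i < r, ∀ t, ∑ a, C (ev D u t a) * (if a = a₀ then X else 1) * R i (b a) = 0)
    (hi : ∀ x : ℕ → F, (∀ C, ∑ i ∈ Finset.range r, x i * (R i C).eval 1 = 0) → ∀ i < r, x i = 0) (η : ℕ → M) :
    TZ e b q (zF φ u (fun i C => (R i C).eval 1) r η) = 0 := by
  set z : Zp s p M := zF φ u (fun i C => (R i C).eval 1) r η with hzdef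
  by_cases hz : IsZ D e b z
  swap
  · exact TZ_not q hz
  have hn2 : 2 ≤ D.n := hD.two
  have hn0 : D.n ≠ 0 := by omega
  haveI : NeZero (D.n : k) := ⟨Nat.cast_ne_zero.2 hn0⟩
  haveI : NeZero D.n := ⟨hn0⟩
  obtain ⟨ζ, hζ⟩ := HasEnoughRootsOfUnity.exists_primitiveRoot k D.n
  have hζn : ζ ^ D.n = 1 := hζ.pow_eq_one
  have hζ0 : ζ ≠ 0 := hζ.ne_zero hn0
  have hζ1 : (1 : k) ≠ ζ := (hζ.ne_one (by omega)).symm
  set ε : Fin m → ℕ := Pi.single a₀ 1 with hε
  set R' : ℕ → Fin p → F[X] := fun i C => (R i C).comp (X ^ D.n) with hR'def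
  have hPK : PK D b u ε R' r := P7_PK u a₀ R r hR
  have hpz1 : pz D φ (algebraMap k M 1) ε u R' r η = z := by
    rw [hR'def, P7_pz φ u ε R r η (one_pow D.n)]
    simp only [one_pow, map_one, one_mul]
    rfl
  have hpzζ : pz D φ (algebraMap k M ζ) ε u R' r η = ⟨fun l => algebraMap k M (ζ ^ ε (D.γ l)) * z.u l, z.Y⟩ := by
    rw [hR'def, P7_pz φ u ε R r η hζn]
  have hu : ∀ a, ∃ l, D.γ l = a ∧ u l ≠ 0 := by
    intro a
    obtain ⟨l, hl, hl0⟩ := hz.u0 a
    refine ⟨l, hl, fun h0 => hl0 ?_⟩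
    show φ (u l) = 0
    rw [h0, map_zero]
  have hηne : ∃ j < r, η j ≠ 0 := by
    obtain ⟨C, hC⟩ := hz.Y0
    by_contra hcon
    push Not at hcon
    apply hC
    show ∑ i ∈ Finset.range r, η i * φ ((R i C).eval 1) = 0
    refine Finset.sum_eq_zero fun i hi' => ?_
    rw [hcon i (Finset.mem_range.1 hi'), zero_mul]
  obtain ⟨N, _, _, i, lam, hrat⟩ := LibCW77.rat1_exists (k := k) M
  have hN : FunF k (d + 1) N := LibCW77.rat1_funF hrat hM
  have hzN : IsZ D e b (pz D (i.comp φ) lam ε u R' r (fun j => i (η j))) :=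
    isZ_pz hD φ hrat hPK 1 (by rw [hpz1]; exact hz)
  set zN : Zp s p N := pz D (i.comp φ) lam ε u R' r (fun j => i (η j)) with hzNdef
  have hl0 : ∀ c : k, lam - algebraMap k N c ≠ 0 := by
    intro c
    rw [sub_ne_zero, ← i.commutes c]
    exact LibCW77.rat1_ne hrat _
  obtain ⟨v1, ε1, hv1, -, hv1o, hv1u⟩ := place_xi hrat (1 : k)
  obtain ⟨vz, ε2, hvz, -, hvzo, hvzu⟩ := place_xi hrat ζ
  have hv1Z : v1.Zer (lam - algebraMap k N 1) := Or.inr (by rw [hv1o]; exact one_pos)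
  have hvzZ : vz.Zer (lam - algebraMap k N ζ) := Or.inr (by rw [hvzo]; exact one_pos)
  have hne : v1 ≠ vz := by
    intro h
    have h1 := P7_ord (v := vz) hvzZ hζ1.symm
    rw [← h, hv1o] at h1
    exact one_ne_zero h1
  set g : N := (lam - algebraMap k N 1) / (lam - algebraMap k N ζ) with hg
  have hg0 : g ≠ 0 := div_ne_zero (hl0 1) (hl0 ζ)
  have hg1 : v1.ord g = 1 := by
    rw [hg, v1.ord_div _ _ (hl0 1) (hl0 ζ), hv1o, P7_ord hv1Z hζ1, sub_zero]
  have hg2 : vz.ord g = -1 := by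
    rw [hg, vz.ord_div _ _ (hl0 1) (hl0 ζ), hvzo, P7_ord hvzZ hζ1.symm, zero_sub]
  -- the other places
  have hoth : ∀ v, v ∉ ({v1, vz} : Finset (Place k N)) → v.ord g ≠ 0 → TV e b q v zN ∈ (⊥ : AddSubgroup W) := by
    intro v hv hvg
    obtain ⟨ξ, hξn, hξZ, hξE⟩ : ∃ ξ : k, ξ ^ D.n = 1 ∧ v.Zer (lam - algebraMap k N ξ) ∧
        ((∀ x, v.ord (i x) = 0) → v ∈ ({v1, vz} : Finset (Place k N))) := by
      have hpos : ∀ c : k, v.Zer (lam - algebraMap k N c) → 0 < v.ord (lam - algebraMap k N c) := by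
        intro c hc
        exact hc.resolve_left (hl0 c)
      rcases P7_cases hl0 hvg with h | h
      · refine ⟨1, one_pow _, h, fun hx => ?_⟩
        rw [hv1u v hx (hpos 1 h)]
        exact Finset.mem_insert_self _ _
      · refine ⟨ζ, hζn, h, fun hx => ?_⟩
        rw [hvzu v hx (hpos ζ h)]
        exact Finset.mem_insert_of_mem (Finset.mem_singleton_self _)
    have hξ0 : ξ ≠ 0 := by
      rintro rfl
      rw [zero_pow hn0] at hξn
      exact zero_ne_one hξn
    have hξR : Red v lam (algebraMap k (RF v) ξ) := LibCHd.red_iff_val.2 hξZ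
    by_cases hF0 : ∃ x, v.ord ((i.comp φ) x) ≠ 0
    · exact low_path hD hb q hlow hF (i.comp φ) u ε lam (fun l => rfl) v ξ hξR (Or.inl hξ0) hF0
    push Not at hF0
    have hF1 : ∀ x, v.ord (i (φ x)) = 0 := hF0
    by_cases hM0 : ∃ x, v.ord (i x) ≠ 0
    · obtain ⟨μ, y, hμ, hy, j0, hj0, hyj⟩ := exists_prim i v r η hηne
      obtain ⟨j, hj⟩ := LibHL77.exists_trivHom (k := k) (L := k) (K := F) (K' := N)
        ⟨((i.comp φ : F →ₐ[k] N) : F →+* N), fun c => by
          simp⟩ v hF1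
      rw [AddSubgroup.mem_bot]
      refine small_path hD hb q hM φ i u hu ε lam R' r η v ξ hξR (Or.inl hξ0) hF1 hM0 μ hμ y hy ?_
      by_contra hcon
      push Not at hcon
      refine hyj (ind_ext (fun i C => (R i C).eval 1) hi j.f y (fun C => ?_) j0 hj0)
      refine hcon C (fun i => j.f ((R i C).eval 1)) fun l hl => ?_
      have h1 : (R' l C).eval (algebraMap k F ξ) = (R l C).eval 1 := by
        have h2 := P7_eval (RingHom.id F) (algebraMap k F ξ) (n := D.n) (by rw [← map_pow, hξn, map_one]) (R l C)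
        rw [hR'def]
        simpa [Polynomial.eval₂_id] using h2
      rw [h1]
      exact hj _
    · push Not at hM0
      exact absurd (hξE hM0) hv
  have hsum := master' hD hb q hN hzN g hg0 ⊥ {v1, vz} hoth
  rw [Finset.sum_pair hne, hg1, hg2, AddSubgroup.mem_bot, one_smul, neg_smul, one_smul, ← sub_eq_add_neg,
    sub_eq_zero] at hsum
  have hT1 : TV e b q v1 zN = TZ e b q z := by
    rw [hzNdef, triv_path hD hb q hM φ hrat u hu ε R' r η v1 1 (Or.inl one_ne_zero) hv1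
      (by rw [hv1o]; exact one_pos) (by rw [hpz1]; exact hz.Y0), hpz1]
  have hT2 : TV e b q vz zN = TZ e b q ⟨fun l => algebraMap k M (ζ ^ ε (D.γ l)) * z.u l, z.Y⟩ := by
    rw [hzNdef, triv_path hD hb q hM φ hrat u hu ε R' r η vz ζ (Or.inl hζ0) hvz
      (by rw [hvzo]; exact one_pos) (by rw [hpzζ]; exact hz.Y0), hpzζ]
  rw [hT1, hT2] at hsum
  have hgrp : (fun a => ζ ^ ε a) ∈ grp k D.n m := by
    unfold grp
    rw [Fintype.mem_piFinset]
    intro a
    rw [mem_nthRootsFinset (Nat.pos_of_ne_zero hn0), ← pow_mul, mul_comm, pow_mul, hζn, one_pow]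
  have hact := TZ_act hD hb q z hgrp
  beta_reduce at hact
  rw [← hsum] at hact
  have hchi : chi e (fun a => ζ ^ ε a) = ζ ^ e a₀ := by
    unfold chi
    rw [Finset.prod_eq_single a₀]
    · show (ζ ^ (Pi.single a₀ 1 : Fin m → ℕ) a₀) ^ e a₀ = ζ ^ e a₀
      rw [Pi.single_eq_same, pow_one]
    · intro a _ ha
      show (ζ ^ (Pi.single a₀ 1 : Fin m → ℕ) a) ^ e a = 1
      rw [Pi.single_eq_of_ne ha, pow_zero, one_pow]
    · intro h
      exact absurd (Finset.mem_univ _) h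
  have hchi1 : chi e (fun a => ζ ^ ε a) ≠ 1 := by
    rw [hchi]
    intro h
    exact ha₀ ((hζ.pow_eq_one_iff_dvd _).1 h)
  have h2 : (chi e (fun a => ζ ^ ε a) - 1) • TZ e b q z = 0 := by
    rw [sub_smul, one_smul, hact, sub_self]
  rcases smul_eq_zero.1 h2 with h3 | h3
  · exact absurd (sub_eq_zero.1 h3) hchi1
  · exact h3

end Pool.Agent.LibDV76
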