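import Pool.Agent.LibDV76.T1
import Pool.Agent.LibDV76.P6

/-!
[DV P8a] Normalisation: for each block `C` choose `l_C` with `u_(l_C) ≠ 0` and `b (γ l_C) = C` (`u0`, `hb`), `τ_C = 1 / u_(l_C)`, `κ = 1`: then all `u_l / u_(l_C)` are in `bf D b z`.
`exists_kb`: `ext_basis` for the matrix `A t C = ∑_(b a = C) ev D u t a` (`Finset.sum_fiberwise`) in terms of `KB` and `zF`.
-/

open scoped Classical
open Polynomial

namespace Pool.Agent.LibDV76

open Pool.Agent.LibBH2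
open Pool.Agent.LibCHd (VR RF Red FunF)

variable {k : Type} [Field k] {s m c p : ℕ} {D : Dat k s m c} {e : Fin m → ℕ} {b : Fin m → Fin p}
  {M : Type} [Field M] [Algebra k M]

theorem exists_norm (hb : Function.Surjective b) {z : Zp s p M} (hz : IsZ D e b z) :
    ∃ (u : Fin s → bf D b z) (Y : Fin p → M), (∀ a, ∃ l, D.γ l = a ∧ u l ≠ 0) ∧
      ZEq D b z ⟨fun l => (u l : M), Y⟩ := by
  have h1 : ∀ C : Fin p, ∃ l : Fin s, b (D.γ l) = C ∧ z.u l ≠ 0 := by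
    intro C
    obtain ⟨a, ha⟩ := hb C
    obtain ⟨l, hl, hu⟩ := hz.u0 a
    exact ⟨l, by rw [hl, ha], hu⟩
  choose lc hlc hlu using h1
  have hmem : ∀ l : Fin s, z.u l / z.u (lc (b (D.γ l))) ∈ bf D b z := by
    intro l
    exact IntermediateField.subset_adjoin k _ ⟨l, lc (b (D.γ l)), (hlc (b (D.γ l))).symm, rfl⟩
  refine ⟨fun l => ⟨z.u l / z.u (lc (b (D.γ l))), hmem l⟩,
    fun C => 1 * z.Y C / ((z.u (lc C))⁻¹) ^ D.n, ?_, fun C => (z.u (lc C))⁻¹, 1, ?_, one_ne_zero, ?_, ?_⟩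
  · intro a
    obtain ⟨l, hl, hu⟩ := hz.u0 a
    refine ⟨l, hl, ?_⟩
    intro h
    have h2 : z.u l / z.u (lc (b (D.γ l))) = 0 := congrArg Subtype.val h
    exact div_ne_zero hu (hlu _) h2
  · intro C
    exact inv_ne_zero (hlu C)
  · intro l
    exact div_eq_inv_mul (z.u l) (z.u (lc (b (D.γ l))))
  · intro C
    rfl

end Pool.Agent.LibDV76
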