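import Pool.Agent.LibDV76.P5
import Pool.Agent.LibDV76.P7
import Pool.Agent.LibDV76.P8

/-!
[DV P9] Nontrivial characters: all classes are 0. Strong induction on `f` with `trdeg k (bf D b z) = f` (it is `≤ d`): `Low e b q ⊥ f`. `exists_norm`: `TZ z = TZ (u, Y)` (`TZ_zeq`), `F = bf D b z`, `φ = (bf D b z).val`. `lattice` for `A t C = ∑_(b a = C) C (ev D u t a) * (if a = a₀ then X else 1)`: `R`,
`p - c` vectors; `h i C = (R i C).eval 1` satisfies `KB D b u h (p - c)`. `exists_kb` extends it to `h'`, `(u, Y) = zF φ u h' r η` (relation from `IsZ`, `isZ_zeq`). `proj'` with `r₀ = p - c > d`: `TZ (u, Y) = TZ (zF φ u h' (p-c) η') = TZ (zF φ u h (p-c) η')`, which is `0` by `rot`.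
-/

open scoped Classical
open Polynomial

namespace Pool.Agent.LibDV76

open Pool.Agent.LibBH2
open Pool.Agent.LibCHd (VR RF Red FunF)

variable {k : Type} [Field k] {s m c p d : ℕ} {D : Dat k s m c} {e : Fin m → ℕ} {b : Fin m → Fin p}
  {W : Type} [AddCommGroup W] [Module k W]

private theorem P9_step [IsAlgClosed k] [CharZero k] (hD : D.Good) (hb : Bl D.n e b) (q : CH D d →+ W)
    (hp : c + d < p) (a₀ : Fin m) (ha₀ : ¬ D.n ∣ e a₀) (f : ℕ) (hlow : Low e b q ⊥ f)
    {M : Type} [Field M] [Algebra k M] (hM : FunF k d M) (z : Zp s p M) (hz : IsZ D e b z)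
    (hF : Algebra.trdeg k (bf D b z) ≤ f) : TZ e b q z = 0 := by
  obtain ⟨u, Y, hu, hzeq⟩ := exists_norm hb.surj hz
  rw [← TZ_zeq hD hb q hzeq]
  have hz' := isZ_zeq hD hz hzeq
  obtain ⟨R, hR1, hR2⟩ := lattice (p := p) (c := c) (F := bf D b z)
    (fun t C' => ∑ a ∈ Finset.univ.filter (fun a => b a = C'),
      C (ev D u t a) * (if a = a₀ then X else 1))
  have hR : ∀ i < p - c, ∀ t, ∑ a, C (ev D u t a) * (if a = a₀ then X else 1) * R i (b a) = 0 := by
    intro i hi t
    rw [← hR1 i hi t, ← Finset.sum_fiberwise Finset.univ b]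
    refine Finset.sum_congr rfl fun C' _ => ?_
    rw [Finset.sum_mul]
    refine Finset.sum_congr rfl fun a ha => ?_
    rw [(Finset.mem_filter.1 ha).2]
  have hKB : KB D b u (fun i C => (R i C).eval 1) (p - c) := by
    refine ⟨?_, hR2⟩
    intro i hi t
    have h1 := congrArg (Polynomial.eval 1) (hR i hi t)
    rw [Polynomial.eval_finsetSum, Polynomial.eval_zero] at h1
    rw [← h1]
    refine Finset.sum_congr rfl fun a _ => ?_
    rw [Polynomial.eval_mul, Polynomial.eval_mul, Polynomial.eval_C]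
    split_ifs <;> simp
  obtain ⟨r, h', hr0, -, hKB', hz1, hz2⟩ := exists_kb u (fun i C => (R i C).eval 1) hKB
  obtain ⟨η, hη⟩ := hz2 M _ _ (bf D b z).val Y (fun t => hz'.rel t)
  obtain ⟨η', hη'⟩ := proj' hD hb q hlow hF hM (bf D b z).val u h' (r₀ := p - c) (by omega) hr0
    hKB' η
  rw [hz1 M _ _ (bf D b z).val η', rot hD hb q hlow hF hM (bf D b z).val u a₀ ha₀ R (p - c) hR hR2 η',
    sub_zero, AddSubgroup.mem_bot] at hη'
  have h2 : (⟨fun l => (u l : M), Y⟩ : Zp s p M) = zF (bf D b z).val u h' r η := hη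
  rw [h2]
  exact hη'

private theorem P9_low [IsAlgClosed k] [CharZero k] (hD : D.Good) (hb : Bl D.n e b) (q : CH D d →+ W)
    (hp : c + d < p) (a₀ : Fin m) (ha₀ : ¬ D.n ∣ e a₀) (f : ℕ) : Low e b q ⊥ f := by
  induction f with
  | zero =>
    intro M _ _ z _ _ h
    rw [Nat.cast_zero] at h
    exact absurd h (not_lt.2 zero_le)
  | succ f ih =>
    intro M _ _ z hM hz h
    rw [AddSubgroup.mem_bot]
    refine P9_step hD hb q hp a₀ ha₀ f ih hM z hz ?_
    rw [Nat.cast_succ, ← Cardinal.succ_natCast] at h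
    exact Order.lt_succ_iff.1 h

theorem TZ_char [IsAlgClosed k] [CharZero k] (hD : D.Good) (hb : Bl D.n e b) (q : CH D d →+ W)
    (hp : c + d < p) (a₀ : Fin m) (ha₀ : ¬ D.n ∣ e a₀) {M : Type} [Field M] [Algebra k M] (hM : FunF k d M)
    (z : Zp s p M) : TZ e b q z = 0 := by
  by_cases hz : IsZ D e b z
  · have h1 := P9_low hD hb q hp a₀ ha₀ (d + 1) M _ _ z hM hz (by
      have h2 : Algebra.trdeg k (bf D b z) ≤ Algebra.trdeg k M :=
        trdeg_le_of_injective (bf D b z).val (bf D b z).val.injective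
      rw [Pool.Agent.LibCHd.FunF.trdeg hM] at h2
      refine lt_of_le_of_lt h2 ?_
      exact_mod_cast Nat.lt_succ_self d)
    rwa [AddSubgroup.mem_bot] at h1
  · exact TZ_not q hz

end Pool.Agent.LibDV76
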