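import Pool.Agent.LibDV76.P5
import Pool.Agent.LibDV76.Defs3
import Pool.Agent.LibDV76.Q1a

/-!
[DV Q1b] Refined projection. `exists_kappa'`: as `exists_kappa` (P4a.lean): if the `x_l` were algebraically independent over `F` then `trdeg k M ≥ f + r` (`Algebra.trdeg` is additive; or take a transcendence basis of `F`). `projf`: copy the proof of `proj` (P5a.lean) with
`exists_kappa'` for `exists_kappa`. `projf'`: copy of P5b.lean.
-/

open scoped Classical
open Polynomial

namespace Pool.Agent.LibDV76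

open Pool.Agent.LibBH2
open Pool.Agent.LibCHd (VR RF Red FunF)

variable {k : Type} [Field k] {s m c p d : ℕ} {D : Dat k s m c} {e : Fin m → ℕ} {b : Fin m → Fin p}
  {W : Type} [AddCommGroup W] [Module k W] {F M : Type} [Field F] [Algebra k F] [Field M] [Algebra k M]

private theorem Q1b_mono {u : Fin s → F} {h : ℕ → Fin p → F} {r : ℕ} (hh : KB D b u h (r + 1)) :
    KB D b u h r := by
  refine ⟨fun i hi t => hh.ker i (Nat.lt_succ_of_lt hi) t, fun x hx i hi => ?_⟩
  have h1 := hh.ind (fun j => if j < r then x j else 0) (fun C => ?_) i (Nat.lt_succ_of_lt hi)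
  · simpa only [if_pos hi] using h1
  · rw [Finset.sum_range_succ, if_neg (lt_irrefl r), zero_mul, add_zero, ← hx C]
    refine Finset.sum_congr rfl fun j hj => ?_
    rw [if_pos (Finset.mem_range.1 hj)]

theorem projf' [IsAlgClosed k] [CharZero k] (hD : D.Good) (hb : Bl D.n e b) (q : CH D d →+ W) {L : AddSubgroup W}
    {f : ℕ} (hlow : Low e b q L f) (hF : Algebra.trdeg k F = f) (hM : FunF k d M) (φ : F →ₐ[k] M) (u : Fin s → F)
    (h : ℕ → Fin p → F) {r₀ r : ℕ} (hr : d < r₀ + f) (hr' : r₀ ≤ r) (hh : KB D b u h r) (η : ℕ → M) :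
    ∃ η' : ℕ → M, TZ e b q (zF φ u h r η) - TZ e b q (zF φ u h r₀ η') ∈ L := by
  induction r, hr' using Nat.le_induction generalizing η with
  | base => exact ⟨η, by rw [sub_self]; exact L.zero_mem⟩
  | succ r hr' ih =>
    obtain ⟨η₁, h₁⟩ := projf hD hb q hlow hF hM φ u h (by omega) hh η
    obtain ⟨η', h₂⟩ := ih (Q1b_mono hh) η₁
    refine ⟨η', ?_⟩
    have h3 := L.add_mem h₁ h₂
    rwa [sub_add_sub_cancel] at h3

end Pool.Agent.LibDV76
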