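import Pool.Agent.LibDV76.Defs3
import Pool.Agent.LibCHd.Api

/-!
[DV Q10a] A basis with good reduction at finitely many places of a function field `K` of dimension 1 (residue fields are `k`).
Plan. Let `h` be the `r × p` matrix. (a) For `v ∈ T` let `J_v` be a set of `r` columns such that the minor of `h` has minimal order at `v` among all nonzero `r × r` minors. `h_v = (h_J)⁻¹ h` has the identity in the columns `J`, its other entries are quotients of minors (Cramer), so regular at `v`: residues `H_v`, a matrix over `k` with the
identity in the columns `J`. (b) Choose a constant `p × r` matrix `π` over `k` with `det (H_v π) ≠ 0` for all `v ∈ T`: a product of finitely many nonzero polynomials (the value at the selection matrix of `J_v` is `1`), `k` infinite. (c) `h' = (h π)⁻¹ h = (h_v π)⁻¹ h_v` is regular at `v` with the residue `(H_v π)⁻¹ H_v`.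
Proof here: Gauss elimination by induction on `r`, with pivot columns of minimal order; regular entries and the identity in the pivot columns are kept.
-/

open scoped Classical
open Polynomial

namespace Pool.Agent.LibDV76

open Pool.Agent.LibBH2
open Pool.Agent.LibCHd (VR RF Red FunF)

variable {k : Type} [Field k] {K : Type} [Field K] [Algebra k K] {p : ℕ}

private theorem Q10a_mono {h : ℕ → Fin p → K} {r : ℕ} (hi : Ind h (r + 1)) : Ind h r := by
  intro x hx
  have h1 := hi (fun i => if i < r then x i else 0) (by
    intro C
    rw [Finset.sum_range_succ, if_neg (lt_irrefl r), zero_mul, add_zero, ← hx C]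
    refine Finset.sum_congr rfl fun i hi => ?_
    rw [if_pos (Finset.mem_range.1 hi)])
  intro i hir
  have h2 := h1 i (by omega)
  rwa [if_pos hir] at h2

private theorem Q10a_reg_div (v : Place k K) {x y : K} (hy : y ≠ 0) (h : x = 0 ∨ v.ord y ≤ v.ord x) :
    v.Reg (x / y) := by
  rcases h with h | h
  · rw [h, zero_div]
    exact v.reg_zero
  · by_cases hx : x = 0
    · rw [hx, zero_div]
      exact v.reg_zero
    · exact Or.inr (by rw [v.ord_div _ _ hx hy]; omega)

private theorem Q10a_step [Nonempty (Fin p)] (v : Place k K) (h : ℕ → Fin p → K) (r : ℕ) (hi : Ind h r) :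
    ∃ (g : ℕ → ℕ → K) (h' : ℕ → Fin p → K) (J : ℕ → Fin p),
      (∀ i < r, ∀ C, h' i C = ∑ j ∈ Finset.range r, g i j * h j C) ∧ (∀ i < r, ∀ C, v.Reg (h' i C)) ∧
      ∀ i < r, ∀ j < r, h' i (J j) = if i = j then 1 else 0 := by
  induction r with
  | zero =>
    exact ⟨fun _ _ => 0, h, fun _ => Classical.arbitrary _, fun i hi => absurd hi (Nat.not_lt_zero i),
      fun i hi => absurd hi (Nat.not_lt_zero i), fun i hi => absurd hi (Nat.not_lt_zero i)⟩
  | succ r ih =>
    obtain ⟨g, h', J, hg, hreg, hJ⟩ := ih (Q10a_mono hi)
    -- the reduced new row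
    obtain ⟨x, hx⟩ : ∃ x : ℕ → K, x = fun j => if j = r then 1 else
      -∑ i ∈ Finset.range r, h r (J i) * g i j := ⟨_, rfl⟩
    obtain ⟨w, hw⟩ : ∃ w : Fin p → K, w = fun C => ∑ j ∈ Finset.range (r + 1), x j * h j C := ⟨_, rfl⟩
    have hw1 : ∀ C, w C = h r C - ∑ i ∈ Finset.range r, h r (J i) * h' i C := by
      intro C
      rw [hw]
      change ∑ j ∈ Finset.range (r + 1), x j * h j C = _
      rw [Finset.sum_range_succ]
      have h1 : x r = 1 := by rw [hx]; simp
      have h2 : ∑ j ∈ Finset.range r, x j * h j C = -∑ i ∈ Finset.range r, h r (J i) * h' i C := by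
        have h3 : ∀ j ∈ Finset.range r, x j * h j C =
            ∑ i ∈ Finset.range r, -(h r (J i) * (g i j * h j C)) := by
          intro j hj
          rw [hx]
          change (if j = r then 1 else -∑ i ∈ Finset.range r, h r (J i) * g i j) * h j C = _
          rw [if_neg (Finset.mem_range.1 hj).ne, neg_mul, Finset.sum_mul, Finset.sum_neg_distrib]
          congr 1
          exact Finset.sum_congr rfl fun i _ => by ring
        rw [Finset.sum_congr rfl h3, Finset.sum_comm, ← Finset.sum_neg_distrib]
        refine Finset.sum_congr rfl fun i hi => ?_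
        rw [Finset.sum_neg_distrib, ← Finset.mul_sum, ← hg i (Finset.mem_range.1 hi) C]
      rw [h1, h2, one_mul]
      ring
    have hwJ : ∀ j < r, w (J j) = 0 := by
      intro j hj
      rw [hw1]
      have h1 : ∑ i ∈ Finset.range r, h r (J i) * h' i (J j) = h r (J j) := by
        have h2 : ∀ i ∈ Finset.range r, h r (J i) * h' i (J j) = if i = j then h r (J i) else 0 := by
          intro i hi
          rw [hJ i (Finset.mem_range.1 hi) j hj]
          split_ifs
          · rw [mul_one]
          · rw [mul_zero]
        rw [Finset.sum_congr rfl h2, Finset.sum_ite_eq', if_pos (Finset.mem_range.2 hj)]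
      rw [h1, sub_self]
    have hw0 : ∃ C, w C ≠ 0 := by
      by_contra hcon
      push Not at hcon
      have h1 := hi x (fun C => by
        have := hcon C
        rw [hw] at this
        exact this) r (by omega)
      rw [hx] at h1
      simp at h1
    obtain ⟨C1, hC1⟩ := hw0
    obtain ⟨C₀, hC₀, hmin⟩ := Finset.exists_min_image (Finset.univ.filter fun C => w C ≠ 0)
      (fun C => v.ord (w C)) ⟨C1, Finset.mem_filter.2 ⟨Finset.mem_univ _, hC1⟩⟩
    have hC0 : w C₀ ≠ 0 := (Finset.mem_filter.1 hC₀).2
    have hwreg : ∀ C, v.Reg (w C / w C₀) := by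
      intro C
      refine Q10a_reg_div v hC0 ?_
      by_cases hC : w C = 0
      · exact Or.inl hC
      · exact Or.inr (hmin C (Finset.mem_filter.2 ⟨Finset.mem_univ _, hC⟩))
    have hJne : ∀ j < r, J j ≠ C₀ := fun j hj h1 => hC0 (by rw [← h1]; exact hwJ j hj)
    refine ⟨fun i j => if i = r then x j / w C₀ else
      (if j < r then g i j else 0) - h' i C₀ * (x j / w C₀),
      fun i C => if i = r then w C / w C₀ else h' i C - h' i C₀ * (w C / w C₀),
      fun j => if j = r then C₀ else J j, ?_, ?_, ?_⟩
    · intro i hir C
      have h1 : w C / w C₀ = ∑ j ∈ Finset.range (r + 1), x j / w C₀ * h j C := by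
        have h2 : w C = ∑ j ∈ Finset.range (r + 1), x j * h j C := by rw [hw]
        rw [h2, Finset.sum_div]
        exact Finset.sum_congr rfl fun j _ => by ring
      by_cases hir' : i = r
      · simp only [if_pos hir']
        exact h1
      · simp only [if_neg hir']
        have h2 : ∑ j ∈ Finset.range (r + 1), ((if j < r then g i j else 0) - h' i C₀ * (x j / w C₀)) * h j C =
            ∑ j ∈ Finset.range (r + 1), (if j < r then g i j else 0) * h j C -
            h' i C₀ * ∑ j ∈ Finset.range (r + 1), x j / w C₀ * h j C := by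
          rw [Finset.mul_sum, ← Finset.sum_sub_distrib]
          exact Finset.sum_congr rfl fun j _ => by ring
        rw [h2, ← h1, Finset.sum_range_succ, if_neg (lt_irrefl r), zero_mul, add_zero,
          hg i (by omega) C]
        congr 1
        exact Finset.sum_congr rfl fun j hj => by rw [if_pos (Finset.mem_range.1 hj)]
    · intro i hir C
      by_cases hir' : i = r
      · simp only [if_pos hir']
        exact hwreg C
      · simp only [if_neg hir']
        exact (hreg i (by omega) C).sub ((hreg i (by omega) C₀).mul (hwreg C))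
    · intro i hir j hjr
      by_cases hir' : i = r
      · simp only [if_pos hir']
        by_cases hjr' : j = r
        · rw [if_pos hjr', if_pos (by rw [hir', hjr']), div_self hC0]
        · rw [if_neg hjr', if_neg (by omega), hwJ j (by omega), zero_div]
      · simp only [if_neg hir']
        by_cases hjr' : j = r
        · rw [if_pos hjr', if_neg (by omega), div_self hC0, mul_one, sub_self]
        · rw [if_neg hjr', hwJ j (by omega), zero_div, mul_zero, sub_zero]
          exact hJ i (by omega) j (by omega)

private theorem Q10a_ind {F : Type} [Field F] {h : ℕ → Fin p → F} {r : ℕ} {J : ℕ → Fin p}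
    (hJ : ∀ i < r, ∀ j < r, h i (J j) = if i = j then 1 else 0) : Ind h r := by
  intro x hx j hj
  have h1 := hx (J j)
  have h2 : ∀ i ∈ Finset.range r, x i * h i (J j) = if i = j then x i else 0 := by
    intro i hi
    rw [hJ i (Finset.mem_range.1 hi) j hj]
    split_ifs
    · rw [mul_one]
    · rw [mul_zero]
  rw [Finset.sum_congr rfl h2, Finset.sum_ite_eq', if_pos (Finset.mem_range.2 hj)] at h1
  exact h1

theorem good_local (v : Place k K) (hv : ∀ y : RF v, ∃ c : k, algebraMap k (RF v) c = y) (h : ℕ → Fin p → K) (r : ℕ)
    (hi : Ind h r) : ∃ (g : ℕ → ℕ → K) (h' : ℕ → Fin p → K) (H : ℕ → Fin p → k),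
      (∀ i < r, ∀ C, h' i C = ∑ j ∈ Finset.range r, g i j * h j C) ∧ Ind h' r ∧
      (∀ i < r, ∀ C, Red v (h' i C) (algebraMap k (RF v) (H i C))) ∧ Ind H r := by
  by_cases hp : Nonempty (Fin p)
  · obtain ⟨g, h', J, hg, hreg, hJ⟩ := Q10a_step v h r hi
    have hH : ∀ i C, ∃ c : k, i < r → Red v (h' i C) (algebraMap k (RF v) c) := by
      intro i C
      by_cases hir : i < r
      · obtain ⟨y, hy⟩ := Pool.Agent.LibCHd.exists_red (hreg i hir C)
        obtain ⟨c, hc⟩ := hv y
        exact ⟨c, fun _ => by rw [hc]; exact hy⟩
      · exact ⟨0, fun h => absurd h hir⟩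
    choose H hH using hH
    refine ⟨g, h', H, hg, Q10a_ind hJ, fun i hir C => hH i C hir, Q10a_ind (J := J) ?_⟩
    intro i hir j hjr
    have h1 := hH i (J j) hir
    rw [hJ i hir j hjr] at h1
    have h2 : Red v (if i = j then (1 : K) else 0) (algebraMap k (RF v) (if i = j then 1 else 0)) := by
      have h3 := Pool.Agent.LibCHd.red_const v (if i = j then (1 : k) else 0)
      have h4 : algebraMap k K (if i = j then (1 : k) else 0) = if i = j then 1 else 0 := by
        split_ifs
        · exact map_one _
        · exact map_zero _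
      rwa [h4] at h3
    exact (algebraMap k (RF v)).injective (h1.unique h2)
  · have hr : r = 0 := by
      by_contra hr
      have h1 := hi (fun _ => 1) (fun C => absurd ⟨C⟩ hp) 0 (Nat.pos_of_ne_zero hr)
      exact one_ne_zero h1
    subst hr
    exact ⟨fun _ _ => 0, h, fun _ _ => 0, fun i hi => absurd hi (Nat.not_lt_zero i), hi,
      fun i hi => absurd hi (Nat.not_lt_zero i), fun x _ i hi => absurd hi (Nat.not_lt_zero i)⟩

end Pool.Agent.LibDV76
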