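import Pool.Agent.LibDV76.Defs3
import Pool.Agent.LibCHd.Api
import Pool.Agent.LibDV76.Q10a

/-!
[DV Q10b] A basis with good reduction at finitely many places of a function field `K` of dimension 1 (residue fields are `k`).
Plan. Let `h` be the `r × p` matrix. (a) For `v ∈ T` let `J_v` be a set of `r` columns such that the minor of `h` has minimal order at `v` among all nonzero `r × r` minors. `h_v = (h_J)⁻¹ h` has the identity in the columns `J`, its other entries are quotients of minors (Cramer), so regular at `v`: residues `H_v`, a matrix over `k` with the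
identity in the columns `J`. (b) Choose a constant `p × r` matrix `π` over `k` with `det (H_v π) ≠ 0` for all `v ∈ T`: a product of finitely many nonzero polynomials (the value at the selection matrix of `J_v` is `1`), `k` infinite. (c) `h' = (h π)⁻¹ h = (h_v π)⁻¹ h_v` is regular at `v` with the residue `(H_v π)⁻¹ H_v`.
-/

open scoped Classical
open Polynomial

namespace Pool.Agent.LibDV76

open Pool.Agent.LibBH2
open Pool.Agent.LibCHd (VR RF Red FunF)

variable {k : Type} [Field k] {K : Type} [Field K] [Algebra k K] {p : ℕ}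

private theorem Q10b_rinv {F : Type} [Field F] {r : ℕ} (h : ℕ → Fin p → F) (hi : Ind h r) :
    ∃ π : Fin p → Fin r → F, ∀ a i : Fin r, ∑ C, h a C * π C i = if a = i then 1 else 0 := by
  let f : (Fin r → F) →ₗ[F] (Fin p → F) := ∑ i : Fin r, (LinearMap.proj i).smulRight (h i)
  have hf : ∀ (y : Fin r → F) (C : Fin p), f y C = ∑ i : Fin r, y i * h i C := by
    intro y C
    simp [f, LinearMap.sum_apply, Finset.sum_apply]
  have hker : LinearMap.ker f = ⊥ := by
    rw [LinearMap.ker_eq_bot']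
    intro y hy
    let y' : ℕ → F := fun i => if h : i < r then y ⟨i, h⟩ else 0
    have h1 := hi y' (by
      intro C
      rw [Finset.sum_range]
      have h2 := congrFun hy C
      rw [hf] at h2
      simpa [y'] using h2)
    funext i
    have h2 := h1 i i.2
    simpa [y'] using h2
  obtain ⟨g, hg⟩ := f.exists_leftInverse_of_injective hker
  refine ⟨fun C i => g (Pi.single C 1) i, ?_⟩
  intro a i
  have h1 : f (Pi.single a 1) = fun C => h a C := by
    funext C
    rw [hf, Finset.sum_eq_single a]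
    · simp
    · intro b _ hb
      rw [Pi.single_eq_of_ne hb, zero_mul]
    · intro hb
      exact absurd (Finset.mem_univ _) hb
  have h2 : g (f (Pi.single a 1)) i = (Pi.single a (1 : F) : Fin r → F) i := by
    rw [← LinearMap.comp_apply, hg]
    rfl
  rw [h1] at h2
  have h3 : (fun C => h a C) = ∑ C : Fin p, h a C • (Pi.single C (1 : F) : Fin p → F) := by
    funext C
    rw [Finset.sum_apply, Finset.sum_eq_single C]
    · simp
    · intro b _ hb
      rw [Pi.smul_apply, Pi.single_eq_of_ne hb.symm, smul_zero]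
    · intro hb
      exact absurd (Finset.mem_univ _) hb
  rw [h3, map_sum, Finset.sum_apply] at h2
  have h4 : ∑ C : Fin p, h a C * g (Pi.single C 1) i = ∑ C : Fin p, g (h a C • (Pi.single C (1 : F) : Fin p → F)) i := by
    refine Finset.sum_congr rfl fun C _ => ?_
    rw [map_smul, Pi.smul_apply, smul_eq_mul]
  rw [h4, h2, Pi.single_apply]
  by_cases hai : a = i
  · rw [if_pos hai, if_pos hai.symm]
  · rw [if_neg hai, if_neg (fun h => hai h.symm)]

private theorem Q10b_pi [Infinite k] {ι : Type} (T : Finset ι) {r : ℕ} (Hm : ι → Matrix (Fin r) (Fin p) k)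
    (hH : ∀ v ∈ T, ∃ π : Matrix (Fin p) (Fin r) k, (Hm v * π).det ≠ 0) :
    ∃ π : Matrix (Fin p) (Fin r) k, ∀ v ∈ T, (Hm v * π).det ≠ 0 := by
  let Δ : ι → MvPolynomial (Fin p × Fin r) k := fun v =>
    (Matrix.of fun i j : Fin r => ∑ C, MvPolynomial.C (Hm v i C) * MvPolynomial.X (C, j)).det
  have hev : ∀ (v : ι) (π : Matrix (Fin p) (Fin r) k),
      MvPolynomial.eval (fun x : Fin p × Fin r => π x.1 x.2) (Δ v) = (Hm v * π).det := by
    intro v π
    simp only [Δ]
    rw [RingHom.map_det]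
    congr 1
    ext i j
    simp [Matrix.mul_apply]
  have hne : ∀ v ∈ T, Δ v ≠ 0 := by
    intro v hv h0
    obtain ⟨π, hπ⟩ := hH v hv
    apply hπ
    rw [← hev, h0, map_zero]
  have hprod : ∏ v ∈ T, Δ v ≠ 0 := Finset.prod_ne_zero_iff.2 hne
  have hex : ∃ x : Fin p × Fin r → k, MvPolynomial.eval x (∏ v ∈ T, Δ v) ≠ 0 := by
    by_contra hcon
    push Not at hcon
    apply hprod
    apply MvPolynomial.funext
    intro x
    rw [hcon x, map_zero]
  obtain ⟨x, hx⟩ := hex
  rw [map_prod, Finset.prod_ne_zero_iff] at hx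
  refine ⟨fun C j => x (C, j), ?_⟩
  intro v hv
  have h1 := hx v hv
  have h2 := hev v (fun C j => x (C, j))
  rw [← h2]
  exact h1

private theorem Q10b_lift {v : Place k K} {ι κ : Type} (A : Matrix ι κ K) (B : Matrix ι κ (RF v))
    (h : ∀ i j, Red v (A i j) (B i j)) :
    ∃ At : Matrix ι κ (VR v), (∀ i j, ((At i j : VR v) : K) = A i j) ∧
      ∀ i j, IsLocalRing.residue (VR v) (At i j) = B i j :=
  ⟨fun i j => ⟨A i j, (h i j).1⟩, fun _ _ => rfl, fun i j => (h i j).2⟩

private theorem Q10b_det {v : Place k K} {r : ℕ} (A : Matrix (Fin r) (Fin r) K) (B : Matrix (Fin r) (Fin r) (RF v))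
    (h : ∀ i j, Red v (A i j) (B i j)) : Red v A.det B.det := by
  obtain ⟨At, h1, h2⟩ := Q10b_lift A B h
  have e1 : ((At.det : VR v) : K) = A.det := by
    have := (VR v).subtype.map_det At
    have e : (VR v).subtype.mapMatrix At = A := by
      ext i j
      exact h1 i j
    rw [e] at this
    exact this
  have e2 : IsLocalRing.residue (VR v) At.det = B.det := by
    rw [RingHom.map_det]
    congr 1
    ext i j
    exact h2 i j
  refine ⟨?_, ?_⟩
  · rw [← e1]
    exact At.det.2
  · rw [← e2]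
    congr 1
    exact Subtype.ext e1.symm

private theorem Q10b_adj {v : Place k K} {r : ℕ} (A : Matrix (Fin r) (Fin r) K) (B : Matrix (Fin r) (Fin r) (RF v))
    (h : ∀ i j, Red v (A i j) (B i j)) (i j : Fin r) : Red v (A.adjugate i j) (B.adjugate i j) := by
  obtain ⟨At, h1, h2⟩ := Q10b_lift A B h
  have e1 : ((At.adjugate i j : VR v) : K) = A.adjugate i j := by
    have := (VR v).subtype.map_adjugate At
    have e : (VR v).subtype.mapMatrix At = A := by
      ext i j
      exact h1 i j
    rw [e] at this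
    rw [← this]
    rfl
  have e2 : IsLocalRing.residue (VR v) (At.adjugate i j) = B.adjugate i j := by
    have := (IsLocalRing.residue (VR v)).map_adjugate At
    have e : (IsLocalRing.residue (VR v)).mapMatrix At = B := by
      ext i j
      exact h2 i j
    rw [e] at this
    rw [← this]
    rfl
  refine ⟨?_, ?_⟩
  · rw [← e1]
    exact (At.adjugate i j).2
  · rw [← e2]
    congr 1
    exact Subtype.ext e1.symm

private theorem Q10b_sum {v : Place k K} {ι : Type} (s : Finset ι) (f : ι → K) (c : ι → RF v)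
    (h : ∀ i ∈ s, Red v (f i) (c i)) : Red v (∑ i ∈ s, f i) (∑ i ∈ s, c i) := by
  induction s using Finset.induction_on with
  | empty =>
    rw [Finset.sum_empty, Finset.sum_empty]
    exact Pool.Agent.LibCHd.red_zero v
  | insert a s ha ih =>
    rw [Finset.sum_insert ha, Finset.sum_insert ha]
    exact (h a (Finset.mem_insert_self a s)).add (ih fun i hi => h i (Finset.mem_insert_of_mem hi))

private theorem Q10b_inv {v : Place k K} {r : ℕ} (A : Matrix (Fin r) (Fin r) K) (B : Matrix (Fin r) (Fin r) k)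
    (h : ∀ i j, Red v (A i j) (algebraMap k (RF v) (B i j))) (hB : B.det ≠ 0) :
    A.det ≠ 0 ∧ ∀ i j, Red v (A⁻¹ i j) (algebraMap k (RF v) (B⁻¹ i j)) := by
  have h1 : Red v A.det (algebraMap k (RF v) B.det) := by
    have := Q10b_det A ((algebraMap k (RF v)).mapMatrix B) h
    rw [← RingHom.map_det] at this
    exact this
  have h2 : algebraMap k (RF v) B.det ≠ 0 := by
    intro h0
    exact hB ((algebraMap k (RF v)).injective (by rw [h0, map_zero]))
  refine ⟨h1.ne_zero h2, ?_⟩
  intro i j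
  have h3 : Red v (A.adjugate i j) (algebraMap k (RF v) (B.adjugate i j)) := by
    have := Q10b_adj A ((algebraMap k (RF v)).mapMatrix B) h i j
    rw [← RingHom.map_adjugate] at this
    exact this
  have h4 := (h1.inv h2).mul h3
  rw [← map_inv₀, ← map_mul] at h4
  rw [Matrix.inv_def, Matrix.inv_def, Ring.inverse_eq_inv', Ring.inverse_eq_inv', Matrix.smul_apply,
    Matrix.smul_apply, smul_eq_mul, smul_eq_mul]
  exact h4

private theorem Q10b_ind {F : Type} [Field F] {r : ℕ} (h : ℕ → Fin p → F) (π : Matrix (Fin p) (Fin r) F)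
    (hπ : ∀ a i : Fin r, ∑ C, h a C * π C i = if a = i then 1 else 0) : Ind h r := by
  intro x hx i hi
  have h1 : ∑ C, (∑ a ∈ Finset.range r, x a * h a C) * π C ⟨i, hi⟩ = 0 := by
    refine Finset.sum_eq_zero fun C _ => ?_
    rw [hx C, zero_mul]
  have h2 : ∑ C, (∑ a ∈ Finset.range r, x a * h a C) * π C ⟨i, hi⟩
      = ∑ a : Fin r, x a * ∑ C, h a C * π C ⟨i, hi⟩ := by
    simp_rw [Finset.sum_range, Finset.mul_sum, Finset.sum_mul]
    rw [Finset.sum_comm]
    refine Finset.sum_congr rfl fun a _ => Finset.sum_congr rfl fun C _ => ?_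
    ring
  rw [h2] at h1
  simp_rw [hπ] at h1
  rw [Finset.sum_eq_single ⟨i, hi⟩] at h1
  · simpa using h1
  · intro b _ hb
    rw [if_neg hb, mul_zero]
  · intro hb
    exact absurd (Finset.mem_univ _) hb

theorem good_basis [Infinite k] (T : Finset (Place k K))
    (hT : ∀ v ∈ T, ∀ y : RF v, ∃ c : k, algebraMap k (RF v) c = y) (h : ℕ → Fin p → K) (r : ℕ) (hi : Ind h r) :
    ∃ (g : ℕ → ℕ → K) (h' : ℕ → Fin p → K) (H : Place k K → ℕ → Fin p → k),
      (∀ i < r, ∀ C, h' i C = ∑ j ∈ Finset.range r, g i j * h j C) ∧ Ind h' r ∧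
      ∀ v ∈ T, (∀ i < r, ∀ C, Red v (h' i C) (algebraMap k (RF v) (H v i C))) ∧ Ind (H v) r := by
  rcases T.eq_empty_or_nonempty with hemp | ⟨v₀, hv₀⟩
  · refine ⟨fun i j => if i = j then 1 else 0, h, fun _ _ _ => 0, ?_, hi, ?_⟩
    · intro i hi C
      rw [Finset.sum_eq_single i]
      · simp
      · intro b _ hb
        change (if i = b then (1 : K) else 0) * h b C = 0
        rw [if_neg hb.symm, zero_mul]
      · intro hb
        exact absurd (Finset.mem_range.2 hi) hb
    · intro v hv
      rw [hemp] at hv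
      exact absurd hv (Finset.notMem_empty v)
  have hloc : ∀ v : Place k K, ∃ (g : ℕ → ℕ → K) (h' : ℕ → Fin p → K) (H : ℕ → Fin p → k), v ∈ T →
      ((∀ i < r, ∀ C, h' i C = ∑ j ∈ Finset.range r, g i j * h j C) ∧ Ind h' r ∧
      (∀ i < r, ∀ C, Red v (h' i C) (algebraMap k (RF v) (H i C))) ∧ Ind H r) := by
    intro v
    by_cases hv : v ∈ T
    · obtain ⟨g, h', H, hh⟩ := good_local v (hT v hv) h r hi
      exact ⟨g, h', H, fun _ => hh⟩
    · exact ⟨fun _ _ => 0, fun _ _ => 0, fun _ _ => 0, fun hv' => absurd hv' hv⟩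
  choose gl hl Hl hlH using hloc
  obtain ⟨π, hπ⟩ := Q10b_pi (p := p) T (r := r) (fun v => Matrix.of fun i C => Hl v i C) (by
    intro v hv
    obtain ⟨π, hπ⟩ := Q10b_rinv (Hl v) (hlH v hv).2.2.2
    refine ⟨Matrix.of π, ?_⟩
    have : (Matrix.of fun (i : Fin r) (C : Fin p) => Hl v i C) * (Matrix.of π) = 1 := by
      ext a i
      rw [Matrix.mul_apply, Matrix.one_apply]
      exact hπ a i
    rw [this, Matrix.det_one]
    exact one_ne_zero)
  -- matrices
  let πK : Matrix (Fin p) (Fin r) K := π.map (algebraMap k K)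
  let hm : Matrix (Fin r) (Fin p) K := Matrix.of fun i C => h i C
  let Mm : Matrix (Fin r) (Fin r) K := hm * πK
  let hv : Place k K → Matrix (Fin r) (Fin p) K := fun v => Matrix.of fun i C => hl v i C
  let Hv : Place k K → Matrix (Fin r) (Fin p) k := fun v => Matrix.of fun i C => Hl v i C
  let Gv : Place k K → Matrix (Fin r) (Fin r) K := fun v => Matrix.of fun i j => gl v i j
  have hGh : ∀ v ∈ T, hv v = Gv v * hm := by
    intro v hvT
    ext i C
    rw [Matrix.mul_apply]
    change hl v i C = ∑ j : Fin r, gl v i j * h j C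
    rw [(hlH v hvT).1 i i.2 C, Finset.sum_range]
  have hred : ∀ v ∈ T, ∀ i j, Red v ((hv v * πK) i j) (algebraMap k (RF v) ((Hv v * π) i j)) := by
    intro v hvT i j
    rw [Matrix.mul_apply, Matrix.mul_apply, map_sum]
    apply Q10b_sum
    intro C _
    rw [map_mul]
    exact ((hlH v hvT).2.2.1 i i.2 C).mul (Pool.Agent.LibCHd.red_const v _)
  have hinv : ∀ v ∈ T, (hv v * πK).det ≠ 0 ∧
      ∀ i j, Red v ((hv v * πK)⁻¹ i j) (algebraMap k (RF v) ((Hv v * π)⁻¹ i j)) := by
    intro v hvT
    exact Q10b_inv _ _ (hred v hvT) (hπ v hvT)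
  have hGM : ∀ v ∈ T, hv v * πK = Gv v * Mm := by
    intro v hvT
    rw [hGh v hvT, Matrix.mul_assoc]
  have hGdet : ∀ v ∈ T, (Gv v).det ≠ 0 ∧ Mm.det ≠ 0 := by
    intro v hvT
    have h1 := (hinv v hvT).1
    rw [hGM v hvT, Matrix.det_mul] at h1
    exact ⟨left_ne_zero_of_mul h1, right_ne_zero_of_mul h1⟩
  have hMdet : Mm.det ≠ 0 := (hGdet v₀ hv₀).2
  have hMu : IsUnit Mm.det := IsUnit.mk0 _ hMdet
  let h' : Matrix (Fin r) (Fin p) K := Mm⁻¹ * hm
  have hh' : ∀ v ∈ T, h' = (hv v * πK)⁻¹ * hv v := by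
    intro v hvT
    have hGu : IsUnit (Gv v).det := IsUnit.mk0 _ (hGdet v hvT).1
    rw [hGM v hvT, hGh v hvT, Matrix.mul_inv_rev, Matrix.mul_assoc, ← Matrix.mul_assoc (Gv v)⁻¹,
      Matrix.nonsing_inv_mul _ hGu, Matrix.one_mul]
  let H' : Place k K → Matrix (Fin r) (Fin p) k := fun v => (Hv v * π)⁻¹ * Hv v
  let ext0 : ∀ {F : Type} [Field F], Matrix (Fin r) (Fin p) F → ℕ → Fin p → F :=
    fun A i C => if hi : i < r then A ⟨i, hi⟩ C else 0
  refine ⟨fun i j => if hij : i < r ∧ j < r then Mm⁻¹ ⟨i, hij.1⟩ ⟨j, hij.2⟩ else 0, ext0 h', fun v => ext0 (H' v),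
    ?_, ?_, ?_⟩
  · intro i hi C
    simp only [ext0]
    rw [dif_pos hi, Finset.sum_range]
    change (Mm⁻¹ * hm) ⟨i, hi⟩ C = _
    rw [Matrix.mul_apply]
    refine Finset.sum_congr rfl fun j _ => ?_
    rw [dif_pos ⟨hi, j.2⟩]
    rfl
  · apply Q10b_ind (ext0 h') πK
    intro a i
    have h1 : (h' * πK) a i = (1 : Matrix (Fin r) (Fin r) K) a i := by
      have h2 : h' * πK = 1 := by
        change Mm⁻¹ * hm * πK = 1
        rw [Matrix.mul_assoc]
        exact Matrix.nonsing_inv_mul _ hMu
      rw [h2]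
    rw [Matrix.mul_apply, Matrix.one_apply] at h1
    rw [← h1]
    refine Finset.sum_congr rfl fun C _ => ?_
    simp only [ext0]
    rw [dif_pos a.2]
  · intro v hvT
    have hHu : IsUnit (Hv v * π).det := IsUnit.mk0 _ (hπ v hvT)
    refine ⟨?_, ?_⟩
    · intro i hi C
      simp only [ext0]
      rw [dif_pos hi, dif_pos hi, hh' v hvT]
      change Red v (((hv v * πK)⁻¹ * hv v) ⟨i, hi⟩ C) (algebraMap k (RF v) (((Hv v * π)⁻¹ * Hv v) ⟨i, hi⟩ C))
      rw [Matrix.mul_apply, Matrix.mul_apply, map_sum]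
      apply Q10b_sum
      intro j _
      rw [map_mul]
      exact ((hinv v hvT).2 _ _).mul ((hlH v hvT).2.2.1 j j.2 C)
    · apply Q10b_ind (ext0 (H' v)) π
      intro a i
      have h1 : (H' v * π) a i = (1 : Matrix (Fin r) (Fin r) k) a i := by
        have h2 : H' v * π = 1 := by
          change (Hv v * π)⁻¹ * Hv v * π = 1
          rw [Matrix.mul_assoc]
          exact Matrix.nonsing_inv_mul _ hHu
        rw [h2]
      rw [Matrix.mul_apply, Matrix.one_apply] at h1
      rw [← h1]
      refine Finset.sum_congr rfl fun C _ => ?_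
      simp only [ext0]
      rw [dif_pos a.2]

end Pool.Agent.LibDV76
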