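import Pool.Agent.LibDV76.Defs3
import Pool.Agent.LibCHd.B5
import Pool.Agent.LibCHd.Api
import Pool.Agent.LibHL77.B5

/-!
[DV Q11b] `rf_const`: the residue field of a place of a function field of dimension 1 over an algebraically closed field is `k` (`B5_trdeg` in LibHL77/B5.lean gives `trdeg ≤ 0`; some element has order `≠ 0`; algebraic over `k` = in `k`).
`norm_u`: for each block choose constants `c_l` in `k` such that `u_C = ∑ c_l u_l` (`l` in the block) has the order `min ord u_l` at all `v ∈ T`: divide by a coordinate of minimal order, the residue of the sum is a nonzero linear form in the `c_l` for each `v ∈ T`; a product of finitely many nonzero linear forms does not vanish at some point (`k` infinite).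
`τ_C = 1 / u_C`. (`u` is not zero on each block since `Val`.)
-/

open scoped Classical
open Polynomial

namespace Pool.Agent.LibDV76

open Pool.Agent.LibBH2
open Pool.Agent.LibCHd (VR RF Red FunF)

variable {k : Type} [Field k] {s m c p : ℕ} {D : Dat k s m c} {b : Fin m → Fin p} {K : Type} [Field K] [Algebra k K]

/-- at a place a finite family, not all zero, has after division by one member a nonzero reduction -/
private theorem q11b_place (v : Place k K) (hv : ∀ y : RF v, ∃ c : k, algebraMap k (RF v) c = y)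
    (I : Finset (Fin s)) (u : Fin s → K) (hI : ∃ l ∈ I, u l ≠ 0) :
    ∃ (l₀ : Fin s) (r : Fin s → k), l₀ ∈ I ∧ u l₀ ≠ 0 ∧ r l₀ = 1 ∧
      ∀ l ∈ I, Red v (u l / u l₀) (algebraMap k (RF v) (r l)) := by
  obtain ⟨l₀, h1, h2⟩ := Finset.exists_min_image (I.filter fun l => u l ≠ 0) (fun l => v.ord (u l))
    (by
      obtain ⟨l, h3, h4⟩ := hI
      exact ⟨l, Finset.mem_filter.mpr ⟨h3, h4⟩⟩)
  rw [Finset.mem_filter] at h1
  have h3 : ∀ l ∈ I, v.Reg (u l / u l₀) := by
    intro l hl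
    by_cases h4 : u l = 0
    · left
      rw [h4, zero_div]
    · right
      rw [div_eq_mul_inv, v.ord_mul _ _ h4 (inv_ne_zero h1.2), v.ord_inv]
      have h5 := h2 l (Finset.mem_filter.mpr ⟨hl, h4⟩)
      omega
  have h4 : ∀ l : Fin s, ∃ c : k, l ∈ I → Red v (u l / u l₀) (algebraMap k (RF v) c) := by
    intro l
    by_cases hl : l ∈ I
    · obtain ⟨y, hy⟩ := LibCHd.exists_red (h3 l hl)
      obtain ⟨c, rfl⟩ := hv y
      exact ⟨c, fun _ => hy⟩
    · exact ⟨0, fun h => absurd h hl⟩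
  choose r hr using h4
  refine ⟨l₀, r, h1.1, h1.2, ?_, fun l hl => hr l hl⟩
  have h5 := hr l₀ h1.1
  rw [div_self h1.2] at h5
  have h6 := h5.unique (LibCHd.red_one v)
  exact (algebraMap k (RF v)).injective (by rw [h6, map_one])

/-- sums -/
private theorem q11b_sum (v : Place k K) {ι : Type} (I : Finset ι) (f : ι → K) (g : ι → RF v)
    (h : ∀ l ∈ I, Red v (f l) (g l)) : Red v (∑ l ∈ I, f l) (∑ l ∈ I, g l) := by
  induction I using Finset.induction_on with
  | empty => simpa using LibCHd.red_zero v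
  | insert a I ha ih =>
    rw [Finset.sum_insert ha, Finset.sum_insert ha]
    exact (h a (Finset.mem_insert_self a I)).add
      (ih fun l hl => h l (Finset.mem_insert_of_mem hl))

/-- a common denominator for one block -/
private theorem q11b_block [Infinite k] (T : Finset (Place k K))
    (hT : ∀ v ∈ T, ∀ y : RF v, ∃ c : k, algebraMap k (RF v) c = y) (I : Finset (Fin s))
    (u : Fin s → K) (hI : ∃ l ∈ I, u l ≠ 0) :
    ∃ w : K, w ≠ 0 ∧ ∀ v ∈ T, ∃ r : Fin s → k, (∃ l ∈ I, r l ≠ 0) ∧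
      ∀ l ∈ I, Red v (w⁻¹ * u l) (algebraMap k (RF v) (r l)) := by
  rcases T.eq_empty_or_nonempty with hT0 | ⟨v₀, hv₀⟩
  · obtain ⟨l, -, hl⟩ := hI
    exact ⟨u l, hl, fun v hv => by rw [hT0] at hv; exact absurd hv (Finset.notMem_empty v)⟩
  have h1 : ∀ v : Place k K, ∃ (l₀ : Fin s) (r : Fin s → k), v ∈ T → l₀ ∈ I ∧ u l₀ ≠ 0 ∧
      r l₀ = 1 ∧ ∀ l ∈ I, Red v (u l / u l₀) (algebraMap k (RF v) (r l)) := by
    intro v
    by_cases hv : v ∈ T
    · obtain ⟨l₀, r, h⟩ := q11b_place v (hT v hv) I u hI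
      exact ⟨l₀, r, fun _ => h⟩
    · obtain ⟨l, -, -⟩ := hI
      exact ⟨l, fun _ => 0, fun h => absurd h hv⟩
  choose l₀ r hr using h1
  -- the polynomials
  let P : Place k K → k[X] := fun v => ∑ l ∈ I, C (r v l) * X ^ (l : ℕ)
  have hP : ∀ v ∈ T, P v ≠ 0 := by
    intro v hv h0
    have h2 : (P v).coeff (l₀ v : ℕ) = 1 := by
      simp only [P, finsetSum_coeff, coeff_C_mul, coeff_X_pow]
      rw [Finset.sum_eq_single (l₀ v)]
      · simp [(hr v hv).2.2.1]
      · intro l _ hl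
        rw [if_neg (fun h => hl (Fin.ext h.symm)), mul_zero]
      · intro h
        exact absurd (hr v hv).1 h
    rw [h0, coeff_zero] at h2
    exact zero_ne_one h2
  have hprod : ∏ v ∈ T, P v ≠ 0 := Finset.prod_ne_zero_iff.mpr hP
  obtain ⟨t, ht⟩ : ∃ t : k, (∏ v ∈ T, P v).eval t ≠ 0 := by
    by_contra hcon
    push Not at hcon
    exact hprod (Polynomial.funext (fun t => by rw [hcon t, eval_zero]))
  rw [eval_prod, Finset.prod_ne_zero_iff] at ht
  let w : K := ∑ l ∈ I, algebraMap k K (t ^ (l : ℕ)) * u l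
  have hw : ∀ v ∈ T, Red v (w / u (l₀ v)) (algebraMap k (RF v) ((P v).eval t)) := by
    intro v hv
    have h2 : w / u (l₀ v) = ∑ l ∈ I, algebraMap k K (t ^ (l : ℕ)) * (u l / u (l₀ v)) := by
      simp only [w, Finset.sum_div, mul_div_assoc]
    have h3 : algebraMap k (RF v) ((P v).eval t)
        = ∑ l ∈ I, algebraMap k (RF v) (t ^ (l : ℕ)) * algebraMap k (RF v) (r v l) := by
      simp only [P, eval_finsetSum, eval_mul, eval_C, eval_pow, eval_X, map_sum, map_mul]
      exact Finset.sum_congr rfl fun l _ => mul_comm _ _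
    rw [h2, h3]
    exact q11b_sum v I _ _ fun l hl => (LibCHd.red_const v _).mul ((hr v hv).2.2.2 l hl)
  have hP' : ∀ v ∈ T, algebraMap k (RF v) ((P v).eval t) ≠ 0 := fun v hv h =>
    ht v hv ((map_eq_zero _).mp h)
  have hw0 : w ≠ 0 := by
    intro h0
    have h2 := (hw v₀ hv₀).ne_zero (hP' v₀ hv₀)
    rw [h0, zero_div] at h2
    exact h2 rfl
  refine ⟨w, hw0, fun v hv => ⟨fun l => r v l / (P v).eval t, ⟨l₀ v, (hr v hv).1, ?_⟩, ?_⟩⟩
  · change r v (l₀ v) / (P v).eval t ≠ 0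
    rw [(hr v hv).2.2.1]
    exact one_div_ne_zero (ht v hv)
  · intro l hl
    change Red v (w⁻¹ * u l) (algebraMap k (RF v) (r v l / (P v).eval t))
    have h2 := ((hr v hv).2.2.2 l hl).div (hw v hv) (hP' v hv)
    rw [← map_div₀] at h2
    have h3 : u l / u (l₀ v) / (w / u (l₀ v)) = w⁻¹ * u l := by
      have h4 := (hr v hv).2.1
      field_simp
    rwa [h3] at h2

theorem norm_u [Infinite k] (hb : Function.Surjective b) (T : Finset (Place k K))
    (hT : ∀ v ∈ T, ∀ y : RF v, ∃ c : k, algebraMap k (RF v) c = y) {u : Fin s → K} (hu : Val D u) :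
    ∃ (τ : Fin p → K) (U : Place k K → Fin s → k), (∀ C, τ C ≠ 0) ∧
      ∀ v ∈ T, (∀ l, Red v (τ (b (D.γ l)) * u l) (algebraMap k (RF v) (U v l))) ∧
        ∀ C, ∃ l, b (D.γ l) = C ∧ U v l ≠ 0 := by
  have h1 : ∀ C : Fin p, ∃ w : K, w ≠ 0 ∧ ∀ v ∈ T, ∃ r : Fin s → k,
      (∃ l ∈ Finset.univ.filter (fun l => b (D.γ l) = C), r l ≠ 0) ∧
      ∀ l ∈ Finset.univ.filter (fun l => b (D.γ l) = C),
        Red v (w⁻¹ * u l) (algebraMap k (RF v) (r l)) := by
    intro C
    apply q11b_block T hT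
    obtain ⟨a, rfl⟩ := hb C
    obtain ⟨l, h2, h3⟩ := hu a
    exact ⟨l, by simp [h2], h3⟩
  choose w hw0 hw using h1
  have h2 : ∀ (v : Place k K) (C : Fin p), ∃ r : Fin s → k, v ∈ T →
      (∃ l ∈ Finset.univ.filter (fun l => b (D.γ l) = C), r l ≠ 0) ∧
      ∀ l ∈ Finset.univ.filter (fun l => b (D.γ l) = C),
        Red v ((w C)⁻¹ * u l) (algebraMap k (RF v) (r l)) := by
    intro v C
    by_cases hv : v ∈ T
    · obtain ⟨r, h⟩ := hw C v hv
      exact ⟨r, fun _ => h⟩
    · exact ⟨fun _ => 0, fun h => absurd h hv⟩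
  choose r hr using h2
  refine ⟨fun C => (w C)⁻¹, fun v l => r v (b (D.γ l)) l, fun C => inv_ne_zero (hw0 C), ?_⟩
  intro v hv
  refine ⟨fun l => (hr v (b (D.γ l)) hv).2 l (by simp), fun C => ?_⟩
  obtain ⟨l, h3, h4⟩ := (hr v C hv).1
  rw [Finset.mem_filter] at h3
  refine ⟨l, h3.2, ?_⟩
  change r v (b (D.γ l)) l ≠ 0
  rw [h3.2]
  exact h4

end Pool.Agent.LibDV76
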