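import Pool.Agent.LibDV76.Defs3
import Pool.Agent.LibCHd.B5
import Pool.Agent.LibCHd.Api
import Pool.Agent.LibHL77.B5

/-!
[DV Q11a] `rf_const`: the residue field of a place of a function field of dimension 1 over an algebraically closed field is `k` (`B5_trdeg` in LibHL77/B5.lean gives `trdeg ≤ 0`; some element has order `≠ 0`; algebraic over `k` = in `k`).
`norm_u`: for each block choose constants `c_l` in `k` such that `u_C = ∑ c_l u_l` (`l` in the block) has the order `min ord u_l` at all `v ∈ T`: divide by a coordinate of minimal order, the residue of the sum is a nonzero linear form in the `c_l` for each `v ∈ T`; a product of finitely many nonzero linear forms does not vanish at some point (`k` infinite).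
`τ_C = 1 / u_C`. (`u` is not zero on each block since `Val`.)
-/

open scoped Classical
open Polynomial

namespace Pool.Agent.LibDV76

open Pool.Agent.LibBH2
open Pool.Agent.LibCHd (VR RF Red FunF)

variable {k : Type} [Field k] {s m c p : ℕ} {D : Dat k s m c} {b : Fin m → Fin p} {K : Type} [Field K] [Algebra k K]

theorem rf_const [IsAlgClosed k] (hK : FunF k 1 K) (v : Place k K) (y : RF v) : ∃ c : k, algebraMap k (RF v) c = y := by
  obtain ⟨t, ht⟩ := v.exists_uniformizer
  have h1 : Algebra.trdeg k (RF v) ≤ (0 : ℕ) :=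
    Pool.Agent.LibHL77.B5_trdeg (d := 0) hK v t (by rw [ht]; exact one_ne_zero)
  have h2 : Algebra.trdeg k (RF v) = 0 := by
    rw [Nat.cast_zero] at h1
    exact le_antisymm h1 bot_le
  have h3 : Algebra.IsAlgebraic k (RF v) := by
    rw [_root_.trdeg_eq_zero_iff] at h2
    exact h2
  have h4 : Algebra.IsIntegral k (RF v) := inferInstance
  exact (IsAlgClosed.algebraMap_bijective_of_isIntegral (k := k) (K := RF v)).2 y

/-- specialisations of `u` are unique up to factors for the blocks -/
theorem spU_unique {v : Place k K} {u : Fin s → K} {u' u'' : Fin s → k} (hb : Function.Surjective b)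
    (h' : SpU D b v u u') (h'' : SpU D b v u u'') (hu' : ∀ C, ∃ l, b (D.γ l) = C ∧ u' l ≠ 0)
    (hu'' : ∀ C, ∃ l, b (D.γ l) = C ∧ u'' l ≠ 0) :
    ∃ τ : Fin p → k, (∀ C, τ C ≠ 0) ∧ u'' = fun l => τ (b (D.γ l)) * u' l := by
  obtain ⟨τ', hτ', h1⟩ := h'
  obtain ⟨τ'', hτ'', h2⟩ := h''
  choose L hL hL' using hu'
  have hne : ∀ C, algebraMap k (RF v) (u' (L C)) ≠ 0 := by
    intro C
    rw [Ne, map_eq_zero]
    exact hL' C
  have huL : ∀ C, u (L C) ≠ 0 := by
    intro C h0
    have h3 := (h1 (L C)).ne_zero (hne C)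
    apply h3
    rw [h0, mul_zero]
  have hρ : ∀ C, Red v (τ'' C / τ' C) (algebraMap k (RF v) (u'' (L C) / u' (L C))) := by
    intro C
    have h3 := (h2 (L C)).div (h1 (L C)) (hne C)
    rw [hL C] at h3
    have h4 : τ'' C * u (L C) / (τ' C * u (L C)) = τ'' C / τ' C := by
      rw [mul_div_mul_right _ _ (huL C)]
    rw [h4] at h3
    rw [map_div₀]
    exact h3
  have hfin : ∀ l, u'' l = u'' (L (b (D.γ l))) / u' (L (b (D.γ l))) * u' l := by
    intro l
    have h3 := (hρ (b (D.γ l))).mul (h1 l)
    have h4 : τ'' (b (D.γ l)) / τ' (b (D.γ l)) * (τ' (b (D.γ l)) * u l) =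
        τ'' (b (D.γ l)) * u l := by
      rw [← mul_assoc, div_mul_cancel₀ _ (hτ' _)]
    rw [h4, ← map_mul] at h3
    have h5 := h3.unique (h2 l)
    exact ((algebraMap k (RF v)).injective h5).symm
  refine ⟨fun C => u'' (L C) / u' (L C), fun C => ?_, funext hfin⟩
  obtain ⟨l, hl, hl'⟩ := hu'' C
  intro h0
  apply hl'
  have h6 := hfin l
  rw [hl] at h6
  rw [h6]
  change u'' (L C) / u' (L C) = 0 at h0
  rw [h0, zero_mul]

end Pool.Agent.LibDV76
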