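import Pool.Agent.LibDV76.Defs3
import Pool.Agent.LibDV76.F0
import Pool.Agent.LibCHd.Api

/-!
[DV Q9b] The Gauss place. `w` a place of `M`, `N = M(t_1, ..., t_r)`: `v(P(t)) =` minimum of the orders of the coefficients. Template: `gauss_exists`, `gauss_char` in LibHL77 (two variables). Uniqueness: if `v'` induces a positive multiple of `w` on `M` and the `t_l` have residues which are algebraically independent over the residues of `M`
then `v'.ord P(t) = e * min` (normalise `P` to have a coefficient of order 0: its reduction is not 0, so the residue of the value is not 0), all orders are multiples of `e`, so `e = 1` and `v' = v`.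
-/

open scoped Classical
open Polynomial

namespace Pool.Agent.LibDV76

open Pool.Agent.LibBH2
open Pool.Agent.LibCHd (VR RF Red FunF)

variable {k : Type} [Field k] {M N : Type} [Field M] [Algebra k M] [Field N] [Algebra k N]

private theorem Q9b_sum {v : Place k N} {ι : Type} (s : Finset ι) (f : ι → N) (g : ι → RF v)
    (h : ∀ a ∈ s, Red v (f a) (g a)) : Red v (∑ a ∈ s, f a) (∑ a ∈ s, g a) := by
  induction s using Finset.induction_on with
  | empty => simpa using Pool.Agent.LibCHd.red_zero v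
  | insert a s ha ih =>
    rw [Finset.sum_insert ha, Finset.sum_insert ha]
    exact (h a (Finset.mem_insert_self a s)).add (ih fun b hb => h b (Finset.mem_insert_of_mem hb))

private theorem Q9b_prod {v : Place k N} {ι : Type} (s : Finset ι) (f : ι → N) (g : ι → RF v)
    (h : ∀ a ∈ s, Red v (f a) (g a)) : Red v (∏ a ∈ s, f a) (∏ a ∈ s, g a) := by
  induction s using Finset.induction_on with
  | empty => simpa using Pool.Agent.LibCHd.red_one v
  | insert a s ha ih =>
    rw [Finset.prod_insert ha, Finset.prod_insert ha]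
    exact (h a (Finset.mem_insert_self a s)).mul (ih fun b hb => h b (Finset.mem_insert_of_mem hb))

private theorem Q9b_one {r : ℕ} {i : M →ₐ[k] N} {t : Fin r → N} (w : Place k M) (v : Place k N)
    (e : ℤ) (hv : ∀ x, v.ord (i x) = e * w.ord x) (j : RF w →ₐ[k] RF v)
    (hj : ∀ x y, Red w x y → Red v (i x) (j y)) (T : Fin r → RF v) (hT : ∀ l, Red v (t l) (T l))
    (hi : ∀ G : MvPolynomial (Fin r) (RF w), G ≠ 0 → G.eval₂ (j : RF w →+* RF v) T ≠ 0)
    (P : MvPolynomial (Fin r) M) (s0 : Fin r →₀ ℕ) (hs0 : s0 ∈ P.support)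
    (hmin : ∀ s ∈ P.support, w.ord (P.coeff s0) ≤ w.ord (P.coeff s)) :
    v.ord (P.eval₂ (i : M →+* N) t) = e * w.ord (P.coeff s0) := by
  set c0 := P.coeff s0 with hc0
  have hc : c0 ≠ 0 := MvPolynomial.mem_support_iff.1 hs0
  have hreg : ∀ s ∈ P.support, w.Reg (P.coeff s / c0) := by
    intro s hs
    have hcs : P.coeff s ≠ 0 := MvPolynomial.mem_support_iff.1 hs
    refine Or.inr ?_
    rw [w.ord_div _ _ hcs hc]
    have := hmin s hs
    omega
  have hρ : ∀ s : Fin r →₀ ℕ, ∃ ρ : RF w, s ∈ P.support → Red w (P.coeff s / c0) ρ := by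
    intro s
    by_cases hs : s ∈ P.support
    · obtain ⟨ρ, h⟩ := Pool.Agent.LibCHd.exists_red (hreg s hs)
      exact ⟨ρ, fun _ => h⟩
    · exact ⟨0, fun h => absurd h hs⟩
  choose ρ hρ using hρ
  set G : MvPolynomial (Fin r) (RF w) := ∑ s ∈ P.support, MvPolynomial.monomial s (ρ s) with hG
  have hG0 : G ≠ 0 := by
    intro h
    have h1 : G.coeff s0 = ρ s0 := by
      rw [hG, MvPolynomial.coeff_sum]
      simp only [MvPolynomial.coeff_monomial]
      rw [Finset.sum_ite_eq' P.support s0 ρ, if_pos hs0]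
    have h2 : Red w (1 : M) (ρ s0) := by
      have := hρ s0 hs0
      rwa [← hc0, div_self hc] at this
    have h3 : ρ s0 = 1 := h2.unique (Pool.Agent.LibCHd.red_one w)
    rw [h, h3] at h1
    simp at h1
  have hval : P.eval₂ (i : M →+* N) t =
      i c0 * ∑ s ∈ P.support, i (P.coeff s / c0) * ∏ l ∈ s.support, t l ^ s l := by
    rw [MvPolynomial.eval₂_eq, Finset.mul_sum]
    refine Finset.sum_congr rfl fun s _ => ?_
    rw [← mul_assoc, ← map_mul, mul_div_cancel₀ _ hc]
    rfl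
  have hGv : G.eval₂ (j : RF w →+* RF v) T =
      ∑ s ∈ P.support, j (ρ s) * ∏ l ∈ s.support, T l ^ s l := by
    rw [hG, MvPolynomial.eval₂_sum]
    refine Finset.sum_congr rfl fun s _ => ?_
    rw [MvPolynomial.eval₂_monomial]
    rfl
  have hred : Red v (∑ s ∈ P.support, i (P.coeff s / c0) * ∏ l ∈ s.support, t l ^ s l)
      (∑ s ∈ P.support, j (ρ s) * ∏ l ∈ s.support, T l ^ s l) := by
    refine Q9b_sum _ _ _ fun s hs => ?_
    exact (hj _ _ (hρ s hs)).mul (Q9b_prod _ _ _ fun l _ => (hT l).pow (s l))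
  have hne : (∑ s ∈ P.support, j (ρ s) * ∏ l ∈ s.support, T l ^ s l) ≠ 0 := by
    rw [← hGv]
    exact hi G hG0
  have hic : i c0 ≠ 0 := by
    rw [Ne, map_eq_zero]
    exact hc
  rw [hval, v.ord_mul _ _ hic (hred.ne_zero hne), hred.ord_eq_zero hne, hv, add_zero]

theorem gaussN_unique {r : ℕ} {i : M →ₐ[k] N} {t : Fin r → N} (h : RatN i t) (w : Place k M) (v v' : Place k N)
    (e e' : ℤ) (he : 0 < e) (he' : 0 < e') (hv : ∀ x, v.ord (i x) = e * w.ord x)
    (hv' : ∀ x, v'.ord (i x) = e' * w.ord x) (j : RF w →ₐ[k] RF v) (j' : RF w →ₐ[k] RF v')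
    (hj : ∀ x y, Red w x y → Red v (i x) (j y)) (hj' : ∀ x y, Red w x y → Red v' (i x) (j' y)) (T : Fin r → RF v)
    (T' : Fin r → RF v') (hT : ∀ l, Red v (t l) (T l)) (hT' : ∀ l, Red v' (t l) (T' l))
    (hi : ∀ G : MvPolynomial (Fin r) (RF w), G ≠ 0 → G.eval₂ (j : RF w →+* RF v) T ≠ 0)
    (hi' : ∀ G : MvPolynomial (Fin r) (RF w), G ≠ 0 → G.eval₂ (j' : RF w →+* RF v') T' ≠ 0) : v' = v := by
  have hP : ∀ P : MvPolynomial (Fin r) M, P ≠ 0 → ∃ n : ℤ,
      v.ord (P.eval₂ (i : M →+* N) t) = e * n ∧ v'.ord (P.eval₂ (i : M →+* N) t) = e' * n := by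
    intro P hP0
    have hne : P.support.Nonempty := MvPolynomial.support_nonempty.2 hP0
    obtain ⟨s0, hs0, hmin⟩ := Finset.exists_min_image P.support (fun s => w.ord (P.coeff s)) hne
    exact ⟨_, Q9b_one w v e hv j hj T hT hi P s0 hs0 hmin,
      Q9b_one w v' e' hv' j' hj' T' hT' hi' P s0 hs0 hmin⟩
  have hz : ∀ z : N, z ≠ 0 → ∃ n : ℤ, v.ord z = e * n ∧ v'.ord z = e' * n := by
    intro z hz0
    obtain ⟨P, Q, hQ, hPQ⟩ := h.gen z
    have hP0 : P ≠ 0 := by
      rintro rfl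
      apply hz0
      rw [hPQ, MvPolynomial.eval₂_zero, zero_div]
    obtain ⟨n1, h1, h2⟩ := hP P hP0
    obtain ⟨n2, h3, h4⟩ := hP Q hQ
    refine ⟨n1 - n2, ?_, ?_⟩
    · rw [hPQ, v.ord_div _ _ (h.tr P hP0) (h.tr Q hQ), h1, h3]
      ring
    · rw [hPQ, v'.ord_div _ _ (h.tr P hP0) (h.tr Q hQ), h2, h4]
      ring
  have hu : ∀ (u : Place k N) (x : N), u.ord x = 1 → x ≠ 0 := by
    rintro u x hx rfl
    rw [u.ord_zero] at hx
    omega
  have he1 : e = 1 := by
    obtain ⟨x, hx⟩ := v.exists_uniformizer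
    obtain ⟨n, hn, -⟩ := hz x (hu v x hx)
    rw [hx] at hn
    exact Int.eq_one_of_mul_eq_one_right he.le hn.symm
  have he1' : e' = 1 := by
    obtain ⟨x, hx⟩ := v'.exists_uniformizer
    obtain ⟨n, -, hn⟩ := hz x (hu v' x hx)
    rw [hx] at hn
    exact Int.eq_one_of_mul_eq_one_right he'.le hn.symm
  refine Place.ext' fun x => ?_
  by_cases hx : x = 0
  · rw [hx, v.ord_zero, v'.ord_zero]
  · obtain ⟨n, h1, h2⟩ := hz x hx
    rw [h1, h2, he1, he1']

end Pool.Agent.LibDV76
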