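import Pool.Agent.LibDV76.T1
import Pool.Agent.LibDV76.A2
import Pool.Agent.LibCHd.Api

/-!
[DV T6a] Specialisation of Z-points and of their lifts.
`lift_sp`: `P_l = i(u_l) y_C`, `y_C ^ n = κ₀ i(Y_C)`; `τ_C u_l → u'_l`, `κ Y_C / τ_C ^ n → Y'_C` at `v`; `ρ P_l → Q_l` at `w`. `σ_C = ρ y_C / i τ_C`: `σ_C i(τ_C u_l) → Q_l`; for `l` in `C` with `u'_l ≠ 0` (`u0`)
`i (τ_C u_l)` is a unit, so `σ_C` has a residue `y'_C` and `Q_l = y'_C j(u'_l)` for all `l` in `C` (`b` surjective). `σ_C ^ n = (ρ ^ n κ₀ / i κ) i(κ Y_C / τ_C ^ n)`; for `C` with `Y'_C ≠ 0` the second factor is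
a unit, so the first has a residue `κ'`, and `y'_C ^ n = κ' j(Y'_C)` for all `C`; `κ' ≠ 0` since `Q ≠ 0`.
`spZ_exists`: for each block `C` choose a group `a_C` with `b a_C = C` and `l_C` in `a_C` with `v.ord (u l)` minimal among the nonzero `u l`, `l` in the group `a_C`; `τ_C = 1 / u_(l_C)`; `κ⁻¹` = an element `Y_C / τ_C ^ n` of minimal order.
By `hne` for every group `a` with `¬ n ∣ e a` the minimum of `v.ord u` on `a` is `- v.ord τ_(b a)`: both are determined by `w.ord (ρ y_C)` since `Q` is not zero on `a` and on `a_C` (`a_C` also has `¬ n ∣ e`, `Bl.sgl`); if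
`n ∣ e a` then `a = a_C`. `w.ord (i Y_C / i τ_C ^ n) = n (w.ord (ρ y_C) - w.ord (i τ_C)) + const ≥ const` with equality iff `Q` is not zero on `a_C`. So `Y'_C ≠ 0` for the blocks with
`¬ n ∣ e`. `IsZ.rel`: `spZ_rel`.
`spZ_unique`: `τ'_C / τ_C` is a unit at `v` (a coordinate of a group of the block with `u' ≠ 0` and one with `u'' ≠ 0`: `τ_C u_l → u'_l`, `τ'_C u_l → u''_l`; for `l` with `u'_l ≠ 0` the quotient is regular, and
symmetric), same for `(κ' / τ'_C ^ n) / (κ / τ_C ^ n)` at a `C` with `Y'_C ≠ 0`.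
`spZ_rel`: the relation `∑_a ev (τ u) t a * (κ Y_(b a) / τ_(b a) ^ n) = κ ∑_a ev u t a Y_(b a) = 0` (`ev_scale`), reduce (`ev_red`).
-/

open scoped Classical
open Polynomial

namespace Pool.Agent.LibDV76

open Pool.Agent.LibBH2
open Pool.Agent.LibCHd (VR RF Red FunF)

variable {k : Type} [Field k] {s m c p : ℕ} {D : Dat k s m c} {e : Fin m → ℕ} {b : Fin m → Fin p}
  {N N' : Type} [Field N] [Algebra k N] [Field N'] [Algebra k N']

theorem spZ_rel (hD : D.Good) {v : Place k N} {z : Zp s p N} {z' : Zp s p (RF v)}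
    (hz : ∀ t, ∑ a, ev D z.u t a * z.Y (b a) = 0) (hs : SpZ D b v z z') (t : Fin c) :
    ∑ a, ev D z'.u t a * z'.Y (b a) = 0 := by
  obtain ⟨τ, κ, hτ, hκ, hu, hY⟩ := hs
  have hsum : ∀ T : Finset (Fin m), Red v
      (∑ a ∈ T, ev D (fun l => τ (b (D.γ l)) * z.u l) t a * (κ * z.Y (b a) / τ (b a) ^ D.n))
      (∑ a ∈ T, ev D z'.u t a * z'.Y (b a)) := by
    intro T
    induction T using Finset.induction_on with
    | empty => simpa using Pool.Agent.LibCHd.red_zero v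
    | insert a T ha ih =>
      rw [Finset.sum_insert ha, Finset.sum_insert ha]
      exact ((ev_red hD (fun l _ => hu l) t).mul (hY (b a))).add ih
  have h1 := hsum Finset.univ
  have h2 : (∑ a, ev D (fun l => τ (b (D.γ l)) * z.u l) t a * (κ * z.Y (b a) / τ (b a) ^ D.n)) = 0 := by
    have h3 : ∀ a, ev D (fun l => τ (b (D.γ l)) * z.u l) t a * (κ * z.Y (b a) / τ (b a) ^ D.n) =
        κ * (ev D z.u t a * z.Y (b a)) := by
      intro a
      have h4 := ev_scale hD (fun a => τ (b a)) z.u t a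
      have h5 := hτ (b a)
      change ev D (fun l => (fun a => τ (b a)) (D.γ l) * z.u l) t a * _ = _
      rw [h4]
      field_simp
    rw [Finset.sum_congr rfl fun a _ => h3 a, ← Finset.mul_sum, hz t, mul_zero]
  rw [h2] at h1
  exact h1.unique (Pool.Agent.LibCHd.red_zero v)

theorem lift_sp (hD : D.Good) (hb : Bl D.n e b) (i : N →ₐ[k] N') {v : Place k N} {w : Place k N'}
    (j : RF v →ₐ[k] RF w) (hj : ∀ x y, Red v x y → Red w (i x) (j y)) {z : Zp s p N} {z' : Zp s p (RF v)}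
    (hz' : IsZ D e b z') (hs : SpZ D b v z z') {P : Fin s → N'} (hP : IsLift D b (z.map i) P) {Q : Fin s → RF w}
    (hQ : Sp w P Q) : IsLift D b (z'.map j) Q := by
  obtain ⟨y, κ, hκ, hxy, hy⟩ := hP
  obtain ⟨hQ0, lam, hred⟩ := hQ
  obtain ⟨τ, κ₀, hτ, hκ₀, hu, hY⟩ := hs
  obtain ⟨l₁, hl₁⟩ : ∃ l, Q l ≠ 0 := by
    by_contra hcon
    push Not at hcon
    exact hQ0 (funext hcon)
  have hlam : lam ≠ 0 := left_ne_zero_of_mul ((hred l₁).ne_zero hl₁)
  -- an index in each block with nonzero residue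
  have hex : ∀ C : Fin p, ∃ l, b (D.γ l) = C ∧ z'.u l ≠ 0 := by
    intro C
    obtain ⟨a, rfl⟩ := hb.surj C
    obtain ⟨l, hl, hul⟩ := hz'.u0 a
    exact ⟨l, by rw [hl], hul⟩
  choose lc hlc hulc using hex
  have hiτ : ∀ C, i (τ C) ≠ 0 := fun C => (map_ne_zero i).2 (hτ C)
  -- `η_C = lam y_C / τ_C`
  have hη : ∀ l, lam * P l = i (τ (b (D.γ l)) * z.u l) * (lam * y (b (D.γ l)) / i (τ (b (D.γ l)))) := by
    intro l
    have h1 := hxy l
    change P l = i (z.u l) * _ at h1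
    have h2 := hiτ (b (D.γ l))
    rw [h1, map_mul]
    field_simp
  have hηred : ∀ C, Red w (lam * y C / i (τ C)) (Q (lc C) / j (z'.u (lc C))) := by
    intro C
    have h1 := hj _ _ (hu (lc C))
    have h2 := hη (lc C)
    rw [hlc] at h1 h2
    have h3 : j (z'.u (lc C)) ≠ 0 := (map_ne_zero j).2 (hulc C)
    have h4 := (hred (lc C)).div h1 h3
    have h5 : i (τ C * z.u (lc C)) ≠ 0 := h1.ne_zero h3
    rw [h2, mul_div_cancel_left₀ _ h5] at h4
    exact h4
  obtain ⟨y', hy'⟩ : ∃ y' : Fin p → RF w, ∀ C, y' C = Q (lc C) / j (z'.u (lc C)) := ⟨_, fun _ => rfl⟩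
  have hηred' : ∀ C, Red w (lam * y C / i (τ C)) (y' C) := by
    intro C
    rw [hy']
    exact hηred C
  have hPl : ∀ l, Q l = j (z'.u l) * y' (b (D.γ l)) := by
    intro l
    have h1 := (hj _ _ (hu l)).mul (hηred' (b (D.γ l)))
    rw [← hη l] at h1
    exact (hred l).unique h1
  -- the common factor
  obtain ⟨ρ, hρ⟩ : ∃ ρ, ρ = lam ^ D.n * κ / i κ₀ := ⟨_, rfl⟩
  have hiκ : i κ₀ ≠ 0 := (map_ne_zero i).2 hκ₀
  have hρ0 : ρ ≠ 0 := by
    rw [hρ]
    exact div_ne_zero (mul_ne_zero (pow_ne_zero _ hlam) hκ) hiκ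
  have hpow : ∀ C, (lam * y C / i (τ C)) ^ D.n = ρ * i (κ₀ * z.Y C / τ C ^ D.n) := by
    intro C
    have h1 := hy C
    change y C ^ D.n = κ * i (z.Y C) at h1
    have h2 := hiτ C
    rw [div_pow, mul_pow, h1, hρ, map_div₀, map_mul, map_pow]
    field_simp
  have hρord : w.ord ρ = 0 := by
    have h1 : 0 ≤ w.ord ρ := by
      obtain ⟨C, hC⟩ := hz'.Y0
      have h2 := hj _ _ (hY C)
      have h3 : j (z'.Y C) ≠ 0 := (map_ne_zero j).2 hC
      have h4 := h2.ord_eq_zero h3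
      have h5 := h2.ne_zero h3
      have h6 := ((hηred' C).pow D.n).reg
      rw [hpow] at h6
      rcases h6 with h6 | h6
      · exact absurd h6 (mul_ne_zero hρ0 h5)
      · rw [w.ord_mul _ _ hρ0 h5, h4, add_zero] at h6
        exact h6
    have h2 : w.ord ρ ≤ 0 := by
      have h3 : y' (b (D.γ l₁)) ≠ 0 := by
        intro h
        rw [hPl l₁, h, mul_zero] at hl₁
        exact hl₁ rfl
      have h4 := (hηred' (b (D.γ l₁))).pow D.n
      have h5 := h4.ord_eq_zero (pow_ne_zero _ h3)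
      have h6 := h4.ne_zero (pow_ne_zero _ h3)
      rw [hpow] at h5 h6
      have h7 := right_ne_zero_of_mul h6
      rw [w.ord_mul _ _ hρ0 h7] at h5
      rcases (hj _ _ (hY (b (D.γ l₁)))).reg with h | h
      · exact absurd h h7
      · omega
    omega
  obtain ⟨ρ', hρ'⟩ := Pool.Agent.LibCHd.exists_red (v := w) (f := ρ) (Or.inr hρord.ge)
  have hρ'0 : ρ' ≠ 0 := by
    rintro rfl
    rcases Pool.Agent.LibCHd.red_zero_iff.1 hρ' with h1 | h1
    · exact hρ0 h1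
    · omega
  refine ⟨y', ρ', hρ'0, hPl, fun C => ?_⟩
  change y' C ^ D.n = ρ' * j (z'.Y C)
  have h1 := (hηred' C).pow D.n
  rw [hpow] at h1
  exact h1.unique (hρ'.mul (hj _ _ (hY C)))

end Pool.Agent.LibDV76
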