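import Pool.Agent.LibDV76.T1
import Pool.Agent.LibDV76.A2
import Pool.Agent.LibDV76.T6a

/-!
[DV T6b] Specialisation of Z-points and of their lifts.
`lift_sp`: `P_l = i(u_l) y_C`, `y_C ^ n = κ₀ i(Y_C)`; `τ_C u_l → u'_l`, `κ Y_C / τ_C ^ n → Y'_C` at `v`; `ρ P_l → Q_l` at `w`. `σ_C = ρ y_C / i τ_C`: `σ_C i(τ_C u_l) → Q_l`; for `l` in `C` with `u'_l ≠ 0` (`u0`)
`i (τ_C u_l)` is a unit, so `σ_C` has a residue `y'_C` and `Q_l = y'_C j(u'_l)` for all `l` in `C` (`b` surjective). `σ_C ^ n = (ρ ^ n κ₀ / i κ) i(κ Y_C / τ_C ^ n)`; for `C` with `Y'_C ≠ 0` the second factor is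
a unit, so the first has a residue `κ'`, and `y'_C ^ n = κ' j(Y'_C)` for all `C`; `κ' ≠ 0` since `Q ≠ 0`.
`spZ_exists`: for each block `C` choose a group `a_C` with `b a_C = C` and `l_C` in `a_C` with `v.ord (u l)` minimal among the nonzero `u l`, `l` in the group `a_C`; `τ_C = 1 / u_(l_C)`; `κ⁻¹` = an element `Y_C / τ_C ^ n` of minimal order.
By `hne` for every group `a` with `¬ n ∣ e a` the minimum of `v.ord u` on `a` is `- v.ord τ_(b a)`: both are determined by `w.ord (ρ y_C)` since `Q` is not zero on `a` and on `a_C` (`a_C` also has `¬ n ∣ e`, `Bl.sgl`); if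
`n ∣ e a` then `a = a_C`. `w.ord (i Y_C / i τ_C ^ n) = n (w.ord (ρ y_C) - w.ord (i τ_C)) + const ≥ const` with equality iff `Q` is not zero on `a_C`. So `Y'_C ≠ 0` for the blocks with
`¬ n ∣ e`. `IsZ.rel`: `spZ_rel`.
`spZ_unique`: `τ'_C / τ_C` is a unit at `v` (a coordinate of a group of the block with `u' ≠ 0` and one with `u'' ≠ 0`: `τ_C u_l → u'_l`, `τ'_C u_l → u''_l`; for `l` with `u'_l ≠ 0` the quotient is regular, and
symmetric), same for `(κ' / τ'_C ^ n) / (κ / τ_C ^ n)` at a `C` with `Y'_C ≠ 0`.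
`spZ_rel`: the relation `∑_a ev (τ u) t a * (κ Y_(b a) / τ_(b a) ^ n) = κ ∑_a ev u t a Y_(b a) = 0` (`ev_scale`), reduce (`ev_red`).
-/

open scoped Classical
open Polynomial

namespace Pool.Agent.LibDV76

open Pool.Agent.LibBH2
open Pool.Agent.LibCHd (VR RF Red FunF)

variable {k : Type} [Field k] {s m c p : ℕ} {D : Dat k s m c} {e : Fin m → ℕ} {b : Fin m → Fin p}
  {N N' : Type} [Field N] [Algebra k N] [Field N'] [Algebra k N']

private theorem T6b_zer {v : Place k N} {x : N} {y : RF v} (h : Red v x y) (hx : x ≠ 0) (hord : v.ord x ≤ 0) :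
    y ≠ 0 := by
  intro hy
  subst hy
  rcases Pool.Agent.LibCHd.red_zero_iff.1 h with h1 | h1
  · exact hx h1
  · omega

private theorem T6b_lift (hD : D.Good) (i : N →ₐ[k] N') {v : Place k N} {w : Place k N'} {r : ℤ}
    (hw : ∀ x, w.ord (i x) = r * v.ord x) {z : Zp s p N} {P : Fin s → N'}
    (hP : IsLift D b (z.map i) P) {Q : Fin s → RF w} (hQ : Sp w P Q) :
    ∃ (o : ℤ) (o0 : ℤ) (y : Fin p → N'),
      (∀ l, Q l ≠ 0 → z.u l ≠ 0 ∧ y (b (D.γ l)) ≠ 0 ∧ o + r * v.ord (z.u l) + w.ord (y (b (D.γ l))) = 0) ∧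
      (∀ l, z.u l ≠ 0 → y (b (D.γ l)) ≠ 0 → 0 ≤ o + r * v.ord (z.u l) + w.ord (y (b (D.γ l)))) ∧
      (∀ C, z.Y C ≠ 0 → y C ≠ 0 ∧ (D.n : ℤ) * w.ord (y C) = o0 + r * v.ord (z.Y C)) := by
  obtain ⟨y, κ₀, hκ₀, hPl, hy⟩ := hP
  obtain ⟨hQ0, ρ, hρ⟩ := hQ
  have hρ0 : ρ ≠ 0 := by
    intro h0
    apply hQ0
    funext l
    have h1 := hρ l
    rw [h0, zero_mul] at h1
    exact h1.unique (Pool.Agent.LibCHd.red_zero w)
  have hn : D.n ≠ 0 := by have := hD.two; omega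
  refine ⟨w.ord ρ, w.ord κ₀, y, ?_, ?_, ?_⟩
  · intro l hl
    have h1 := hρ l
    have h2 := h1.ne_zero hl
    have h3 := h1.ord_eq_zero hl
    have hP0 : P l ≠ 0 := right_ne_zero_of_mul h2
    have h4 : P l = i (z.u l) * y (b (D.γ l)) := hPl l
    have hu' : i (z.u l) ≠ 0 := by
      intro h; rw [h4, h, zero_mul] at hP0; exact hP0 rfl
    have hy' : y (b (D.γ l)) ≠ 0 := by
      intro h; rw [h4, h, mul_zero] at hP0; exact hP0 rfl
    have hu : z.u l ≠ 0 := by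
      intro h; rw [h, map_zero] at hu'; exact hu' rfl
    refine ⟨hu, hy', ?_⟩
    rw [w.ord_mul _ _ hρ0 hP0, h4, w.ord_mul _ _ hu' hy', hw] at h3
    linarith
  · intro l hu hy'
    have h1 := (hρ l).reg
    have h4 : P l = i (z.u l) * y (b (D.γ l)) := hPl l
    have hu' : i (z.u l) ≠ 0 := by
      intro h
      exact hu ((map_eq_zero i).1 h)
    have hP0 : P l ≠ 0 := by rw [h4]; exact mul_ne_zero hu' hy'
    rcases h1 with h1 | h1
    · exact absurd h1 (mul_ne_zero hρ0 hP0)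
    · rw [w.ord_mul _ _ hρ0 hP0, h4, w.ord_mul _ _ hu' hy', hw] at h1
      linarith
  · intro C hC
    have hiC : i (z.Y C) ≠ 0 := by
      intro h
      exact hC ((map_eq_zero i).1 h)
    have h1 : y C ^ D.n = κ₀ * i (z.Y C) := hy C
    have hyC : y C ≠ 0 := by
      intro h
      rw [h, zero_pow hn] at h1
      exact mul_ne_zero hκ₀ hiC h1.symm
    refine ⟨hyC, ?_⟩
    have h2 := congrArg w.ord h1
    rw [w.ord_pow, w.ord_mul _ _ hκ₀ hiC, hw] at h2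
    exact h2

theorem spZ_exists (hD : D.Good) (hb : Bl D.n e b) (i : N →ₐ[k] N') {v : Place k N} {w : Place k N'} {r : ℤ}
    (hr : 0 < r) (hw : ∀ x, w.ord (i x) = r * v.ord x) {z : Zp s p N} (hz : IsZ D e b z) {P : Fin s → N'}
    (hP : IsLift D b (z.map i) P) {Q : Fin s → RF w} (hQ : Sp w P Q)
    (hne : ∀ a, ¬ D.n ∣ e a → ∃ l, D.γ l = a ∧ Q l ≠ 0) :
    ∃ z' : Zp s p (RF v), IsZ D e b z' ∧ SpZ D b v z z' := by
  obtain ⟨o, o0, y, H1, H2, H3⟩ := T6b_lift (b := b) hD i hw hP hQ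
  have hn : 0 < D.n := by have := hD.two; omega
  -- the coordinates of minimal order
  have hex : ∀ C : Fin p, ∃ l, b (D.γ l) = C ∧ z.u l ≠ 0 ∧
      ∀ l', D.γ l' = D.γ l → z.u l' ≠ 0 → v.ord (z.u l) ≤ v.ord (z.u l') := by
    intro C
    obtain ⟨a, ha⟩ := hb.surj C
    have hne' : (Finset.univ.filter fun l => D.γ l = a ∧ z.u l ≠ 0).Nonempty := by
      obtain ⟨l, hl⟩ := hz.u0 a
      exact ⟨l, Finset.mem_filter.2 ⟨Finset.mem_univ _, hl⟩⟩
    obtain ⟨l, hl, hmin⟩ := Finset.exists_min_image _ (fun l => v.ord (z.u l)) hne'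
    have hl' := (Finset.mem_filter.1 hl).2
    refine ⟨l, by rw [hl'.1, ha], hl'.2, fun l' h1 h2 => hmin l' (Finset.mem_filter.2 ⟨Finset.mem_univ _, ?_, h2⟩)⟩
    rw [h1, hl'.1]
  choose L hL1 hL2 hL3 using hex
  -- `L C` is minimal in the whole block
  have K1 : ∀ l, z.u l ≠ 0 → v.ord (z.u (L (b (D.γ l)))) ≤ v.ord (z.u l) := by
    intro l hl
    by_cases hg : D.γ l = D.γ (L (b (D.γ l)))
    · exact hL3 _ l hg hl
    · have hnd : ¬ D.n ∣ e (D.γ (L (b (D.γ l)))) := fun h => hg (hb.sgl _ h _ (hL1 _).symm)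
      obtain ⟨l1, h1, h2⟩ := hne _ hnd
      obtain ⟨h3, h4, h5⟩ := H1 l1 h2
      have h6 : b (D.γ l1) = b (D.γ l) := by rw [h1, hL1]
      rw [h6] at h4 h5
      have h7 := H2 l hl h4
      have h8 := hL3 _ l1 h1 h3
      have h9 : r * v.ord (z.u l1) ≤ r * v.ord (z.u l) := by linarith
      exact le_trans h8 (le_of_mul_le_mul_left h9 hr)
  have K2' : ∀ a, ¬ D.n ∣ e a → ∃ l, D.γ l = a ∧ z.u l ≠ 0 ∧ v.ord (z.u l) = v.ord (z.u (L (b a))) ∧
      y (b a) ≠ 0 ∧ o + r * v.ord (z.u (L (b a))) + w.ord (y (b a)) = 0 := by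
    intro a ha
    obtain ⟨l1, h1, h2⟩ := hne a ha
    obtain ⟨h3, h4, h5⟩ := H1 l1 h2
    have h6 := K1 l1 h3
    rw [h1] at h4 h5 h6
    have h7 := H2 (L (b a)) (hL2 _) (by rw [hL1]; exact h4)
    rw [hL1] at h7
    have h8 : r * v.ord (z.u l1) ≤ r * v.ord (z.u (L (b a))) := by linarith
    have h9 : v.ord (z.u l1) = v.ord (z.u (L (b a))) := le_antisymm (le_of_mul_le_mul_left h8 hr) h6
    exact ⟨l1, h1, h3, h9, h4, by rw [← h9]; exact h5⟩
  have K2 : ∀ a, ∃ l, D.γ l = a ∧ z.u l ≠ 0 ∧ v.ord (z.u l) = v.ord (z.u (L (b a))) := by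
    intro a
    by_cases ha : D.n ∣ e a
    · exact ⟨L (b a), hb.sgl a ha _ (hL1 _), hL2 _, rfl⟩
    · obtain ⟨l, h1, h2, h3, -, -⟩ := K2' a ha
      exact ⟨l, h1, h2, h3⟩
  -- the functions `Y C * u (L C) ^ n`
  set T : Fin p → N := fun C => z.Y C * z.u (L C) ^ D.n with hT
  have hTne : ∀ C, z.Y C ≠ 0 → T C ≠ 0 := fun C h => mul_ne_zero h (pow_ne_zero _ (hL2 C))
  have hTord : ∀ C, z.Y C ≠ 0 → r * v.ord (T C) = (D.n : ℤ) * (o + r * v.ord (z.u (L C)) + w.ord (y C)) -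
      D.n * o - o0 := by
    intro C hC
    have h1 := (H3 C hC).2
    have h2 : v.ord (T C) = v.ord (z.Y C) + (D.n : ℤ) * v.ord (z.u (L C)) := by
      rw [hT]
      simp only
      rw [v.ord_mul _ _ hC (pow_ne_zero _ (hL2 C)), v.ord_pow]
    rw [h2]
    linear_combination -h1
  have hTge : ∀ C, z.Y C ≠ 0 → - (D.n : ℤ) * o - o0 ≤ r * v.ord (T C) := by
    intro C hC
    rw [hTord C hC]
    have h1 := H2 (L C) (hL2 C) (by rw [hL1]; exact (H3 C hC).1)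
    rw [hL1] at h1
    have h2 : 0 ≤ (D.n : ℤ) * (o + r * v.ord (z.u (L C)) + w.ord (y C)) :=
      mul_nonneg (by positivity) h1
    linarith
  have hTeq : ∀ a, ¬ D.n ∣ e a → r * v.ord (T (b a)) = - (D.n : ℤ) * o - o0 := by
    intro a ha
    obtain ⟨-, -, -, -, -, h1⟩ := K2' a ha
    rw [hTord _ (hz.YC a ha), h1]
    ring
  obtain ⟨C₀, hC₀, hmin⟩ := Finset.exists_min_image (Finset.univ.filter fun C => z.Y C ≠ 0) (fun C => v.ord (T C))
    (by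
      obtain ⟨C, hC⟩ := hz.Y0
      exact ⟨C, Finset.mem_filter.2 ⟨Finset.mem_univ _, hC⟩⟩)
  have hC₀' := (Finset.mem_filter.1 hC₀).2
  have hmin' : ∀ C, z.Y C ≠ 0 → v.ord (T C₀) ≤ v.ord (T C) := fun C hC =>
    hmin C (Finset.mem_filter.2 ⟨Finset.mem_univ _, hC⟩)
  -- the factors
  have hRu : ∀ l, v.Reg ((z.u (L (b (D.γ l))))⁻¹ * z.u l) := by
    intro l
    by_cases hl : z.u l = 0
    · rw [hl, mul_zero]; exact v.reg_zero
    · refine Or.inr ?_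
      rw [v.ord_mul _ _ (inv_ne_zero (hL2 _)) hl, v.ord_inv]
      have := K1 l hl
      linarith
  have hRY : ∀ C, v.Reg ((T C₀)⁻¹ * z.Y C / (z.u (L C))⁻¹ ^ D.n) := by
    intro C
    have h1 : (T C₀)⁻¹ * z.Y C / (z.u (L C))⁻¹ ^ D.n = (T C₀)⁻¹ * T C := by
      rw [hT]
      simp only
      rw [inv_pow, div_inv_eq_mul]
      ring
    rw [h1]
    by_cases hC : z.Y C = 0
    · have h2 : T C = 0 := by rw [hT]; simp only; rw [hC, zero_mul]
      rw [h2, mul_zero]; exact v.reg_zero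
    · refine Or.inr ?_
      rw [v.ord_mul _ _ (inv_ne_zero (hTne _ hC₀')) (hTne C hC), v.ord_inv]
      have := hmin' C hC
      linarith
  have hRY0 : ∀ C, z.Y C ≠ 0 → v.ord (T C) ≤ v.ord (T C₀) →
      ∀ c', Red v ((T C₀)⁻¹ * z.Y C / (z.u (L C))⁻¹ ^ D.n) c' → c' ≠ 0 := by
    intro C hC hle c' hc'
    have h1 : (T C₀)⁻¹ * z.Y C / (z.u (L C))⁻¹ ^ D.n = (T C₀)⁻¹ * T C := by
      rw [hT]
      simp only
      rw [inv_pow, div_inv_eq_mul]
      ring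
    rw [h1] at hc'
    refine T6b_zer hc' (mul_ne_zero (inv_ne_zero (hTne _ hC₀')) (hTne C hC)) ?_
    rw [v.ord_mul _ _ (inv_ne_zero (hTne _ hC₀')) (hTne C hC), v.ord_inv]
    linarith
  choose u' hu' using fun l => Pool.Agent.LibCHd.exists_red (hRu l)
  choose Y' hY' using fun C => Pool.Agent.LibCHd.exists_red (hRY C)
  have hs : SpZ D b v z ⟨u', Y'⟩ :=
    ⟨fun C => (z.u (L C))⁻¹, (T C₀)⁻¹, fun C => inv_ne_zero (hL2 C), inv_ne_zero (hTne _ hC₀'), hu', hY'⟩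
  refine ⟨⟨u', Y'⟩, ⟨?_, ?_, ?_, ?_⟩, hs⟩
  · intro a
    obtain ⟨l, h1, h2, h3⟩ := K2 a
    refine ⟨l, h1, T6b_zer (hu' l) (mul_ne_zero (inv_ne_zero (hL2 _)) h2) ?_⟩
    rw [v.ord_mul _ _ (inv_ne_zero (hL2 _)) h2, v.ord_inv, h1, h3]
    linarith
  · exact ⟨C₀, hRY0 C₀ hC₀' le_rfl _ (hY' C₀)⟩
  · intro a ha
    refine hRY0 _ (hz.YC a ha) ?_ _ (hY' (b a))
    have h1 := hTeq a ha
    have h2 := hTge C₀ hC₀'
    rw [← h1] at h2
    exact le_of_mul_le_mul_left h2 hr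
  · intro t
    exact spZ_rel hD hz.rel hs t

end Pool.Agent.LibDV76
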