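import Pool.Agent.LibDV76.T1
import Pool.Agent.LibDV76.A2
import Pool.Agent.LibCHd.Api

/-!
[DV T6c] Specialisation of Z-points and of their lifts.
`lift_sp`: `P_l = i(u_l) y_C`, `y_C ^ n = κ₀ i(Y_C)`; `τ_C u_l → u'_l`, `κ Y_C / τ_C ^ n → Y'_C` at `v`; `ρ P_l → Q_l` at `w`. `σ_C = ρ y_C / i τ_C`: `σ_C i(τ_C u_l) → Q_l`; for `l` in `C` with `u'_l ≠ 0` (`u0`)
`i (τ_C u_l)` is a unit, so `σ_C` has a residue `y'_C` and `Q_l = y'_C j(u'_l)` for all `l` in `C` (`b` surjective). `σ_C ^ n = (ρ ^ n κ₀ / i κ) i(κ Y_C / τ_C ^ n)`; for `C` with `Y'_C ≠ 0` the second factor is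
a unit, so the first has a residue `κ'`, and `y'_C ^ n = κ' j(Y'_C)` for all `C`; `κ' ≠ 0` since `Q ≠ 0`.
`spZ_exists`: for each block `C` choose a group `a_C` with `b a_C = C` and `l_C` in `a_C` with `v.ord (u l)` minimal among the nonzero `u l`, `l` in the group `a_C`; `τ_C = 1 / u_(l_C)`; `κ⁻¹` = an element `Y_C / τ_C ^ n` of minimal order.
By `hne` for every group `a` with `¬ n ∣ e a` the minimum of `v.ord u` on `a` is `- v.ord τ_(b a)`: both are determined by `w.ord (ρ y_C)` since `Q` is not zero on `a` and on `a_C` (`a_C` also has `¬ n ∣ e`, `Bl.sgl`); if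
`n ∣ e a` then `a = a_C`. `w.ord (i Y_C / i τ_C ^ n) = n (w.ord (ρ y_C) - w.ord (i τ_C)) + const ≥ const` with equality iff `Q` is not zero on `a_C`. So `Y'_C ≠ 0` for the blocks with
`¬ n ∣ e`. `IsZ.rel`: `spZ_rel`.
`spZ_unique`: `τ'_C / τ_C` is a unit at `v` (a coordinate of a group of the block with `u' ≠ 0` and one with `u'' ≠ 0`: `τ_C u_l → u'_l`, `τ'_C u_l → u''_l`; for `l` with `u'_l ≠ 0` the quotient is regular, and
symmetric), same for `(κ' / τ'_C ^ n) / (κ / τ_C ^ n)` at a `C` with `Y'_C ≠ 0`.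
`spZ_rel`: the relation `∑_a ev (τ u) t a * (κ Y_(b a) / τ_(b a) ^ n) = κ ∑_a ev u t a Y_(b a) = 0` (`ev_scale`), reduce (`ev_red`).
-/

open scoped Classical
open Polynomial

namespace Pool.Agent.LibDV76

open Pool.Agent.LibBH2
open Pool.Agent.LibCHd (VR RF Red FunF)

variable {k : Type} [Field k] {s m c p : ℕ} {D : Dat k s m c} {e : Fin m → ℕ} {b : Fin m → Fin p}
  {N N' : Type} [Field N] [Algebra k N] [Field N'] [Algebra k N']

theorem spZ_unique (hb : Function.Surjective b) {v : Place k N} {z : Zp s p N} {z' z'' : Zp s p (RF v)}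
    (h' : SpZ D b v z z') (h'' : SpZ D b v z z'') (hu' : ∀ a, ∃ l, D.γ l = a ∧ z'.u l ≠ 0)
    (hY' : ∃ C, z'.Y C ≠ 0) (hu'' : ∀ a, ∃ l, D.γ l = a ∧ z''.u l ≠ 0) (hY'' : ∃ C, z''.Y C ≠ 0) :
    ZEq D b z' z'' := by
  obtain ⟨τ, κ, hτ, hκ, hu, hY⟩ := h'
  obtain ⟨τ', κ', hτ', hκ', hv, hZ⟩ := h''
  -- the ratio of the factors of a block is a unit
  have hσ : ∀ C, ∃ σ : RF v, σ ≠ 0 ∧ Red v (τ' C / τ C) σ := by
    intro C
    obtain ⟨a, rfl⟩ := hb C
    obtain ⟨l, hl, hul⟩ := hu' a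
    obtain ⟨l', hl', hul'⟩ := hu'' a
    have e1 := hu l
    have e1' := hv l
    have e2 := hu l'
    have e2' := hv l'
    rw [hl] at e1 e1'
    rw [hl'] at e2 e2'
    have n1 := right_ne_zero_of_mul (e1.ne_zero hul)
    have n2 := right_ne_zero_of_mul (e2'.ne_zero hul')
    have h3 := e1'.div e1 hul
    have h4 := e2.div e2' hul'
    have h5 : τ' (b a) * z.u l / (τ (b a) * z.u l) = τ' (b a) / τ (b a) := mul_div_mul_right _ _ n1
    have h6 : τ (b a) * z.u l' / (τ' (b a) * z.u l') = τ (b a) / τ' (b a) := mul_div_mul_right _ _ n2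
    rw [h5] at h3
    rw [h6] at h4
    refine ⟨_, ?_, h3⟩
    intro h0
    rw [h0] at h3
    have h7 := h3.mul h4
    have h8 : τ' (b a) / τ (b a) * (τ (b a) / τ' (b a)) = 1 := by
      have := hτ (b a)
      have := hτ' (b a)
      field_simp
    rw [h8, zero_mul] at h7
    exact zero_ne_one (h7.unique (Pool.Agent.LibCHd.red_one v))
  choose σ hσ0 hσr using hσ
  have hu2 : ∀ l, z''.u l = σ (b (D.γ l)) * z'.u l := by
    intro l
    have h3 := (hσr (b (D.γ l))).mul (hu l)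
    have h4 : τ' (b (D.γ l)) / τ (b (D.γ l)) * (τ (b (D.γ l)) * z.u l) = τ' (b (D.γ l)) * z.u l := by
      have := hτ (b (D.γ l))
      field_simp
    rw [h4] at h3
    exact (hv l).unique h3
  have hYr : ∀ C, Red v (κ / κ' * (κ' * z.Y C / τ' C ^ D.n)) (z'.Y C / σ C ^ D.n) := by
    intro C
    have h3 := (hY C).div ((hσr C).pow D.n) (pow_ne_zero _ (hσ0 C))
    have h4 : κ * z.Y C / τ C ^ D.n / (τ' C / τ C) ^ D.n = κ / κ' * (κ' * z.Y C / τ' C ^ D.n) := by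
      have e1 := hτ C
      have e2 := hτ' C
      rw [div_pow]
      field_simp
    rw [h4] at h3
    exact h3
  obtain ⟨r, hr0, hr⟩ : ∃ r : RF v, r ≠ 0 ∧ ∀ C, z'.Y C / σ C ^ D.n = r * z''.Y C := by
    obtain ⟨C, hC⟩ := hY''
    obtain ⟨C', hC'⟩ := hY'
    have h1 := (hYr C).div (hZ C) hC
    have n1 := (hZ C).ne_zero hC
    rw [mul_div_cancel_right₀ _ n1] at h1
    refine ⟨z'.Y C / σ C ^ D.n / z''.Y C, ?_, fun E => ?_⟩
    · intro h0
      rw [h0] at h1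
      have h2 := h1.mul (hZ C')
      rw [zero_mul] at h2
      exact div_ne_zero hC' (pow_ne_zero _ (hσ0 C')) ((hYr C').unique h2)
    · exact (hYr E).unique (h1.mul (hZ E))
  refine ⟨σ, r⁻¹, hσ0, inv_ne_zero hr0, hu2, fun C => ?_⟩
  have h3 := hr C
  rw [mul_div_assoc, h3]
  field_simp

end Pool.Agent.LibDV76
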