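import Pool.Agent.LibDV76.T5
import Pool.Agent.LibDV76.T6

/-!
[DV T7] The class `TV` of the specialisation. `TV_eq'`: if `z'` is a Z-point: the chosen specialisation is equivalent to `z'` (`spZ_unique`), `TZ_zeq`. If `z'` is not a Z-point then there is no Z-point `z''` with `SpZ`
(it would be equivalent to `z'`, `isZ_zeq`), both sides are 0.
-/

open scoped Classical
open Polynomial

namespace Pool.Agent.LibDV76

open Pool.Agent.LibBH2
open Pool.Agent.LibCHd (VR RF Red FunF)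

variable {k : Type} [Field k] {s m c p d : ℕ} {D : Dat k s m c} {e : Fin m → ℕ} {b : Fin m → Fin p}
  {W : Type} [AddCommGroup W] [Module k W] {K : Type} [Field K] [Algebra k K]

theorem TV_eq [IsAlgClosed k] [CharZero k] (hD : D.Good) (hb : Bl D.n e b) (q : CH D d →+ W) {v : Place k K}
    (hF : FunF k d (RF v)) {z : Zp s p K} {z' : Zp s p (RF v)} (hs : SpZ D b v z z')
    (hu' : ∀ a, ∃ l, D.γ l = a ∧ z'.u l ≠ 0) (hY' : ∃ C, z'.Y C ≠ 0) : TV e b q v z = TZ e b q z' := by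
  by_cases hI : IsZ D e b z'
  · have h : FunF k d (RF v) ∧ ∃ z'' : Zp s p (RF v), IsZ D e b z'' ∧ SpZ D b v z z'' :=
      ⟨hF, z', hI, hs⟩
    have h1 := h.2.choose_spec
    have h2 : ZEq D b z' h.2.choose :=
      spZ_unique hb.surj hs h1.2 hu' hY' h1.1.u0 h1.1.Y0
    unfold TV
    rw [dif_pos h]
    exact TZ_zeq hD hb q h2
  · rw [TZ_not q hI]
    unfold TV
    rw [dif_neg]
    rintro ⟨-, z'', h1, h2⟩
    exact hI (isZ_zeq hD h1 (spZ_unique hb.surj h2 hs h1.u0 h1.Y0 hu' hY'))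

theorem TV_ne (q : CH D d →+ W) {v : Place k K} {z : Zp s p K} (h : TV e b q v z ≠ 0) :
    FunF k d (RF v) ∧ ∃ z' : Zp s p (RF v), IsZ D e b z' ∧ SpZ D b v z z' := by
  by_contra h'
  refine h ?_
  unfold TV
  rw [dif_neg h']

end Pool.Agent.LibDV76
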