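import Pool.Agent.LibDV76.Q5
import Pool.Agent.LibDV76.Q8
import Pool.Agent.LibDV76.Q9
import Pool.Agent.LibDV76.Q11
import Pool.Agent.LibDV76.T7
import Pool.Agent.LibDV76.P4
import Pool.Agent.LibHL77.B1
import Pool.Agent.LibHL77.B5

/-!
[DV Q12b] The places of `N = K(t_1, ..., t_d)` over a place `P` of `K` (dimension 1) where `u` and the vectors `h i` have good residues `U`, `H i`. `z = zF i u h (d + 1) T`, `T 0 = 1`, `T (l + 1) = t l`.
`TV_gauss`: `v` the Gauss place over `P` (`gaussN`): `SpZ` with `τ = 1`, `κ = 1` to `zF (ofId) U H (d+1) T'` (over `RF v`, `T' 0 = 1`, `T' (l+1)` the residues), the residues of `T` generate `RF v` over `k` (`RF P = k`: `rf_const`), so `finrank (rf k d T') (RF v) = 1`; `TV_eq`, `LS_spec`. If `U` is not valid (zero on a group): `TV = 0`: a Z-point `z'` with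
`SpZ` has all `z'.u` nonzero on each group; compare the orders of `τ_C u_l` with `U`, which is not zero on each block, as in `spZ_unique`. Here `LS U = 0` (`LS_not`).
`TV_other`: `v` over `P` not the Gauss place: if `TV ≠ 0`: `FunF k d (RF v)` and `U` valid (as before). `exists_prim`-type: `μ ∈ N` with `μ T_i → y_i`, not all 0 (`i ≤ d`). `SpZ` with `τ = 1`, `κ = μ` to `(U, ∑ y_i H_i)`; `TV_eq`, `LS_spec`: `= finrank (rf k d y) (RF v) • LS U`. If this is not 0 then `trdeg (rf k d y) = d`, so `y 0 ≠ 0` and the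
`y (l+1) / y 0` are algebraically independent over `k`, they are the residues of `t l`; `gaussN_unique`.
-/

open scoped Classical
open Polynomial

namespace Pool.Agent.LibDV76

open Pool.Agent.LibBH2
open Pool.Agent.LibCHd (VR RF Red FunF)

variable {k : Type} [Field k] {s m c p d : ℕ} {D : Dat k s m c} {e : Fin m → ℕ} {b : Fin m → Fin p}
  {W : Type} [AddCommGroup W] [Module k W] {K N : Type} [Field K] [Algebra k K] [Field N] [Algebra k N]

private theorem Q12b_trdeg {M : Type} [Field M] [Algebra k M] {d : ℕ} (y : Fin d → M)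
    (hy : ¬ AlgebraicIndependent k y) :
    Algebra.trdeg k (IntermediateField.adjoin k (Set.range y)) < d := by
  by_contra hcon
  rw [not_lt] at hcon
  apply hy
  obtain ⟨E, hE⟩ : ∃ E : IntermediateField k M, E = IntermediateField.adjoin k (Set.range y) := ⟨_, rfl⟩
  rw [← hE] at hcon
  have hmem : ∀ l, y l ∈ E := fun l => by
    rw [hE]
    exact IntermediateField.subset_adjoin k _ ⟨l, rfl⟩
  let y' : Fin d → E := fun l => ⟨y l, hmem l⟩
  have htop : IntermediateField.adjoin k (Set.range y') = ⊤ := by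
    rw [eq_top_iff]
    intro z _
    have h1 : E ≤ (IntermediateField.adjoin k (Set.range y')).map E.val := by
      conv_lhs => rw [hE]
      rw [IntermediateField.adjoin_le_iff]
      rintro _ ⟨l, rfl⟩
      exact ⟨y' l, IntermediateField.subset_adjoin k _ ⟨l, rfl⟩, rfl⟩
    obtain ⟨w, hw, hwz⟩ := h1 z.2
    have h2 : w = z := Subtype.ext hwz
    rw [← h2]
    exact hw
  have halg : Algebra.IsAlgebraic (Algebra.adjoin k (Set.range y')) E := by
    apply IntermediateField.isAlgebraic_adjoin_iff_top.1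
    refine ⟨fun x => ?_⟩
    have hx : x ∈ IntermediateField.adjoin k (Set.range y') := by
      rw [htop]
      exact IntermediateField.mem_top
    exact isAlgebraic_algebraMap (⟨x, hx⟩ : IntermediateField.adjoin k (Set.range y'))
  have h3 : IsTranscendenceBasis k y' :=
    Algebra.IsAlgebraic.isTranscendenceBasis_of_le_trdeg_of_finite k y' (by rwa [Cardinal.mk_fin])
  have h4 := h3.1.map' (f := E.val) E.val.injective
  exact h4

/-- the homomorphism of the residue fields for an extension of places -/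
private theorem Q12b_res {H K : Type} [Field H] [Algebra k H] [Field K] [Algebra k K]
    (i : H →ₐ[k] K) (v : Place k H) (w : Place k K) (e : ℤ) (he : 0 < e)
    (h : ∀ x, w.ord (i x) = e * v.ord x) :
    ∃ j : RF v →ₐ[k] RF w, ∀ x c, Red v x c → Red w (i x) (j c) := by
  have hreg : ∀ x, v.Reg x → w.Reg (i x) := by
    rintro x (hx | hx)
    · exact Or.inl (by rw [hx, map_zero])
    · exact Or.inr (by rw [h]; exact mul_nonneg he.le hx)
  let ι : VR v →+* VR w :=
    { toFun := fun x => ⟨i (x : H), hreg _ x.2⟩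
      map_one' := Subtype.ext (map_one i)
      map_mul' := fun a b => Subtype.ext (map_mul i _ _)
      map_zero' := Subtype.ext (map_zero i)
      map_add' := fun a b => Subtype.ext (map_add i _ _) }
  have : IsLocalHom ι := by
    refine ⟨fun a ha => ?_⟩
    refine Pool.Agent.LibCHd.isUnit_VR v a fun h' => ?_
    have h1 : w.Zer (i (a : H)) := by
      rcases h' with h' | h'
      · exact Or.inl (by rw [h', map_zero])
      · exact Or.inr (by rw [h]; exact mul_pos he h')
    exact (IsLocalRing.mem_maximalIdeal _).1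
      ((Pool.Agent.LibCHd.mem_max_iff (ι a)).2 h1) ha
  let j₀ : RF v →+* RF w := IsLocalRing.ResidueField.map ι
  let j : RF v →ₐ[k] RF w :=
    { j₀ with
      commutes' := fun c => by
        change j₀ (IsLocalRing.residue (VR v) (algebraMap k (VR v) c)) =
          IsLocalRing.residue (VR w) (algebraMap k (VR w) c)
        rw [IsLocalRing.ResidueField.map_residue]
        congr 1
        exact Subtype.ext (i.commutes c) }
  refine ⟨j, ?_⟩
  rintro x c ⟨h', rfl⟩
  exact ⟨hreg x h', (IsLocalRing.ResidueField.map_residue ι ⟨x, h'⟩).symm⟩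

private theorem Q12b_sum {K : Type} [Field K] [Algebra k K] {v : Place k K} {ι : Type} (S : Finset ι)
    (f : ι → K) (g : ι → RF v) (h : ∀ a ∈ S, Red v (f a) (g a)) : Red v (∑ a ∈ S, f a) (∑ a ∈ S, g a) := by
  induction S using Finset.induction_on with
  | empty =>
    rw [Finset.sum_empty, Finset.sum_empty]
    exact Pool.Agent.LibCHd.red_zero v
  | insert a S ha ih =>
    rw [Finset.sum_insert ha, Finset.sum_insert ha]
    exact (h a (Finset.mem_insert_self _ _)).add
      (ih fun b hb => h b (Finset.mem_insert_of_mem hb))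

theorem TV_other [IsAlgClosed k] [CharZero k] (hD : D.Good) (hb : Bl D.n e b) (q : CH D d →+ W) (hK : FunF k 1 K)
    {i : K →ₐ[k] N} {t : Fin d → N} (ht : RatN i t) (P : Place k K) (v : Place k N) (r : ℤ) (hr : 0 < r)
    (hv : ∀ x, v.ord (i x) = r * P.ord x) (u : Fin s → K) (h : ℕ → Fin p → K) (U : Fin s → k)
    (hU : ∀ l, Red P (u l) (algebraMap k (RF P) (U l))) (hUC : ∀ C, ∃ l, b (D.γ l) = C ∧ U l ≠ 0)
    (H : ℕ → Fin p → k) (hh : KB D b u h (d + 1)) (hH : ∀ i < d + 1, ∀ C, Red P (h i C) (algebraMap k (RF P) (H i C)))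
    (hHi : ∀ x : ℕ → k, (∀ C, ∑ i ∈ Finset.range (d + 1), x i * H i C = 0) → ∀ i < d + 1, x i = 0)
    (hne : TV e b q v (zF i u h (d + 1) (one_t t)) ≠ 0) :
    ∃ (T : Fin d → RF v) (j : RF P →ₐ[k] RF v), (∀ l, Red v (t l) (T l)) ∧
      (∀ x y, Red P x y → Red v (i x) (j y)) ∧
      ∀ G : MvPolynomial (Fin d) (RF P), G ≠ 0 → G.eval₂ (j : RF P →+* RF v) T ≠ 0 := by
  obtain ⟨hF, z', hz', hsz'⟩ := TV_ne q hne
  obtain ⟨j, hj⟩ := Q12b_res i P v r hr hv
  have hUv : ∀ l, Red v (i (u l)) (algebraMap k (RF v) (U l)) := fun l => by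
    have h1 := hj _ _ (hU l)
    rwa [j.commutes] at h1
  have hHv : ∀ a < d + 1, ∀ C, Red v (i (h a C)) (algebraMap k (RF v) (H a C)) := fun a ha C => by
    have h1 := hj _ _ (hH a ha C)
    rwa [j.commutes] at h1
  have hinj : Function.Injective (algebraMap k (RF v)) := (algebraMap k (RF v)).injective
  -- `U` is valid
  have hval : Val D U := by
    intro a
    obtain ⟨l, hl, hne'⟩ := hz'.u0 a
    refine ⟨l, hl, fun h0 => hne' ?_⟩
    obtain ⟨τ, κ, hτ, hκ, h1, h2⟩ := hsz'
    obtain ⟨l0, hl0, hU0⟩ := hUC (b a)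
    have h3 := h1 l0
    have h4 := h1 l
    rw [hl0] at h3
    rw [hl] at h4
    have hU0' : algebraMap k (RF v) (U l0) ≠ 0 := fun h' => hU0 (hinj (h'.trans (map_zero _).symm))
    have hiu : i (u l0) ≠ 0 := (hUv l0).ne_zero hU0'
    have h5 : Red v (τ (b a)) (z'.u l0 / algebraMap k (RF v) (U l0)) := by
      have h6 := h3.div (hUv l0) hU0'
      have h7 : τ (b a) * (zF i u h (d + 1) (one_t t)).u l0 / i (u l0) = τ (b a) := by
        change τ (b a) * i (u l0) / i (u l0) = τ (b a)
        rw [mul_div_assoc, div_self hiu, mul_one]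
      rwa [h7] at h6
    have h8 : Red v (τ (b a) * i (u l)) (z'.u l0 / algebraMap k (RF v) (U l0) * algebraMap k (RF v) (U l)) :=
      h5.mul (hUv l)
    have h9 : z'.u l = z'.u l0 / algebraMap k (RF v) (U l0) * algebraMap k (RF v) (U l) :=
      Pool.Agent.LibCHd.Red.unique h4 h8
    rw [h9, h0, map_zero, mul_zero]
  -- the residues of the parameters
  have h10 : (one_t t : ℕ → N) 0 = 1 := by
    unfold one_t
    rw [dif_neg (by omega)]
  have h11 : ∀ l : Fin d, (one_t t : ℕ → N) ((l : ℕ) + 1) = t l := by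
    intro l
    have hl := l.2
    unfold one_t
    rw [dif_pos (by omega)]
    congr 1
  obtain ⟨μ, y, hμ, hy, j0, hj0, hyj0⟩ := exists_prim (AlgHom.id k N) v (d + 1) (one_t t)
    ⟨0, Nat.succ_pos d, by rw [h10]; exact one_ne_zero⟩
  have hy' : ∀ a < d + 1, Red v (μ * one_t t a) (y a) := fun a ha => hy a ha
  -- the class is the class of a Z-point with the ratios of the residues as coordinates
  have key : ∀ j1 < d + 1, y j1 ≠ 0 → ∀ E : IntermediateField k (RF v), (∀ a < d + 1, y a / y j1 ∈ E) →
      ¬ Algebra.trdeg k E < d := by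
    intro j1 hj1 hyj1 E hE htr
    apply hne
    have hη : (one_t t : ℕ → N) j1 ≠ 0 := by
      intro h'
      apply (hy' j1 hj1).ne_zero hyj1
      rw [h', mul_zero]
    let z2 : Zp s p (RF v) := ⟨fun l => algebraMap k (RF v) (U l),
      fun C => ∑ a ∈ Finset.range (d + 1), y a / y j1 * algebraMap k (RF v) (H a C)⟩
    have hsp : SpZ D b v (zF i u h (d + 1) (one_t t)) z2 := by
      refine ⟨fun _ => 1, ((one_t t : ℕ → N) j1)⁻¹, fun _ => one_ne_zero, inv_ne_zero hη, fun l => ?_,
        fun C => ?_⟩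
      · rw [one_mul]
        exact hUv l
      · rw [one_pow, div_one]
        change Red v (((one_t t : ℕ → N) j1)⁻¹ * ∑ a ∈ Finset.range (d + 1), one_t t a * i (h a C))
          (∑ a ∈ Finset.range (d + 1), y a / y j1 * algebraMap k (RF v) (H a C))
        rw [Finset.mul_sum]
        refine Q12b_sum _ _ _ fun a ha => ?_
        rw [Finset.mem_range] at ha
        have h1 := ((hy' a ha).div (hy' j1 hj1) hyj1).mul (hHv a ha C)
        have h2 : μ * one_t t a / (μ * one_t t j1) * i (h a C) =
            ((one_t t : ℕ → N) j1)⁻¹ * (one_t t a * i (h a C)) := by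
          field_simp
        rwa [h2] at h1
    have hY : ∃ C, z2.Y C ≠ 0 := by
      by_contra hcon
      push Not at hcon
      have h1 := ind_ext (F := k) H hHi (algebraMap k (RF v)) (fun a => y a / y j1) hcon j1 hj1
      have h2 : y j1 / y j1 = 0 := h1
      rw [div_self hyj1] at h2
      exact one_ne_zero h2
    have hu2 : ∀ a, ∃ l, D.γ l = a ∧ z2.u l ≠ 0 := by
      intro a
      obtain ⟨l, hl, hl'⟩ := hval a
      exact ⟨l, hl, fun h' => hl' (hinj (h'.trans (map_zero _).symm))⟩
    rw [TV_eq hD hb q hF hsp hu2 hY]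
    refine TZ_small hD hb q hF z2 E htr (fun l => E.algebraMap_mem (U l)) fun C => ?_
    change ∑ a ∈ Finset.range (d + 1), y a / y j1 * algebraMap k (RF v) (H a C) ∈ E
    exact sum_mem fun a ha => mul_mem (hE a (Finset.mem_range.1 ha)) (E.algebraMap_mem (H a C))
  have hy0 : y 0 ≠ 0 := by
    intro h0
    have hpos : 0 < j0 := by
      rcases Nat.eq_zero_or_pos j0 with h' | h'
      · rw [h'] at hyj0
        exact absurd h0 hyj0
      · exact h'
    refine key j0 hj0 hyj0 (IntermediateField.adjoin k (Set.range fun l : Fin d => y ((l : ℕ) + 1) / y j0))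
      (fun a ha => ?_) (Q12b_trdeg _ fun hind => ?_)
    · rcases a with _ | a
      · rw [h0, zero_div]
        exact zero_mem _
      · exact IntermediateField.subset_adjoin k _ ⟨⟨a, by omega⟩, rfl⟩
    · have h1 := hind.transcendental ⟨j0 - 1, by omega⟩
      apply h1
      change IsAlgebraic k (y (j0 - 1 + 1) / y j0)
      rw [Nat.sub_add_cancel hpos, div_self hyj0]
      exact isAlgebraic_one
  have hind : AlgebraicIndependent k (fun l : Fin d => y ((l : ℕ) + 1) / y 0) := by
    by_contra hcon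
    refine key 0 (Nat.succ_pos d) hy0
      (IntermediateField.adjoin k (Set.range fun l : Fin d => y ((l : ℕ) + 1) / y 0)) (fun a ha => ?_)
      (Q12b_trdeg _ hcon)
    rcases a with _ | a
    · rw [div_self hy0]
      exact one_mem _
    · exact IntermediateField.subset_adjoin k _ ⟨⟨a, by omega⟩, rfl⟩
  refine ⟨fun l => y ((l : ℕ) + 1) / y 0, j, fun l => ?_, hj, fun G hG h0 => hG ?_⟩
  · have hl := l.2
    have h1 := (hy' ((l : ℕ) + 1) (by omega)).div (hy' 0 (Nat.succ_pos d)) hy0
    rw [h10, h11, mul_one, mul_div_assoc, mul_div_cancel₀ _ hμ] at h1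
    exact h1
  · obtain ⟨G0, rfl⟩ := MvPolynomial.map_surjective (algebraMap k (RF P)) (fun x => rf_const hK P x) G
    rw [MvPolynomial.eval₂_map] at h0
    have h1 : (j : RF P →+* RF v).comp (algebraMap k (RF P)) = algebraMap k (RF v) := j.comp_algebraMap
    rw [h1] at h0
    have h2 : G0 = 0 := (algebraicIndependent_iff.1 hind) G0 h0
    rw [h2, map_zero]

end Pool.Agent.LibDV76
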