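import Pool.Agent.LibDV76.Q5
import Pool.Agent.LibDV76.Q8
import Pool.Agent.LibDV76.Q9
import Pool.Agent.LibDV76.Q11
import Pool.Agent.LibDV76.T7
import Pool.Agent.LibDV76.P4
import Pool.Agent.LibHL77.B1
import Pool.Agent.LibHL77.B5

/-!
[DV Q12a] The places of `N = K(t_1, ..., t_d)` over a place `P` of `K` (dimension 1) where `u` and the vectors `h i` have good residues `U`, `H i`. `z = zF i u h (d + 1) T`, `T 0 = 1`, `T (l + 1) = t l`.
`TV_gauss`: `v` the Gauss place over `P` (`gaussN`): `SpZ` with `τ = 1`, `κ = 1` to `zF (ofId) U H (d+1) T'` (over `RF v`, `T' 0 = 1`, `T' (l+1)` the residues), the residues of `T` generate `RF v` over `k` (`RF P = k`: `rf_const`), so `finrank (rf k d T') (RF v) = 1`; `TV_eq`, `LS_spec`. If `U` is not valid (zero on a group): `TV = 0`: a Z-point `z'` with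
`SpZ` has all `z'.u` nonzero on each group; compare the orders of `τ_C u_l` with `U`, which is not zero on each block, as in `spZ_unique`. Here `LS U = 0` (`LS_not`).
`TV_other`: `v` over `P` not the Gauss place: if `TV ≠ 0`: `FunF k d (RF v)` and `U` valid (as before). `exists_prim`-type: `μ ∈ N` with `μ T_i → y_i`, not all 0 (`i ≤ d`). `SpZ` with `τ = 1`, `κ = μ` to `(U, ∑ y_i H_i)`; `TV_eq`, `LS_spec`: `= finrank (rf k d y) (RF v) • LS U`. If this is not 0 then `trdeg (rf k d y) = d`, so `y 0 ≠ 0` and the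
`y (l+1) / y 0` are algebraically independent over `k`, they are the residues of `t l`; `gaussN_unique`.
-/

open scoped Classical
open Polynomial

namespace Pool.Agent.LibDV76

open Pool.Agent.LibBH2
open Pool.Agent.LibCHd (VR RF Red FunF)

variable {k : Type} [Field k] {s m c p d : ℕ} {D : Dat k s m c} {e : Fin m → ℕ} {b : Fin m → Fin p}
  {W : Type} [AddCommGroup W] [Module k W] {K N : Type} [Field K] [Algebra k K] [Field N] [Algebra k N]

private theorem one_t_zero {F : Type} [Field F] (T : Fin d → F) : one_t T 0 = 1 := by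
  unfold one_t
  rw [dif_neg (by omega)]

private theorem one_t_succ {F : Type} [Field F] (T : Fin d → F) (l : Fin d) : one_t T (l + 1) = T l := by
  unfold one_t
  rw [dif_pos ⟨by omega, by omega⟩]
  rfl

private theorem red_sum {v : Place k N} {ι : Type} (S : Finset ι) {f : ι → N} {g : ι → RF v}
    (h : ∀ i ∈ S, Red v (f i) (g i)) : Red v (∑ i ∈ S, f i) (∑ i ∈ S, g i) := by
  induction S using Finset.induction_on with
  | empty => simpa using Pool.Agent.LibCHd.red_zero v
  | insert a S ha ih =>
    rw [Finset.sum_insert ha, Finset.sum_insert ha]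
    exact (h a (Finset.mem_insert_self _ _)).add (ih fun i hi => h i (Finset.mem_insert_of_mem hi))

private theorem red_one_t {v : Place k N} {t : Fin d → N} {T : Fin d → RF v} (hT : ∀ l, Red v (t l) (T l)) (i : ℕ) :
    Red v (one_t t i) (one_t T i) := by
  unfold one_t
  by_cases h : 0 < i ∧ i ≤ d
  · rw [dif_pos h, dif_pos h]
    exact hT _
  · rw [dif_neg h, dif_neg h]
    exact Pool.Agent.LibCHd.red_one v

private theorem funF_zero {R : Type} [Field R] [Algebra k R] (h : ∀ y : R, ∃ c : k, algebraMap k R c = y) :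
    FunF k 0 R := by
  refine ⟨Fin.elim0, ?_, ?_⟩
  · rw [algebraicIndependent_empty_type_iff]
    exact (algebraMap k R).injective
  · refine Module.Finite.of_surjective (Algebra.linearMap (IntermediateField.adjoin k (Set.range Fin.elim0)) R) ?_
    intro y
    obtain ⟨c, hc⟩ := h y
    exact ⟨algebraMap k _ c, by rw [← hc]; rfl⟩

private theorem rf_top {R E : Type} [Field R] [Algebra k R] [Field E] [Algebra k E] {j : R →ₐ[k] E} {T : Fin d → E}
    (hR : ∀ y : R, ∃ c : k, algebraMap k R c = y) (h : RatN j T) : rf k d (one_t T) = ⊤ := by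
  have hT : ∀ l, T l ∈ rf k d (one_t T) := by
    intro l
    refine IntermediateField.subset_adjoin k _ ⟨l + 1, 0, by omega, by omega, ?_⟩
    rw [one_t_zero, one_t_succ, div_one]
  have hP : ∀ P : MvPolynomial (Fin d) R, P.eval₂ (j : R →+* E) T ∈ rf k d (one_t T) := by
    intro P
    induction P using MvPolynomial.induction_on with
    | C c =>
      rw [MvPolynomial.eval₂_C]
      obtain ⟨a, rfl⟩ := hR c
      change j (algebraMap k R a) ∈ _
      rw [j.commutes]
      exact IntermediateField.algebraMap_mem _ a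
    | add P Q hP hQ =>
      rw [MvPolynomial.eval₂_add]
      exact add_mem hP hQ
    | mul_X P l hP =>
      rw [MvPolynomial.eval₂_mul, MvPolynomial.eval₂_X]
      exact mul_mem hP (hT l)
  refine eq_top_iff.2 fun z _ => ?_
  obtain ⟨P, Q, -, rfl⟩ := h.gen z
  exact div_mem (hP P) (hP Q)

theorem TV_gauss [IsAlgClosed k] [CharZero k] (hD : D.Good) (hb : Bl D.n e b) (q : CH D d →+ W) (hK : FunF k 1 K)
    {i : K →ₐ[k] N} {t : Fin d → N} (ht : RatN i t) (P : Place k K) (v : Place k N)
    (hv : ∀ x, v.ord (i x) = P.ord x) (T : Fin d → RF v) (hT : ∀ l, Red v (t l) (T l)) (j : RF P →ₐ[k] RF v)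
    (hj : ∀ x y, Red P x y → Red v (i x) (j y)) (hjT : RatN j T) (u : Fin s → K) (h : ℕ → Fin p → K) (U : Fin s → k)
    (hU : ∀ l, Red P (u l) (algebraMap k (RF P) (U l))) (hUC : ∀ C, ∃ l, b (D.γ l) = C ∧ U l ≠ 0)
    (H : ℕ → Fin p → k) (hh : KB D b u h (d + 1)) (hH : ∀ i < d + 1, ∀ C, Red P (h i C) (algebraMap k (RF P) (H i C)))
    (hHi : ∀ x : ℕ → k, (∀ C, ∑ i ∈ Finset.range (d + 1), x i * H i C = 0) → ∀ i < d + 1, x i = 0) :
    TV e b q v (zF i u h (d + 1) (one_t t)) = LS e b q U := by
  have hconst := rf_const hK P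
  have hF : FunF k d (RF v) := ratN_funF hjT (funF_zero hconst)
  -- residues over `v`
  have hUv : ∀ l, Red v (i (u l)) (algebraMap k (RF v) (U l)) := by
    intro l
    have := hj _ _ (hU l)
    rwa [j.commutes] at this
  have hHv : ∀ a < d + 1, ∀ C, Red v (i (h a C)) (algebraMap k (RF v) (H a C)) := by
    intro a ha C
    have := hj _ _ (hH a ha C)
    rwa [j.commutes] at this
  by_cases hval : Val D U
  · have hKB : KB D b U H (d + 1) := by
      refine ⟨?_, hHi⟩
      intro a ha t'
      have h1 : Red P (∑ c', ev D u t' c' * h a (b c'))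
          (∑ c', ev D (fun l => algebraMap k (RF P) (U l)) t' c' * algebraMap k (RF P) (H a (b c'))) := by
        refine red_sum _ fun c' _ => ?_
        exact (ev_red hD (fun l _ => hU l) t').mul (hH a ha (b c'))
      rw [hh.ker a ha t'] at h1
      have h2 := h1.unique (Pool.Agent.LibCHd.red_zero P)
      have h3 : algebraMap k (RF P) (∑ c', ev D U t' c' * H a (b c')) = 0 := by
        rw [map_sum, ← h2]
        refine Finset.sum_congr rfl fun c' _ => ?_
        rw [map_mul]
        congr 1
        exact (ev_map (Algebra.ofId k (RF P)) U t' c').symm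
      exact (map_eq_zero _).1 h3
    have hs : SpZ D b v (zF i u h (d + 1) (one_t t)) (zF (Algebra.ofId k (RF v)) U H (d + 1) (one_t T)) := by
      refine ⟨fun _ => 1, 1, fun _ => one_ne_zero, one_ne_zero, fun l => ?_, fun C => ?_⟩
      · rw [one_mul]
        exact hUv l
      · rw [one_mul, one_pow, div_one]
        exact red_sum _ fun a ha => (red_one_t hT a).mul (hHv a (Finset.mem_range.1 ha) C)
    have hY : ∃ C, (zF (Algebra.ofId k (RF v)) U H (d + 1) (one_t T)).Y C ≠ 0 := by
      by_contra hcon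
      push Not at hcon
      have h0 : one_t T 0 = 0 := ind_ext H hHi (algebraMap k (RF v)) (one_t T) hcon 0 (Nat.succ_pos _)
      rw [one_t_zero] at h0
      exact one_ne_zero h0
    have h1 := TV_eq hD hb q hF hs (by
      intro a
      obtain ⟨l, hl, hUl⟩ := hval a
      exact ⟨l, hl, fun h0 => hUl ((map_eq_zero (algebraMap k (RF v))).1 h0)⟩) hY
    rw [h1, LS_spec hD hb q hval hKB hF (one_t T) ⟨0, Nat.zero_le _, by rw [one_t_zero]; exact one_ne_zero⟩,
      rf_top hconst hjT, IntermediateField.finrank_top, one_smul]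
  · rw [LS_not q fun h' => hval h'.1]
    by_contra hne
    obtain ⟨-, z', hz', τ, κ, hτ, hκ, hu', -⟩ := TV_ne q hne
    unfold Val at hval
    push Not at hval
    obtain ⟨a, ha⟩ := hval
    obtain ⟨l₁, hl₁, hz₁⟩ := hz'.u0 a
    obtain ⟨l₀, hl₀, hU₀⟩ := hUC (b a)
    have r1 : Red v (τ (b a) * i (u l₁)) (z'.u l₁) := by
      have := hu' l₁
      rwa [hl₁] at this
    have r0 : Red v (τ (b a) * i (u l₀)) (z'.u l₀) := by
      have := hu' l₀
      rwa [hl₀] at this
    have s0 := (hUv l₀).ord_eq_zero (by rw [Ne, map_eq_zero]; exact hU₀)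
    have n0 := (hUv l₀).ne_zero (by rw [Ne, map_eq_zero]; exact hU₀)
    have n1 := r1.ne_zero hz₁
    have s1 := r1.ord_eq_zero hz₁
    have n1' : i (u l₁) ≠ 0 := right_ne_zero_of_mul n1
    have z1 : v.Zer (i (u l₁)) := by
      have := hUv l₁
      rw [ha l₁ hl₁, map_zero] at this
      exact Pool.Agent.LibCHd.red_zero_iff.1 this
    rw [v.ord_mul _ _ (hτ _) n1'] at s1
    have g0 : v.Reg (τ (b a) * i (u l₀)) := r0.reg
    rcases z1 with z1 | z1
    · exact n1' z1
    · rcases g0 with g0 | g0
      · exact mul_ne_zero (hτ _) n0 g0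
      · rw [v.ord_mul _ _ (hτ _) n0, s0] at g0
        omega

end Pool.Agent.LibDV76
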