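import Pool.Agent.LibDV76.Q10
import Pool.Agent.LibDV76.Q12
import Pool.Agent.LibDV76.T9

/-!
[DV Q13] The relation: `u` over a function field `K` of dimension 1 with `InS D b (d + 1) u`, `f ≠ 0` in `K`, `S` a finite set containing all places with `v.ord f ≠ 0`. `norm_u` for `S`: replace `u` by `τ u` (`KB` for `h ↦ h / τ ^ n`), residues `U v`. `good_basis` for `S`: `h'`, `H v`. `N = K(t_1, ..., t_d)` (`ratN_exists`, `ratN_funF`),
`z = zF i u h' (d + 1) (one_t t)`. If `z` is not a Z-point (some block `C` with `¬ n ∣ e a`, `b a = C`, all `h' i C = 0`, since the `t_l` are independent over `K`) then all `H v i C = 0` and all `LS (U v) = 0` (`LS_spec` for the generic `η`, `exists_gen`: `TZ_not`). Else `master'` with `g = i f`, `L = ⊥`, `E` = the Gauss places over the `P ∈ S`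
with `P.ord f ≠ 0`: a place `v` with `v.ord (i f) ≠ 0` restricts to a positive multiple of such a `P` (`exists_restr` in LibHL77/B1.lean), so if `TV ≠ 0` it is the Gauss place (`TV_other`, `gaussN_unique`). Sum: `∑ P.ord f • LS (U P) = 0` (`TV_gauss`). `V v` in the statement: valid: `U v` and `V v` are equivalent (`spU_unique`), `LS_zeq`; if there is no valid
specialisation then `U v` is not valid, `LS (U v) = 0` (`LS_not`).
-/

open scoped Classical
open Polynomial

namespace Pool.Agent.LibDV76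

open Pool.Agent.LibBH2
open Pool.Agent.LibCHd (VR RF Red FunF)

variable {k : Type} [Field k] {s m c p d : ℕ} {D : Dat k s m c} {e : Fin m → ℕ} {b : Fin m → Fin p}
  {W : Type} [AddCommGroup W] [Module k W] {K : Type} [Field K] [Algebra k K]

private theorem Q13_sum {v : Place k K} {ι : Type} (S : Finset ι) (f : ι → K) (g : ι → RF v)
    (h : ∀ i ∈ S, Red v (f i) (g i)) : Red v (∑ i ∈ S, f i) (∑ i ∈ S, g i) := by
  induction S using Finset.induction_on with
  | empty => simpa using Pool.Agent.LibCHd.red_zero v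
  | insert a S ha ih =>
    rw [Finset.sum_insert ha, Finset.sum_insert ha]
    exact (h a (Finset.mem_insert_self a S)).add
      (ih fun i hi => h i (Finset.mem_insert_of_mem hi))

private theorem Q13_ev (hD : D.Good) {v : Place k K} {u : Fin s → K} {U : Fin s → k}
    (h : ∀ l, Red v (u l) (algebraMap k (RF v) (U l))) (t : Fin c) (a : Fin m) :
    Red v (ev D u t a) (algebraMap k (RF v) (ev D U t a)) := by
  have h1 : Red v (ev D u t a) (ev D (fun l => algebraMap k (RF v) (U l)) t a) :=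
    ev_red hD (fun l _ => h l) t
  have h2 := ev_map (D := D) (Algebra.ofId k (RF v)) U t a
  have h3 : ev D (fun l => algebraMap k (RF v) (U l)) t a = algebraMap k (RF v) (ev D U t a) := h2
  rwa [h3] at h1

/-- the relations reduce -/
private theorem Q13_ker (hD : D.Good) {v : Place k K} {u : Fin s → K} {U : Fin s → k}
    (h : ∀ l, Red v (u l) (algebraMap k (RF v) (U l))) {h' : Fin p → K} {H : Fin p → k}
    (hH : ∀ C, Red v (h' C) (algebraMap k (RF v) (H C))) (t : Fin c)
    (hr : ∑ a, ev D u t a * h' (b a) = 0) : ∑ a, ev D U t a * H (b a) = 0 := by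
  have h1 : Red v (∑ a, ev D u t a * h' (b a))
      (∑ a, algebraMap k (RF v) (ev D U t a) * algebraMap k (RF v) (H (b a))) :=
    Q13_sum _ _ _ fun a _ => (Q13_ev hD h t a).mul (hH (b a))
  rw [hr] at h1
  have h2 := h1.unique (Pool.Agent.LibCHd.red_zero v)
  have h3 : algebraMap k (RF v) (∑ a, ev D U t a * H (b a)) = 0 := by
    rw [map_sum]
    simp only [map_mul]
    exact h2
  exact (map_eq_zero (algebraMap k (RF v))).1 h3

private theorem Q13_val_scale {F : Type} [Field F] {u : Fin s → F} (hu : Val D u) {τ : Fin p → F}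
    (hτ : ∀ C, τ C ≠ 0) : Val D (fun l => τ (b (D.γ l)) * u l) := by
  intro a
  obtain ⟨l, hl, h⟩ := hu a
  exact ⟨l, hl, mul_ne_zero (hτ _) h⟩

private theorem Q13_kb_scale (hD : D.Good) {F : Type} [Field F] [Algebra k F] {u : Fin s → F}
    {h : ℕ → Fin p → F} {r : ℕ} (hh : KB D b u h r) {τ : Fin p → F} (hτ : ∀ C, τ C ≠ 0) :
    KB D b (fun l => τ (b (D.γ l)) * u l) (fun i C => h i C / τ C ^ D.n) r where
  ker := by
    intro i hi t
    rw [← hh.ker i hi t]
    refine Finset.sum_congr rfl fun a _ => ?_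
    have h1 : ev D (fun l => τ (b (D.γ l)) * u l) t a = τ (b a) ^ D.n * ev D u t a :=
      ev_scale hD (fun a => τ (b a)) u t a
    rw [h1]
    have h2 : τ (b a) ^ D.n ≠ 0 := pow_ne_zero _ (hτ _)
    field_simp
  ind := by
    intro x hx
    refine hh.ind x fun C => ?_
    have h1 := hx C
    have h2 : τ C ^ D.n ≠ 0 := pow_ne_zero _ (hτ _)
    have h3 : (∑ i ∈ Finset.range r, x i * h i C) / τ C ^ D.n = 0 := by
      rw [← h1, Finset.sum_div]
      exact Finset.sum_congr rfl fun i _ => by rw [mul_div_assoc]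
    rcases div_eq_zero_iff.1 h3 with h4 | h4
    · exact h4
    · exact absurd h4 h2

private theorem Q13_kb_comb {F : Type} [Field F] [Algebra k F] {u : Fin s → F} {h h' : ℕ → Fin p → F} {r : ℕ}
    (hh : KB D b u h r) {g : ℕ → ℕ → F} (hg : ∀ i < r, ∀ C, h' i C = ∑ j ∈ Finset.range r, g i j * h j C)
    (hi : Ind h' r) : KB D b u h' r where
  ker := by
    intro i hi t
    have h1 : ∀ a, ev D u t a * h' i (b a) = ∑ j ∈ Finset.range r, g i j * (ev D u t a * h j (b a)) := by
      intro a
      rw [hg i hi, Finset.mul_sum]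
      exact Finset.sum_congr rfl fun j _ => by ring
    simp only [h1]
    rw [Finset.sum_comm]
    refine Finset.sum_eq_zero fun j hj => ?_
    rw [← Finset.mul_sum, hh.ker j (Finset.mem_range.1 hj) t, mul_zero]
  ind := hi

/-- `1, t_1, ..., t_d` are independent over `K` -/
private theorem Q13_ind {N : Type} [Field N] [Algebra k N] {i : K →ₐ[k] N} {t : Fin d → N} (ht : RatN i t)
    (x : ℕ → K) (hx : ∑ j ∈ Finset.range (d + 1), one_t t j * i (x j) = 0) : ∀ j < d + 1, x j = 0 := by
  have h1 : ∑ j ∈ Finset.range (d + 1), one_t t j * i (x j) =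
      i (x 0) + ∑ l : Fin d, t l * i (x (l + 1)) := by
    rw [Finset.sum_range_succ', add_comm, Finset.sum_range]
    congr 1
    · simp [one_t]
    · refine Finset.sum_congr rfl fun l _ => ?_
      have h2 : one_t t (l + 1) = t l := by
        unfold one_t
        rw [dif_pos ⟨by omega, by omega⟩]
        congr 1
      rw [h2]
  obtain ⟨G, hG⟩ : ∃ G : MvPolynomial (Fin d) K, G = MvPolynomial.C (x 0) +
      ∑ l : Fin d, MvPolynomial.C (x (l + 1)) * MvPolynomial.X l := ⟨_, rfl⟩
  have hG0 : G = 0 := by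
    by_contra hne
    refine ht.tr G hne ?_
    rw [hG, MvPolynomial.eval₂_add, MvPolynomial.eval₂_C, MvPolynomial.eval₂_sum]
    simp only [MvPolynomial.eval₂_mul, MvPolynomial.eval₂_X, MvPolynomial.eval₂_C]
    rw [← hx, h1]
    congr 1
    exact Finset.sum_congr rfl fun l _ => mul_comm _ _
  have hc0 : x 0 = 0 := by
    have h2 := congrArg (MvPolynomial.coeff 0) hG0
    rw [hG, MvPolynomial.coeff_add, MvPolynomial.coeff_sum] at h2
    simpa [MvPolynomial.coeff_C_mul, MvPolynomial.coeff_zero_X] using h2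
  have hc1 : ∀ l : Fin d, x (l + 1) = 0 := by
    intro l
    have h2 := congrArg (MvPolynomial.coeff (Finsupp.single l 1)) hG0
    rw [hG, MvPolynomial.coeff_add, MvPolynomial.coeff_sum] at h2
    have h3 : ∀ l' : Fin d, MvPolynomial.coeff (Finsupp.single l 1)
        (MvPolynomial.C (x (l' + 1)) * MvPolynomial.X l' : MvPolynomial (Fin d) K) =
        if l' = l then x (l' + 1) else 0 := by
      intro l'
      rw [MvPolynomial.coeff_C_mul, MvPolynomial.coeff_X]
      by_cases hl : l' = l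
      · rw [if_pos (by rw [hl]), if_pos hl, mul_one]
      · rw [if_neg, if_neg hl, mul_zero]
        intro h4
        exact hl (Finsupp.single_left_injective one_ne_zero h4)
    simp only [h3] at h2
    rw [Finset.sum_ite_eq' Finset.univ l, if_pos (Finset.mem_univ _), hc0] at h2
    simpa using h2
  intro j hj
  rcases Nat.eq_zero_or_pos j with h2 | h2
  · rw [h2]
    exact hc0
  · obtain ⟨j, rfl⟩ := Nat.exists_eq_succ_of_ne_zero h2.ne'
    exact hc1 ⟨j, by omega⟩

/-- if `z` is not a Z-point then some coordinate is zero -/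
private theorem Q13_isZ {N : Type} [Field N] [Algebra k N] {i : K →ₐ[k] N} {t : Fin d → N}
    (ht : RatN i t) {u : Fin s → K} (hu : Val D u) {h : ℕ → Fin p → K} (hh : KB D b u h (d + 1))
    (hz : ¬ IsZ D e b (zF i u h (d + 1) (one_t t))) : ∃ a, ¬ D.n ∣ e a ∧ ∀ j < d + 1, h j (b a) = 0 := by
  by_contra hcon
  push Not at hcon
  apply hz
  have hY : ∀ C, (zF i u h (d + 1) (one_t t)).Y C = 0 → ∀ j < d + 1, h j C = 0 := by
    intro C hC
    exact Q13_ind ht (fun j => h j C) hC
  refine ⟨?_, ?_, ?_, ?_⟩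
  · intro a
    obtain ⟨l, hl, h1⟩ := hu a
    exact ⟨l, hl, (map_ne_zero i).2 h1⟩
  · by_contra h0
    push Not at h0
    have h1 := hh.ind (fun j => if j = 0 then 1 else 0) (fun C => by
      rw [Finset.sum_eq_zero]
      intro j hj
      rw [hY C (h0 C) j (Finset.mem_range.1 hj), mul_zero]) 0 (by omega)
    simp at h1
  · intro a ha h0
    obtain ⟨j, hj, h1⟩ := hcon a ha
    exact h1 (hY _ h0 j hj)
  · intro t'
    have h1 : ∀ a, ev D (zF i u h (d + 1) (one_t t)).u t' a = i (ev D u t' a) := fun a =>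
      ev_map i u t' a
    have h2 : ∀ a, ev D (zF i u h (d + 1) (one_t t)).u t' a * (zF i u h (d + 1) (one_t t)).Y (b a) =
        ∑ j ∈ Finset.range (d + 1), one_t t j * i (ev D u t' a * h j (b a)) := by
      intro a
      rw [h1 a]
      change i (ev D u t' a) * (∑ j ∈ Finset.range (d + 1), one_t t j * i (h j (b a))) = _
      rw [Finset.mul_sum]
      refine Finset.sum_congr rfl fun j _ => ?_
      rw [map_mul]
      ring
    simp only [h2]
    rw [Finset.sum_comm]
    refine Finset.sum_eq_zero fun j hj => ?_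
    rw [← Finset.mul_sum, ← map_sum, hh.ker j (Finset.mem_range.1 hj) t', map_zero, mul_zero]

/-- a class is zero if some coordinate vanishes -/
private theorem Q13_zero [IsAlgClosed k] [CharZero k] (hD : D.Good) (hb : Bl D.n e b) (q : CH D d →+ W)
    {U : Fin s → k} {H : ℕ → Fin p → k} (hH : KB D b U H (d + 1)) {a : Fin m} (ha : ¬ D.n ∣ e a)
    (h0 : ∀ j < d + 1, H j (b a) = 0) : LS e b q U = 0 := by
  by_cases hU : Val D U
  · obtain ⟨M, _, _, η, hM, h1, h2⟩ := exists_gen k d
    have h3 := LS_spec hD hb q hU hH hM η ⟨0, by omega, by rw [h1]; exact one_ne_zero⟩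
    rw [h2, one_smul] at h3
    rw [← h3]
    refine TZ_not q fun hz => hz.YC a ha ?_
    change ∑ j ∈ Finset.range (d + 1), η j * (Algebra.ofId k M) (H j (b a)) = 0
    refine Finset.sum_eq_zero fun j hj => ?_
    rw [h0 j (Finset.mem_range.1 hj), map_zero, mul_zero]
  · exact LS_not q fun h => hU h.1

/-- the relation for the residues -/
private theorem Q13_main [IsAlgClosed k] [CharZero k] (hD : D.Good) (hb : Bl D.n e b) (q : CH D d →+ W)
    (hK : FunF k 1 K) {u : Fin s → K} (hu : Val D u) {h : ℕ → Fin p → K} (hh : KB D b u h (d + 1)) {f : K}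
    (hf : f ≠ 0) (S : Finset (Place k K)) (hS : ∀ v, v.ord f ≠ 0 → v ∈ S) (U : Place k K → Fin s → k)
    (hU : ∀ v ∈ S, (∀ l, Red v (u l) (algebraMap k (RF v) (U v l))) ∧ ∀ C, ∃ l, b (D.γ l) = C ∧ U v l ≠ 0)
    (H : Place k K → ℕ → Fin p → k)
    (hH : ∀ v ∈ S, (∀ i < d + 1, ∀ C, Red v (h i C) (algebraMap k (RF v) (H v i C))) ∧ Ind (H v) (d + 1)) :
    ∑ v ∈ S, v.ord f • LS e b q (U v) = 0 := by
  obtain ⟨N, _, _, i, t, ht⟩ := ratN_exists (k := k) K d
  have hN : FunF k (d + 1) N := ratN_funF ht hK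
  by_cases hz : IsZ D e b (zF i u h (d + 1) (one_t t))
  swap
  · obtain ⟨a, ha, h0⟩ := Q13_isZ ht hu hh hz
    refine Finset.sum_eq_zero fun v hv => ?_
    have hkb : KB D b (U v) (H v) (d + 1) := by
      refine ⟨fun j hj t' => ?_, (hH v hv).2⟩
      exact Q13_ker hD (hU v hv).1 ((hH v hv).1 j hj) t' (hh.ker j hj t')
    rw [Q13_zero hD hb q hkb ha, smul_zero]
    intro j hj
    have h1 := (hH v hv).1 j hj (b a)
    rw [h0 j hj] at h1
    exact (map_eq_zero (algebraMap k (RF v))).1 (h1.unique (Pool.Agent.LibCHd.red_zero v))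
  · choose G j T hG hj hT hjT using fun P : Place k K => gaussN ht P
    have hGi : Function.Injective G := by
      intro P P' hPP
      refine Place.ext' fun x => ?_
      rw [← hG P x, ← hG P' x, hPP]
    have hmain := master' hD hb q hN hz (i f) ((map_ne_zero i).2 hf) ⊥ (S.image G) (by
      intro v hv hord
      rw [AddSubgroup.mem_bot]
      by_contra hne
      apply hv
      obtain ⟨P, r, hr, hP⟩ := Pool.Agent.LibHL77.exists_restr
        (⟨(i : K →+* N), fun c => by simp⟩ : Pool.Agent.LibHL77.EHom k k K N) v f hord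
      have hP' : ∀ x, v.ord (i x) = r * P.ord x := hP
      have hPS : P ∈ S := by
        refine hS P fun h0 => hord ?_
        rw [hP', h0, mul_zero]
      obtain ⟨T', j', h1, h2, h3⟩ := TV_other hD hb q hK ht P v r hr hP' u h (U P) (hU P hPS).1 (hU P hPS).2
        (H P) hh (hH P hPS).1 (hH P hPS).2 hne
      have h4 := gaussN_unique ht P (G P) v 1 r one_pos hr (fun x => by rw [hG, one_mul]) hP' (j P) j' (hj P) h2
        (T P) T' (hT P) h1 (hjT P).tr h3
      rw [h4]
      exact Finset.mem_image_of_mem _ hPS)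
    rw [AddSubgroup.mem_bot, Finset.sum_image fun P _ P' _ hPP => hGi hPP] at hmain
    rw [← hmain]
    refine Finset.sum_congr rfl fun P hP => ?_
    rw [hG P f, TV_gauss hD hb q hK ht P (G P) (hG P) (T P) (hT P) (j P) (hj P) (hjT P) u h (U P) (hU P hP).1
      (hU P hP).2 (H P) hh (hH P hP).1 (hH P hP).2]

theorem LS_rel [IsAlgClosed k] [CharZero k] (hD : D.Good) (hb : Bl D.n e b) (q : CH D d →+ W) (hK : FunF k 1 K)
    {u : Fin s → K} (hu : InS D b (d + 1) u) {f : K} (hf : f ≠ 0) (S : Finset (Place k K))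
    (hS : ∀ v, v.ord f ≠ 0 → v ∈ S) (V : Place k K → Fin s → k)
    (hV : ∀ v ∈ S, (Val D (V v) ∧ SpU D b v u (V v)) ∨ (V v = 0 ∧ ∀ u', Val D u' → ¬ SpU D b v u u')) :
    ∑ v ∈ S, v.ord f • LS e b q (V v) = 0 := by
  obtain ⟨hval, h, hh⟩ := hu
  have hrf : ∀ v ∈ S, ∀ y : RF v, ∃ c : k, algebraMap k (RF v) c = y := fun v _ => rf_const hK v
  have hinf : Infinite k := inferInstance
  obtain ⟨τ, U, hτ, hU⟩ := norm_u (D := D) hb.surj S hrf hval
  have hh1 := Q13_kb_scale hD hh hτ
  obtain ⟨g, h', H, hg, hi, hH⟩ := good_basis S hrf _ (d + 1) hh1.ind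
  have hh2 := Q13_kb_comb hh1 hg hi
  have hrel := Q13_main hD hb q hK (Q13_val_scale hval hτ) hh2 hf S hS U hU H hH
  rw [← hrel]
  refine Finset.sum_congr rfl fun v hv => ?_
  congr 1
  have hspU : SpU D b v u (U v) := ⟨τ, hτ, (hU v hv).1⟩
  rcases hV v hv with ⟨h1, h2⟩ | ⟨h1, h2⟩
  · obtain ⟨τ', hτ', h3⟩ := spU_unique hb.surj hspU h2 (hU v hv).2 (fun C => by
      obtain ⟨a, ha⟩ := hb.surj C
      obtain ⟨l, hl, hl'⟩ := h1 a
      exact ⟨l, by rw [hl, ha], hl'⟩)
    rw [h3]
    exact LS_zeq hD hb q (U v) τ' hτ'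
  · have h3 : ¬ Val D (U v) := fun h => h2 _ h hspU
    rw [LS_not q fun h => h3 h.1, h1]
    refine LS_not q fun h => h3 fun a => ?_
    obtain ⟨l, -, hl⟩ := h.1 a
    exact absurd rfl hl

end Pool.Agent.LibDV76
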