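import Pool.Agent.LibDV76.Q7
import Pool.Agent.LibDV76.Q13

/-!
[DV Q14] The final statement of part 2 with `L = LS e b q`. Values: `x = (u_l y_C)` is a lift (`i = id`, `κ = 1`) of `zF ofId u h (d + 1) η`: if this is a Z-point `TZ_spec` with `i = id` (degree 1; see the proof of `TZ_zpt` in T5b.lean) and `LS_spec`; else both sides are 0: `TZ_not`, `LS_spec`, and `mns_grp` for a group with `¬ n ∣ e a`, `y (b a) = 0`
(the other conditions hold: `Val`, `Y ≠ 0` by independence, relation by `KB.ker`). The rest: `LS_not`, `LS_zeq`, `span_mns`, `LS_rel`.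
-/

open scoped Classical
open Polynomial

namespace Pool.Agent.LibDV76

open Pool.Agent.LibBH2
open Pool.Agent.LibCHd (VR RF Red FunF)

variable {k : Type} [Field k] {s m c p d : ℕ} {D : Dat k s m c} {e : Fin m → ℕ} {b : Fin m → Fin p}
  {W : Type} [AddCommGroup W] [Module k W]

private theorem Q14_val [IsAlgClosed k] [CharZero k] (hD : D.Good) (hb : Bl D.n e b) (q : CH D d →+ W)
    (a₀ : Fin m) (ha₀ : ¬ D.n ∣ e a₀) {u : Fin s → k} {h : ℕ → Fin p → k} (hu : Val D u)
    (hh : KB D b u h (d + 1)) {M : Type} [Field M] [Algebra k M] (η : ℕ → M) (y : Fin p → M)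
    (hM : FunF k d M) (hη : ∃ j ≤ d, η j ≠ 0)
    (hy : ∀ C, y C ^ D.n = ∑ i ∈ Finset.range (d + 1), η i * algebraMap k M (h i C)) :
    mns e q (fun l => algebraMap k M (u l) * y (b (D.γ l))) =
      Module.finrank (rf k d η) M • LS e b q u := by
  have hn : D.n ≠ 0 := by
    have := hD.two
    omega
  rw [← LS_spec hD hb q hu hh hM η hη]
  by_cases hZ : IsZ D e b (zF (Algebra.ofId k M) u h (d + 1) η)
  · have h1 : Module.finrank (AlgHom.id k M).fieldRange M = 1 := by
      have h2 : (AlgHom.id k M).fieldRange = ⊤ := by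
        rw [AlgHom.fieldRange_eq_top]
        exact fun x => ⟨x, rfl⟩
      rw [h2, IntermediateField.finrank_top]
    have h3 : IsLift D b ((zF (Algebra.ofId k M) u h (d + 1) η).map (AlgHom.id k M))
        (fun l => algebraMap k M (u l) * y (b (D.γ l))) := by
      refine ⟨y, 1, one_ne_zero, fun l => rfl, fun C => ?_⟩
      rw [one_mul]
      exact hy C
    have h4 := TZ_spec hD hb q hZ (AlgHom.id k M) _ (by rw [h1]; exact one_ne_zero) h3
    rw [h1, one_smul] at h4
    exact h4
  · rw [TZ_not q hZ]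
    have h5 : ∃ a, ¬ D.n ∣ e a ∧ (zF (Algebra.ofId k M) u h (d + 1) η).Y (b a) = 0 := by
      by_contra hcon
      push Not at hcon
      apply hZ
      refine ⟨fun a => ?_, ⟨b a₀, hcon a₀ ha₀⟩, hcon, fun t => ?_⟩
      · obtain ⟨l, hl, hl'⟩ := hu a
        refine ⟨l, hl, ?_⟩
        change algebraMap k M (u l) ≠ 0
        rw [Ne, map_eq_zero]
        exact hl'
      · have h6 : ∀ a, ev D (zF (Algebra.ofId k M) u h (d + 1) η).u t a =
            algebraMap k M (ev D u t a) := fun a => ev_map (Algebra.ofId k M) u t a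
        have h7 : ∀ a, ev D (zF (Algebra.ofId k M) u h (d + 1) η).u t a *
            (zF (Algebra.ofId k M) u h (d + 1) η).Y (b a) =
            ∑ i ∈ Finset.range (d + 1), η i * algebraMap k M (ev D u t a * h i (b a)) := by
          intro a
          rw [h6]
          change algebraMap k M (ev D u t a) *
            (∑ i ∈ Finset.range (d + 1), η i * algebraMap k M (h i (b a))) = _
          rw [Finset.mul_sum]
          refine Finset.sum_congr rfl fun i _ => ?_
          rw [map_mul]
          ring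
        rw [Finset.sum_congr rfl fun a _ => h7 a, Finset.sum_comm]
        refine Finset.sum_eq_zero fun i hi => ?_
        rw [← Finset.mul_sum, ← map_sum, hh.ker i (Finset.mem_range.1 hi) t, map_zero, mul_zero]
    obtain ⟨a, ha, hYa⟩ := h5
    have hya : y (b a) = 0 := by
      have h8 : y (b a) ^ D.n = 0 := by
        rw [hy]
        exact hYa
      exact (pow_eq_zero_iff hn).1 h8
    apply mns_grp hD ha q
    intro l hl
    rw [hl, hya, mul_zero]

theorem locus [IsAlgClosed k] [CharZero k] (hD : D.Good) (hb : Bl D.n e b) (q : CH D d →+ W) (hp : c + d ≤ p)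
    (a₀ : Fin m) (ha₀ : ¬ D.n ∣ e a₀) :
    ∃ L : (Fin s → k) → W,
      (∀ u, ¬ InS D b (d + 1) u → L u = 0) ∧
      (∀ (u : Fin s → k) (τ : Fin p → k), (∀ C, τ C ≠ 0) → L (fun l => τ (b (D.γ l)) * u l) = L u) ∧
      (∀ (u : Fin s → k) (h : ℕ → Fin p → k), Val D u → KB D b u h (d + 1) → ∀ (M : Type) (_ : Field M)
        (_ : Algebra k M) (η : ℕ → M) (y : Fin p → M), FunF k d M → (∃ j ≤ d, η j ≠ 0) →
        (∀ C, y C ^ D.n = ∑ i ∈ Finset.range (d + 1), η i * algebraMap k M (h i C)) →
        mns e q (fun l => algebraMap k M (u l) * y (b (D.γ l))) = Module.finrank (rf k d η) M • L u) ∧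
      (∀ (M : Type) (_ : Field M) (_ : Algebra k M) (x : Fin s → M), FunF k d M → On D x →
        mns e q x ∈ Submodule.span k (Set.range L)) ∧
      ∀ (K : Type) (_ : Field K) (_ : Algebra k K) (u : Fin s → K) (f : K) (S : Finset (Place k K))
        (V : Place k K → Fin s → k), FunF k 1 K → InS D b (d + 1) u → f ≠ 0 → (∀ v, v.ord f ≠ 0 → v ∈ S) →
        (∀ v ∈ S, (Val D (V v) ∧ SpU D b v u (V v)) ∨ (V v = 0 ∧ ∀ u', Val D u' → ¬ SpU D b v u u')) →
        ∑ v ∈ S, v.ord f • L (V v) = 0 := by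
  refine ⟨LS e b q, fun u hu => LS_not q hu, fun u τ hτ => LS_zeq hD hb q u τ hτ, ?_, ?_, ?_⟩
  · intro u h hu hh M _ _ η y hM hη hy
    exact Q14_val hD hb q a₀ ha₀ hu hh η y hM hη hy
  · intro M _ _ x hM hx
    exact span_mns hD hb q hp a₀ ha₀ hM hx
  · intro K _ _ u f S V hK hu hf hS hV
    exact LS_rel hD hb q hK hu hf S hS V hV

end Pool.Agent.LibDV76
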