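import Pool.Agent.LibDV76.P10
import Pool.Agent.LibDV76.Defs3

/-!
[DV Q4b] The class of the generic point of a linear space, with the exact multiplicity. As `base` (P10b.lean): `w₀` = class of the generic `z₀` over `M₀ = k(X_1, ..., X_d)`. If the ratios of `η` have trdeg `< d` then `finrank (rf k d η) M = 0` (else `M` is algebraic over `rf`)
and `TZ = 0` (`TZ_small` after scaling, as in P10b). Else `η 0 ≠ 0`, `ι : M₀ → M` with `ι(M₀) = rf k d η`, `TZ = finrank • w₀`.
`TZ_le`: at most `d` vectors: scale one nonzero `η_i` to `1`; the coordinates are in a field of trdeg `< d`: `TZ_small`.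
-/

open scoped Classical
open Polynomial

namespace Pool.Agent.LibDV76

open Pool.Agent.LibBH2
open Pool.Agent.LibCHd (VR RF Red FunF)

variable {k : Type} [Field k] {s m c p d : ℕ} {D : Dat k s m c} {e : Fin m → ℕ} {b : Fin m → Fin p}
  {W : Type} [AddCommGroup W] [Module k W]

private theorem Q4b_trdeg {M : Type} [Field M] [Algebra k M] {d : ℕ} (y : Fin d → M)
    (hy : ¬ AlgebraicIndependent k y) :
    Algebra.trdeg k (IntermediateField.adjoin k (Set.range y)) < d := by
  by_contra hcon
  rw [not_lt] at hcon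
  apply hy
  obtain ⟨E, hE⟩ : ∃ E : IntermediateField k M, E = IntermediateField.adjoin k (Set.range y) := ⟨_, rfl⟩
  rw [← hE] at hcon
  have hmem : ∀ l, y l ∈ E := fun l => by
    rw [hE]
    exact IntermediateField.subset_adjoin k _ ⟨l, rfl⟩
  let y' : Fin d → E := fun l => ⟨y l, hmem l⟩
  have htop : IntermediateField.adjoin k (Set.range y') = ⊤ := by
    rw [eq_top_iff]
    intro z _
    have h1 : E ≤ (IntermediateField.adjoin k (Set.range y')).map E.val := by
      conv_lhs => rw [hE]
      rw [IntermediateField.adjoin_le_iff]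
      rintro _ ⟨l, rfl⟩
      exact ⟨y' l, IntermediateField.subset_adjoin k _ ⟨l, rfl⟩, rfl⟩
    obtain ⟨w, hw, hwz⟩ := h1 z.2
    have h2 : w = z := Subtype.ext hwz
    rw [← h2]
    exact hw
  have halg : Algebra.IsAlgebraic (Algebra.adjoin k (Set.range y')) E := by
    apply IntermediateField.isAlgebraic_adjoin_iff_top.1
    refine ⟨fun x => ?_⟩
    have hx : x ∈ IntermediateField.adjoin k (Set.range y') := by
      rw [htop]
      exact IntermediateField.mem_top
    exact isAlgebraic_algebraMap (⟨x, hx⟩ : IntermediateField.adjoin k (Set.range y'))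
  have h3 : IsTranscendenceBasis k y' :=
    Algebra.IsAlgebraic.isTranscendenceBasis_of_le_trdeg_of_finite k y' (by rwa [Cardinal.mk_fin])
  have h4 := h3.1.map' (f := E.val) E.val.injective
  exact h4

private theorem Q4b_scale [IsAlgClosed k] [CharZero k] (hD : D.Good) (hb : Bl D.n e b) (q : CH D d →+ W)
    (u : Fin s → k) (h : ℕ → Fin p → k) {M : Type} [Field M] [Algebra k M] (η : ℕ → M) (κ : M) (hκ : κ ≠ 0)
    (r : ℕ) : TZ e b q (zF (Algebra.ofId k M) u h r (fun i => κ * η i)) =
      TZ e b q (zF (Algebra.ofId k M) u h r η) := by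
  apply TZ_zeq hD hb q
  refine ⟨fun _ => 1, κ, fun _ => one_ne_zero, hκ, fun l => ?_, fun C => ?_⟩
  · rw [one_mul]
    rfl
  · rw [one_pow, div_one]
    change ∑ i ∈ Finset.range r, κ * η i * Algebra.ofId k M (h i C) =
      κ * ∑ i ∈ Finset.range r, η i * Algebra.ofId k M (h i C)
    rw [Finset.mul_sum]
    refine Finset.sum_congr rfl fun i _ => ?_
    rw [mul_assoc]

theorem TZ_le [IsAlgClosed k] [CharZero k] (hD : D.Good) (hb : Bl D.n e b) (q : CH D d →+ W) {M : Type} [Field M]
    [Algebra k M] (hM : FunF k d M) (u : Fin s → k) (h : ℕ → Fin p → k) {r : ℕ} (hr : r ≤ d) (η : ℕ → M) :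
    TZ e b q (zF (Algebra.ofId k M) u h r η) = 0 := by
  by_cases hall : ∀ i < r, η i = 0
  · refine TZ_not q fun hz => ?_
    obtain ⟨C, hC⟩ := hz.Y0
    apply hC
    change ∑ i ∈ Finset.range r, η i * Algebra.ofId k M (h i C) = 0
    refine Finset.sum_eq_zero fun i hi => ?_
    rw [hall i (Finset.mem_range.1 hi), zero_mul]
  · push Not at hall
    obtain ⟨i₀, hi₀, hne⟩ := hall
    rw [← Q4b_scale hD hb q u h η (η i₀)⁻¹ (inv_ne_zero hne) r]
    have hy : ¬ AlgebraicIndependent k (fun i : Fin d => (η i₀)⁻¹ * η i) := by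
      intro hx
      have h3 := hx.transcendental ⟨i₀, by omega⟩
      apply h3
      change IsAlgebraic k ((η i₀)⁻¹ * η i₀)
      rw [inv_mul_cancel₀ hne]
      exact isAlgebraic_one
    have hE := Q4b_trdeg _ hy
    refine TZ_small hD hb q hM _ _ hE (fun l => ?_) (fun C => ?_)
    · exact IntermediateField.algebraMap_mem _ (u l)
    · change ∑ i ∈ Finset.range r, (η i₀)⁻¹ * η i * Algebra.ofId k M (h i C) ∈ _
      refine sum_mem fun i hi => mul_mem ?_ (IntermediateField.algebraMap_mem _ (h i C))
      rw [Finset.mem_range] at hi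
      exact IntermediateField.subset_adjoin k _ ⟨⟨i, by omega⟩, rfl⟩

end Pool.Agent.LibDV76
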