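import Pool.Agent.LibDV76.P10
import Pool.Agent.LibDV76.Defs3
import Pool.Agent.LibHL77.A3

/-!
[DV Q4a] The class of the generic point of a linear space, with the exact multiplicity. As `base` (P10b.lean): `w₀` = class of the generic `z₀` over `M₀ = k(X_1, ..., X_d)`. If the ratios of `η` have trdeg `< d` then `finrank (rf k d η) M = 0` (else `M` is algebraic over `rf`)
and `TZ = 0` (`TZ_small` after scaling, as in P10b). Else `η 0 ≠ 0`, `ι : M₀ → M` with `ι(M₀) = rf k d η`, `TZ = finrank • w₀`.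
`TZ_le`: at most `d` vectors: scale one nonzero `η_i` to `1`; the coordinates are in a field of trdeg `< d`: `TZ_small`.
-/

open scoped Classical
open Polynomial

namespace Pool.Agent.LibDV76

open Pool.Agent.LibBH2
open Pool.Agent.LibCHd (VR RF Red FunF)

variable {k : Type} [Field k] {s m c p d : ℕ} {D : Dat k s m c} {e : Fin m → ℕ} {b : Fin m → Fin p}
  {W : Type} [AddCommGroup W] [Module k W]

private theorem Q4a_trdeg {M : Type} [Field M] [Algebra k M] {d : ℕ} (y : Fin d → M)
    (hy : ¬ AlgebraicIndependent k y) :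
    Algebra.trdeg k (IntermediateField.adjoin k (Set.range y)) < d := by
  by_contra hcon
  rw [not_lt] at hcon
  apply hy
  obtain ⟨E, hE⟩ : ∃ E : IntermediateField k M, E = IntermediateField.adjoin k (Set.range y) := ⟨_, rfl⟩
  rw [← hE] at hcon
  have hmem : ∀ l, y l ∈ E := fun l => by
    rw [hE]
    exact IntermediateField.subset_adjoin k _ ⟨l, rfl⟩
  let y' : Fin d → E := fun l => ⟨y l, hmem l⟩
  have htop : IntermediateField.adjoin k (Set.range y') = ⊤ := by
    rw [eq_top_iff]
    intro z _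
    have h1 : E ≤ (IntermediateField.adjoin k (Set.range y')).map E.val := by
      conv_lhs => rw [hE]
      rw [IntermediateField.adjoin_le_iff]
      rintro _ ⟨l, rfl⟩
      exact ⟨y' l, IntermediateField.subset_adjoin k _ ⟨l, rfl⟩, rfl⟩
    obtain ⟨w, hw, hwz⟩ := h1 z.2
    have h2 : w = z := Subtype.ext hwz
    rw [← h2]
    exact hw
  have halg : Algebra.IsAlgebraic (Algebra.adjoin k (Set.range y')) E := by
    apply IntermediateField.isAlgebraic_adjoin_iff_top.1
    refine ⟨fun x => ?_⟩
    have hx : x ∈ IntermediateField.adjoin k (Set.range y') := by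
      rw [htop]
      exact IntermediateField.mem_top
    exact isAlgebraic_algebraMap (⟨x, hx⟩ : IntermediateField.adjoin k (Set.range y'))
  have h3 : IsTranscendenceBasis k y' :=
    Algebra.IsAlgebraic.isTranscendenceBasis_of_le_trdeg_of_finite k y' (by rwa [Cardinal.mk_fin])
  have h4 := h3.1.map' (f := E.val) E.val.injective
  exact h4

private theorem Q4a_scale [IsAlgClosed k] [CharZero k] (hD : D.Good) (hb : Bl D.n e b) (q : CH D d →+ W)
    (u : Fin s → k) (h : ℕ → Fin p → k) {M : Type} [Field M] [Algebra k M] (η : ℕ → M) (κ : M) (hκ : κ ≠ 0)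
    (r : ℕ) : TZ e b q (zF (Algebra.ofId k M) u h r (fun i => κ * η i)) =
      TZ e b q (zF (Algebra.ofId k M) u h r η) := by
  apply TZ_zeq hD hb q
  refine ⟨fun _ => 1, κ, fun _ => one_ne_zero, hκ, fun l => ?_, fun C => ?_⟩
  · rw [one_mul]
    rfl
  · rw [one_pow, div_one]
    change ∑ i ∈ Finset.range r, κ * η i * Algebra.ofId k M (h i C) =
      κ * ∑ i ∈ Finset.range r, η i * Algebra.ofId k M (h i C)
    rw [Finset.mul_sum]
    refine Finset.sum_congr rfl fun i _ => ?_
    rw [mul_assoc]

private theorem Q4a_small [IsAlgClosed k] [CharZero k] (hD : D.Good) (hb : Bl D.n e b) (q : CH D d →+ W)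
    (u : Fin s → k) (h : ℕ → Fin p → k) {M : Type} [Field M] [Algebra k M] (hM : FunF k d M) (η : ℕ → M)
    (κ : M) (hκ : κ ≠ 0) (h0 : κ * η 0 = 0 ∨ κ * η 0 = 1)
    (hx : ¬ AlgebraicIndependent k (fun i : Fin d => κ * η (i + 1))) :
    TZ e b q (zF (Algebra.ofId k M) u h (d + 1) η) = 0 := by
  rw [← Q4a_scale hD hb q u h η κ hκ]
  have hE := Q4a_trdeg _ hx
  obtain ⟨E, hE'⟩ : ∃ E : IntermediateField k M, E = IntermediateField.adjoin k
    (Set.range (fun i : Fin d => κ * η (i + 1))) := ⟨_, rfl⟩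
  rw [← hE'] at hE
  refine TZ_small hD hb q hM _ E hE (fun l => ?_) (fun C => ?_)
  · exact E.algebraMap_mem (u l)
  · change ∑ i ∈ Finset.range (d + 1), κ * η i * Algebra.ofId k M (h i C) ∈ E
    refine sum_mem fun i hi => mul_mem ?_ (E.algebraMap_mem (h i C))
    rw [Finset.mem_range] at hi
    rcases i with _ | i
    · rcases h0 with h0 | h0
      · rw [h0]
        exact zero_mem E
      · rw [h0]
        exact one_mem E
    · rw [hE']
      exact IntermediateField.subset_adjoin k _ ⟨⟨i, by omega⟩, rfl⟩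

private theorem Q4a_fin {M M₀ : Type} [Field M] [Algebra k M] [Field M₀] [Algebra k M₀] (hM : FunF k d M)
    (ι : M₀ →ₐ[k] M) (x : Fin d → M) (hx : AlgebraicIndependent k x) (hι : ∀ l, x l ∈ ι.fieldRange) :
    Module.finrank ι.fieldRange M ≠ 0 := by
  have h1 : IsTranscendenceBasis k x :=
    hx.isTranscendenceBasis_of_trdeg_le_of_finite (by rw [hM.trdeg, Cardinal.mk_fin])
  have h2 : Algebra.IsAlgebraic (IntermediateField.adjoin k (Set.range x)) M := h1.isAlgebraic_field
  have h3 : IntermediateField.adjoin k (Set.range x) ≤ ι.fieldRange := by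
    rw [IntermediateField.adjoin_le_iff]
    rintro _ ⟨l, rfl⟩
    exact hι l
  have h4 : Algebra.IsAlgebraic ι.fieldRange M := by
    refine ⟨fun z => ?_⟩
    obtain ⟨P, hP, hz⟩ := h2.isAlgebraic z
    refine ⟨P.map (IntermediateField.inclusion h3).toRingHom, ?_, ?_⟩
    · rwa [Ne, Polynomial.map_eq_zero_iff (RingHom.injective _)]
    · rw [Polynomial.aeval_def, Polynomial.eval₂_map]
      exact hz
  obtain ⟨S, hS⟩ := Pool.Agent.LibHL77.a3_fg hM
  have h5 : FiniteDimensional ι.fieldRange M := by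
    refine Pool.Agent.LibHL77.a3_fin h4 S fun L hL => ?_
    have h6 := hS (L.restrictScalars k) hL
    rw [eq_top_iff]
    intro z _
    have h7 : z ∈ L.restrictScalars k := by
      rw [h6]
      exact IntermediateField.mem_top
    exact h7
  exact (Module.finrank_pos (R := ι.fieldRange) (M := M)).ne'

private theorem Q4a_zero {M : Type} [Field M] [Algebra k M] (hM : FunF k d M) (η : ℕ → M) (κ : M) (hκ : κ ≠ 0)
    (h0 : κ * η 0 = 0 ∨ κ * η 0 = 1) (hx : ¬ AlgebraicIndependent k (fun i : Fin d => κ * η (i + 1))) :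
    Module.finrank (rf k d η) M = 0 := by
  by_contra hcon
  have hE := Q4a_trdeg _ hx
  obtain ⟨E, hE'⟩ : ∃ E : IntermediateField k M, E = IntermediateField.adjoin k
    (Set.range (fun i : Fin d => κ * η (i + 1))) := ⟨_, rfl⟩
  rw [← hE'] at hE
  have hmem : ∀ i ≤ d, κ * η i ∈ E := by
    intro i hi
    rcases i with _ | i
    · rcases h0 with h0 | h0
      · rw [h0]
        exact zero_mem E
      · rw [h0]
        exact one_mem E
    · rw [hE']
      exact IntermediateField.subset_adjoin k _ ⟨⟨i, by omega⟩, rfl⟩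
  have hle : rf k d η ≤ E := by
    unfold rf
    rw [IntermediateField.adjoin_le_iff]
    rintro _ ⟨i, j, hi, hj, rfl⟩
    have h1 : η i / η j = (κ * η i) / (κ * η j) := (mul_div_mul_left _ _ hκ).symm
    rw [h1]
    exact div_mem (hmem i hi) (hmem j hj)
  have hfd : FiniteDimensional (rf k d η) M := Module.finite_of_finrank_pos (Nat.pos_of_ne_zero hcon)
  have halg : Algebra.IsAlgebraic (rf k d η) M := inferInstance
  have h4 : Algebra.IsAlgebraic E M := by
    refine ⟨fun z => ?_⟩
    obtain ⟨P, hP, hz⟩ := halg.isAlgebraic z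
    refine ⟨P.map (IntermediateField.inclusion hle).toRingHom, ?_, ?_⟩
    · rwa [Ne, Polynomial.map_eq_zero_iff (RingHom.injective _)]
    · rw [Polynomial.aeval_def, Polynomial.eval₂_map]
      exact hz
  have h5 : Algebra.trdeg k E = Algebra.trdeg k M := by
    have h6 := _root_.trdeg_add_eq (R := k) (S := E) (A := M)
    rw [_root_.trdeg_eq_zero (R := E) (A := M), add_zero] at h6
    exact h6
  rw [h5, hM.trdeg] at hE
  exact lt_irrefl _ hE

private theorem Q4a_rf {M : Type} [Field M] [Algebra k M] (η : ℕ → M) (h0 : η 0 ≠ 0)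
    (ι : FractionRing (MvPolynomial (Fin d) k) →ₐ[k] M)
    (hι : ∀ l : Fin d, ι (algebraMap (MvPolynomial (Fin d) k) _ (MvPolynomial.X l)) = (η 0)⁻¹ * η (l + 1)) :
    ι.fieldRange = rf k d η := by
  apply le_antisymm
  · rintro _ ⟨z, rfl⟩
    obtain ⟨P, Q, hQ, rfl⟩ := IsFractionRing.div_surjective (A := MvPolynomial (Fin d) k) z
    have hP : ∀ P : MvPolynomial (Fin d) k, ι (algebraMap (MvPolynomial (Fin d) k) _ P) ∈ rf k d η := by
      intro P
      induction P using MvPolynomial.induction_on with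
      | C c =>
        have : ι (algebraMap (MvPolynomial (Fin d) k) _ (MvPolynomial.C c)) = algebraMap k M c := ι.commutes c
        rw [this]
        exact (rf k d η).algebraMap_mem c
      | add P Q hP hQ =>
        rw [map_add, map_add]
        exact add_mem hP hQ
      | mul_X P l hP =>
        rw [map_mul, map_mul, hι]
        refine mul_mem hP ?_
        rw [inv_mul_eq_div]
        exact IntermediateField.subset_adjoin k _ ⟨l + 1, 0, by omega, by omega, rfl⟩
    change ι _ ∈ rf k d η
    rw [map_div₀]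
    exact div_mem (hP P) (hP Q)
  · unfold rf
    rw [IntermediateField.adjoin_le_iff]
    have hmem : ∀ i ≤ d, (η 0)⁻¹ * η i ∈ ι.fieldRange := by
      intro i hi
      rcases i with _ | i
      · rw [inv_mul_cancel₀ h0]
        exact one_mem _
      · exact ⟨_, hι ⟨i, by omega⟩⟩
    rintro _ ⟨i, j, hi, hj, rfl⟩
    have h1 : η i / η j = ((η 0)⁻¹ * η i) / ((η 0)⁻¹ * η j) := (mul_div_mul_left _ _ (inv_ne_zero h0)).symm
    rw [h1]
    exact div_mem (hmem i hi) (hmem j hj)

theorem base' [IsAlgClosed k] [CharZero k] (hD : D.Good) (hb : Bl D.n e b) (q : CH D d →+ W) (u : Fin s → k)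
    (h : ℕ → Fin p → k) : ∃ w₀ : W, ∀ (M : Type) (_ : Field M) (_ : Algebra k M) (η : ℕ → M), FunF k d M →
      (∃ j ≤ d, η j ≠ 0) →
      TZ e b q (zF (Algebra.ofId k M) u h (d + 1) η) = Module.finrank (rf k d η) M • w₀ := by
  let M₀ : Type := FractionRing (MvPolynomial (Fin d) k)
  let X₀ : Fin d → M₀ := fun l => algebraMap (MvPolynomial (Fin d) k) M₀ (MvPolynomial.X l)
  let η₀ : ℕ → M₀ := fun i => if i = 0 then 1 else if hi : i - 1 < d then X₀ ⟨i - 1, hi⟩ else 0
  refine ⟨TZ e b q (zF (Algebra.ofId k M₀) u h (d + 1) η₀), ?_⟩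
  intro M _ _ η hM hj
  obtain ⟨i₀, hi₀, hne⟩ := hj
  by_cases h0 : η 0 = 0
  · have hx : ¬ AlgebraicIndependent k (fun i : Fin d => (η i₀)⁻¹ * η (i + 1)) := by
      intro hx
      rcases i₀ with _ | i₁
      · exact hne h0
      · have h3 := hx.transcendental ⟨i₁, by omega⟩
        apply h3
        change IsAlgebraic k ((η (i₁ + 1))⁻¹ * η (i₁ + 1))
        rw [inv_mul_cancel₀ hne]
        exact isAlgebraic_one
    have hk0 : (η i₀)⁻¹ * η 0 = 0 ∨ (η i₀)⁻¹ * η 0 = 1 := Or.inl (by rw [h0, mul_zero])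
    rw [Q4a_small hD hb q u h hM η (η i₀)⁻¹ (inv_ne_zero hne) hk0 hx,
      Q4a_zero hM η (η i₀)⁻¹ (inv_ne_zero hne) hk0 hx, zero_smul]
  · by_cases hx : AlgebraicIndependent k (fun i : Fin d => (η 0)⁻¹ * η (i + 1))
    · have hg : Function.Injective (MvPolynomial.aeval (R := k) (fun i : Fin d => (η 0)⁻¹ * η (i + 1)) :
          MvPolynomial (Fin d) k →ₐ[k] M) := hx
      let ι : M₀ →ₐ[k] M := IsFractionRing.liftAlgHom hg
      have hιX : ∀ l, ι (X₀ l) = (η 0)⁻¹ * η (l + 1) := by
        intro l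
        change IsFractionRing.lift hg (algebraMap (MvPolynomial (Fin d) k) M₀ (MvPolynomial.X l)) = _
        rw [IsFractionRing.lift_algebraMap]
        change MvPolynomial.aeval _ (MvPolynomial.X l) = _
        rw [MvPolynomial.aeval_X]
      have hfin : Module.finrank ι.fieldRange M ≠ 0 :=
        Q4a_fin hM ι _ hx fun l => ⟨X₀ l, hιX l⟩
      have h4 : (zF (Algebra.ofId k M₀) u h (d + 1) η₀).map ι =
          zF (Algebra.ofId k M) u h (d + 1) (fun i => (η 0)⁻¹ * η i) := by
        unfold Zp.map zF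
        congr 1
        · funext l
          exact ι.commutes (u l)
        · funext C
          change ι (∑ i ∈ Finset.range (d + 1), η₀ i * Algebra.ofId k M₀ (h i C)) =
            ∑ i ∈ Finset.range (d + 1), (η 0)⁻¹ * η i * Algebra.ofId k M (h i C)
          rw [map_sum]
          refine Finset.sum_congr rfl fun i hi => ?_
          rw [map_mul]
          have h5 : ι (Algebra.ofId k M₀ (h i C)) = Algebra.ofId k M (h i C) := ι.commutes (h i C)
          rw [h5]
          congr 1
          rw [Finset.mem_range] at hi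
          rcases i with _ | i
          · change ι (if (0 : ℕ) = 0 then 1 else _) = _
            rw [if_pos rfl, map_one, inv_mul_cancel₀ h0]
          · have h6 : η₀ (i + 1) = X₀ ⟨i, by omega⟩ := by
              change (if i + 1 = 0 then (1 : M₀) else if hi : i + 1 - 1 < d then X₀ ⟨i + 1 - 1, hi⟩ else 0) = _
              rw [if_neg (Nat.succ_ne_zero i), dif_pos (by omega : i + 1 - 1 < d)]
              rfl
            rw [h6, hιX]
      have h7 := TZ_map hD hb q (zF (Algebra.ofId k M₀) u h (d + 1) η₀) ι hfin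
      rw [h4, Q4a_scale hD hb q u h η _ (inv_ne_zero h0)] at h7
      rw [h7, Q4a_rf η h0 ι hιX]
    · rw [Q4a_small hD hb q u h hM η (η 0)⁻¹ (inv_ne_zero h0) (Or.inr (inv_mul_cancel₀ h0)) hx,
        Q4a_zero hM η (η 0)⁻¹ (inv_ne_zero h0) (Or.inr (inv_mul_cancel₀ h0)) hx, zero_smul]

/-- there is a function field with a generic point -/
theorem exists_gen (k : Type) [Field k] (d : ℕ) : ∃ (M : Type) (_ : Field M) (_ : Algebra k M) (η : ℕ → M),
    FunF k d M ∧ η 0 = 1 ∧ Module.finrank (rf k d η) M = 1 := by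
  let M₀ : Type := FractionRing (MvPolynomial (Fin d) k)
  let X₀ : Fin d → M₀ := fun l => algebraMap (MvPolynomial (Fin d) k) M₀ (MvPolynomial.X l)
  let η₀ : ℕ → M₀ := fun i => if i = 0 then 1 else if hi : i - 1 < d then X₀ ⟨i - 1, hi⟩ else 0
  have h00 : η₀ 0 = 1 := if_pos rfl
  have h01 : ∀ l : Fin d, η₀ (l + 1) = X₀ l := by
    intro l
    change (if (l : ℕ) + 1 = 0 then (1 : M₀) else if hi : (l : ℕ) + 1 - 1 < d then X₀ ⟨l + 1 - 1, hi⟩ else 0) = _
    have hl : (l : ℕ) + 1 - 1 < d := by
      have := l.2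
      omega
    rw [if_neg (Nat.succ_ne_zero _), dif_pos hl]
    rfl
  have hrf : rf k d η₀ = ⊤ := by
    have h2 := Q4a_rf (k := k) (d := d) η₀ (by rw [h00]; exact one_ne_zero) (AlgHom.id k M₀) (fun l => by
      rw [h01, h00, inv_one, one_mul]
      rfl)
    rw [← h2]
    rw [eq_top_iff]
    intro z _
    exact ⟨z, rfl⟩
  refine ⟨M₀, inferInstance, inferInstance, η₀, ⟨X₀, ?_, ?_⟩, h00, ?_⟩
  · have h3 := MvPolynomial.algebraicIndependent_X (Fin d) k
    exact h3.map' (f := IsScalarTower.toAlgHom k (MvPolynomial (Fin d) k) M₀) (IsFractionRing.injective _ _)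
  · have h4 : IntermediateField.adjoin k (Set.range X₀) = ⊤ := by
      rw [eq_top_iff, ← hrf]
      unfold rf
      rw [IntermediateField.adjoin_le_iff]
      have hmem : ∀ i ≤ d, η₀ i ∈ IntermediateField.adjoin k (Set.range X₀) := by
        intro i hi
        rcases i with _ | i
        · rw [h00]
          exact one_mem _
        · have := h01 ⟨i, by omega⟩
          change η₀ (i + 1) = _ at this
          rw [this]
          exact IntermediateField.subset_adjoin k _ ⟨_, rfl⟩
      rintro _ ⟨i, j, hi, hj, rfl⟩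
      exact div_mem (hmem i hi) (hmem j hj)
    rw [h4]
    exact Module.Finite.of_surjective (Algebra.linearMap (⊤ : IntermediateField k M₀) M₀)
      (fun z => ⟨⟨z, IntermediateField.mem_top⟩, rfl⟩)
  · rw [hrf]
    exact IntermediateField.finrank_top

end Pool.Agent.LibDV76
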