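import Pool.Agent.LibDV76.Q1
import Pool.Agent.LibDV76.Q4
import Pool.Agent.LibDV76.P8

/-!
[DV Q5a] The class `LS u`. Two families `h`, `h'` with `KB D b u _ (d + 1)` have the same `w` (of `base'`): take the generic `η` (`exists_gen`) for `h'`: extend `h` to a basis `h''` of the kernel (`exists_kb`), `(u, ∑ η_i h'_i) = zF ofId u h'' r η₁` (relation from `KB.ker`, `ev_map`), `proj'` with `F = k`, `L = ⊥`, `f = 0` (`Low .. 0`
is empty) down to `d + 1`: `w' = 1 • w' = TZ (zF ofId u h (d+1) η₂) = N • w` (`N = 0` if `η₂` is zero: then `TZ = 0` by `TZ_not`). By symmetry `w = N' • w'`, `w = N' N w`, so `w = 0` or `N = N' = 1` (characteristic 0). `LS_spec` then is `choose_spec`.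
`LS_zeq`: `u' = τ u` on blocks: `h ↦ h / τ ^ n` has `KB` for `u'` and `zF` of both are `ZEq`. `LS_const`: `exists_kb` for `h` (`r₀ = d+1`) or from the empty family: `z = (u, Y)`; if `InS` then `proj'` down to `d+1` and `base'`; else the kernel basis has `r ≤ d` elements: `TZ_le`.
-/

open scoped Classical
open Polynomial

namespace Pool.Agent.LibDV76

open Pool.Agent.LibBH2
open Pool.Agent.LibCHd (VR RF Red FunF)

variable {k : Type} [Field k] {s m c p d : ℕ} {D : Dat k s m c} {e : Fin m → ℕ} {b : Fin m → Fin p}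
  {W : Type} [AddCommGroup W] [Module k W]

private theorem Q5a_low (e : Fin m → ℕ) (b : Fin m → Fin p) (q : CH D d →+ W) :
    Low e b q (⊥ : AddSubgroup W) 0 := by
  intro M _ _ z _ _ h
  exact absurd h (not_lt.2 (by simp))

private theorem Q5a_trdeg (k : Type) [Field k] : Algebra.trdeg k k ≤ ((0 : ℕ) : Cardinal) := by
  rw [trdeg_eq_zero]
  simp

private theorem Q5a_zero (q : CH D d →+ W) {M : Type} [Field M] [Algebra k M] (u : Fin s → k)
    (h : ℕ → Fin p → k) (r : ℕ) (η : ℕ → M) (hη : ∀ i < r, η i = 0) :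
    TZ e b q (zF (Algebra.ofId k M) u h r η) = 0 := by
  refine TZ_not q fun hz => ?_
  obtain ⟨C, hC⟩ := hz.Y0
  apply hC
  change ∑ i ∈ Finset.range r, η i * Algebra.ofId k M (h i C) = 0
  refine Finset.sum_eq_zero fun i hi => ?_
  rw [hη i (Finset.mem_range.1 hi), zero_mul]

/-- the relation for the vectors in the kernel -/
private theorem Q5a_rel {M : Type} [Field M] [Algebra k M] {u : Fin s → k} {h : ℕ → Fin p → k} {r : ℕ}
    (hh : KB D b u h r) (η : ℕ → M) (t : Fin c) :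
    ∑ a, ev D (fun l => Algebra.ofId k M (u l)) t a *
      (zF (Algebra.ofId k M) u h r η).Y (b a) = 0 := by
  have h1 : ∀ a, ev D (fun l => Algebra.ofId k M (u l)) t a *
      (zF (Algebra.ofId k M) u h r η).Y (b a) =
      ∑ i ∈ Finset.range r, η i * Algebra.ofId k M (ev D u t a * h i (b a)) := by
    intro a
    rw [ev_map]
    change Algebra.ofId k M (ev D u t a) * ∑ i ∈ Finset.range r, η i * Algebra.ofId k M (h i (b a)) = _
    rw [Finset.mul_sum]
    refine Finset.sum_congr rfl fun i _ => ?_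
    rw [map_mul]
    ring
  rw [Finset.sum_congr rfl fun a _ => h1 a, Finset.sum_comm]
  refine Finset.sum_eq_zero fun i hi => ?_
  rw [← Finset.mul_sum, ← map_sum, hh.ker i (Finset.mem_range.1 hi) t, map_zero, mul_zero]

/-- the classes for two families -/
private theorem Q5a_two [IsAlgClosed k] [CharZero k] (hD : D.Good) (hb : Bl D.n e b) (q : CH D d →+ W)
    {u : Fin s → k} {h h' : ℕ → Fin p → k} (hh : KB D b u h (d + 1)) (hh' : KB D b u h' (d + 1)) {w w' : W}
    (hw : ∀ (M : Type) (_ : Field M) (_ : Algebra k M) (η : ℕ → M), FunF k d M → (∃ j ≤ d, η j ≠ 0) →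
      TZ e b q (zF (Algebra.ofId k M) u h (d + 1) η) = Module.finrank (rf k d η) M • w)
    (hw' : ∀ (M : Type) (_ : Field M) (_ : Algebra k M) (η : ℕ → M), FunF k d M → (∃ j ≤ d, η j ≠ 0) →
      TZ e b q (zF (Algebra.ofId k M) u h' (d + 1) η) = Module.finrank (rf k d η) M • w') :
    ∃ N : ℕ, w' = N • w := by
  obtain ⟨M, _, _, η, hM, hη0, hη1⟩ := exists_gen k d
  have h1 := hw' M _ _ η hM ⟨0, Nat.zero_le d, by rw [hη0]; exact one_ne_zero⟩
  rw [hη1, one_smul] at h1
  obtain ⟨r, h'', hr, -, hk, hz1, hz2⟩ := exists_kb u h hh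
  obtain ⟨η₁, hη₁⟩ := hz2 M _ _ (Algebra.ofId k M) (zF (Algebra.ofId k M) u h' (d + 1) η).Y
    (Q5a_rel hh' η)
  have h2 : (⟨fun l => Algebra.ofId k M (u l), (zF (Algebra.ofId k M) u h' (d + 1) η).Y⟩ : Zp s p M) =
      zF (Algebra.ofId k M) u h' (d + 1) η := rfl
  rw [h2] at hη₁
  obtain ⟨η₂, hη₂⟩ := proj' hD hb q (Q5a_low e b q) (Q5a_trdeg k) hM (Algebra.ofId k M) u h''
    (Nat.lt_succ_self d) hr hk η₁
  rw [AddSubgroup.mem_bot, sub_eq_zero, ← hη₁, h1, hz1] at hη₂
  by_cases hj : ∃ j ≤ d, η₂ j ≠ 0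
  · exact ⟨_, hη₂.trans (hw M _ _ η₂ hM hj)⟩
  · push Not at hj
    refine ⟨0, ?_⟩
    rw [hη₂, zero_smul]
    exact Q5a_zero q u h (d + 1) η₂ fun i hi => hj i (by omega)

private theorem Q5a_eq [CharZero k] {w w' : W} {N N' : ℕ} (h1 : w' = N • w) (h2 : w = N' • w') : w' = w := by
  by_cases hw : w = 0
  · rw [h1, hw, smul_zero]
  · have h3 : w = (N' * N) • w := by
      conv_lhs => rw [h2, h1, smul_smul]
    have h4 : ((N' * N : ℕ) : k) • w = (1 : k) • w := by
      rw [Nat.cast_smul_eq_nsmul, ← h3, one_smul]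
    have h5 : ((N' * N : ℕ) : k) - 1 = 0 := by
      have h6 : (((N' * N : ℕ) : k) - 1) • w = 0 := by rw [sub_smul, h4, sub_self]
      rcases smul_eq_zero.1 h6 with h7 | h7
      · exact h7
      · exact absurd h7 hw
    have h8 : N' * N = 1 := by
      have h9 : ((N' * N : ℕ) : k) = ((1 : ℕ) : k) := by rw [Nat.cast_one]; exact sub_eq_zero.1 h5
      exact_mod_cast h9
    rw [h1, Nat.eq_one_of_mul_eq_one_left h8, one_smul]

theorem LS_not (q : CH D d →+ W) {u : Fin s → k} (hu : ¬ InS D b (d + 1) u) : LS e b q u = 0 := by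
  unfold LS
  exact dif_neg fun h => hu h.1

theorem LS_spec [IsAlgClosed k] [CharZero k] (hD : D.Good) (hb : Bl D.n e b) (q : CH D d →+ W) {u : Fin s → k}
    (hu : Val D u) {h : ℕ → Fin p → k} (hh : KB D b u h (d + 1)) {M : Type} [Field M] [Algebra k M] (hM : FunF k d M)
    (η : ℕ → M) (hη : ∃ j ≤ d, η j ≠ 0) :
    TZ e b q (zF (Algebra.ofId k M) u h (d + 1) η) = Module.finrank (rf k d η) M • LS e b q u := by
  obtain ⟨w, hw⟩ := base' hD hb q u h
  have hex : InS D b (d + 1) u ∧ ∃ w : W, ∀ h : ℕ → Fin p → k, KB D b u h (d + 1) → ∀ (M : Type) (_ : Field M)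
      (_ : Algebra k M) (η : ℕ → M), FunF k d M → (∃ j ≤ d, η j ≠ 0) →
      TZ e b q (zF (Algebra.ofId k M) u h (d + 1) η) = Module.finrank (rf k d η) M • w := by
    refine ⟨⟨hu, h, hh⟩, w, fun h' hh' => ?_⟩
    obtain ⟨w', hw'⟩ := base' hD hb q u h'
    obtain ⟨N, h1⟩ := Q5a_two hD hb q hh hh' hw hw'
    obtain ⟨N', h2⟩ := Q5a_two hD hb q hh' hh hw' hw
    rw [← Q5a_eq (k := k) h1 h2]
    exact hw'
  have h1 : LS e b q u = hex.2.choose := by
    unfold LS
    exact dif_pos hex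
  rw [h1]
  exact hex.2.choose_spec h hh M _ _ η hM hη

end Pool.Agent.LibDV76
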