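import Pool.Agent.LibDV76.Q1
import Pool.Agent.LibDV76.Q4
import Pool.Agent.LibDV76.P8
import Pool.Agent.LibDV76.Q5a

/-!
[DV Q5b] The class `LS u`. Two families `h`, `h'` with `KB D b u _ (d + 1)` have the same `w` (of `base'`): take the generic `η` (`exists_gen`) for `h'`: extend `h` to a basis `h''` of the kernel (`exists_kb`), `(u, ∑ η_i h'_i) = zF ofId u h'' r η₁` (relation from `KB.ker`, `ev_map`), `proj'` with `F = k`, `L = ⊥`, `f = 0` (`Low .. 0`
is empty) down to `d + 1`: `w' = 1 • w' = TZ (zF ofId u h (d+1) η₂) = N • w` (`N = 0` if `η₂` is zero: then `TZ = 0` by `TZ_not`). By symmetry `w = N' • w'`, `w = N' N w`, so `w = 0` or `N = N' = 1` (characteristic 0). `LS_spec` then is `choose_spec`.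
`LS_zeq`: `u' = τ u` on blocks: `h ↦ h / τ ^ n` has `KB` for `u'` and `zF` of both are `ZEq`. `LS_const`: `exists_kb` for `h` (`r₀ = d+1`) or from the empty family: `z = (u, Y)`; if `InS` then `proj'` down to `d+1` and `base'`; else the kernel basis has `r ≤ d` elements: `TZ_le`.
-/

open scoped Classical
open Polynomial

namespace Pool.Agent.LibDV76

open Pool.Agent.LibBH2
open Pool.Agent.LibCHd (VR RF Red FunF)

variable {k : Type} [Field k] {s m c p d : ℕ} {D : Dat k s m c} {e : Fin m → ℕ} {b : Fin m → Fin p}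
  {W : Type} [AddCommGroup W] [Module k W]

private theorem Q5b_val {u : Fin s → k} (hu : Val D u) {τ : Fin p → k} (hτ : ∀ C, τ C ≠ 0) :
    Val D (fun l => τ (b (D.γ l)) * u l) := by
  intro a
  obtain ⟨l, hl, hl'⟩ := hu a
  exact ⟨l, hl, mul_ne_zero (hτ _) hl'⟩

private theorem Q5b_kb (hD : D.Good) {u : Fin s → k} {h : ℕ → Fin p → k} {r : ℕ} (hh : KB D b u h r)
    {τ : Fin p → k} (hτ : ∀ C, τ C ≠ 0) :
    KB D b (fun l => τ (b (D.γ l)) * u l) (fun i C => h i C / τ C ^ D.n) r := by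
  refine ⟨fun i hi t => ?_, fun x hx => ?_⟩
  · rw [← hh.ker i hi t]
    refine Finset.sum_congr rfl fun a _ => ?_
    rw [ev_scale hD (fun a => τ (b a)) u t a]
    have := hτ (b a)
    field_simp
  · refine hh.ind x fun C => ?_
    have h1 := hx C
    have h2 : (∑ i ∈ Finset.range r, x i * h i C) / τ C ^ D.n = 0 := by
      rw [Finset.sum_div, ← h1]
      exact Finset.sum_congr rfl fun i _ => by rw [mul_div_assoc]
    rcases div_eq_zero_iff.1 h2 with h3 | h3
    · exact h3
    · exact absurd h3 (pow_ne_zero _ (hτ C))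

private theorem Q5b_inS (hD : D.Good) {u : Fin s → k} {r : ℕ} (hu : InS D b r u) {τ : Fin p → k}
    (hτ : ∀ C, τ C ≠ 0) : InS D b r (fun l => τ (b (D.γ l)) * u l) := by
  obtain ⟨hv, h, hh⟩ := hu
  exact ⟨Q5b_val hv hτ, _, Q5b_kb hD hh hτ⟩

theorem LS_zeq [IsAlgClosed k] [CharZero k] (hD : D.Good) (hb : Bl D.n e b) (q : CH D d →+ W) (u : Fin s → k)
    (τ : Fin p → k) (hτ : ∀ C, τ C ≠ 0) : LS e b q (fun l => τ (b (D.γ l)) * u l) = LS e b q u := by
  by_cases hu : InS D b (d + 1) u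
  · obtain ⟨hv, h, hh⟩ := hu
    obtain ⟨M, _, _, η, hM, h0, h1⟩ := exists_gen k d
    have hη : ∃ j ≤ d, η j ≠ 0 := ⟨0, Nat.zero_le _, by rw [h0]; exact one_ne_zero⟩
    have e1 := LS_spec hD hb q hv hh hM η hη
    have e2 := LS_spec hD hb q (Q5b_val (b := b) hv hτ) (Q5b_kb hD hh hτ) hM η hη
    rw [h1, one_smul] at e1 e2
    rw [← e1, ← e2]
    refine TZ_zeq hD hb q ⟨fun C => algebraMap k M (τ C), 1, fun C => ?_, one_ne_zero, fun l => ?_, fun C => ?_⟩
    · exact (map_ne_zero_iff _ (algebraMap k M).injective).2 (hτ C)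
    · change algebraMap k M _ = _ * algebraMap k M _
      rw [map_mul]
    · change ∑ i ∈ Finset.range (d + 1), η i * algebraMap k M (h i C / τ C ^ D.n) =
        1 * (∑ i ∈ Finset.range (d + 1), η i * algebraMap k M (h i C)) / algebraMap k M (τ C) ^ D.n
      rw [one_mul, Finset.sum_div]
      refine Finset.sum_congr rfl fun i _ => ?_
      rw [map_div₀, map_pow, mul_div_assoc]
  · rw [LS_not q hu, LS_not q fun hu' => hu ?_]
    have h2 := Q5b_inS hD hu' (τ := fun C => (τ C)⁻¹) fun C => inv_ne_zero (hτ C)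
    have h3 : (fun l => (fun C => (τ C)⁻¹) (b (D.γ l)) * (τ (b (D.γ l)) * u l)) = u := by
      funext l
      change (τ (b (D.γ l)))⁻¹ * (τ (b (D.γ l)) * u l) = u l
      rw [← mul_assoc, inv_mul_cancel₀ (hτ _), one_mul]
    rwa [h3] at h2

end Pool.Agent.LibDV76
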