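import Pool.Agent.LibDV76.Q1
import Pool.Agent.LibDV76.Q4
import Pool.Agent.LibDV76.P8
import Pool.Agent.LibDV76.Q5a

/-!
[DV Q5c] The class `LS u`. Two families `h`, `h'` with `KB D b u _ (d + 1)` have the same `w` (of `base'`): take the generic `η` (`exists_gen`) for `h'`: extend `h` to a basis `h''` of the kernel (`exists_kb`), `(u, ∑ η_i h'_i) = zF ofId u h'' r η₁` (relation from `KB.ker`, `ev_map`), `proj'` with `F = k`, `L = ⊥`, `f = 0` (`Low .. 0`
is empty) down to `d + 1`: `w' = 1 • w' = TZ (zF ofId u h (d+1) η₂) = N • w` (`N = 0` if `η₂` is zero: then `TZ = 0` by `TZ_not`). By symmetry `w = N' • w'`, `w = N' N w`, so `w = 0` or `N = N' = 1` (characteristic 0). `LS_spec` then is `choose_spec`.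
`LS_zeq`: `u' = τ u` on blocks: `h ↦ h / τ ^ n` has `KB` for `u'` and `zF` of both are `ZEq`. `LS_const`: `exists_kb` for `h` (`r₀ = d+1`) or from the empty family: `z = (u, Y)`; if `InS` then `proj'` down to `d+1` and `base'`; else the kernel basis has `r ≤ d` elements: `TZ_le`.
-/

open scoped Classical
open Polynomial

namespace Pool.Agent.LibDV76

open Pool.Agent.LibBH2
open Pool.Agent.LibCHd (VR RF Red FunF)

variable {k : Type} [Field k] {s m c p d : ℕ} {D : Dat k s m c} {e : Fin m → ℕ} {b : Fin m → Fin p}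
  {W : Type} [AddCommGroup W] [Module k W]

theorem LS_const [IsAlgClosed k] [CharZero k] (hD : D.Good) (hb : Bl D.n e b) (q : CH D d →+ W) {M : Type} [Field M]
    [Algebra k M] (hM : FunF k d M) (u : Fin s → k) (Y : Fin p → M) :
    TZ e b q ⟨fun l => algebraMap k M (u l), Y⟩ ∈ AddSubgroup.zmultiples (LS e b q u) := by
  by_cases hZ : IsZ D e b (⟨fun l => algebraMap k M (u l), Y⟩ : Zp s p M)
  swap
  · rw [TZ_not q hZ]
    exact AddSubgroup.zero_mem _
  have hVal : Val D u := by
    intro a
    obtain ⟨l, hl, hne⟩ := hZ.u0 a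
    refine ⟨l, hl, fun h0 => hne ?_⟩
    change algebraMap k M (u l) = 0
    rw [h0, map_zero]
  have hrel : ∀ t, ∑ a, ev D (fun l => (Algebra.ofId k M) (u l)) t a * Y (b a) = 0 := hZ.rel
  by_cases hS : InS D b (d + 1) u
  · obtain ⟨-, h, hh⟩ := hS
    obtain ⟨r, h', hr, -, hh', hz0, hall⟩ := exists_kb u h hh
    obtain ⟨η, hη⟩ := hall M _ _ (Algebra.ofId k M) Y hrel
    have hlow : Low e b q (⊥ : AddSubgroup W) 0 := by
      intro M' _ _ z _ _ hlt
      rw [Nat.cast_zero] at hlt
      exact absurd hlt (not_lt.2 zero_le)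
    have htr : Algebra.trdeg k k = ((0 : ℕ) : Cardinal) := by
      rw [Nat.cast_zero]
      exact trdeg_eq_zero
    obtain ⟨η', hη'⟩ := projf' hD hb q hlow htr hM (Algebra.ofId k M) u h' (r₀ := d + 1) (r := r)
      (by omega) hr hh' η
    have h1 : TZ e b q (⟨fun l => algebraMap k M (u l), Y⟩ : Zp s p M) =
        TZ e b q (zF (Algebra.ofId k M) u h (d + 1) η') := by
      rw [← hz0 M _ _ (Algebra.ofId k M) η', ← sub_eq_zero]
      have h2 := AddSubgroup.mem_bot.1 hη'
      rw [← hη] at h2
      exact h2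
    rw [h1]
    by_cases hne : ∃ j ≤ d, η' j ≠ 0
    · rw [LS_spec hD hb q hVal hh hM η' hne]
      exact AddSubgroup.nsmul_mem_zmultiples _ _
    · push Not at hne
      rw [TZ_not]
      · exact AddSubgroup.zero_mem _
      · intro hI
        obtain ⟨C, hC⟩ := hI.Y0
        have h3 : ∑ i ∈ Finset.range (d + 1), η' i * (Algebra.ofId k M) (h i C) = 0 :=
          Finset.sum_eq_zero fun i hi => by
            rw [hne i (Nat.lt_succ_iff.1 (Finset.mem_range.1 hi)), zero_mul]
        exact hC h3
  · obtain ⟨r, h', -, -, hh', -, hall⟩ := exists_kb (D := D) (b := b) u (fun _ _ => 0) (r₀ := 0)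
      ⟨fun i hi => absurd hi (Nat.not_lt_zero i), fun _ _ i hi => absurd hi (Nat.not_lt_zero i)⟩
    obtain ⟨η, hη⟩ := hall M _ _ (Algebra.ofId k M) Y hrel
    have hr : r ≤ d := by
      by_contra hcon
      have hlt : d + 1 ≤ r := not_le.1 hcon
      refine hS ⟨hVal, h', fun i hi => hh'.ker i (lt_of_lt_of_le hi hlt), fun x hx i hi => ?_⟩
      have h0 : ∀ C, ∑ i ∈ Finset.range r, (if i < d + 1 then x i else 0) * h' i C = 0 := by
        intro C
        have h2 : ∑ i ∈ Finset.range (d + 1), (if i < d + 1 then x i else 0) * h' i C =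
            ∑ i ∈ Finset.range r, (if i < d + 1 then x i else 0) * h' i C :=
          Finset.sum_subset (Finset.range_subset_range.2 hlt) fun j _ hj => by
            rw [if_neg (fun hj' => hj (Finset.mem_range.2 hj')), zero_mul]
        rw [← h2, ← hx C]
        exact Finset.sum_congr rfl fun j hj => by rw [if_pos (Finset.mem_range.1 hj)]
      have h1 := hh'.ind (fun i => if i < d + 1 then x i else 0) h0 i (lt_of_lt_of_le hi hlt)
      rwa [if_pos hi] at h1
    have h1 : TZ e b q (⟨fun l => algebraMap k M (u l), Y⟩ : Zp s p M) =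
        TZ e b q (zF (Algebra.ofId k M) u h' r η) := by
      rw [← hη]
      rfl
    rw [h1, TZ_le hD hb q hM u h' hr η]
    exact AddSubgroup.zero_mem _

end Pool.Agent.LibDV76
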