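import Pool.Agent.LibDV76.Q1
import Pool.Agent.LibDV76.Q2
import Pool.Agent.LibDV76.Q5
import Pool.Agent.LibDV76.P9

/-!
[DV Q7] The classes `LS u` generate. `L` = the span of all `LS u`. `Low e b q L f` for all `f`, by induction (as P9.lean): `z` with `trdeg (bf z) ≤ f`; `exists_norm`: `z` is equivalent to `(u, Y)`, `u` over `F = bf D b z`. If `trdeg F = 0` then `F = k` (`k` algebraically closed): `LS_const`. Else let `f' = trdeg F ≥ 1`
(`f' ≤ f`, `Low .. f'`): `lattice`, `exists_kb`, `projf'` with `r₀ = p - c ≥ d` (`d < r₀ + f'`), `rotL` (as in P9.lean). `span_mns`: if `mns e q x ≠ 0` then `x` is not zero on the groups with `¬ n ∣ e a` (`mns_grp`): `TZ_zpt`.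
-/

open scoped Classical
open Polynomial

namespace Pool.Agent.LibDV76

open Pool.Agent.LibBH2
open Pool.Agent.LibCHd (VR RF Red FunF)

variable {k : Type} [Field k] {s m c p d : ℕ} {D : Dat k s m c} {e : Fin m → ℕ} {b : Fin m → Fin p}
  {W : Type} [AddCommGroup W] [Module k W]

private theorem Q7_mono {e : Fin m → ℕ} {b : Fin m → Fin p} {q : CH D d →+ W} {L : AddSubgroup W} {f f' : ℕ}
    (hff : f' ≤ f) (h : Low e b q L f) : Low e b q L f' := by
  intro M _ _ z hM hz hlt
  refine h M _ _ z hM hz (lt_of_lt_of_le hlt ?_)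
  exact_mod_cast hff

private theorem Q7_step [IsAlgClosed k] [CharZero k] (hD : D.Good) (hb : Bl D.n e b) (q : CH D d →+ W)
    (hp : c + d ≤ p) (a₀ : Fin m) (ha₀ : ¬ D.n ∣ e a₀) (f : ℕ)
    (hlow : Low e b q (Submodule.span k (Set.range (LS e b q : (Fin s → k) → W))).toAddSubgroup f)
    {M : Type} [Field M] [Algebra k M] (hM : FunF k d M) (z : Zp s p M) (hz : IsZ D e b z)
    (hF : Algebra.trdeg k (bf D b z) = f) :
    TZ e b q z ∈ Submodule.span k (Set.range (LS e b q : (Fin s → k) → W)) := by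
  obtain ⟨u, Y, hu, hzeq⟩ := exists_norm hb.surj hz
  rw [← TZ_zeq hD hb q hzeq]
  have hz' := isZ_zeq hD hz hzeq
  rcases Nat.eq_zero_or_pos f with hf0 | hfpos
  · subst hf0
    rw [Nat.cast_zero, trdeg_eq_zero_iff] at hF
    have : Algebra.IsIntegral k (bf D b z) := Algebra.isAlgebraic_iff_isIntegral.1 hF
    have hsurj : Function.Surjective (algebraMap k (bf D b z)) :=
      (IsAlgClosed.algebraMap_bijective_of_isIntegral (k := k) (K := bf D b z)).2
    choose g hg using hsurj
    have h1 : (⟨fun l => (u l : M), Y⟩ : Zp s p M) =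
        ⟨fun l => algebraMap k M (g (u l)), Y⟩ := by
      congr 1
      funext l
      have h2 := congrArg (fun x : bf D b z => (x : M)) (hg (u l))
      exact h2.symm
    rw [h1]
    have h3 := LS_const hD hb q hM (fun l => g (u l)) Y
    obtain ⟨N, hN⟩ := AddSubgroup.mem_zmultiples_iff.1 h3
    rw [← hN]
    exact zsmul_mem (Submodule.subset_span (Set.mem_range_self _)) N
  · obtain ⟨R, hR1, hR2⟩ := lattice (p := p) (c := c) (F := bf D b z)
      (fun t C' => ∑ a ∈ Finset.univ.filter (fun a => b a = C'),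
        C (ev D u t a) * (if a = a₀ then X else 1))
    have hR : ∀ i < p - c, ∀ t, ∑ a, C (ev D u t a) * (if a = a₀ then X else 1) * R i (b a) = 0 := by
      intro i hi t
      rw [← hR1 i hi t, ← Finset.sum_fiberwise Finset.univ b]
      refine Finset.sum_congr rfl fun C' _ => ?_
      rw [Finset.sum_mul]
      refine Finset.sum_congr rfl fun a ha => ?_
      rw [(Finset.mem_filter.1 ha).2]
    have hKB : KB D b u (fun i C => (R i C).eval 1) (p - c) := by
      refine ⟨?_, hR2⟩
      intro i hi t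
      have h1 := congrArg (Polynomial.eval 1) (hR i hi t)
      rw [Polynomial.eval_finsetSum, Polynomial.eval_zero] at h1
      rw [← h1]
      refine Finset.sum_congr rfl fun a _ => ?_
      rw [Polynomial.eval_mul, Polynomial.eval_mul, Polynomial.eval_C]
      split_ifs <;> simp
    obtain ⟨r, h', hr0, -, hKB', hz1, hz2⟩ := exists_kb u (fun i C => (R i C).eval 1) hKB
    obtain ⟨η, hη⟩ := hz2 M _ _ (bf D b z).val Y (fun t => hz'.rel t)
    obtain ⟨η', hη'⟩ := projf' hD hb q hlow hF hM (bf D b z).val u h' (r₀ := p - c) (by omega) hr0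
      hKB' η
    have h2 : (⟨fun l => (u l : M), Y⟩ : Zp s p M) = zF (bf D b z).val u h' r η := hη
    rw [h2]
    have h3 := rotL hD hb q _ hlow (le_of_eq hF) hM (bf D b z).val u a₀ ha₀ R (p - c) hR hR2 η'
    rw [hz1 M _ _ (bf D b z).val η', Submodule.mem_toAddSubgroup] at hη'
    have h4 := Submodule.add_mem _ hη' h3
    rwa [sub_add_cancel] at h4

private theorem Q7_low [IsAlgClosed k] [CharZero k] (hD : D.Good) (hb : Bl D.n e b) (q : CH D d →+ W)
    (hp : c + d ≤ p) (a₀ : Fin m) (ha₀ : ¬ D.n ∣ e a₀) (f : ℕ) :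
    Low e b q (Submodule.span k (Set.range (LS e b q : (Fin s → k) → W))).toAddSubgroup f := by
  induction f with
  | zero =>
    intro M _ _ z _ _ h
    rw [Nat.cast_zero] at h
    exact absurd h (not_lt.2 zero_le)
  | succ f ih =>
    intro M _ _ z hM hz h
    rw [Submodule.mem_toAddSubgroup]
    obtain ⟨f', hf'⟩ := Cardinal.lt_aleph0.1 (lt_trans h (Cardinal.natCast_lt_aleph0 (n := f + 1)))
    refine Q7_step hD hb q hp a₀ ha₀ f' (Q7_mono ?_ ih) hM z hz hf'
    rw [hf'] at h
    exact Nat.lt_succ_iff.1 (by exact_mod_cast h)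

theorem span_TZ [IsAlgClosed k] [CharZero k] (hD : D.Good) (hb : Bl D.n e b) (q : CH D d →+ W) (hp : c + d ≤ p)
    (a₀ : Fin m) (ha₀ : ¬ D.n ∣ e a₀) {M : Type} [Field M] [Algebra k M] (hM : FunF k d M) (z : Zp s p M) :
    TZ e b q z ∈ Submodule.span k (Set.range (LS e b q : (Fin s → k) → W)) := by
  by_cases hz : IsZ D e b z
  · have h1 := Q7_low hD hb q hp a₀ ha₀ (d + 1) M _ _ z hM hz (by
      have h2 : Algebra.trdeg k (bf D b z) ≤ Algebra.trdeg k M :=
        trdeg_le_of_injective (bf D b z).val (bf D b z).val.injective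
      rw [Pool.Agent.LibCHd.FunF.trdeg hM] at h2
      refine lt_of_le_of_lt h2 ?_
      exact_mod_cast Nat.lt_succ_self d)
    rwa [Submodule.mem_toAddSubgroup] at h1
  · rw [TZ_not q hz]
    exact Submodule.zero_mem _

theorem span_mns [IsAlgClosed k] [CharZero k] (hD : D.Good) (hb : Bl D.n e b) (q : CH D d →+ W) (hp : c + d ≤ p)
    (a₀ : Fin m) (ha₀ : ¬ D.n ∣ e a₀) {M : Type} [Field M] [Algebra k M] (hM : FunF k d M) {x : Fin s → M}
    (hx : On D x) : mns e q x ∈ Submodule.span k (Set.range (LS e b q : (Fin s → k) → W)) := by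
  by_cases h2 : ∀ a, ¬ D.n ∣ e a → ∃ l, D.γ l = a ∧ x l ≠ 0
  · rw [← TZ_zpt hD hb q hx h2]
    exact span_TZ hD hb q hp a₀ ha₀ hM _
  · push Not at h2
    obtain ⟨a, ha, hxa⟩ := h2
    rw [mns_grp hD ha q hxa]
    exact Submodule.zero_mem _

end Pool.Agent.LibDV76
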