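import Pool.Agent.LibDV76.Defs3
import Pool.Agent.LibCHd.B5
import Pool.Agent.LibCHd.FunFrac

/-!
[DV Q8a] Rational function fields in `r` variables. `N = FractionRing (MvPolynomial (Fin r) M)` (compare LibCW77/G1.lean: `rat1_exists`, `rat1_funF`). `FunF`: `t_1, ..., t_r` and the images of the `d` elements of `M`: algebraically independent (`AlgebraicIndependent.sumElim_comp`), `N` is finite over the field generated.
-/

open scoped Classical
open Polynomial

namespace Pool.Agent.LibDV76

open Pool.Agent.LibBH2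
open Pool.Agent.LibCHd (VR RF Red FunF)

variable {k : Type} [Field k]

theorem ratN_exists (M : Type) [Field M] [Algebra k M] (r : ℕ) :
    ∃ (N : Type) (_ : Field N) (_ : Algebra k N) (i : M →ₐ[k] N) (t : Fin r → N), RatN i t := by
  refine ⟨FractionRing (MvPolynomial (Fin r) M), inferInstance, inferInstance,
    (IsScalarTower.toAlgHom k (MvPolynomial (Fin r) M) (FractionRing (MvPolynomial (Fin r) M))).comp
      (IsScalarTower.toAlgHom k M (MvPolynomial (Fin r) M)),
    fun j => algebraMap (MvPolynomial (Fin r) M) (FractionRing (MvPolynomial (Fin r) M)) (MvPolynomial.X j), ?_⟩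
  have key : ∀ G : MvPolynomial (Fin r) M, G.eval₂
      (((IsScalarTower.toAlgHom k (MvPolynomial (Fin r) M) (FractionRing (MvPolynomial (Fin r) M))).comp
        (IsScalarTower.toAlgHom k M (MvPolynomial (Fin r) M)) : M →ₐ[k] FractionRing (MvPolynomial (Fin r) M)) :
          M →+* FractionRing (MvPolynomial (Fin r) M))
      (fun j => algebraMap (MvPolynomial (Fin r) M) (FractionRing (MvPolynomial (Fin r) M)) (MvPolynomial.X j)) =
      algebraMap (MvPolynomial (Fin r) M) (FractionRing (MvPolynomial (Fin r) M)) G := by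
    intro G
    have h1 := MvPolynomial.eval₂_comp_left
      (algebraMap (MvPolynomial (Fin r) M) (FractionRing (MvPolynomial (Fin r) M)))
      (MvPolynomial.C : M →+* MvPolynomial (Fin r) M) MvPolynomial.X G
    rw [MvPolynomial.eval₂_eta] at h1
    rw [h1]
    rfl
  refine ⟨?_, ?_⟩
  · intro G hG
    rw [key]
    exact fun h0 => hG ((IsFractionRing.to_map_eq_zero_iff
      (K := FractionRing (MvPolynomial (Fin r) M))).1 h0)
  · intro z
    obtain ⟨P, Q, hQ, hz⟩ := IsFractionRing.div_surjective (A := MvPolynomial (Fin r) M) z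
    refine ⟨P, Q, nonZeroDivisors.ne_zero hQ, ?_⟩
    rw [key, key]
    exact hz.symm

theorem ratN_funF {d r : ℕ} {M N : Type} [Field M] [Algebra k M] [Field N] [Algebra k N] {i : M →ₐ[k] N}
    {t : Fin r → N} (h : RatN i t) (hM : FunF k d M) : FunF k (r + d) N := by
  obtain ⟨s, hs, hfinM⟩ := hM
  let _ : Algebra M N := (i : M →+* N).toAlgebra
  have htow : IsScalarTower k M N := IsScalarTower.of_algebraMap_eq fun x => (i.commutes x).symm
  have hy : AlgebraicIndependent M t := by
    rw [algebraicIndependent_iff]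
    intro p hp
    by_contra hne
    exact h.tr p hne hp
  have hind := hs.sumElim_comp hy
  let e : Fin (r + d) ≃ Fin r ⊕ Fin d := finSumFinEquiv.symm
  refine ⟨Sum.elim t (algebraMap M N ∘ s) ∘ e, hind.comp e e.injective, ?_⟩
  rw [e.surjective.range_comp]
  set E := IntermediateField.adjoin k (Set.range (Sum.elim t (algebraMap M N ∘ s))) with hE
  have hE1 : ∀ j, t j ∈ E := fun j => IntermediateField.subset_adjoin _ _ ⟨Sum.inl j, rfl⟩
  have hE2 : ∀ j, i (s j) ∈ E := fun j => IntermediateField.subset_adjoin _ _ ⟨Sum.inr j, rfl⟩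
  obtain ⟨S₂, h2, h2'⟩ := Pool.Agent.LibCHd.funF_image i s hfinM E hE2
  have hmu : ∀ j, t j ∈ IntermediateField.adjoin E (S₂ : Set N) := fun j =>
    (IntermediateField.adjoin E (S₂ : Set N)).algebraMap_mem (⟨t j, hE1 j⟩ : E)
  have hev : ∀ P : MvPolynomial (Fin r) M, P.eval₂ (i : M →+* N) t ∈ IntermediateField.adjoin E (S₂ : Set N) := by
    intro P
    rw [MvPolynomial.eval₂_eq]
    exact sum_mem fun j _ => mul_mem (h2' _) (prod_mem fun l _ => pow_mem (hmu l) _)
  have htop : IntermediateField.adjoin E (S₂ : Set N) = ⊤ := by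
    rw [eq_top_iff]
    intro x _
    obtain ⟨P, Q, _, hx⟩ := h.gen x
    rw [hx]
    exact div_mem (hev P) (hev Q)
  have hfin : FiniteDimensional E (IntermediateField.adjoin E (S₂ : Set N)) :=
    IntermediateField.finiteDimensional_adjoin fun x hx => h2 x hx
  rw [htop] at hfin
  exact Module.Finite.equiv (IntermediateField.topEquiv (F := E) (E := N)).toLinearEquiv

end Pool.Agent.LibDV76
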