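import Pool.Agent.LibDV76.Defs3
import Pool.Agent.LibDV76.F0
import Pool.Agent.LibCHd.Api

/-!
[DV Q9a] The Gauss place. `w` a place of `M`, `N = M(t_1, ..., t_r)`: `v(P(t)) =` minimum of the orders of the coefficients. Template: `gauss_exists`, `gauss_char` in LibHL77 (two variables). Uniqueness: if `v'` induces a positive multiple of `w` on `M` and the `t_l` have residues which are algebraically independent over the residues of `M`
then `v'.ord P(t) = e * min` (normalise `P` to have a coefficient of order 0: its reduction is not 0, so the residue of the value is not 0), all orders are multiples of `e`, so `e = 1` and `v' = v`.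
-/

open scoped Classical
open Polynomial

namespace Pool.Agent.LibDV76

open Pool.Agent.LibBH2
open Pool.Agent.LibCHd (VR RF Red FunF)

variable {k : Type} [Field k] {M N : Type} [Field M] [Algebra k M] [Field N] [Algebra k N]

section Q9a

variable {r : ℕ}

/-- reduction of polynomials over the valuation ring -/
private noncomputable def Q9a_R (r : ℕ) (v : Place k M) :
    MvPolynomial (Fin r) (VR v) →+* MvPolynomial (Fin r) (RF v) :=
  MvPolynomial.map (IsLocalRing.residue (VR v))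

/-- value at `T` of a polynomial over the valuation ring -/
private noncomputable def Q9a_E (i : M →ₐ[k] N) (T : Fin r → N) (v : Place k M) :
    MvPolynomial (Fin r) (VR v) →+* N :=
  MvPolynomial.eval₂Hom ((i : M →+* N).comp (VR v).subtype) T

private theorem Q9a_E_map (i : M →ₐ[k] N) (T : Fin r → N) (v : Place k M)
    (P : MvPolynomial (Fin r) (VR v)) :
    Q9a_E i T v P = (P.map (VR v).subtype).eval₂ (i : M →+* N) T := by
  rw [MvPolynomial.eval₂_map]
  rfl

private theorem Q9a_E_C (i : M →ₐ[k] N) (T : Fin r → N) (v : Place k M) (c : VR v) :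
    Q9a_E i T v (MvPolynomial.C c) = i (c : M) := by
  rw [Q9a_E, MvPolynomial.coe_eval₂Hom, MvPolynomial.eval₂_C]
  rfl

private theorem Q9a_E_X (i : M →ₐ[k] N) (T : Fin r → N) (v : Place k M) (l : Fin r) :
    Q9a_E i T v (MvPolynomial.X l) = T l := by
  rw [Q9a_E, MvPolynomial.coe_eval₂Hom, MvPolynomial.eval₂_X]

private theorem Q9a_E_ne (i : M →ₐ[k] N) (T : Fin r → N)
    (htr : ∀ G : MvPolynomial (Fin r) M, G ≠ 0 → G.eval₂ (i : M →+* N) T ≠ 0) (v : Place k M)
    {P : MvPolynomial (Fin r) (VR v)} (hP : P ≠ 0) : Q9a_E i T v P ≠ 0 := by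
  rw [Q9a_E_map]
  refine htr _ fun h => hP ?_
  exact MvPolynomial.map_injective _ (VR v).subtype_injective (h.trans (map_zero _).symm)

private theorem Q9a_R_ne (v : Place k M) {P : MvPolynomial (Fin r) (VR v)}
    (hP : Q9a_R r v P ≠ 0) : P ≠ 0 := by
  rintro rfl
  exact hP (map_zero _)

private theorem Q9a_prim (v : Place k M) (P : MvPolynomial (Fin r) M) (hP : P ≠ 0) :
    ∃ b, P.coeff b ≠ 0 ∧ ∃ P₁ : MvPolynomial (Fin r) (VR v),
      P = MvPolynomial.C (P.coeff b) * P₁.map (VR v).subtype ∧ Q9a_R r v P₁ ≠ 0 := by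
  obtain ⟨b, hb, h⟩ := Finset.exists_min_image P.support (fun a => v.ord (P.coeff a))
    (MvPolynomial.support_nonempty.2 hP)
  have hb0 : P.coeff b ≠ 0 := MvPolynomial.mem_support_iff.1 hb
  have hreg : ∀ a, v.Reg ((MvPolynomial.C (P.coeff b)⁻¹ * P).coeff a) := by
    intro a
    rw [MvPolynomial.coeff_C_mul]
    by_cases ha : P.coeff a = 0
    · exact Or.inl (by rw [ha, mul_zero])
    · refine Or.inr ?_
      rw [v.ord_mul _ _ (inv_ne_zero hb0) ha, v.ord_inv]
      have := h a (MvPolynomial.mem_support_iff.2 ha)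
      omega
  obtain ⟨P₁, hP₁⟩ : ∃ P₁ : MvPolynomial (Fin r) (VR v),
      P₁.map (VR v).subtype = MvPolynomial.C (P.coeff b)⁻¹ * P := by
    refine ⟨∑ m ∈ (MvPolynomial.C (P.coeff b)⁻¹ * P).support,
      MvPolynomial.monomial m ⟨(MvPolynomial.C (P.coeff b)⁻¹ * P).coeff m, hreg m⟩, ?_⟩
    rw [map_sum]
    simp only [MvPolynomial.map_monomial]
    exact MvPolynomial.support_sum_monomial_coeff _
  refine ⟨b, hb0, P₁, ?_, fun h0 => ?_⟩
  · rw [hP₁, ← mul_assoc, ← MvPolynomial.C_mul, mul_inv_cancel₀ hb0, MvPolynomial.C_1, one_mul]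
  · have h3 : (P₁.map (VR v).subtype).coeff b = 1 := by
      rw [hP₁, MvPolynomial.coeff_C_mul, inv_mul_cancel₀ hb0]
    rw [MvPolynomial.coeff_map] at h3
    have h4 : P₁.coeff b = 1 := Subtype.ext h3
    have h5 : (Q9a_R r v P₁).coeff b = 1 := by
      rw [Q9a_R, MvPolynomial.coeff_map, h4, map_one]
    rw [h0, MvPolynomial.coeff_zero] at h5
    exact zero_ne_one h5

private theorem Q9a_uniq (v : Place k M) {c c' : M} (hc : c ≠ 0) (hc' : c' ≠ 0)
    {P P' : MvPolynomial (Fin r) (VR v)} (hP : Q9a_R r v P ≠ 0)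
    (h : MvPolynomial.C c * P.map (VR v).subtype = MvPolynomial.C c' * P'.map (VR v).subtype) :
    v.ord c' ≤ v.ord c := by
  by_contra hlt
  push Not at hlt
  have hz : v.Zer (c' / c) := Or.inr (by rw [v.ord_div _ _ hc' hc]; omega)
  have h1 : P = MvPolynomial.C (⟨c' / c, hz.reg⟩ : VR v) * P' := by
    refine MvPolynomial.map_injective _ (VR v).subtype_injective ?_
    rw [map_mul, MvPolynomial.map_C]
    have h2 : (MvPolynomial.C c : MvPolynomial (Fin r) M) ≠ 0 := by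
      rw [Ne, MvPolynomial.C_eq_zero]
      exact hc
    refine mul_left_cancel₀ h2 ?_
    rw [h, ← mul_assoc, ← MvPolynomial.C_mul]
    congr 2
    change c' = c * (c' / c)
    rw [mul_div_cancel₀ _ hc]
  have h3 : IsLocalRing.residue (VR v) ⟨c' / c, hz.reg⟩ = 0 :=
    (IsLocalRing.residue_eq_zero_iff _).2 ((Pool.Agent.LibCHd.mem_max_iff _).2 hz)
  refine hP ?_
  rw [h1, Q9a_R, map_mul, MvPolynomial.map_C, h3, MvPolynomial.C_0, zero_mul]

/-- representation of an element -/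
private def Q9a_Rp (i : M →ₐ[k] N) (T : Fin r → N) (v : Place k M) (z : N) (c : M)
    (P Q : MvPolynomial (Fin r) (VR v)) : Prop :=
  c ≠ 0 ∧ Q9a_R r v P ≠ 0 ∧ Q9a_R r v Q ≠ 0 ∧ z = i c * Q9a_E i T v P / Q9a_E i T v Q

/-- the order -/
private noncomputable def Q9a_O (i : M →ₐ[k] N) (T : Fin r → N) (v : Place k M) (z : N) : ℤ :=
  if h : ∃ c, ∃ P Q : MvPolynomial (Fin r) (VR v), Q9a_Rp i T v z c P Q then v.ord h.choose else 0

variable {i : M →ₐ[k] N} {T : Fin r → N}
  (htr : ∀ G : MvPolynomial (Fin r) M, G ≠ 0 → G.eval₂ (i : M →+* N) T ≠ 0)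
  (hgen : ∀ z : N, ∃ P Q : MvPolynomial (Fin r) M, Q ≠ 0 ∧
      z = P.eval₂ (i : M →+* N) T / Q.eval₂ (i : M →+* N) T) {v : Place k M}

include htr

private theorem Q9a_Rp_le {z : N} {c c' : M} {P Q P' Q' : MvPolynomial (Fin r) (VR v)}
    (h : Q9a_Rp i T v z c P Q) (h' : Q9a_Rp i T v z c' P' Q') : v.ord c' ≤ v.ord c := by
  obtain ⟨h1, h2, h3, h4⟩ := h
  obtain ⟨h1', h2', h3', h4'⟩ := h'
  have hQ := Q9a_E_ne i T htr v (Q9a_R_ne v h3)
  have hQ' := Q9a_E_ne i T htr v (Q9a_R_ne v h3')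
  have h5 : i c * Q9a_E i T v (P * Q') = i c' * Q9a_E i T v (P' * Q) := by
    rw [h4, div_eq_div_iff hQ hQ'] at h4'
    rw [map_mul, map_mul, ← mul_assoc, ← mul_assoc, h4']
  have h6 : MvPolynomial.C c * (P * Q').map (VR v).subtype =
      MvPolynomial.C c' * (P' * Q).map (VR v).subtype := by
    by_contra hne
    refine htr _ (sub_ne_zero.2 hne) ?_
    rw [MvPolynomial.eval₂_sub, MvPolynomial.eval₂_mul, MvPolynomial.eval₂_mul,
      MvPolynomial.eval₂_C, MvPolynomial.eval₂_C, ← Q9a_E_map, ← Q9a_E_map]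
    exact sub_eq_zero.2 h5
  refine Q9a_uniq v h1 h1' ?_ h6
  rw [map_mul]
  exact mul_ne_zero h2 h3'

private theorem Q9a_O_eq {z : N} {c : M} {P Q : MvPolynomial (Fin r) (VR v)}
    (h : Q9a_Rp i T v z c P Q) : Q9a_O i T v z = v.ord c := by
  have h1 : ∃ c, ∃ P Q : MvPolynomial (Fin r) (VR v), Q9a_Rp i T v z c P Q := ⟨c, P, Q, h⟩
  rw [Q9a_O, dif_pos h1]
  obtain ⟨P', Q', h'⟩ := h1.choose_spec
  exact le_antisymm (Q9a_Rp_le htr h h') (Q9a_Rp_le htr h' h)

private theorem Q9a_Rp_ne {z : N} {c : M} {P Q : MvPolynomial (Fin r) (VR v)}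
    (h : Q9a_Rp i T v z c P Q) : z ≠ 0 := by
  obtain ⟨h1, h2, h3, rfl⟩ := h
  exact div_ne_zero (mul_ne_zero ((map_ne_zero i).2 h1) (Q9a_E_ne i T htr v (Q9a_R_ne v h2)))
    (Q9a_E_ne i T htr v (Q9a_R_ne v h3))

omit htr in
private theorem Q9a_Rp_one (x : M) (hx : x ≠ 0) : Q9a_Rp i T v (i x) x 1 1 := by
  have h1 : Q9a_R r v 1 ≠ 0 := by
    rw [map_one]
    exact one_ne_zero
  exact ⟨hx, h1, h1, by rw [map_one, mul_one, div_one]⟩

include hgen

private theorem Q9a_Rp_exists {z : N} (hz : z ≠ 0) :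
    ∃ c, ∃ P Q : MvPolynomial (Fin r) (VR v), Q9a_Rp i T v z c P Q := by
  obtain ⟨P, Q, hQ, h⟩ := hgen z
  have hP : P ≠ 0 := by
    rintro rfl
    rw [MvPolynomial.eval₂_zero, zero_div] at h
    exact hz h
  obtain ⟨a, ha, P₁, hP1, hP2⟩ := Q9a_prim v P hP
  obtain ⟨b, hb, Q₁, hQ1, hQ2⟩ := Q9a_prim v Q hQ
  refine ⟨P.coeff a / Q.coeff b, P₁, Q₁, div_ne_zero ha hb, hP2, hQ2, ?_⟩
  have h1 : P.eval₂ (i : M →+* N) T = i (P.coeff a) * Q9a_E i T v P₁ := by
    conv_lhs => rw [hP1]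
    rw [MvPolynomial.eval₂_mul, MvPolynomial.eval₂_C, Q9a_E_map]
    rfl
  have h2 : Q.eval₂ (i : M →+* N) T = i (Q.coeff b) * Q9a_E i T v Q₁ := by
    conv_lhs => rw [hQ1]
    rw [MvPolynomial.eval₂_mul, MvPolynomial.eval₂_C, Q9a_E_map]
    rfl
  have h3 : i (Q.coeff b) ≠ 0 := (map_ne_zero i).2 hb
  have h4 := Q9a_E_ne i T htr v (Q9a_R_ne v hQ2)
  rw [h, h1, h2, map_div₀]
  field_simp

omit hgen

omit htr in
private theorem Q9a_Rp_mul {z z' : N} {c c' : M} {P Q P' Q' : MvPolynomial (Fin r) (VR v)}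
    (h : Q9a_Rp i T v z c P Q) (h' : Q9a_Rp i T v z' c' P' Q') :
    Q9a_Rp i T v (z * z') (c * c') (P * P') (Q * Q') := by
  obtain ⟨h1, h2, h3, rfl⟩ := h
  obtain ⟨h1', h2', h3', rfl⟩ := h'
  refine ⟨mul_ne_zero h1 h1', ?_, ?_, ?_⟩
  · rw [map_mul]
    exact mul_ne_zero h2 h2'
  · rw [map_mul]
    exact mul_ne_zero h3 h3'
  · rw [map_mul, map_mul, map_mul, div_mul_div_comm]
    congr 1
    ring

private theorem Q9a_Rp_add {z z' : N} {c c' : M} {P Q P' Q' : MvPolynomial (Fin r) (VR v)}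
    (h : Q9a_Rp i T v z c P Q) (h' : Q9a_Rp i T v z' c' P' Q') (hle : v.ord c ≤ v.ord c')
    (hne : z + z' ≠ 0) : v.ord c ≤ Q9a_O i T v (z + z') := by
  obtain ⟨h1, h2, h3, h4⟩ := h
  obtain ⟨h1', h2', h3', h4'⟩ := h'
  have hu : v.Reg (c' / c) := Or.inr (by rw [v.ord_div _ _ h1' h1]; omega)
  have hQ := Q9a_E_ne i T htr v (Q9a_R_ne v h3)
  have hQ' := Q9a_E_ne i T htr v (Q9a_R_ne v h3')
  have hic : i c ≠ 0 := (map_ne_zero i).2 h1
  let S : MvPolynomial (Fin r) (VR v) :=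
    P * Q' + MvPolynomial.C (⟨c' / c, hu⟩ : VR v) * (P' * Q)
  have hS : z + z' = i c * Q9a_E i T v S / Q9a_E i T v (Q * Q') := by
    have h5 : Q9a_E i T v S = Q9a_E i T v P * Q9a_E i T v Q' +
        i c' / i c * (Q9a_E i T v P' * Q9a_E i T v Q) := by
      rw [map_add, map_mul, map_mul, map_mul, Q9a_E_C, ← map_div₀]
    rw [h5, h4, h4', map_mul]
    field_simp
  have hS0 : S.map (VR v).subtype ≠ 0 := by
    intro h0
    refine hne ?_
    rw [hS, Q9a_E_map, h0, MvPolynomial.eval₂_zero, mul_zero, zero_div]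
  obtain ⟨b, hb, S₁, hS1, hS2⟩ := Q9a_prim v _ hS0
  have hd : 0 ≤ v.ord ((S.map (VR v).subtype).coeff b) := by
    have h6 : v.Reg ((S.map (VR v).subtype).coeff b) := by
      rw [MvPolynomial.coeff_map]
      exact (S.coeff b).2
    exact h6.resolve_left hb
  have h7 : Q9a_E i T v S = i ((S.map (VR v).subtype).coeff b) * Q9a_E i T v S₁ := by
    rw [Q9a_E_map i T v S]
    conv_lhs => rw [hS1]
    rw [MvPolynomial.eval₂_mul, MvPolynomial.eval₂_C, Q9a_E_map]
    rfl
  have h8 : Q9a_Rp i T v (z + z') (c * (S.map (VR v).subtype).coeff b) S₁ (Q * Q') := by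
    refine ⟨mul_ne_zero h1 hb, hS2, ?_, ?_⟩
    · rw [map_mul]
      exact mul_ne_zero h3 h3'
    · rw [hS, h7, map_mul i, mul_assoc]
  rw [Q9a_O_eq htr h8, v.ord_mul _ _ h1 hb]
  omega

/-- the Gauss extension -/
private noncomputable def Q9a_W (hgen : ∀ z : N, ∃ P Q : MvPolynomial (Fin r) M, Q ≠ 0 ∧
      z = P.eval₂ (i : M →+* N) T / Q.eval₂ (i : M →+* N) T) (v : Place k M) :
    Place k N where
  ord := Q9a_O i T v
  ord_zero := by
    rw [Q9a_O, dif_neg]
    rintro ⟨c, P, Q, h⟩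
    exact Q9a_Rp_ne htr h rfl
  ord_mul f g hf hg := by
    obtain ⟨c, P, Q, h⟩ := Q9a_Rp_exists htr hgen (v := v) hf
    obtain ⟨c', P', Q', h'⟩ := Q9a_Rp_exists htr hgen (v := v) hg
    rw [Q9a_O_eq htr h, Q9a_O_eq htr h', Q9a_O_eq htr (Q9a_Rp_mul h h'),
      v.ord_mul _ _ h.1 h'.1]
  ord_add f g hf hg hfg := by
    obtain ⟨c, P, Q, h⟩ := Q9a_Rp_exists htr hgen (v := v) hf
    obtain ⟨c', P', Q', h'⟩ := Q9a_Rp_exists htr hgen (v := v) hg
    rw [Q9a_O_eq htr h, Q9a_O_eq htr h']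
    rcases le_total (v.ord c) (v.ord c') with hle | hle
    · exact (min_le_left _ _).trans (Q9a_Rp_add htr h h' hle hfg)
    · rw [add_comm f g]
      exact (min_le_right _ _).trans (Q9a_Rp_add htr h' h hle (by rwa [add_comm]))
  ord_const c hc := by
    have hc' : algebraMap k M c ≠ 0 := (_root_.map_ne_zero _).2 hc
    rw [← i.commutes, Q9a_O_eq htr (Q9a_Rp_one _ hc'), v.ord_const c hc]
  exists_uniformizer := by
    obtain ⟨t, ht⟩ := v.exists_uniformizer
    have ht0 : t ≠ 0 := by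
      rintro rfl
      rw [v.ord_zero] at ht
      exact zero_ne_one ht
    exact ⟨i t, by rw [Q9a_O_eq htr (Q9a_Rp_one _ ht0), ht]⟩

end Q9a

theorem gaussN {r : ℕ} {i : M →ₐ[k] N} {t : Fin r → N} (h : RatN i t) (w : Place k M) :
    ∃ (v : Place k N) (j : RF w →ₐ[k] RF v) (T : Fin r → RF v), (∀ x, v.ord (i x) = w.ord x) ∧
      (∀ x y, Red w x y → Red v (i x) (j y)) ∧ (∀ l, Red v (t l) (T l)) ∧ RatN j T := by
  obtain ⟨htr, hgen⟩ := h
  let v : Place k N := Q9a_W htr hgen w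
  have hw : ∀ z c (P Q : MvPolynomial (Fin r) (VR w)), Q9a_Rp i t w z c P Q →
      v.ord z = w.ord c := fun z c P Q h => Q9a_O_eq htr h
  have hwi : ∀ x, v.ord (i x) = w.ord x := by
    intro x
    by_cases hx : x = 0
    · rw [hx, map_zero, w.ord_zero, v.ord_zero]
    · exact hw _ _ _ _ (Q9a_Rp_one x hx)
  have hreg : ∀ x, w.Reg x → v.Reg (i x) := by
    rintro x (hx | hx)
    · exact Or.inl (by rw [hx, map_zero])
    · exact Or.inr (by rwa [hwi])
  let ι : VR w →+* VR v :=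
    { toFun := fun x => ⟨i (x : M), hreg _ x.2⟩
      map_one' := Subtype.ext (map_one i)
      map_mul' := fun a b => Subtype.ext (map_mul i _ _)
      map_zero' := Subtype.ext (map_zero i)
      map_add' := fun a b => Subtype.ext (map_add i _ _) }
  have : IsLocalHom ι := by
    refine ⟨fun a ha => ?_⟩
    refine Pool.Agent.LibCHd.isUnit_VR w a fun h => ?_
    have h1 : v.Zer (i (a : M)) := by
      rcases h with h | h
      · exact Or.inl (by rw [h, map_zero])
      · exact Or.inr (by rwa [hwi])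
    exact (IsLocalRing.mem_maximalIdeal _).1
      ((Pool.Agent.LibCHd.mem_max_iff (ι a)).2 h1) ha
  let j₀ : RF w →+* RF v := IsLocalRing.ResidueField.map ι
  let j : RF w →ₐ[k] RF v :=
    { j₀ with
      commutes' := fun c => by
        change j₀ (IsLocalRing.residue (VR w) (algebraMap k (VR w) c)) =
          IsLocalRing.residue (VR v) (algebraMap k (VR v) c)
        rw [IsLocalRing.ResidueField.map_residue]
        congr 1
        exact Subtype.ext (i.commutes c) }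
  have hj : ∀ x c, Red w x c → Red v (i x) (j c) := by
    rintro x c ⟨h, rfl⟩
    exact ⟨hreg x h, (IsLocalRing.ResidueField.map_residue ι ⟨x, h⟩).symm⟩
  have hX : ∀ l, Q9a_Rp i t w (t l) 1 (MvPolynomial.X l) 1 := by
    intro l
    refine ⟨one_ne_zero, ?_, ?_, ?_⟩
    · rw [Q9a_R, MvPolynomial.map_X]
      exact MvPolynomial.X_ne_zero l
    · rw [map_one]
      exact one_ne_zero
    · rw [Q9a_E_X, map_one, map_one, one_mul, div_one]
  have hT : ∀ l, ∃ T, Red v (t l) T := fun l => Pool.Agent.LibCHd.exists_red (Or.inr (by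
    rw [hw _ _ _ _ (hX l), w.ord_one]))
  choose T ht using hT
  have hred : ∀ P : MvPolynomial (Fin r) (VR w),
      Red v (Q9a_E i t w P) ((Q9a_R r w P).eval₂ (j : RF w →+* RF v) T) := by
    intro P
    induction P using MvPolynomial.induction_on with
    | C a =>
      have h1 : Q9a_R r w (MvPolynomial.C a) =
          MvPolynomial.C (IsLocalRing.residue (VR w) a) := by
        rw [Q9a_R, MvPolynomial.map_C]
      rw [h1, Q9a_E_C, MvPolynomial.eval₂_C]
      exact hj _ _ ⟨a.2, rfl⟩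
    | add P Q hP hQ =>
      rw [map_add, map_add, MvPolynomial.eval₂_add]
      exact hP.add hQ
    | mul_X P l hP =>
      have h2 : Q9a_R r w (MvPolynomial.X l) = MvPolynomial.X l := by
        rw [Q9a_R, MvPolynomial.map_X]
      rw [map_mul, map_mul, MvPolynomial.eval₂_mul, h2, MvPolynomial.eval₂_X, Q9a_E_X]
      exact hP.mul (ht l)
  have htr' : ∀ P : MvPolynomial (Fin r) (VR w), Q9a_R r w P ≠ 0 →
      (Q9a_R r w P).eval₂ (j : RF w →+* RF v) T ≠ 0 := by
    intro P hP h0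
    have h1 := hred P
    rw [h0, Pool.Agent.LibCHd.red_zero_iff] at h1
    have h2 : Q9a_Rp i t w (Q9a_E i t w P) 1 P 1 := by
      refine ⟨one_ne_zero, hP, ?_, ?_⟩
      · rw [map_one]
        exact one_ne_zero
      · rw [map_one, map_one, one_mul, div_one]
    rcases h1 with h1 | h1
    · exact Q9a_Rp_ne htr h2 h1
    · rw [hw _ _ _ _ h2, w.ord_one] at h1
      exact lt_irrefl _ h1
  refine ⟨v, j, T, hwi, hj, ht, ⟨fun G hG => ?_, fun z => ?_⟩⟩
  · obtain ⟨P, rfl⟩ := MvPolynomial.map_surjective _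
      (IsLocalRing.residue_surjective (R := VR w)) G
    exact htr' P hG
  · obtain ⟨f, hf⟩ := Pool.Agent.LibCHd.exists_rep z
    by_cases hf0 : f = 0
    · subst hf0
      refine ⟨0, 1, one_ne_zero, ?_⟩
      rw [MvPolynomial.eval₂_zero, zero_div]
      exact hf.unique (Pool.Agent.LibCHd.red_zero v)
    · obtain ⟨c, P, Q, h⟩ := Q9a_Rp_exists htr hgen (v := w) hf0
      have hc : w.Reg c := by
        have h1 := hf.reg.resolve_left hf0
        rw [hw _ _ _ _ h] at h1
        exact Or.inr h1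
      obtain ⟨h1, h2, h3, h4⟩ := h
      refine ⟨Q9a_R r w (MvPolynomial.C (⟨c, hc⟩ : VR w) * P), Q9a_R r w Q, h3, ?_⟩
      refine hf.unique ?_
      have h5 := (hred (MvPolynomial.C (⟨c, hc⟩ : VR w) * P)).div (hred Q) (htr' Q h3)
      rw [map_mul (Q9a_E i t w), Q9a_E_C] at h5
      rw [h4]
      exact h5

end Pool.Agent.LibDV76
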