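import Pool.Agent.LibDV76.A6

/-!
[DV T1] Rules for Z-points. `isZ_map`: `ev_map`, `i` injective. `lift_zeq`: `P_l = u_l y_C = (τ_C u_l) (y_C / τ_C)` and `(y_C / τ_C) ^ n = (κ₀ / κ) (κ Y_C / τ_C ^ n)`.
`isZ_zeq`: `ev_scale` with `τ ∘ b`. `on_lift`: `ev D P t a = y_(b a) ^ n ev D u t a = κ Y_(b a) ev D u t a`; `P ≠ 0` since some `Y_C ≠ 0`, `C = b a` (`Bl.surj`), `u0 a`.
-/

open scoped Classical
open Polynomial

namespace Pool.Agent.LibDV76

open Pool.Agent.LibBH2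
open Pool.Agent.LibCHd (VR RF Red FunF)

variable {k : Type} [Field k] {s m c p : ℕ} {D : Dat k s m c} {e : Fin m → ℕ} {b : Fin m → Fin p}
  {M M' : Type} [Field M] [Algebra k M] [Field M'] [Algebra k M']

theorem isZ_map (i : M →ₐ[k] M') {z : Zp s p M} : IsZ D e b (z.map i) ↔ IsZ D e b z := by
  have hi : ∀ x : M, i x = 0 ↔ x = 0 := fun x => map_eq_zero_iff i i.toRingHom.injective
  have hev : ∀ t a, ev D (z.map i).u t a = i (ev D z.u t a) := fun t a => ev_map i z.u t a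
  have hY : ∀ C, (z.map i).Y C = i (z.Y C) := fun _ => rfl
  have hu : ∀ l, (z.map i).u l = i (z.u l) := fun _ => rfl
  have hr : ∀ t, ∑ a, ev D (z.map i).u t a * (z.map i).Y (b a) =
      i (∑ a, ev D z.u t a * z.Y (b a)) := by
    intro t
    rw [map_sum]
    refine Finset.sum_congr rfl fun a _ => ?_
    rw [hev, hY, map_mul]
  constructor
  · rintro ⟨h1, h2, h3, h4⟩
    refine ⟨fun a => ?_, ?_, fun a ha => ?_, fun t => ?_⟩
    · obtain ⟨l, hl, hl'⟩ := h1 a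
      exact ⟨l, hl, fun h => hl' (by rw [hu, h, map_zero])⟩
    · obtain ⟨C, hC⟩ := h2
      exact ⟨C, fun h => hC (by rw [hY, h, map_zero])⟩
    · exact fun h => h3 a ha (by rw [hY, h, map_zero])
    · have := h4 t
      rwa [hr, hi] at this
  · rintro ⟨h1, h2, h3, h4⟩
    refine ⟨fun a => ?_, ?_, fun a ha => ?_, fun t => ?_⟩
    · obtain ⟨l, hl, hl'⟩ := h1 a
      exact ⟨l, hl, fun h => hl' ((hi _).1 h)⟩
    · obtain ⟨C, hC⟩ := h2
      exact ⟨C, fun h => hC ((hi _).1 h)⟩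
    · exact fun h => h3 a ha ((hi _).1 h)
    · rw [hr, h4 t, map_zero]

theorem zeq_refl (z : Zp s p M) : ZEq D b z z := by
  exact ⟨1, 1, fun _ => one_ne_zero, one_ne_zero, fun l => by simp, fun C => by simp⟩

theorem zeq_symm {z z' : Zp s p M} (h : ZEq D b z z') : ZEq D b z' z := by
  obtain ⟨τ, κ, hτ, hκ, h1, h2⟩ := h
  refine ⟨fun C => (τ C)⁻¹, κ⁻¹, fun C => inv_ne_zero (hτ C), inv_ne_zero hκ, fun l => ?_,
    fun C => ?_⟩
  · rw [h1 l, inv_mul_cancel_left₀ (hτ _)]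
  · rw [h2 C, inv_pow]
    have := hτ C
    field_simp

theorem zeq_trans {z z' z'' : Zp s p M} (h : ZEq D b z z') (h' : ZEq D b z' z'') : ZEq D b z z'' := by
  obtain ⟨τ, κ, hτ, hκ, h1, h2⟩ := h
  obtain ⟨τ', κ', hτ', hκ', h1', h2'⟩ := h'
  refine ⟨fun C => τ' C * τ C, κ' * κ, fun C => mul_ne_zero (hτ' C) (hτ C), mul_ne_zero hκ' hκ,
    fun l => ?_, fun C => ?_⟩
  · rw [h1' l, h1 l, mul_assoc]
  · rw [h2' C, h2 C]
    have := hτ C
    have := hτ' C
    rw [mul_pow]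
    field_simp

theorem zeq_map (i : M →ₐ[k] M') {z z' : Zp s p M} (h : ZEq D b z z') : ZEq D b (z.map i) (z'.map i) := by
  obtain ⟨τ, κ, hτ, hκ, h1, h2⟩ := h
  have hi : ∀ x : M, x ≠ 0 → i x ≠ 0 := fun x hx =>
    (map_ne_zero_iff i i.toRingHom.injective).2 hx
  refine ⟨fun C => i (τ C), i κ, fun C => hi _ (hτ C), hi _ hκ, fun l => ?_, fun C => ?_⟩
  · change i (z'.u l) = _
    rw [h1 l, map_mul]
    rfl
  · change i (z'.Y C) = _
    rw [h2 C, map_div₀, map_mul, map_pow]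
    rfl

theorem isZ_zeq (hD : D.Good) {z z' : Zp s p M} (hz : IsZ D e b z) (h : ZEq D b z z') : IsZ D e b z' := by
  obtain ⟨τ, κ, hτ, hκ, h1, h2⟩ := h
  have hu : z'.u = fun l => (fun a => τ (b a)) (D.γ l) * z.u l := funext h1
  refine ⟨fun a => ?_, ?_, fun a ha => ?_, fun t => ?_⟩
  · obtain ⟨l, hl, hl'⟩ := hz.u0 a
    exact ⟨l, hl, by rw [h1 l]; exact mul_ne_zero (hτ _) hl'⟩
  · obtain ⟨C, hC⟩ := hz.Y0
    exact ⟨C, by rw [h2 C]; exact div_ne_zero (mul_ne_zero hκ hC) (pow_ne_zero _ (hτ C))⟩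
  · rw [h2]
    exact div_ne_zero (mul_ne_zero hκ (hz.YC a ha)) (pow_ne_zero _ (hτ _))
  · have h3 : ∀ a, ev D z'.u t a * z'.Y (b a) = κ * (ev D z.u t a * z.Y (b a)) := by
      intro a
      rw [hu, ev_scale hD (fun a => τ (b a)) z.u t a, h2]
      have := hτ (b a)
      field_simp
    simp_rw [h3]
    rw [← Finset.mul_sum, hz.rel t, mul_zero]

theorem lift_map (i : M →ₐ[k] M') {z : Zp s p M} {P : Fin s → M} (h : IsLift D b z P) :
    IsLift D b (z.map i) (fun l => i (P l)) := by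
  obtain ⟨y, κ, hκ, h1, h2⟩ := h
  refine ⟨fun C => i (y C), i κ, (map_ne_zero_iff i i.toRingHom.injective).2 hκ, fun l => ?_,
    fun C => ?_⟩
  · change i (P l) = _
    rw [h1 l, map_mul]
    rfl
  · change i (y C) ^ D.n = _
    rw [← map_pow, h2 C, map_mul]
    rfl

theorem lift_zeq {z z' : Zp s p M} {P : Fin s → M} (h : IsLift D b z P) (h' : ZEq D b z z') :
    IsLift D b z' P := by
  obtain ⟨y, κ₀, hκ₀, h1, h2⟩ := h
  obtain ⟨τ, κ, hτ, hκ, h1', h2'⟩ := h'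
  refine ⟨fun C => y C / τ C, κ₀ / κ, div_ne_zero hκ₀ hκ, fun l => ?_, fun C => ?_⟩
  · rw [h1 l, h1' l]
    have := hτ (b (D.γ l))
    field_simp
  · rw [div_pow, h2 C, h2' C]
    have := hτ C
    field_simp

theorem lift_act {z : Zp s p M} {P : Fin s → M} (h : IsLift D b z P) (g : Fin m → k) :
    IsLift D b ⟨fun l => algebraMap k M (g (D.γ l)) * z.u l, z.Y⟩ (act D g P) := by
  obtain ⟨y, κ, hκ, h1, h2⟩ := h
  refine ⟨y, κ, hκ, fun l => ?_, h2⟩
  rw [act, h1 l, mul_assoc]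

theorem isZ_act (hD : D.Good) {z : Zp s p M} (hz : IsZ D e b z) {g : Fin m → k} (hg : ∀ a, g a ^ D.n = 1) :
    IsZ D e b ⟨fun l => algebraMap k M (g (D.γ l)) * z.u l, z.Y⟩ := by
  have hn : D.n ≠ 0 := by have := hD.two; omega
  have hg0 : ∀ a, algebraMap k M (g a) ≠ 0 := by
    intro a h
    have h1 : g a = 0 := (map_eq_zero_iff _ (algebraMap k M).injective).1 h
    have h2 := hg a
    rw [h1, zero_pow hn] at h2
    exact zero_ne_one h2
  refine ⟨fun a => ?_, hz.Y0, hz.YC, fun t => ?_⟩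
  · obtain ⟨l, hl, hl'⟩ := hz.u0 a
    exact ⟨l, hl, mul_ne_zero (hg0 _) hl'⟩
  · have h3 : ∀ a, ev D (fun l => algebraMap k M (g (D.γ l)) * z.u l) t a = ev D z.u t a := by
      intro a
      rw [ev_scale hD (fun a => algebraMap k M (g a)) z.u t a, ← map_pow, hg a, map_one, one_mul]
    simp only [h3]
    exact hz.rel t

theorem on_lift (hD : D.Good) (hb : Bl D.n e b) {z : Zp s p M} (hz : IsZ D e b z) {P : Fin s → M}
    (h : IsLift D b z P) : On D P := by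
  have hn : D.n ≠ 0 := by have := hD.two; omega
  obtain ⟨y, κ, hκ, h1, h2⟩ := h
  refine ⟨fun hP => ?_, fun t => ?_⟩
  · obtain ⟨C, hC⟩ := hz.Y0
    obtain ⟨a, ha⟩ := hb.surj C
    obtain ⟨l, hl, hl'⟩ := hz.u0 a
    have h3 : P l = 0 := congrFun hP l
    rw [h1 l, hl, ha] at h3
    have h4 : y C = 0 := (mul_eq_zero.1 h3).resolve_left hl'
    have h5 := h2 C
    rw [h4, zero_pow hn] at h5
    exact mul_ne_zero hκ hC h5.symm
  · have hPe : P = fun l => (fun a => y (b a)) (D.γ l) * z.u l :=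
      funext fun l => (h1 l).trans (mul_comm _ _)
    have h3 : ∀ a, ev D P t a = κ * (ev D z.u t a * z.Y (b a)) := by
      intro a
      rw [hPe, ev_scale hD (fun a => y (b a)) z.u t a, h2]
      ring
    simp_rw [h3]
    rw [← Finset.mul_sum, hz.rel t, mul_zero]

end Pool.Agent.LibDV76
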