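import Pool.Agent.LibDV76.T1

/-!
[DV T2] The Z-point of a point. Blocks with a group `a` with `¬ n ∣ e a` consist of such groups only (`Bl.sgl`); there all groups of `P` are nonzero, `u = P`, `Y = 1`. The other blocks are single
groups `a`: `Y = 1` if `P` is nonzero on `a`; else `u = 1`, `Y = 0` and `ev D P t a = 0` (`ev_zero`). Relation: `∑ ev D P t a = 0` (`ev_congr`). Lift: `y = Y`, `κ = 1`
(`1 ^ n = 1`, `0 ^ n = 0`).
-/

open scoped Classical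
open Polynomial

namespace Pool.Agent.LibDV76

open Pool.Agent.LibBH2
open Pool.Agent.LibCHd (VR RF Red FunF)

variable {k : Type} [Field k] {s m c p : ℕ} {D : Dat k s m c} {e : Fin m → ℕ} {b : Fin m → Fin p}
  {M : Type} [Field M] [Algebra k M]

private theorem T2_u_pos {P : Fin s → M} {l : Fin s} (h : ∃ l', D.γ l' = D.γ l ∧ P l' ≠ 0) :
    (zpt D b P).u l = P l := if_pos h

private theorem T2_u_neg {P : Fin s → M} {l : Fin s} (h : ¬ ∃ l', D.γ l' = D.γ l ∧ P l' ≠ 0) :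
    (zpt D b P).u l = 1 := if_neg h

private theorem T2_Y_pos {P : Fin s → M} {C : Fin p} (h : ∃ l, b (D.γ l) = C ∧ P l ≠ 0) :
    (zpt D b P).Y C = 1 := if_pos h

private theorem T2_Y_neg {P : Fin s → M} {C : Fin p} (h : ¬ ∃ l, b (D.γ l) = C ∧ P l ≠ 0) :
    (zpt D b P).Y C = 0 := if_neg h

private theorem T2_Y_a {P : Fin s → M} {a : Fin m} (h : ∃ l, D.γ l = a ∧ P l ≠ 0) :
    (zpt D b P).Y (b a) = 1 := by
  obtain ⟨l, hl, hP⟩ := h
  exact T2_Y_pos ⟨l, by rw [hl], hP⟩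

private theorem T2_Y_na (hb : Bl D.n e b) {P : Fin s → M}
    (hne : ∀ a, ¬ D.n ∣ e a → ∃ l, D.γ l = a ∧ P l ≠ 0) {a : Fin m}
    (h : ¬ ∃ l, D.γ l = a ∧ P l ≠ 0) : (zpt D b P).Y (b a) = 0 := by
  refine T2_Y_neg ?_
  rintro ⟨l, hl, hPl⟩
  have h1 : D.n ∣ e a := by
    by_contra h2
    exact h (hne a h2)
  exact h ⟨l, hb.sgl a h1 (D.γ l) hl, hPl⟩

theorem zpt_lift (hD : D.Good) (hb : Bl D.n e b) {P : Fin s → M} (hP : On D P)
    (hne : ∀ a, ¬ D.n ∣ e a → ∃ l, D.γ l = a ∧ P l ≠ 0) : IsZ D e b (zpt D b P) ∧ IsLift D b (zpt D b P) P := by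
  have hn : D.n ≠ 0 := by
    have := hD.two
    omega
  refine ⟨⟨fun a => ?_, ?_, fun a ha => ?_, fun t => ?_⟩, (zpt D b P).Y, 1, one_ne_zero,
    fun l => ?_, fun C => ?_⟩
  · by_cases h : ∃ l, D.γ l = a ∧ P l ≠ 0
    · obtain ⟨l, hl, hPl⟩ := h
      refine ⟨l, hl, ?_⟩
      rw [T2_u_pos ⟨l, rfl, hPl⟩]
      exact hPl
    · obtain ⟨l, rfl⟩ := hD.surj a
      exact ⟨l, rfl, by rw [T2_u_neg h]; exact one_ne_zero⟩
  · obtain ⟨l, hl⟩ := Function.ne_iff.1 hP.1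
    exact ⟨b (D.γ l), by rw [T2_Y_a ⟨l, rfl, hl⟩]; exact one_ne_zero⟩
  · rw [T2_Y_a (hne a ha)]
    exact one_ne_zero
  · rw [← hP.2 t]
    refine Finset.sum_congr rfl fun a _ => ?_
    by_cases h : ∃ l, D.γ l = a ∧ P l ≠ 0
    · rw [T2_Y_a h, mul_one]
      refine ev_congr hD (fun l hl => T2_u_pos ?_) t
      subst hl
      exact h
    · rw [T2_Y_na hb hne h, mul_zero]
      refine (ev_zero hD (fun l hl => ?_) t).symm
      by_contra h1
      exact h ⟨l, hl, h1⟩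
  · by_cases h : ∃ l', D.γ l' = D.γ l ∧ P l' ≠ 0
    · rw [T2_Y_a h, mul_one, T2_u_pos h]
    · rw [T2_Y_na hb hne h, mul_zero]
      by_contra h1
      exact h ⟨l, rfl, h1⟩
  · rw [one_mul]
    by_cases h : ∃ l, b (D.γ l) = C ∧ P l ≠ 0
    · rw [T2_Y_pos h, one_pow]
    · rw [T2_Y_neg h, zero_pow hn]

end Pool.Agent.LibDV76
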