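import Pool.Agent.LibDV76.T1

/-!
[DV T3] Lifts exist over a finite extension: `M'` a splitting field of `∏_C (X ^ n - Y_C)` over `M` (`Polynomial.SplittingField`, finite over `M`), `finrank i.fieldRange M' ≠ 0`: see LibCW77/T3.lean
(`exists_lift`).
-/

open scoped Classical
open Polynomial

namespace Pool.Agent.LibDV76

open Pool.Agent.LibBH2
open Pool.Agent.LibCHd (VR RF Red FunF)

variable {k : Type} [Field k] {s m c p : ℕ} {D : Dat k s m c} {b : Fin m → Fin p}
  {M : Type} [Field M] [Algebra k M]

private theorem T3_roots (n : ℕ) (hn : 0 < n) (Y : Fin p → M) :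
    ∃ (M' : Type) (_ : Field M') (_ : Algebra M M') (y : Fin p → M'), FiniteDimensional M M' ∧
      ∀ C, y C ^ n = algebraMap M M' (Y C) := by
  have h1 : ∀ C, ∃ y : AlgebraicClosure M, y ^ n = algebraMap M (AlgebraicClosure M) (Y C) :=
    fun C => IsAlgClosed.exists_pow_nat_eq _ hn
  choose y hy using h1
  let K := IntermediateField.adjoin M (Set.range y)
  have hfin : FiniteDimensional M K := by
    haveI : Finite (Set.range y) := Set.finite_range y
    exact IntermediateField.finiteDimensional_adjoin fun y _ =>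
      (Algebra.IsAlgebraic.isAlgebraic (R := M) y).isIntegral
  let y' : Fin p → K := fun C => ⟨y C, IntermediateField.subset_adjoin M _ ⟨C, rfl⟩⟩
  refine ⟨K, inferInstance, inferInstance, y', hfin, fun C => ?_⟩
  apply (algebraMap K (AlgebraicClosure M)).injective
  rw [map_pow]
  exact hy C

theorem exists_roots (n : ℕ) (hn : 0 < n) (Y : Fin p → M) :
    ∃ (M' : Type) (_ : Field M') (_ : Algebra k M') (i : M →ₐ[k] M') (y : Fin p → M'),
      Module.finrank i.fieldRange M' ≠ 0 ∧ ∀ C, y C ^ n = i (Y C) := by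
  obtain ⟨M', fM, aM, y, hfin, hy⟩ := T3_roots n hn Y
  letI : Algebra k M' := ((algebraMap M M').comp (algebraMap k M)).toAlgebra
  let i : M →ₐ[k] M' := { toRingHom := algebraMap M M', commutes' := fun _ => rfl }
  refine ⟨M', fM, inferInstance, i, y, ?_, hy⟩
  haveI : Module.Finite i.fieldRange M' := by
    obtain ⟨s, hs⟩ := (inferInstance : Module.Finite M M')
    refine ⟨⟨s, ?_⟩⟩
    rw [eq_top_iff]
    intro y _
    have hy : y ∈ Submodule.span M (s : Set M') := by rw [hs]; trivial
    induction hy using Submodule.span_induction with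
    | mem x hx => exact Submodule.subset_span hx
    | zero => exact Submodule.zero_mem _
    | add x y _ _ hx hy => exact Submodule.add_mem _ (hx trivial) (hy trivial)
    | smul a x _ hx =>
      have h1 : a • x = (⟨i a, a, rfl⟩ : i.fieldRange) • x := by
        rw [Algebra.smul_def]
        rfl
      rw [h1]
      exact Submodule.smul_mem _ _ (hx trivial)
  exact Module.finrank_pos.ne'

theorem exists_lift (hD : D.Good) (z : Zp s p M) :
    ∃ (M' : Type) (_ : Field M') (_ : Algebra k M') (i : M →ₐ[k] M') (P : Fin s → M'),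
      Module.finrank i.fieldRange M' ≠ 0 ∧ IsLift D b (z.map i) P ∧
      ∃ y : Fin p → M', (∀ C, y C ^ D.n = i (z.Y C)) ∧ ∀ l, P l = i (z.u l) * y (b (D.γ l)) := by
  obtain ⟨M', fM, aM, i, y, hf, hy⟩ := exists_roots (k := k) D.n (by have := hD.two; omega) z.Y
  refine ⟨M', fM, aM, i, fun l => i (z.u l) * y (b (D.γ l)), hf, ⟨y, 1, one_ne_zero,
    fun l => rfl, fun C => ?_⟩, y, hy, fun l => rfl⟩
  rw [one_mul]
  exact hy C

end Pool.Agent.LibDV76
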