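import Pool.Agent.LibDV76.T3

/-!
[DV T4] Two lifts of a Z-point are conjugate up to a factor, over a finite extension. `y_C ^ n = κ Y_C`, `y'_C ^ n = κ' Y_C`. Take `ρ` with `ρ ^ n = κ' / κ` in a finite extension (`exists_roots`).
If `Y_C ≠ 0`: `(y'_C / (ρ y_C)) ^ n = 1`, so it is an `n`-th root of unity, in `k` (`k` is algebraically closed: `X ^ n - 1` splits; see `T4` in LibCW77/T4.lean); if `Y_C = 0` both are `0`: take `1`.
`w a = w'_(b a)`; `chi e w = ∏_C w'_C ^ (∑_(a in C) e a) = 1` (`Bl.sum`, `Finset.prod_fiberwise`).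
-/

open scoped Classical
open Polynomial

namespace Pool.Agent.LibDV76

open Pool.Agent.LibBH2
open Pool.Agent.LibCHd (VR RF Red FunF)

variable {k : Type} [Field k] {s m c p : ℕ} {D : Dat k s m c} {e : Fin m → ℕ} {b : Fin m → Fin p}
  {M : Type} [Field M] [Algebra k M]

private theorem T4_root [IsAlgClosed k] {M : Type} [Field M] [Algebra k M] {n : ℕ} (hn : 0 < n) (r : M)
    (hr : r ^ n = 1) : ∃ s : k, algebraMap k M s = r := by
  have hint : IsIntegral k r := by
    refine ⟨X ^ n - 1, monic_X_pow_sub_C 1 hn.ne', ?_⟩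
    simp [hr]
  have h1 : (minpoly k r).degree = 1 :=
    IsAlgClosed.degree_eq_one_of_irreducible k (minpoly.irreducible hint)
  have h2 := minpoly.mem_range_of_degree_eq_one k r h1
  exact h2

theorem chi_blocks {n : ℕ} (hb : Bl n e b) {w : Fin p → k} (hw : ∀ C, w C ^ n = 1) : chi e (fun a => w (b a)) = 1 := by
  unfold chi
  rw [← Finset.prod_fiberwise Finset.univ b]
  refine Finset.prod_eq_one fun C _ => ?_
  have h1 : ∏ a ∈ Finset.univ.filter (fun a => b a = C), w (b a) ^ e a =
      ∏ a ∈ Finset.univ.filter (fun a => b a = C), w C ^ e a := by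
    refine Finset.prod_congr rfl fun a ha => ?_
    rw [(Finset.mem_filter.1 ha).2]
  have h1' := h1
  rw [Finset.prod_pow_eq_pow_sum] at h1'
  refine Eq.trans h1' ?_
  obtain ⟨t, ht⟩ := hb.sum C
  have h2 : ∑ a ∈ Finset.univ.filter (fun a => b a = C), e a = n * t := by
    rw [← ht]
  rw [h2, pow_mul, hw, one_pow]

theorem lifts_conj [IsAlgClosed k] (hD : D.Good) (hb : Bl D.n e b) {z : Zp s p M} {P P' : Fin s → M}
    (h : IsLift D b z P) (h' : IsLift D b z P') :
    ∃ (N : Type) (_ : Field N) (_ : Algebra k N) (j : M →ₐ[k] N) (ρ : N) (w : Fin m → k),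
      Module.finrank j.fieldRange N ≠ 0 ∧ ρ ≠ 0 ∧ w ∈ grp k D.n m ∧ chi e w = 1 ∧
      (fun l => j (P' l)) = fun l => ρ * act D w (fun l => j (P l)) l := by
  have hn : 0 < D.n := lt_of_lt_of_le (by norm_num) hD.two
  obtain ⟨y, κ, hκ, hP, hy⟩ := h
  obtain ⟨y', κ', hκ', hP', hy'⟩ := h'
  obtain ⟨N, iN, aN, j, r, hfin, hr⟩ := exists_roots (k := k) (p := 1) D.n hn (fun _ => κ' / κ)
  have hr0 : r 0 ^ D.n = j (κ' / κ) := hr 0
  have hρ : r 0 ≠ 0 := by
    intro h0
    rw [h0, zero_pow hn.ne'] at hr0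
    have h1 : κ' / κ = 0 := (map_eq_zero j).1 hr0.symm
    exact div_ne_zero hκ' hκ h1
  have hex : ∀ C : Fin p, ∃ w : k, w ^ D.n = 1 ∧ j (y' C) = r 0 * (algebraMap k N w * j (y C)) := by
    intro C
    by_cases hC : z.Y C = 0
    · have h1 : y C = 0 := by
        have h2 := hy C
        rw [hC, mul_zero] at h2
        exact (pow_eq_zero_iff hn.ne').1 h2
      have h1' : y' C = 0 := by
        have h2 := hy' C
        rw [hC, mul_zero] at h2
        exact (pow_eq_zero_iff hn.ne').1 h2
      refine ⟨1, one_pow _, ?_⟩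
      rw [h1, h1', map_zero, mul_zero, mul_zero]
    · have hyC : y C ≠ 0 := by
        intro h0
        have h2 := hy C
        rw [h0, zero_pow hn.ne'] at h2
        exact mul_ne_zero hκ hC h2.symm
      have hjy : j (y C) ≠ 0 := fun h0 => hyC ((map_eq_zero j).1 h0)
      have hden : r 0 * j (y C) ≠ 0 := mul_ne_zero hρ hjy
      have h3 : (j (y' C) / (r 0 * j (y C))) ^ D.n = 1 := by
        rw [div_pow, mul_pow, hr0, ← map_pow, ← map_pow, ← map_mul, hy C, hy' C]
        have h4 : κ' / κ * (κ * z.Y C) = κ' * z.Y C := by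
          field_simp
        rw [h4]
        refine div_self ?_
        intro h0
        exact mul_ne_zero hκ' hC ((map_eq_zero j).1 h0)
      obtain ⟨w, hw⟩ := T4_root (k := k) hn _ h3
      refine ⟨w, ?_, ?_⟩
      · have h5 : algebraMap k N (w ^ D.n) = algebraMap k N 1 := by
          rw [map_pow, hw, h3, map_one]
        exact (algebraMap k N).injective h5
      · rw [hw]
        field_simp
  choose w hw1 hw2 using hex
  refine ⟨N, iN, aN, j, r 0, fun a => w (b a), hfin, hρ, ?_, chi_blocks hb hw1, ?_⟩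
  · unfold grp
    rw [Fintype.mem_piFinset]
    intro a
    rw [mem_nthRootsFinset hn]
    exact hw1 (b a)
  · funext l
    show j (P' l) = r 0 * (algebraMap k N (w (b (D.γ l))) * j (P l))
    rw [hP' l, hP l, map_mul, map_mul, hw2]
    ring

end Pool.Agent.LibDV76
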