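import Pool.Agent.LibDV76.T4
import Pool.Agent.LibDV76.C3
import Pool.Agent.LibDV76.T2
import Pool.Agent.LibCW77.T2

/-!
[DV T5a] The class `TZ` of a Z-point. Template: LibCW77/T7.lean. `mns_lifts`: two lifts over the same field have the same `mns` (`lifts_conj`, `mns_map`, `mns_smul`, `mns_act`, cancel the degree: `W` is a vector
space over `k`, characteristic 0). `TZ_spec`: existence of `t` as in T7 (`exists_lift`, `common_ext`, `finrank_trans` of LibCW77/T2.lean, `lift_map`). `TZ_small`: lift with `y_C ^ n = Y_C`, the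
coordinates are algebraic over the image of `E` (which has the same trdeg), `mns_small` over `M'` (`funF_finite`). `TZ_act`: `lift_act`, `mns_act`. `TZ_zeq`: `lift_zeq`.
-/

open scoped Classical
open Polynomial

namespace Pool.Agent.LibDV76

open Pool.Agent.LibBH2
open Pool.Agent.LibCHd (VR RF Red FunF)

variable {k : Type} [Field k] {s m c p d : ℕ} {D : Dat k s m c} {e : Fin m → ℕ} {b : Fin m → Fin p}
  {W : Type} [AddCommGroup W] [Module k W] {M : Type} [Field M] [Algebra k M]

theorem TZ_not (q : CH D d →+ W) {z : Zp s p M} (h : ¬ IsZ D e b z) : TZ e b q z = 0 := by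
  unfold TZ
  rw [dif_neg]
  exact fun h' => h h'.1

private theorem T5a_cancel [CharZero k] {r : ℕ} (hr : r ≠ 0) {x y : W} (h : r • x = r • y) : x = y := by
  rw [← Nat.cast_smul_eq_nsmul k, ← Nat.cast_smul_eq_nsmul k] at h
  exact smul_right_injective W (show (r : k) ≠ 0 by exact_mod_cast hr) h

theorem TZ_spec [IsAlgClosed k] [CharZero k] (hD : D.Good) (hb : Bl D.n e b) (q : CH D d →+ W) {z : Zp s p M}
    (hz : IsZ D e b z) {M' : Type} [Field M'] [Algebra k M'] (i : M →ₐ[k] M') (P : Fin s → M')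
    (hfin : Module.finrank i.fieldRange M' ≠ 0) (hP : IsLift D b (z.map i) P) :
    mns e q P = Module.finrank i.fieldRange M' • TZ e b q z := by
  obtain ⟨M₁, _, _, i₁, x₁, hfin₁, hx₁, -⟩ := exists_lift (b := b) hD z
  have key : ∀ (M₂ : Type) (_ : Field M₂) (_ : Algebra k M₂) (i₂ : M →ₐ[k] M₂) (x₂ : Fin s → M₂),
      Module.finrank i₂.fieldRange M₂ ≠ 0 → IsLift D b (z.map i₂) x₂ →
      mns e q x₂ = Module.finrank i₂.fieldRange M₂ •
        ((Module.finrank i₁.fieldRange M₁ : k)⁻¹ • mns e q x₁) := by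
    intro M₂ _ _ i₂ x₂ hfin₂ hx₂
    obtain ⟨L, _, _, j₁, j₂, hj, hj₁, hj₂⟩ := Pool.Agent.LibCW77.common_ext i₁ i₂ hfin₁ hfin₂
    have hl₁ : IsLift D b (z.map (j₁.comp i₁)) (fun l => j₁ (x₁ l)) := lift_map j₁ hx₁
    have hl₂ : IsLift D b (z.map (j₁.comp i₁)) (fun l => j₂ (x₂ l)) := by
      rw [hj]
      exact lift_map j₂ hx₂
    obtain ⟨N, _, _, jN, ρ, w, hfN, hρ, hw, hc, hxx⟩ := lifts_conj hD hb hl₁ hl₂
    have h1 : mns e q (fun l => j₂ (x₂ l)) = mns e q (fun l => j₁ (x₁ l)) := by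
      have h0 : mns e q (fun l => jN (j₂ (x₂ l))) = mns e q (fun l => jN (j₁ (x₁ l))) := by
        rw [hxx, mns_smul e q _ hρ, ← mns_act hD e q hw (fun l => jN (j₁ (x₁ l))), hc, one_smul]
      rw [mns_map e q jN (fun l => j₂ (x₂ l)), mns_map e q jN (fun l => j₁ (x₁ l))] at h0
      exact T5a_cancel (k := k) hfN h0
    rw [mns_map, mns_map] at h1
    have h2 := Pool.Agent.LibCW77.finrank_trans i₁ j₁
    have h3 := Pool.Agent.LibCW77.finrank_trans i₂ j₂
    rw [hj, h3] at h2
    have e₁ : (Module.finrank i₁.fieldRange M₁ : k) ≠ 0 := by exact_mod_cast hfin₁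
    have e₂ : (Module.finrank j₂.fieldRange L : k) ≠ 0 := by exact_mod_cast hj₂
    rw [← Nat.cast_smul_eq_nsmul k, ← Nat.cast_smul_eq_nsmul k] at h1
    rw [← Nat.cast_smul_eq_nsmul k]
    have h4 : (Module.finrank j₂.fieldRange L : k) • mns e q x₂ = (Module.finrank j₂.fieldRange L : k) •
        ((Module.finrank i₂.fieldRange M₂ : k) • ((Module.finrank i₁.fieldRange M₁ : k)⁻¹ • mns e q x₁)) := by
      rw [h1, smul_smul, smul_smul]
      congr 1
      have h5 : (Module.finrank i₂.fieldRange M₂ : k) * (Module.finrank j₂.fieldRange L : k) =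
          (Module.finrank i₁.fieldRange M₁ : k) * (Module.finrank j₁.fieldRange L : k) := by exact_mod_cast h2
      rw [mul_comm (Module.finrank j₂.fieldRange L : k), h5]
      field_simp
    exact smul_right_injective W e₂ h4
  have hex : IsZ D e b z ∧ ∃ t : W, ∀ (M' : Type) (_ : Field M') (_ : Algebra k M') (i : M →ₐ[k] M') (P : Fin s → M'),
    Module.finrank i.fieldRange M' ≠ 0 → IsLift D b (z.map i) P →
    mns e q P = Module.finrank i.fieldRange M' • t := ⟨hz, _, key⟩
  have h6 : TZ e b q z = hex.2.choose := dif_pos hex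
  rw [h6]
  exact hex.2.choose_spec M' _ _ i P hfin hP

theorem TZ_map [IsAlgClosed k] [CharZero k] (hD : D.Good) (hb : Bl D.n e b) (q : CH D d →+ W) (z : Zp s p M)
    {M' : Type} [Field M'] [Algebra k M'] (i : M →ₐ[k] M') (hfin : Module.finrank i.fieldRange M' ≠ 0) :
    TZ e b q (z.map i) = Module.finrank i.fieldRange M' • TZ e b q z := by
  by_cases hz : IsZ D e b z
  swap
  · rw [TZ_not q hz, TZ_not q (fun h => hz ((isZ_map i).1 h)), smul_zero]
  have hz' : IsZ D e b (z.map i) := (isZ_map i).2 hz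
  obtain ⟨L, _, _, j', x, hfin', hx, -⟩ := exists_lift (b := b) hD (z.map i)
  have h1 := TZ_spec hD hb q hz' j' x hfin' hx
  have hx' : IsLift D b (z.map (j'.comp i)) x := hx
  have h2 := Pool.Agent.LibCW77.finrank_trans i j'
  have h3 : Module.finrank (j'.comp i).fieldRange L ≠ 0 := by
    rw [h2]
    exact mul_ne_zero hfin hfin'
  have h4 := TZ_spec hD hb q hz (j'.comp i) x h3 hx'
  rw [h2, mul_comm, mul_smul, h1] at h4
  exact T5a_cancel (k := k) hfin' h4

end Pool.Agent.LibDV76
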