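import Pool.Agent.LibDV76.T4
import Pool.Agent.LibDV76.C3
import Pool.Agent.LibDV76.T2
import Pool.Agent.LibCW77.T2
import Pool.Agent.LibDV76.T5a

/-!
[DV T5b] The class `TZ` of a Z-point. Template: LibCW77/T7.lean. `mns_lifts`: two lifts over the same field have the same `mns` (`lifts_conj`, `mns_map`, `mns_smul`, `mns_act`, cancel the degree: `W` is a vector
space over `k`, characteristic 0). `TZ_spec`: existence of `t` as in T7 (`exists_lift`, `common_ext`, `finrank_trans` of LibCW77/T2.lean, `lift_map`). `TZ_small`: lift with `y_C ^ n = Y_C`, the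
coordinates are algebraic over the image of `E` (which has the same trdeg), `mns_small` over `M'` (`funF_finite`). `TZ_act`: `lift_act`, `mns_act`. `TZ_zeq`: `lift_zeq`.
-/

open scoped Classical
open Polynomial

namespace Pool.Agent.LibDV76

open Pool.Agent.LibBH2
open Pool.Agent.LibCHd (VR RF Red FunF)

variable {k : Type} [Field k] {s m c p d : ℕ} {D : Dat k s m c} {e : Fin m → ℕ} {b : Fin m → Fin p}
  {W : Type} [AddCommGroup W] [Module k W] {M : Type} [Field M] [Algebra k M]

omit [Field M] [Algebra k M] in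
private theorem T5b_cancel [CharZero k] {r : ℕ} (hr : r ≠ 0) {a b : W} (h : r • a = r • b) : a = b := by
  rw [← Nat.cast_smul_eq_nsmul k, ← Nat.cast_smul_eq_nsmul k] at h
  exact smul_right_injective W (show (r : k) ≠ 0 by exact_mod_cast hr) h

theorem TZ_zeq [IsAlgClosed k] [CharZero k] (hD : D.Good) (hb : Bl D.n e b) (q : CH D d →+ W) {z z' : Zp s p M}
    (h : ZEq D b z z') : TZ e b q z' = TZ e b q z := by
  by_cases hz : IsZ D e b z
  swap
  · rw [TZ_not q hz, TZ_not q fun hz' => hz (isZ_zeq hD hz' (zeq_symm h))]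
  have hz' := isZ_zeq hD hz h
  obtain ⟨M', _, _, i, P, hfin, hP, -⟩ := exists_lift (b := b) hD z
  have h1 := TZ_spec hD hb q hz i P hfin hP
  have h2 := TZ_spec hD hb q hz' i P hfin (lift_zeq hP (zeq_map i h))
  rw [h1] at h2
  exact (T5b_cancel (k := k) hfin h2).symm

theorem TZ_small [IsAlgClosed k] [CharZero k] (hD : D.Good) (hb : Bl D.n e b) (q : CH D d →+ W) (hM : FunF k d M)
    (z : Zp s p M) (E : IntermediateField k M) (hE : Algebra.trdeg k E < d) (hu : ∀ l, z.u l ∈ E)
    (hY : ∀ C, z.Y C ∈ E) : TZ e b q z = 0 := by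
  by_cases hz : IsZ D e b z
  swap
  · exact TZ_not q hz
  obtain ⟨M', _, _, i, P, hfin, hP, y, hy, hPy⟩ := exists_lift (b := b) hD z
  have h1 := TZ_spec hD hb q hz i P hfin hP
  have hM' : FunF k d M' := Pool.Agent.LibCW77.funF_finite i hfin hM
  have hn : 0 < D.n := by
    have := hD.two
    omega
  have halg : ∀ x ∈ E, IsAlgebraic (E.map i) (i x) := fun x hx =>
    isAlgebraic_algebraMap (⟨i x, ⟨x, hx, rfl⟩⟩ : E.map i)
  have hyalg : ∀ C, IsAlgebraic (E.map i) (y C) := by
    intro C
    have h2 : IsIntegral (E.map i) (y C ^ D.n) := by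
      rw [hy]
      exact (halg _ (hY C)).isIntegral
    exact (h2.of_pow hn).isAlgebraic
  have hPalg : ∀ l, IsAlgebraic (E.map i) (P l) := by
    intro l
    rw [hPy]
    exact (halg _ (hu l)).mul (hyalg _)
  have htr : Algebra.trdeg k (E.map i) < d := by
    rw [← (E.equivMap i).trdeg_eq]
    exact hE
  rw [mns_small hD e q hM' P (E.map i) htr fun l l' => by
    rw [div_eq_mul_inv]
    exact (hPalg l).mul (hPalg l').inv] at h1
  exact (T5b_cancel (k := k) hfin (by rw [← h1, smul_zero])).symm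

theorem TZ_act [IsAlgClosed k] [CharZero k] (hD : D.Good) (hb : Bl D.n e b) (q : CH D d →+ W) (z : Zp s p M)
    {g : Fin m → k} (hg : g ∈ grp k D.n m) :
    chi e g • TZ e b q ⟨fun l => algebraMap k M (g (D.γ l)) * z.u l, z.Y⟩ = TZ e b q z := by
  have hn : 0 < D.n := by
    have := hD.two
    omega
  have hg1 : ∀ a, g a ^ D.n = 1 := by
    intro a
    have h1 := Fintype.mem_piFinset.1 hg a
    exact (Polynomial.mem_nthRootsFinset hn (1 : k)).1 h1
  have hg0 : ∀ a, g a ≠ 0 := by
    intro a h0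
    have h1 := hg1 a
    rw [h0, zero_pow hn.ne'] at h1
    exact zero_ne_one h1
  by_cases hz : IsZ D e b z
  swap
  · have hz' : ¬ IsZ D e b ⟨fun l => algebraMap k M (g (D.γ l)) * z.u l, z.Y⟩ := by
      intro hz'
      apply hz
      have h1 := isZ_act hD hz' (g := fun a => (g a)⁻¹) (fun a => by rw [inv_pow, hg1, inv_one])
      have h2 : (⟨fun l => algebraMap k M ((g (D.γ l))⁻¹) * (algebraMap k M (g (D.γ l)) * z.u l), z.Y⟩ : Zp s p M) = z := by
        have h3 : (fun l => algebraMap k M ((g (D.γ l))⁻¹) * (algebraMap k M (g (D.γ l)) * z.u l)) = z.u := by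
          funext l
          rw [← mul_assoc, ← map_mul, inv_mul_cancel₀ (hg0 _), map_one, one_mul]
        rw [h3]
      rw [← h2]
      exact h1
    rw [TZ_not q hz, TZ_not q hz', smul_zero]
  obtain ⟨M', _, _, i, P, hfin, hP, -⟩ := exists_lift (b := b) hD z
  have h1 := TZ_spec hD hb q hz i P hfin hP
  have hP' : IsLift D b ((⟨fun l => algebraMap k M (g (D.γ l)) * z.u l, z.Y⟩ : Zp s p M).map i) (act D g P) := by
    have h2 := lift_act hP g
    have h3 : (⟨fun l => algebraMap k M' (g (D.γ l)) * (z.map i).u l, (z.map i).Y⟩ : Zp s p M') =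
        (⟨fun l => algebraMap k M (g (D.γ l)) * z.u l, z.Y⟩ : Zp s p M).map i := by
      have h4 : (fun l => algebraMap k M' (g (D.γ l)) * (z.map i).u l) =
          fun l => i (algebraMap k M (g (D.γ l)) * z.u l) := by
        funext l
        rw [map_mul, i.commutes]
        rfl
      rw [h4]
      rfl
    rw [h3] at h2
    exact h2
  have h3 := TZ_spec hD hb q (isZ_act hD hz hg1) i (act D g P) hfin hP'
  have h4 := mns_act hD e q hg P
  rw [h3, h1, smul_comm] at h4
  exact T5b_cancel (k := k) hfin h4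

theorem TZ_zpt [IsAlgClosed k] [CharZero k] (hD : D.Good) (hb : Bl D.n e b) (q : CH D d →+ W) {P : Fin s → M}
    (hP : On D P) (hne : ∀ a, ¬ D.n ∣ e a → ∃ l, D.γ l = a ∧ P l ≠ 0) : TZ e b q (zpt D b P) = mns e q P := by
  obtain ⟨hZ, hL⟩ := zpt_lift hD hb hP hne
  have h1 : Module.finrank (AlgHom.id k M).fieldRange M = 1 := by
    have h2 : (AlgHom.id k M).fieldRange = ⊤ := by
      rw [AlgHom.fieldRange_eq_top]
      exact fun x => ⟨x, rfl⟩
    rw [h2, IntermediateField.finrank_top]
  have h3 : IsLift D b ((zpt D b P).map (AlgHom.id k M)) P := hL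
  have h4 := TZ_spec hD hb q hZ (AlgHom.id k M) P (by rw [h1]; exact one_ne_zero) h3
  rw [h1, one_smul] at h4
  exact h4.symm

end Pool.Agent.LibDV76
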