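import Pool.Agent.LibDV76.T7
import Pool.Agent.LibDV76.A3
import Pool.Agent.LibDV76.A4
import Pool.Agent.LibCW77.T1
import Pool.Agent.LibCW77.T2

/-!
[DV T8] The master relation. Template: LibCW77/T8.lean (`master`). Plan: a lift `P` of `z` over a finite extension `i : N → N'` (`exists_lift`); `On D P` (`on_lift`, `isZ_map`). For every `h` in the group: `div_rel` for `act D h P`, `i g`,
with one finite set `S'` of places of `N'` containing `fin_cyc` (for `P`; `cyc_act_zero`). Multiply by `chi e h` and add: `∑_(w ∈ S') w.ord (i g) • mns e q (Q w) = 0`, `Q w` the specialisation of `P` at `w` (`sp_exists`,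
`sp_act`). `S` := the restrictions `v` to `N` (`place_restr`, LibCW77/T2) of the `w ∈ S'`; enlarge `S'` by all places above the `v ∈ S` (`sum_ef`, LibCW77/T1) with `FunF k d (RF v)`. For `w` above `v`: `w.ord (i g) = e(w) v.ord g`
and `mns e q (Q w) = f(w) • TV e b q v z`: if `FunF k d (RF v)` and there is a Z-point `z'` with `SpZ`: `lift_sp`, `TZ_spec` (with `j : RF v → RF w`), `TV_eq`; else: `mns e q (Q w) = 0` by `mns_grp` or `spZ_exists`
(and if `FunF k d (RF v)` does not hold then not for `RF w` either: `funF_sub`; such `w` are not in `S'`). Then `∑ e f = [N' : N]` (`sum_ef`) and divide.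
If `TV e b q v z ≠ 0` and `v.ord g ≠ 0` then for a place `w` above `v` (one exists since `∑ e f ≠ 0`) `mns e q (Q w) ≠ 0`, so `cyc k (Q w) ≠ 0` (`mns_cyc`), so `w ∈ S'` and `v ∈ S`.
-/

open scoped Classical
open Polynomial

namespace Pool.Agent.LibDV76

open Pool.Agent.LibBH2
open Pool.Agent.LibCHd (VR RF Red FunF)
open Pool.Agent.LibCW77 (sum_ef place_restr funF_finite funF_sub)

variable {k : Type} [Field k] {s m c p d : ℕ} {D : Dat k s m c} {e : Fin m → ℕ} {b : Fin m → Fin p}
  {W : Type} [AddCommGroup W] [Module k W] {N : Type} [Field N] [Algebra k N]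

private theorem T8_restr_unique {N N' : Type} [Field N] [Algebra k N] [Field N'] [Algebra k N']
    (i : N →ₐ[k] N') (w : Place k N') {v v' : Place k N} {r r' : ℤ} (he : 0 < r) (he' : 0 < r')
    (h : ∀ x, w.ord (i x) = r * v.ord x) (h' : ∀ x, w.ord (i x) = r' * v'.ord x) : v = v' := by
  obtain ⟨t, ht⟩ := v.exists_uniformizer
  obtain ⟨t', ht'⟩ := v'.exists_uniformizer
  have h1 : r = r' * v'.ord t := by rw [← h', h, ht, mul_one]
  have h2 : r' = r * v.ord t' := by rw [← h, h', ht', mul_one]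
  have h3 : r = r' := Int.dvd_antisymm he.le he'.le ⟨_, h2⟩ ⟨_, h1⟩
  refine Place.ext' fun x => ?_
  have h4 : r * v.ord x = r * v'.ord x := by
    rw [← h, h', ← h3]
  exact mul_left_cancel₀ he.ne' h4

theorem master [IsAlgClosed k] [CharZero k] (hD : D.Good) (hb : Bl D.n e b) (q : CH D d →+ W)
    (hN : FunF k (d + 1) N) {z : Zp s p N} (hz : IsZ D e b z) (g : N) (hg : g ≠ 0) :
    ∃ S : Finset (Place k N), (∀ v, v.ord g ≠ 0 → TV e b q v z ≠ 0 → v ∈ S) ∧
      ∑ v ∈ S, v.ord g • TV e b q v z = 0 := by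
  obtain ⟨N', _, _, i, P, hfin, hP, -⟩ := exists_lift (b := b) hD z
  have hN' : FunF k (d + 1) N' := funF_finite i hfin hN
  have hz' : IsZ D e b (z.map i) := (isZ_map i).2 hz
  have hOn : On D P := on_lift hD hb hz' hP
  choose qq hqq using fun w : Place k N' => sp_exists w hOn.1
  have hig : i g ≠ 0 := (map_ne_zero i).2 hg
  choose T ee ff hT hj0 hsum using fun v : Place k N => sum_ef i hfin v
  choose hee j hred0 hf0 hff using hj0
  choose res er her0 her using fun w : Place k N' => place_restr i hfin w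
  have hTr : ∀ w, w ∈ T (res w) := fun w => (hT (res w) w).2 ⟨er w, her0 w, her w⟩
  have hTu : ∀ v w, w ∈ T v → res w = v := by
    intro v w hw
    obtain ⟨e1, he1, h3⟩ := (hT v w).1 hw
    exact T8_restr_unique i w (her0 w) he1 (her w) h3
  obtain ⟨F1, hF1⟩ : ∃ F1 : Finset (Place k N'), F1 = (fin_cyc hN' (i g) P).toFinset := ⟨_, rfl⟩
  have hF1m : ∀ w, w ∈ F1 ↔ (w.ord (i g) ≠ 0 ∧ FunF k d (RF w) ∧ ∃ y, Sp w P y ∧ cyc k y ≠ 0) := by
    intro w
    rw [hF1, Set.Finite.mem_toFinset]
    rfl
  obtain ⟨S, hS⟩ : ∃ S : Finset (Place k N), S = F1.image res := ⟨_, rfl⟩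
  have hFS : ∀ v ∈ S, FunF k d (RF v) := by
    intro v hv
    rw [hS, Finset.mem_image] at hv
    obtain ⟨w, hw, rfl⟩ := hv
    exact funF_sub (j (res w) w (hTr w)) (hf0 (res w) w (hTr w)) ((hF1m w).1 hw).2.1
  have hFun : ∀ w ∈ S.biUnion T, FunF k d (RF w) := by
    intro w hw
    obtain ⟨v, hv, hw⟩ := Finset.mem_biUnion.1 hw
    exact funF_finite (j v w hw) (hf0 v w hw) (hFS v hv)
  have hout : ∀ w, w ∉ S.biUnion T → w.ord (i g) ≠ 0 → FunF k d (RF w) → cyc k (qq w) = 0 := by
    intro w hw ho hF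
    by_contra hcon
    apply hw
    have h1 : w ∈ F1 := (hF1m w).2 ⟨ho, hF, qq w, hqq w, hcon⟩
    exact Finset.mem_biUnion.2 ⟨res w, by rw [hS]; exact Finset.mem_image_of_mem _ h1, hTr w⟩
  have hn : 0 < D.n := lt_of_lt_of_le two_pos hD.two
  have hr1 : ∀ h ∈ grp k D.n m, ∑ w ∈ S.biUnion T, w.ord (i g) • cls D d (act D h (qq w)) = 0 := by
    intro h hh
    exact div_rel D d hN' (on_act hD ((mem_grp hn).1 hh) hOn) (i g) hig (S.biUnion T)
      (fun w => act D h (qq w)) (fun w => sp_act (grp_ne hn hh) (hqq w)) hFun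
      (fun w hw ho hF => cyc_act_zero (grp_ne hn hh) (hout w hw ho hF))
  have hmns : ∑ w ∈ S.biUnion T, w.ord (i g) • mns e q (qq w) = 0 := by
    unfold mns
    simp only [Finset.smul_sum]
    rw [Finset.sum_comm]
    refine Finset.sum_eq_zero fun h hh => ?_
    have h1 := congrArg (fun u => chi e h • q u) (hr1 h hh)
    simp only [map_sum, map_zero, smul_zero, Finset.smul_sum, map_zsmul] at h1
    rw [← h1]
    exact Finset.sum_congr rfl fun w _ => smul_comm _ _ _
  have hin : ∀ v, FunF k d (RF v) → ∀ w (_ : w ∈ T v),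
      mns e q (qq w) = ff v w • TV e b q v z := by
    intro v hF w hw
    by_cases hex : ∃ z' : Zp s p (RF v), IsZ D e b z' ∧ SpZ D b v z z'
    · obtain ⟨z1, hz1, hs1⟩ := hex
      have hl := lift_sp hD hb i (j v w hw) (hred0 v w hw) hz1 hs1 hP (hqq w)
      rw [TV_eq hD hb q hF hs1 hz1.u0 hz1.Y0, ← hff v w hw]
      exact TZ_spec hD hb q hz1 (j v w hw) (qq w) (hf0 v w hw) hl
    · have h1 : TV e b q v z = 0 := by
        by_contra hne
        exact hex (TV_ne q hne).2
      rw [h1, smul_zero]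
      by_contra hne
      apply hex
      have he1 := hee v w hw
      refine spZ_exists hD hb i (r := (ee v w : ℤ)) (by exact_mod_cast he1.1) he1.2 hz hP (hqq w) ?_
      intro a ha
      by_contra hcon
      push Not at hcon
      exact hne (mns_grp hD ha q hcon)
  refine ⟨S, ?_, ?_⟩
  · intro v hvg hTV
    have hF := (TV_ne q hTV).1
    have hne : (T v).Nonempty := by
      rw [Finset.nonempty_iff_ne_empty]
      intro h0
      have h1 := hsum v
      rw [h0, Finset.sum_empty] at h1
      exact hfin h1.symm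
    obtain ⟨w, hw⟩ := hne
    have h1 := hin v hF w hw
    have hf1 : ff v w ≠ 0 := by
      rw [← hff v w hw]
      exact hf0 v w hw
    have h2 : mns e q (qq w) ≠ 0 := by
      rw [h1]
      intro h0
      have h3 : ((ff v w : ℕ) : k) • TV e b q v z = 0 := by
        rw [Nat.cast_smul_eq_nsmul]
        exact h0
      rcases smul_eq_zero.1 h3 with h4 | h4
      · exact hf1 (by exact_mod_cast h4)
      · exact hTV h4
    have h3 : cyc k (qq w) ≠ 0 := fun h0 => h2 (mns_cyc hD e q h0)
    have h4 : w.ord (i g) ≠ 0 := by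
      rw [(hee v w hw).2 g]
      have := (hee v w hw).1
      exact mul_ne_zero (by exact_mod_cast this.ne') hvg
    have h5 : w ∈ F1 := (hF1m w).2 ⟨h4, funF_finite (j v w hw) (hf0 v w hw) hF, qq w, hqq w, h3⟩
    rw [hS, ← hTu v w hw]
    exact Finset.mem_image_of_mem _ h5
  · have hdisj : (S : Set (Place k N)).PairwiseDisjoint T := by
      intro v _ v' _ hvv
      rw [Function.onFun, Finset.disjoint_left]
      intro w hw hw'
      exact hvv ((hTu v w hw).symm.trans (hTu v' w hw'))
    rw [Finset.sum_biUnion hdisj] at hmns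
    have hfinal : ∑ v ∈ S, Module.finrank i.fieldRange N' • (v.ord g • TV e b q v z) = 0 := by
      rw [← hmns]
      refine Finset.sum_congr rfl fun v hv => ?_
      rw [← hsum v, Finset.sum_smul]
      refine Finset.sum_congr rfl fun w hw => ?_
      rw [hin v (hFS v hv) w hw, (hee v w hw).2 g, mul_smul, mul_smul, smul_comm _ (v.ord g),
        natCast_zsmul, smul_comm (v.ord g)]
    rw [← Finset.smul_sum] at hfinal
    have h3 : ((Module.finrank i.fieldRange N' : ℕ) : k) • ∑ v ∈ S, v.ord g • TV e b q v z = 0 := by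
      rw [Nat.cast_smul_eq_nsmul]
      exact hfinal
    exact (smul_eq_zero.1 h3).resolve_left (by exact_mod_cast hfin)

end Pool.Agent.LibDV76
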