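import Pool.Agent.LibDV76.P11
import Pool.Agent.LibDV76.P0
import Pool.Agent.LibDV76.Q7
import Pool.Agent.LibDV76.Q13

/-!
More than `c + d` blocks: all classes `LS u` are equal. The trivial character for `c + d < m`.
-/

open scoped Classical
open Polynomial

namespace Pool.Agent.LibDV76

open Pool.Agent.LibBH2
open Pool.Agent.LibCHd (VR RF Red FunF)

variable {k : Type} [Field k] {s m c p d : ℕ} {D : Dat k s m c} {e : Fin m → ℕ} {b : Fin m → Fin p}
  {W : Type} [AddCommGroup W] [Module k W]

private theorem V1_mono {F : Type} [Field F] [Algebra k F] {u : Fin s → F} {h : ℕ → Fin p → F} {r r' : ℕ}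
    (hh : KB D b u h r) (hr : r' ≤ r) : KB D b u h r' := by
  refine ⟨fun i hi t => hh.ker i (lt_of_lt_of_le hi hr) t, fun x hx i hi => ?_⟩
  have h1 := hh.ind (fun j => if j < r' then x j else 0) (fun C => by
    have h2 : ∑ j ∈ Finset.range r', (if j < r' then x j else 0) * h j C =
        ∑ j ∈ Finset.range r, (if j < r' then x j else 0) * h j C :=
      Finset.sum_subset (Finset.range_mono hr) fun j _ hj => by
        rw [if_neg (fun h3 => hj (Finset.mem_range.2 h3)), zero_mul]
    rw [← h2]
    refine Eq.trans (Finset.sum_congr rfl fun j hj => ?_) (hx C)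
    rw [if_pos (Finset.mem_range.1 hj)]) i (lt_of_lt_of_le hi hr)
  rwa [if_pos hi] at h1

/-- for more than `c + d` blocks every `u` is in the locus -/
theorem inS_all {F : Type} [Field F] [Algebra k F] (hp : c + d < p) {u : Fin s → F} (hu : Val D u) :
    InS D b (d + 1) u := by
  obtain ⟨r, h', -, hr, hh, -, -⟩ := exists_kb (D := D) (b := b) u (fun _ _ => 0) (r₀ := 0)
    ⟨fun i hi => absurd hi (Nat.not_lt_zero i), fun x _ i hi => absurd hi (Nat.not_lt_zero i)⟩
  exact ⟨hu, h', V1_mono hh (by omega)⟩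

private theorem V1_ord {N : Type} [Field N] [Algebra k N] {v : Place k N} {lam : N} {ξ ξ' : k}
    (h : v.Zer (lam - algebraMap k N ξ)) (hne : ξ ≠ ξ') : v.ord (lam - algebraMap k N ξ') = 0 := by
  have h1 := (LibCHd.red_iff_val.2 h).sub (LibCHd.red_const v ξ')
  refine h1.ord_eq_zero ?_
  rw [sub_ne_zero]
  exact fun h2 => hne ((algebraMap k (RF v)).injective h2)

private theorem V1_cases {N : Type} [Field N] [Algebra k N] {v : Place k N} {lam : N} {ξ ζ : k}
    (h0 : ∀ c : k, lam - algebraMap k N c ≠ 0)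
    (h : v.ord ((lam - algebraMap k N ξ) / (lam - algebraMap k N ζ)) ≠ 0) :
    v.Zer (lam - algebraMap k N ξ) ∨ v.Zer (lam - algebraMap k N ζ) := by
  by_contra hcon
  push Not at hcon
  rw [v.ord_div _ _ (h0 ξ) (h0 ζ)] at h
  apply h
  by_cases hreg : v.Reg lam
  · rw [Place.ord_eq_zero_of_reg (hreg.sub (v.reg_const ξ)) hcon.1,
      Place.ord_eq_zero_of_reg (hreg.sub (v.reg_const ζ)) hcon.2, sub_self]
  · have hl0 : lam ≠ 0 := fun h1 => hreg (Or.inl h1)
    have hl1 : v.ord lam < 0 := by
      by_contra h1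
      exact hreg (Or.inr (not_lt.1 h1))
    have key : ∀ c : k, v.ord (lam - algebraMap k N c) = v.ord lam := by
      intro c
      by_cases hc : c = 0
      · rw [hc, map_zero, sub_zero]
      · have h2 : v.ord (-algebraMap k N c) = 0 := by rw [Place.ord_neg, v.ord_const c hc]
        have h3 : -algebraMap k N c ≠ 0 := neg_ne_zero.2 ((_root_.map_ne_zero _).2 hc)
        rw [sub_eq_add_neg]
        exact (v.ord_add_of_lt hl0 h3 (by rw [h2]; exact hl1)).2
    rw [key, key, sub_self]

/-- for more than `c + d` blocks the class does not depend on `u` -/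
theorem LS_all [IsAlgClosed k] [CharZero k] (hD : D.Good) (hb : Bl D.n e b) (q : CH D d →+ W) (hp : c + d < p)
    {u u' : Fin s → k} (hu : Val D u) (hu' : Val D u') : LS e b q u = LS e b q u' := by
  obtain ⟨K, _, _, i, lam, hrat⟩ := LibCW77.rat1_exists (k := k) k
  have hF0 : FunF k 0 k := Pool.Agent.LibHL77.funF_zero.2 inferInstance
  have hK : FunF k (0 + 1) K := LibCW77.rat1_funF hrat hF0
  have hl0 : ∀ c : k, lam - algebraMap k K c ≠ 0 := by
    intro c
    rw [sub_ne_zero, ← i.commutes c]
    exact LibCW77.rat1_ne hrat _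
  obtain ⟨v0, -, -, -, hv0o, hv0u⟩ := place_xi hrat (0 : k)
  obtain ⟨v1, -, -, -, hv1o, hv1u⟩ := place_xi hrat (1 : k)
  have hv0Z : v0.Zer (lam - algebraMap k K 0) := Or.inr (by rw [hv0o]; exact one_pos)
  have hv1Z : v1.Zer (lam - algebraMap k K 1) := Or.inr (by rw [hv1o]; exact one_pos)
  have hne : v1 ≠ v0 := by
    intro h
    have h1 := V1_ord (v := v0) hv0Z (zero_ne_one (α := k))
    rw [← h, hv1o] at h1
    exact one_ne_zero h1
  set g : K := (lam - algebraMap k K 0) / (lam - algebraMap k K 1) with hg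
  have hg0 : g ≠ 0 := div_ne_zero (hl0 0) (hl0 1)
  have hg1 : v0.ord g = 1 := by
    rw [hg, v0.ord_div _ _ (hl0 0) (hl0 1), hv0o, V1_ord hv0Z (zero_ne_one (α := k)), sub_zero]
  have hg2 : v1.ord g = -1 := by
    rw [hg, v1.ord_div _ _ (hl0 0) (hl0 1), hv1o, V1_ord hv1Z (one_ne_zero (α := k)), zero_sub]
  have hR0 : Red v0 lam (algebraMap k (RF v0) 0) := LibCHd.red_iff_val.2 hv0Z
  have hR1 : Red v1 lam (algebraMap k (RF v1) 1) := LibCHd.red_iff_val.2 hv1Z
  set w : Fin s → K := fun l => algebraMap k K (u l) * (1 - lam) + algebraMap k K (u' l) * lam with hw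
  have hred : ∀ (v : Place k K) (ξ : k), Red v lam (algebraMap k (RF v) ξ) → ∀ l,
      Red v (w l) (algebraMap k (RF v) (u l * (1 - ξ) + u' l * ξ)) := by
    intro v ξ h l
    have h1 := ((LibCHd.red_const v (u l)).mul ((LibCHd.red_const v 1).sub h)).add
      ((LibCHd.red_const v (u' l)).mul h)
    rw [map_add, map_mul, map_mul, map_sub]
    rw [map_one] at h1 ⊢
    rw [map_one] at h1
    exact h1
  have hw0 : ∀ l, u l ≠ 0 → w l ≠ 0 := by
    intro l hl h0
    have h1 := hred v0 0 hR0 l
    rw [h0] at h1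
    have h2 := h1.unique (Pool.Agent.LibCHd.red_zero v0)
    have h3 := (map_eq_zero (algebraMap k (RF v0))).1 h2
    rw [sub_zero, mul_one, mul_zero, add_zero] at h3
    exact hl h3
  have hwV : Val D w := by
    intro a
    obtain ⟨l, hl, hl'⟩ := hu a
    exact ⟨l, hl, hw0 l hl'⟩
  have hwS : InS D b (d + 1) w := inS_all hp hwV
  have hrel := LS_rel hD hb q hK hwS hg0 {v0, v1} (fun v hv => ?_) (fun v => if v = v0 then u else u') ?_
  · rw [Finset.sum_pair hne.symm, if_pos rfl, if_neg hne, hg1, hg2, one_smul, neg_smul, one_smul,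
      ← sub_eq_add_neg, sub_eq_zero] at hrel
    exact hrel
  · have hi0 : ∀ x, v.ord (i x) = 0 := by
      intro x
      by_cases hx : x = 0
      · rw [hx, map_zero, v.ord_zero]
      · rw [show i x = algebraMap k K x from i.commutes x, v.ord_const x hx]
    rcases V1_cases hl0 hv with h | h
    · rw [hv0u v hi0 (h.resolve_left (hl0 0))]
      exact Finset.mem_insert_self _ _
    · rw [hv1u v hi0 (h.resolve_left (hl0 1))]
      exact Finset.mem_insert_of_mem (Finset.mem_singleton_self _)
  · intro v hv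
    rw [Finset.mem_insert, Finset.mem_singleton] at hv
    left
    rcases hv with rfl | rfl
    · rw [if_pos rfl]
      refine ⟨hu, fun _ => 1, fun _ => one_ne_zero, fun l => ?_⟩
      have h1 := hred _ 0 hR0 l
      rw [sub_zero, mul_one, mul_zero, add_zero] at h1
      rwa [one_mul]
    · rw [if_neg hne]
      refine ⟨hu', fun _ => 1, fun _ => one_ne_zero, fun l => ?_⟩
      have h1 := hred _ 1 hR1 l
      rw [sub_self, mul_zero, mul_one, zero_add] at h1
      rwa [one_mul]

private theorem V1_bl {n : ℕ} : Bl n (fun _ : Fin m => 0) (id : Fin m → Fin m) where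
  surj := Function.surjective_id
  sum := fun C => by simp
  sgl := fun a _ a' h => h

private theorem V1_not {e : Fin m → ℕ} {p : ℕ} {b : Fin m → Fin p} (q : CH D d →+ W) {M : Type} [Field M]
    [Algebra k M] (u : Fin s → M) : TZ e b q (⟨u, fun _ => 0⟩ : Zp s p M) = 0 := by
  apply TZ_not
  intro h
  obtain ⟨C, hC⟩ := h.Y0
  exact hC rfl

/-- one step: the group `a` -/
private theorem V1_step [IsAlgClosed k] [CharZero k] (hD : D.Good) (q : CH D d →+ W) (hm : c + d < m)
    {L : AddSubgroup W} {f : ℕ} (hf : 0 < f) (hlow : Low (fun _ => 0) (id : Fin m → Fin m) q L f) {F M : Type}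
    [Field F] [Algebra k F] [Field M] [Algebra k M] (hF : Algebra.trdeg k F = f) (hM : FunF k d M) (φ : F →ₐ[k] M)
    (u u' : Fin s → F) (a : Fin m) (hu : ∀ l, D.γ l ≠ a → u' l = u l) (h1 : ∃ l, D.γ l = a ∧ u l ≠ 0)
    (h2 : ∃ l, D.γ l = a ∧ u' l ≠ 0) (Y : Fin m → M) :
    ∃ Y' : Fin m → M, TZ (fun _ => 0) (id : Fin m → Fin m) q ⟨fun l => φ (u l), Y⟩ -
      TZ (fun _ => 0) (id : Fin m → Fin m) q ⟨fun l => φ (u' l), Y'⟩ ∈ L := by
  have hb : Bl D.n (fun _ : Fin m => 0) (id : Fin m → Fin m) := V1_bl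
  by_cases hz : IsZ D (fun _ => 0) (id : Fin m → Fin m) (⟨fun l => φ (u l), Y⟩ : Zp s m M)
  · obtain ⟨r, h0, hr, hh, h0a⟩ := exists_kb0 (D := D) (b := (id : Fin m → Fin m)) u a
    obtain ⟨r', h', hrr, _, hh', hz0, hsp⟩ := exists_kb (D := D) (b := (id : Fin m → Fin m)) u h0 hh
    obtain ⟨η, hη⟩ := hsp M inferInstance inferInstance φ Y hz.rel
    obtain ⟨η', hη'⟩ := projf' hD hb q hlow hF hM φ u h' (r₀ := r) (r := r') (by omega) hrr hh' η
    rw [hz0 M inferInstance inferInstance φ η', ← hη] at hη'
    refine ⟨fun C => ∑ i ∈ Finset.range r, η' i * φ (h0 i C), ?_⟩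
    have hrepl := TZ_repl hD hb q (M := M) a (fun a' h => h) (dvd_zero _) (u := fun l => φ (u l))
      (u' := fun l => φ (u' l)) (fun l hl => by rw [hu l hl])
      (by obtain ⟨l, hl, hl'⟩ := h1; exact ⟨l, hl, by simpa using hl'⟩)
      (by obtain ⟨l, hl, hl'⟩ := h2; exact ⟨l, hl, by simpa using hl'⟩)
      (Y := fun C => ∑ i ∈ Finset.range r, η' i * φ (h0 i C))
      (Finset.sum_eq_zero fun i hi => by
        rw [show h0 i (id a) = 0 from h0a i (Finset.mem_range.1 hi), map_zero, mul_zero])
    rw [hrepl]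
    exact hη'
  · refine ⟨fun _ => 0, ?_⟩
    rw [TZ_not q hz, V1_not, sub_zero]
    exact L.zero_mem

/-- the trivial character -/
theorem TZ_triv' [IsAlgClosed k] [CharZero k] (hD : D.Good) (q : CH D d →+ W) (hm : c + d < m) :
    ∃ w₀ : W, ∀ (M : Type) (_ : Field M) (_ : Algebra k M) (z : Zp s m M), FunF k d M →
      TZ (fun _ => 0) (id : Fin m → Fin m) q z ∈ AddSubgroup.zmultiples w₀ := by
  have hb : Bl D.n (fun _ : Fin m => 0) (id : Fin m → Fin m) := V1_bl
  set w₀ : W := LS (fun _ => 0) (id : Fin m → Fin m) q (fun _ => (1 : k)) with hw₀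
  refine ⟨w₀, ?_⟩
  set L := AddSubgroup.zmultiples w₀ with hL
  have hone : Val D (fun _ : Fin s => (1 : k)) := by
    intro a
    obtain ⟨l, hl⟩ := hD.surj a
    exact ⟨l, hl, one_ne_zero⟩
  -- constant `u`
  have hconst : ∀ (M : Type) (_ : Field M) (_ : Algebra k M) (u : Fin s → k) (Y : Fin m → M), FunF k d M →
      TZ (fun _ => 0) (id : Fin m → Fin m) q (⟨fun l => algebraMap k M (u l), Y⟩ : Zp s m M) ∈ L := by
    intro M _ _ u Y hM
    by_cases hz : IsZ D (fun _ => 0) (id : Fin m → Fin m) (⟨fun l => algebraMap k M (u l), Y⟩ : Zp s m M)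
    · have hu : Val D u := by
        intro a
        obtain ⟨l, hl, hne⟩ := hz.u0 a
        refine ⟨l, hl, fun h0 => hne ?_⟩
        change algebraMap k M (u l) = 0
        rw [h0, map_zero]
      have h1 := LS_const hD hb q hM u Y
      rwa [LS_all hD hb q hm hu hone] at h1
    · rw [TZ_not q hz]
      exact L.zero_mem
  -- induction on the transcendence degree
  have hlow : ∀ f : ℕ, Low (D := D) (fun _ => 0) (id : Fin m → Fin m) q L f := by
    intro f
    induction f with
    | zero =>
      intro M' _ _ z _ _ ht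
      simp at ht
    | succ f ih =>
      intro M _ _ z hM hz ht
      obtain ⟨f', hf'⟩ := Cardinal.lt_aleph0.1 (lt_trans ht (Cardinal.natCast_lt_aleph0 (n := f + 1)))
      have hff : f' ≤ f := by
        rw [hf'] at ht
        have : f' < f + 1 := by exact_mod_cast ht
        omega
      have ih' : Low (D := D) (fun _ => 0) (id : Fin m → Fin m) q L f' := by
        intro M' _ _ z' hM' hz' hlt
        refine ih M' _ _ z' hM' hz' (lt_of_lt_of_le hlt ?_)
        exact_mod_cast hff
      obtain ⟨u, Y, hu, hzeq⟩ := exists_norm hb.surj hz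
      rw [← TZ_zeq hD hb q hzeq]
      rcases Nat.eq_zero_or_pos f' with hf0 | hfpos
      · subst hf0
        have hF := hf'
        rw [Nat.cast_zero, trdeg_eq_zero_iff] at hF
        have : Algebra.IsIntegral k (bf D (id : Fin m → Fin m) z) := Algebra.isAlgebraic_iff_isIntegral.1 hF
        have hsurj : Function.Surjective (algebraMap k (bf D (id : Fin m → Fin m) z)) :=
          (IsAlgClosed.algebraMap_bijective_of_isIntegral (k := k) (K := bf D (id : Fin m → Fin m) z)).2
        choose g hg using hsurj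
        have h1 : (⟨fun l => (u l : M), Y⟩ : Zp s m M) = ⟨fun l => algebraMap k M (g (u l)), Y⟩ := by
          congr 1
          funext l
          have h2 := congrArg (fun x : bf D (id : Fin m → Fin m) z => (x : M)) (hg (u l))
          exact h2.symm
        rw [h1]
        exact hconst M _ _ _ Y hM
      let φ : bf D (id : Fin m → Fin m) z →ₐ[k] M := (bf D (id : Fin m → Fin m) z).val
      have key : ∀ T : Finset (Fin m), ∃ Y' : Fin m → M,
          TZ (fun _ => 0) (id : Fin m → Fin m) q ⟨fun l => φ (u l), Y⟩ -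
            TZ (fun _ => 0) (id : Fin m → Fin m) q
              ⟨fun l => φ ((fun l => if D.γ l ∈ T then 1 else u l) l), Y'⟩ ∈ L := by
        intro T
        induction T using Finset.induction_on with
        | empty => exact ⟨Y, by simp⟩
        | insert a T ha ihT =>
          obtain ⟨Y₁, h₁⟩ := ihT
          obtain ⟨Y₂, h₂⟩ := V1_step hD q hm hfpos ih' hf' hM φ (fun l => if D.γ l ∈ T then 1 else u l)
            (fun l => if D.γ l ∈ insert a T then 1 else u l) a
            (fun l hl => by simp [Finset.mem_insert, hl])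
            (by
              obtain ⟨l, hl, hl'⟩ := hu a
              refine ⟨l, hl, ?_⟩
              rw [hl, if_neg ha]
              exact hl')
            (by
              obtain ⟨l, hl, hl'⟩ := hu a
              refine ⟨l, hl, ?_⟩
              rw [hl, if_pos (Finset.mem_insert_self a T)]
              exact one_ne_zero) Y₁
          refine ⟨Y₂, ?_⟩
          have := L.add_mem h₁ h₂
          rwa [sub_add_sub_cancel] at this
      obtain ⟨Y', hY'⟩ := key Finset.univ
      have he : (fun l : Fin s => φ ((fun l => if D.γ l ∈ (Finset.univ : Finset (Fin m)) then 1 else u l) l))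
          = fun _ => algebraMap k M 1 := by
        funext l
        simp
      rw [he] at hY'
      have h4 := hconst M inferInstance inferInstance (fun _ => 1) Y' hM
      have h5 := L.add_mem hY' h4
      rw [sub_add_cancel] at h5
      exact h5
  intro M _ _ z hM
  by_cases hz : IsZ D (fun _ => 0) (id : Fin m → Fin m) z
  · refine hlow (d + 1) M inferInstance inferInstance z hM hz ?_
    have h1 : Algebra.trdeg k (bf D (id : Fin m → Fin m) z) ≤ Algebra.trdeg k M :=
      trdeg_le_of_injective (bf D (id : Fin m → Fin m) z).val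
        (bf D (id : Fin m → Fin m) z).val.injective
    rw [hM.trdeg] at h1
    refine lt_of_le_of_lt h1 ?_
    exact_mod_cast Nat.lt_succ_self d
  · rw [TZ_not q hz]
    exact L.zero_mem

end Pool.Agent.LibDV76
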